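import Mathlib

/-!
# Definitions for MP_e9d30c_pr (square add/remove chain)

Edges of the grid: `(false,i,j)` is the horizontal edge from vertex `(i,j)` to `(i+1,j)`, `(true,i,j)` the vertical
edge from `(i,j)` to `(i,j+1)`.  The unit square (face) `(i,j)` has the corners `(i,j),(i+1,j),(i,j+1),(i+1,j+1)`.
So `(true,i,j)` separates the faces `(i-1,j)` and `(i,j)`, and `(false,i,j)` separates `(i,j-1)` and `(i,j)`.
-/

set_option autoImplicit false

namespace Pool.Agent.H40.SQ

noncomputable section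

abbrev Edge := Bool × ℤ × ℤ

/-- The four edges of the unit square with lower left corner `c`. -/
def sq (c : ℤ × ℤ) : Finset Edge :=
  {(false, c.1, c.2), (false, c.1, c.2 + 1), (true, c.1, c.2), (true, c.1 + 1, c.2)}

/-- The faces of the `n × n` grid. -/
def box (n : ℕ) : Finset (ℤ × ℤ) := Finset.Ico 0 (n : ℤ) ×ˢ Finset.Ico 0 (n : ℤ)

/-- The edges of the `n × n` grid. -/
def E (n : ℕ) : Finset Edge := (box n).biUnion sq

def ind (γ : Finset Edge) (e : Edge) : ℤ := if e ∈ γ then 1 else 0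

/-- Vertex condition: at every vertex `(i,j)` the number of horizontal edges equals the number of vertical edges. -/
def VC (γ : Finset Edge) : Prop :=
  ∀ i j : ℤ, ind γ (false, i - 1, j) + ind γ (false, i, j)
    = ind γ (true, i, j - 1) + ind γ (true, i, j)

open Classical in
/-- Configurations with the vertex condition. -/
def Om (n : ℕ) : Finset (Finset Edge) := (E n).powerset.filter VC

theorem mem_Om {n : ℕ} {γ : Finset Edge} : γ ∈ Om n ↔ γ ⊆ E n ∧ VC γ := by
  classical
  unfold Om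
  rw [Finset.mem_filter, Finset.mem_powerset]

def sgn (i j : ℤ) : ℤ := if (i + j) % 2 = 0 then 1 else -1

/-- The height of the face `(i,j)`: the signed number of vertical edges of `γ` to the left in the row `j`. -/
def F (γ : Finset Edge) (i j : ℤ) : ℤ :=
  ∑ k ∈ Finset.Icc 0 i, sgn k j * ind γ (true, k, j)

/-- Admissible slopes. -/
def Val0 (f : ℤ → ℤ → ℤ) : Prop :=
  ∀ i j : ℤ, (f i j - f (i - 1) j = 0 ∨ f i j - f (i - 1) j = sgn i j) ∧
    (f i j - f i (j - 1) = 0 ∨ f i j - f i (j - 1) = sgn i j)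

/-- Admissible height functions of the `n × n` grid. -/
def Val (n : ℕ) (f : ℤ → ℤ → ℤ) : Prop :=
  Val0 f ∧ ∀ i j : ℤ, (i, j) ∉ box n → f i j = 0

/-- The configuration of a height function: all edges between faces of different height. -/
def cfg (n : ℕ) (f : ℤ → ℤ → ℤ) : Finset Edge :=
  (E n).filter (fun e => (e.1 = true ∧ f e.2.1 e.2.2 ≠ f (e.2.1 - 1) e.2.2) ∨
    (e.1 = false ∧ f e.2.1 e.2.2 ≠ f e.2.1 (e.2.2 - 1)))

/-- The move at the square `c`. -/
def flip (c : ℤ × ℤ) (γ : Finset Edge) : Finset Edge :=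
  if sq c ∩ γ = ∅ then γ ∪ sq c else if sq c ⊆ γ then γ \ sq c else γ

/-- The probability of accepting the move at `c` (relevant only if the move is possible). -/
def rate (lam : ℝ) (c : ℤ × ℤ) (γ : Finset Edge) : ℝ :=
  if sq c ∩ γ = ∅ then lam else 1

/-- The transition probabilities of the problem. -/
def PK (lam : ℝ) (n : ℕ) (γ γ' : Finset Edge) : ℝ :=
  ∑ c ∈ box n, (1 / (n : ℝ) ^ 2) *
    (if sq c ∩ γ = ∅ then
        lam * (if γ' = γ ∪ sq c then (1 : ℝ) else 0) + (1 - lam) * (if γ' = γ then (1 : ℝ) else 0)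
      else if sq c ⊆ γ then (if γ' = γ \ sq c then (1 : ℝ) else 0)
      else (if γ' = γ then (1 : ℝ) else 0))

/-- The chain as an operator on functions. -/
def TP (lam : ℝ) (n : ℕ) : (Finset Edge → ℝ) →ₗ[ℝ] (Finset Edge → ℝ) where
  toFun g := fun γ => g γ + (1 / (n : ℝ) ^ 2) * ∑ c ∈ box n, rate lam c γ * (g (flip c γ) - g γ)
  map_add' g h := by
    funext γ
    simp only [Pi.add_apply]
    have : ∀ c ∈ box n, rate lam c γ * (g (flip c γ) + h (flip c γ) - (g γ + h γ)) =
        rate lam c γ * (g (flip c γ) - g γ) + rate lam c γ * (h (flip c γ) - h γ) := by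
      intro c _; ring
    rw [Finset.sum_congr rfl this, Finset.sum_add_distrib]
    ring
  map_smul' a g := by
    funext γ
    simp only [Pi.smul_apply, smul_eq_mul, RingHom.id_apply]
    have : ∀ c ∈ box n, rate lam c γ * (a * g (flip c γ) - a * g γ) =
        a * (rate lam c γ * (g (flip c γ) - g γ)) := by
      intro c _; ring
    rw [Finset.sum_congr rfl this, ← Finset.mul_sum]
    ring

/-- The lazy chain `(I + P) / 2`. -/
def TL (lam : ℝ) (n : ℕ) : (Finset Edge → ℝ) →ₗ[ℝ] (Finset Edge → ℝ) :=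
  (1 / 2 : ℝ) • (LinearMap.id + TP lam n)

/-- The endpoints of an edge. -/
def ends (e : Edge) : Finset (ℤ × ℤ) :=
  if e.1 then {(e.2.1, e.2.2), (e.2.1, e.2.2 + 1)} else {(e.2.1, e.2.2), (e.2.1 + 1, e.2.2)}

/-- Two edges touch if they have a common endpoint (in particular `Tch e e`). -/
def Tch (a b : Edge) : Prop := ∃ v ∈ ends a, v ∈ ends b

/-- Connected sets of edges. -/
def Conn (κ : Finset Edge) : Prop :=
  ∀ A : Finset Edge, A ⊆ κ → A.Nonempty → A ≠ κ → ∃ a ∈ A, ∃ b ∈ κ \ A, Tch a b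

open Classical in
/-- Polymers with at most `ℓ` edges. -/
def Pol (n ℓ : ℕ) : Finset (Finset Edge) :=
  (E n).powerset.filter (fun κ => κ.Nonempty ∧ Conn κ ∧ VC κ ∧ κ.card ≤ ℓ)

theorem mem_Pol {n ℓ : ℕ} {κ : Finset Edge} :
    κ ∈ Pol n ℓ ↔ κ ⊆ E n ∧ κ.Nonempty ∧ Conn κ ∧ VC κ ∧ κ.card ≤ ℓ := by
  classical
  unfold Pol
  rw [Finset.mem_filter, Finset.mem_powerset]

/-- Incompatibility of polymers: they touch. -/
def inc (κ κ' : Finset Edge) : Prop := ∃ a ∈ κ, ∃ b ∈ κ', Tch a b

/-! ### Abstract polymer gas -/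

section gas
variable {ι : Type} [DecidableEq ι]

def Comp (r : ι → ι → Prop) (X : Finset ι) : Prop := ∀ a ∈ X, ∀ b ∈ X, a ≠ b → ¬ r a b

open Classical in
/-- Compatible sets of polymers. -/
def St (P : Finset ι) (r : ι → ι → Prop) : Finset (Finset ι) := P.powerset.filter (Comp r)

omit [DecidableEq ι] in
theorem mem_St {P : Finset ι} {r : ι → ι → Prop} {X : Finset ι} : X ∈ St P r ↔ X ⊆ P ∧ Comp r X := by
  classical
  unfold St
  rw [Finset.mem_filter, Finset.mem_powerset]

def wt (w : ι → ℝ) (X : Finset ι) : ℝ := ∏ κ ∈ X, w κ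

open Classical in
/-- Polymers which can be added. -/
def Add (P : Finset ι) (r : ι → ι → Prop) (X : Finset ι) : Finset ι :=
  P.filter (fun κ => κ ∉ X ∧ Comp r (insert κ X))

theorem mem_Add {P : Finset ι} {r : ι → ι → Prop} {X : Finset ι} {κ : ι} :
    κ ∈ Add P r X ↔ κ ∈ P ∧ κ ∉ X ∧ Comp r (insert κ X) := by
  classical
  unfold Add
  rw [Finset.mem_filter]

/-- The polymer dynamics: remove each polymer at rate `ε`, add `κ` at rate `ε w κ`. -/
def opK (P : Finset ι) (r : ι → ι → Prop) (w : ι → ℝ) (ε : ℝ) :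
    (Finset ι → ℝ) →ₗ[ℝ] (Finset ι → ℝ) where
  toFun g := fun X => g X + ε * (∑ κ ∈ X, (g (X.erase κ) - g X)
    + ∑ κ ∈ Add P r X, w κ * (g (insert κ X) - g X))
  map_add' g h := by
    funext X
    simp only [Pi.add_apply]
    have h1 : ∀ κ ∈ X, (g (X.erase κ) + h (X.erase κ) - (g X + h X)) =
        (g (X.erase κ) - g X) + (h (X.erase κ) - h X) := by
      intro κ _; ring
    have h2 : ∀ κ ∈ Add P r X, w κ * (g (insert κ X) + h (insert κ X) - (g X + h X)) =
        w κ * (g (insert κ X) - g X) + w κ * (h (insert κ X) - h X) := by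
      intro κ _; ring
    rw [Finset.sum_congr rfl h1, Finset.sum_add_distrib, Finset.sum_congr rfl h2, Finset.sum_add_distrib]
    ring
  map_smul' a g := by
    funext X
    simp only [Pi.smul_apply, smul_eq_mul, RingHom.id_apply]
    have h1 : ∀ κ ∈ X, (a * g (X.erase κ) - a * g X) = a * (g (X.erase κ) - g X) := by
      intro κ _; ring
    have h2 : ∀ κ ∈ Add P r X, w κ * (a * g (insert κ X) - a * g X) =
        a * (w κ * (g (insert κ X) - g X)) := by
      intro κ _; ring
    rw [Finset.sum_congr rfl h1, ← Finset.mul_sum, Finset.sum_congr rfl h2, ← Finset.mul_sum]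
    ring

end gas

/-! ### Union of polymers -/

/-- The configuration of a set of polymers. -/
def U (X : Finset (Finset Edge)) : Finset Edge := X.biUnion id

/-! ### Sweeping functions -/

/-- The height function of maximal negative slope along rows. -/
def Lin (c i j : ℤ) : ℤ := (c - i + (c + j) % 2 - (i + j) % 2) / 2

/-- The sweeping functions: `Lin (c+1)` on the rows below `r` and on the faces `(i,r)`, `i ≥ b`; `Lin c` elsewhere. -/
def pf (c r b i j : ℤ) : ℤ := if j < r ∨ (j = r ∧ b ≤ i) then Lin (c + 1) i j else Lin c i j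

def lo (X Y : Finset Edge) (i j : ℤ) : ℤ := min (F X i j) (F Y i j)
def hi (X Y : Finset Edge) (i j : ℤ) : ℤ := max (F X i j) (F Y i j)

/-- The heights on the path from `lo` to `hi`. -/
def stf (X Y : Finset Edge) (c r b i j : ℤ) : ℤ := min (max (lo X Y i j) (pf c r b i j)) (hi X Y i j)

/-- The configurations on the path. -/
def stc (n : ℕ) (X Y : Finset Edge) (c r b : ℤ) : Finset Edge := cfg n (stf X Y c r b)

/-- Good sets of polymers: in every window of `ℓ+1` rows the heights agree with `Lin c` on at most `M` faces. -/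
def Good (n ℓ M : ℕ) (γ : Finset Edge) : Prop :=
  ∀ c r0 : ℤ, ∑ j ∈ Finset.Ico r0 (r0 + ℓ + 1) ∩ Finset.Ico 0 (n : ℤ),
    ((Finset.Ico 0 (n : ℤ)).filter (fun i => F γ i j = Lin c i j)).card ≤ M

/-- `X = Y ∪ κ` with `κ` a configuration of constant sign, disjoint from `Y`. -/
structure Pair (n : ℕ) (X Y κ : Finset Edge) : Prop where
  hX : X ∈ Om n
  hY : Y ∈ Om n
  hκ : κ ∈ Om n
  disj : Disjoint Y κ
  eq : X = Y ∪ κ
  sign : (∀ i j, F κ i j = 0 ∨ F κ i j = 1) ∨ (∀ i j, F κ i j = 0 ∨ F κ i j = -1)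

/-- Decoding data: in row `j`, on the side `i < b` (`s = false`) or `b ≤ i` (`s = true`), the number of faces inside `κ`
whose lower height is one below the sweeping function. -/
def kd (n : ℕ) (X Y κ : Finset Edge) (c r b j : ℤ) (s : Bool) : ℕ :=
  ((Finset.Ico 0 (n : ℤ)).filter (fun i => ((s = true ∧ b ≤ i) ∨ (s = false ∧ i < b)) ∧
    F κ i j ≠ 0 ∧ lo X Y i j = pf c r b i j - 1)).card

/-- Raise the height of the face `c` if possible. -/
def up (c : ℤ × ℤ) (γ : Finset Edge) : Finset Edge :=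
  if sgn c.1 c.2 = 1 then (if sq c ∩ γ = ∅ then γ ∪ sq c else γ)
  else (if sq c ⊆ γ then γ \ sq c else γ)

/-- Lower the height of the face `c` if possible. -/
def dn (c : ℤ × ℤ) (γ : Finset Edge) : Finset Edge :=
  if sgn c.1 c.2 = 1 then (if sq c ⊆ γ then γ \ sq c else γ)
  else (if sq c ∩ γ = ∅ then γ ∪ sq c else γ)

/-- The order of height functions. -/
def Le (γ γ' : Finset Edge) : Prop := ∀ i j : ℤ, F γ i j ≤ F γ' i j

/-- The sum of all heights. -/
def Phi (n : ℕ) (γ : Finset Edge) : ℝ := ∑ x ∈ box n, (F γ x.1 x.2 : ℝ)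

/-- Unnormalised weight, partition function and mean. -/
def Zn (q : ℝ) (n : ℕ) : ℝ := ∑ γ ∈ Om n, q ^ γ.card

def mean (q : ℝ) (n : ℕ) (g : Finset Edge → ℝ) : ℝ := (∑ γ ∈ Om n, q ^ γ.card * g γ) / Zn q n

/-- Law of the chain after `t` steps from `γ₀`. -/
def law (lam : ℝ) (n : ℕ) (γ₀ : Finset Edge) : ℕ → Finset Edge → ℝ
  | 0 => fun γ => if γ = γ₀ then 1 else 0
  | t + 1 => fun γ' => ∑ γ ∈ (E n).powerset, law lam n γ₀ t γ * PK lam n γ γ'

end

end Pool.Agent.H40.SQ
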