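import Mathlib
import Pool.Agent.H40.SQ.Defs

/-!
# ACen: `C(j, j/2) / 2^j ≤ 1 / sqrt(j+1)`

Equivalently `(j+1) * C(j, j/2)^2 ≤ 4^j`.  Even case `j = 2m`: `(2m+1) C(2m,m)^2 ≤ 4^(2m)`: induction,
`C(2m+2,m+1) = C(2m,m) * 2(2m+1)/(m+1)` (`Nat.succ_mul_centralBinom_succ`), so the quotient of the left sides is
`(2m+3) * 4 (2m+1)^2 / ((2m+1)(m+1)^2) = 4(2m+3)(2m+1)/(m+1)^2 = 4 (4(m+1)^2 - 1)/(m+1)^2 ≤ 16`.  Odd case `j = 2m+1`:
`C(2m+1,m) = C(2m+2,m+1)/2`, so `C(2m+1,m)^2 (2m+2) ≤ C(2m+2,m+1)^2 (2m+3) / 4 ≤ 4^(2m+2)/4 = 4^(2m+1)`.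
-/

/-!
Second statement: the coefficients of `((1+z)/2)^j (1-z)` have absolute sum `2 C(j,j/2)/2^j`: for `k ≤ j+1` (with
`C(j,-1) = C(j,j+1) = 0`) `∑_{k=0}^{j+1} |C(j,k) - C(j,k-1)| = 2 C(j, j/2)`, since `C(j,·)` is increasing up to `j/2` and
then decreasing (telescoping; `Nat.choose_le_succ_of_lt_half_left`, symmetry).  We only need `≤`.
-/

set_option autoImplicit false

namespace Pool.Agent.H40.SQ

noncomputable section

theorem central_le (j : ℕ) : ((j : ℝ) + 1) * ((j.choose (j / 2) : ℕ) : ℝ) ^ 2 ≤ 4 ^ j := by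
  have hev : ∀ m : ℕ, (2 * (m : ℝ) + 1) * ((m.centralBinom : ℕ) : ℝ) ^ 2 ≤ 4 ^ (2 * m) := by
    intro m
    induction m with
    | zero => simp
    | succ m ih =>
      have h1 : ((m : ℝ) + 1) * (((m + 1).centralBinom : ℕ) : ℝ) =
          2 * (2 * (m : ℝ) + 1) * ((m.centralBinom : ℕ) : ℝ) := by
        exact_mod_cast Nat.succ_mul_centralBinom_succ m
      set u : ℝ := (((m + 1).centralBinom : ℕ) : ℝ) with hu
      set v : ℝ := ((m.centralBinom : ℕ) : ℝ) with hv
      have hm : (0 : ℝ) < (m : ℝ) + 1 := by positivity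
      have h2 : ((m : ℝ) + 1) ^ 2 * u ^ 2 = 4 * (2 * (m : ℝ) + 1) ^ 2 * v ^ 2 := by
        have h3 : (((m : ℝ) + 1) * u) ^ 2 = (2 * (2 * (m : ℝ) + 1) * v) ^ 2 := by rw [h1]
        nlinarith [h3]
      have h4 : (4 : ℝ) ^ (2 * (m + 1)) = 16 * 4 ^ (2 * m) := by
        rw [mul_add, pow_add]
        norm_num
        ring
      rw [h4]
      push_cast
      have h5 : ((m : ℝ) + 1) ^ 2 * ((2 * ((m : ℝ) + 1) + 1) * u ^ 2) ≤
          ((m : ℝ) + 1) ^ 2 * (16 * 4 ^ (2 * m)) := by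
        calc ((m : ℝ) + 1) ^ 2 * ((2 * ((m : ℝ) + 1) + 1) * u ^ 2)
            = (2 * (m : ℝ) + 3) * (((m : ℝ) + 1) ^ 2 * u ^ 2) := by ring
          _ = (4 * (2 * (m : ℝ) + 3) * (2 * (m : ℝ) + 1)) * ((2 * (m : ℝ) + 1) * v ^ 2) := by
              rw [h2]
              ring
          _ ≤ (4 * (2 * (m : ℝ) + 3) * (2 * (m : ℝ) + 1)) * 4 ^ (2 * m) :=
              mul_le_mul_of_nonneg_left ih (by positivity)
          _ ≤ (16 * ((m : ℝ) + 1) ^ 2) * 4 ^ (2 * m) := by
              refine mul_le_mul_of_nonneg_right ?_ (by positivity)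
              nlinarith
          _ = _ := by ring
      exact le_of_mul_le_mul_left h5 (by positivity)
  rcases Nat.even_or_odd' j with ⟨m, hm | hm⟩
  · subst hm
    have h1 : 2 * m / 2 = m := by omega
    rw [h1]
    have h2 := hev m
    rw [Nat.centralBinom_eq_two_mul_choose] at h2
    push_cast
    exact h2
  · subst hm
    have h1 : (2 * m + 1) / 2 = m := by omega
    rw [h1]
    have h2 := hev (m + 1)
    rw [Nat.centralBinom_eq_two_mul_choose] at h2
    have h3 : (2 * (m + 1)).choose (m + 1) = 2 * (2 * m + 1).choose m := by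
      have h4 : 2 * (m + 1) = (2 * m + 1) + 1 := by ring
      rw [h4, Nat.choose_succ_succ, Nat.choose_symm_half m]
      ring
    rw [h3] at h2
    push_cast at h2 ⊢
    have h5 : (4 : ℝ) ^ (2 * (m + 1)) = 4 * 4 ^ (2 * m + 1) := by
      rw [show 2 * (m + 1) = (2 * m + 1) + 1 by ring, pow_succ]
      ring
    rw [h5] at h2
    have h6 : (0 : ℝ) ≤ (((2 * m + 1).choose m : ℕ) : ℝ) ^ 2 := by positivity
    nlinarith

theorem sum_abs_choose_sub (j : ℕ) :
    ∑ k ∈ Finset.range (j + 2), |((j.choose k : ℕ) : ℝ) - (if k = 0 then 0 else ((j.choose (k - 1) : ℕ) : ℝ))|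
      ≤ 2 * ((j.choose (j / 2) : ℕ) : ℝ) := by
  rw [Finset.sum_range_succ']
  simp only [Nat.add_eq_zero_iff, one_ne_zero, and_false, if_false, if_true,
    Nat.add_sub_cancel, Nat.choose_zero_right, Nat.cast_one, sub_zero, abs_one]
  -- now: sum over k < j+1 of |C(j,k+1) - C(j,k)| + 1
  set f : ℕ → ℝ := fun k => ((j.choose k : ℕ) : ℝ) with hf
  set m := j / 2 with hm
  have hup : ∀ k, k < m → f k ≤ f (k + 1) := by
    intro k hk
    simp only [hf]
    exact_mod_cast Nat.choose_le_succ_of_lt_half_left hk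
  have hdown : ∀ k, m ≤ k → f (k + 1) ≤ f k := by
    intro k hk
    simp only [hf]
    by_cases hkj : k < j
    · have h1 : j.choose (k + 1) = j.choose (j - (k + 1)) := (Nat.choose_symm (by omega)).symm
      have h2 : j.choose k = j.choose (j - k) := (Nat.choose_symm (by omega)).symm
      rw [h1, h2]
      by_cases h3 : j - (k + 1) < j / 2
      · have h4 := Nat.choose_le_succ_of_lt_half_left h3
        have h5 : j - (k + 1) + 1 = j - k := by omega
        rw [h5] at h4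
        exact_mod_cast h4
      · have h6 : j - (k + 1) = j / 2 := by omega
        have h7 : j.choose (j - k) = j.choose k := Nat.choose_symm (by omega)
        have h8 : k = j / 2 := by omega
        rw [h7, h6, h8]
    · have h1 : j.choose (k + 1) = 0 := Nat.choose_eq_zero_of_lt (by omega)
      rw [h1]
      simp
  have hsplit : ∑ k ∈ Finset.range (j + 1), |f (k + 1) - f k| =
      ∑ k ∈ Finset.range m, |f (k + 1) - f k| + ∑ k ∈ Finset.Ico m (j + 1), |f (k + 1) - f k| := by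
    rw [Finset.sum_range_add_sum_Ico _ (by omega : m ≤ j + 1)]
  have h1 : ∑ k ∈ Finset.range m, |f (k + 1) - f k| = f m - f 0 := by
    rw [← Finset.sum_range_sub]
    refine Finset.sum_congr rfl fun k hk => ?_
    rw [Finset.mem_range] at hk
    rw [abs_of_nonneg]
    linarith [hup k hk]
  have h2 : ∑ k ∈ Finset.Ico m (j + 1), |f (k + 1) - f k| = f m - f (j + 1) := by
    have h3 : ∑ k ∈ Finset.Ico m (j + 1), |f (k + 1) - f k| =
        -∑ k ∈ Finset.Ico m (j + 1), (f (k + 1) - f k) := by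
      rw [← Finset.sum_neg_distrib]
      refine Finset.sum_congr rfl fun k hk => ?_
      rw [Finset.mem_Ico] at hk
      rw [abs_of_nonpos]
      linarith [hdown k hk.1]
    rw [h3, Finset.sum_Ico_sub f (by omega : m ≤ j + 1)]
    ring
  have h4 : f 0 = 1 := by simp [hf]
  have h5 : f (j + 1) = 0 := by simp [hf]
  rw [hsplit, h1, h2, h4, h5]
  linarith

end

end Pool.Agent.H40.SQ
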