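import Mathlib
import Pool.Agent.H40.SQ.Defs

/-!
# AGap: decay of `‖T^t g‖²` at rate `ρ^(2t)` gives the quadratic form bound (log-convexity)

Write `⟪g,h⟫ = ∑_{x∈S} π x * g x * h x` and `a t = ⟪T^t g, T^t g⟫`.  By `hsa` (applied repeatedly)
`a (t+1) = ⟪T^(t+1) g, T^(t+1) g⟫ = ⟪T^t g, T^(t+2) g⟫`, so by Cauchy-Schwarz `a (t+1)^2 ≤ a t * a (t+2)`.
If `a 0 = 0`: then `⟪g, T g⟫^2 ≤ a 0 * a 1 = 0` and both sides are `0`.  Let `a 0 > 0`.  Claim `a 1 ≤ ρ^2 a 0`: otherwise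
`r = a 1 / a 0 > ρ^2` (so `r > 0`), and by induction `a t > 0`, `a (t+1) ≥ r * a t` (because
`a (t+2) ≥ a (t+1)^2 / a t ≥ r a (t+1)`), so `a t ≥ r^t a 0`, while `a t ≤ C (ρ^2)^t`; for `t → ∞` contradiction
(`(r/ρ^2)^t → ∞` if `ρ > 0`; if `ρ = 0` take `t = 1`: `a 1 ≤ 0`).  Hence `⟪g, T g⟫ ≤ sqrt(a 0 * a 1) ≤ ρ a 0`, which is the
claim.  (Cauchy-Schwarz: `Finset.sum_mul_sq_le_sq_mul_sq` or `inner_mul_le_norm_mul_norm` after inserting `sqrt (π x)`.)
-/

set_option autoImplicit false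

namespace Pool.Agent.H40.SQ

noncomputable section

private theorem agap_cs {α : Type} (S : Finset α) (π : α → ℝ) (hπ : ∀ x ∈ S, 0 ≤ π x)
    (u v : α → ℝ) :
    (∑ x ∈ S, π x * u x * v x) ^ 2 ≤ (∑ x ∈ S, π x * u x ^ 2) * (∑ x ∈ S, π x * v x ^ 2) := by
  have h := Finset.sum_mul_sq_le_sq_mul_sq S (fun x => √(π x) * u x) (fun x => √(π x) * v x)
  have h1 : ∑ x ∈ S, √(π x) * u x * (√(π x) * v x) = ∑ x ∈ S, π x * u x * v x := by
    refine Finset.sum_congr rfl fun x hx => ?_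
    have h2 := Real.mul_self_sqrt (hπ x hx)
    calc √(π x) * u x * (√(π x) * v x) = (√(π x) * √(π x)) * u x * v x := by ring
      _ = _ := by rw [h2]
  have h2 : ∀ f : α → ℝ, ∑ x ∈ S, (√(π x) * f x) ^ 2 = ∑ x ∈ S, π x * f x ^ 2 := by
    intro f
    refine Finset.sum_congr rfl fun x hx => ?_
    rw [mul_pow, Real.sq_sqrt (hπ x hx)]
  simp only [h1, h2] at h
  exact h

theorem gap_of_decay {α : Type} (S : Finset α) (π : α → ℝ) (hπ : ∀ x ∈ S, 0 ≤ π x)
    (T : (α → ℝ) →ₗ[ℝ] (α → ℝ))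
    (hsa : ∀ g h : α → ℝ, ∑ x ∈ S, π x * T g x * h x = ∑ x ∈ S, π x * g x * T h x)
    (ρ : ℝ) (hρ0 : 0 ≤ ρ) (hρ1 : ρ < 1) (g : α → ℝ) (C : ℝ)
    (hdec : ∀ t : ℕ, ∑ x ∈ S, π x * ((T ^ t) g x) ^ 2 ≤ C * ρ ^ (2 * t)) :
    (1 - ρ) * ∑ x ∈ S, π x * g x ^ 2 ≤ ∑ x ∈ S, π x * g x * (g x - T g x) := by
  set a : ℕ → ℝ := fun t => ∑ x ∈ S, π x * ((T ^ t) g x) ^ 2 with ha
  have hsucc : ∀ t, (T ^ (t + 1)) g = T ((T ^ t) g) := by
    intro t
    rw [pow_succ', Module.End.mul_apply]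
  have ha0 : ∀ t, 0 ≤ a t := fun t =>
    Finset.sum_nonneg fun x hx => mul_nonneg (hπ x hx) (sq_nonneg _)
  have hlog : ∀ t, a (t + 1) ^ 2 ≤ a t * a (t + 2) := by
    intro t
    have h1 : a (t + 1) = ∑ x ∈ S, π x * (T ^ t) g x * (T ^ (t + 2)) g x := by
      have h2 := hsa ((T ^ t) g) (T ((T ^ t) g))
      have h3 : a (t + 1) = ∑ x ∈ S, π x * T ((T ^ t) g) x * T ((T ^ t) g) x := by
        simp only [ha]
        refine Finset.sum_congr rfl fun x _ => ?_
        rw [hsucc]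
        ring
      rw [h3, h2]
      refine Finset.sum_congr rfl fun x _ => ?_
      rw [show t + 2 = (t + 1) + 1 from rfl, hsucc (t + 1), hsucc t]
    rw [h1]
    exact agap_cs S π hπ _ _
  have hz : a 0 = ∑ x ∈ S, π x * g x ^ 2 := by
    simp only [ha, pow_zero, Module.End.one_apply]
  have ho : a 1 = ∑ x ∈ S, π x * T g x ^ 2 := by
    simp only [ha, pow_one]
  set b : ℝ := ∑ x ∈ S, π x * g x * T g x with hb
  have hb2 : b ^ 2 ≤ a 0 * a 1 := by
    rw [hz, ho]
    exact agap_cs S π hπ _ _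
  have hR : ∑ x ∈ S, π x * g x * (g x - T g x) = a 0 - b := by
    rw [hz, hb, ← Finset.sum_sub_distrib]
    refine Finset.sum_congr rfl fun x _ => ?_
    ring
  rw [hR, ← hz]
  suffices hmain : b ≤ ρ * a 0 by linarith
  rcases (ha0 0).eq_or_lt with h0 | h0
  · rw [← h0] at hb2 ⊢
    have : b ^ 2 ≤ 0 := by linarith
    have hb0 : b = 0 := by
      have := le_antisymm this (sq_nonneg b)
      exact pow_eq_zero_iff (two_ne_zero) |>.1 this
    rw [hb0]
    simp
  · have hcl : a 1 ≤ ρ ^ 2 * a 0 := by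
      by_contra hcon
      push Not at hcon
      set r : ℝ := a 1 / a 0 with hr
      have hr1 : r * a 0 = a 1 := div_mul_cancel₀ _ h0.ne'
      have hrρ : ρ ^ 2 < r := by
        rw [hr, lt_div_iff₀ h0]
        exact hcon
      have hr0 : 0 < r := lt_of_le_of_lt (sq_nonneg ρ) hrρ
      have hind : ∀ t, 0 < a t ∧ r * a t ≤ a (t + 1) := by
        intro t
        induction t with
        | zero => exact ⟨h0, hr1.le⟩
        | succ t ih =>
          have h1 : 0 < a (t + 1) := lt_of_lt_of_le (mul_pos hr0 ih.1) ih.2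
          refine ⟨h1, ?_⟩
          have h2 := hlog t
          have h3 : (r * a (t + 1)) * a t ≤ a (t + 1 + 1) * a t := by
            calc (r * a (t + 1)) * a t = (r * a t) * a (t + 1) := by ring
              _ ≤ a (t + 1) * a (t + 1) := mul_le_mul_of_nonneg_right ih.2 h1.le
              _ = a (t + 1) ^ 2 := by ring
              _ ≤ a t * a (t + 2) := h2
              _ = a (t + 1 + 1) * a t := by ring
          exact le_of_mul_le_mul_right h3 ih.1
      have hlow : ∀ t, r ^ t * a 0 ≤ a t := by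
        intro t
        induction t with
        | zero => simp
        | succ t ih =>
          calc r ^ (t + 1) * a 0 = r * (r ^ t * a 0) := by ring
            _ ≤ r * a t := mul_le_mul_of_nonneg_left ih hr0.le
            _ ≤ a (t + 1) := (hind t).2
      have hup : ∀ t, a t ≤ C * (ρ ^ 2) ^ t := by
        intro t
        have := hdec t
        rw [pow_mul] at this
        exact this
      rcases (sq_nonneg ρ).eq_or_lt with h2 | h2
      · have h3 := hup 1
        rw [← h2, zero_pow one_ne_zero, mul_zero] at h3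
        exact absurd h3 (not_le.2 (hind 1).1)
      · have h3 : 1 < r / ρ ^ 2 := by
          rw [lt_div_iff₀ h2]
          linarith
        obtain ⟨t, ht⟩ := pow_unbounded_of_one_lt (C / a 0) h3
        rw [div_pow, div_lt_div_iff₀ h0 (by positivity)] at ht
        have h4 := (hlow t).trans (hup t)
        linarith
    have h1 : b ^ 2 ≤ (ρ * a 0) ^ 2 := by
      refine hb2.trans ?_
      calc a 0 * a 1 ≤ a 0 * (ρ ^ 2 * a 0) := mul_le_mul_of_nonneg_left hcl h0.le
        _ = (ρ * a 0) ^ 2 := by ring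
    exact (abs_le_of_sq_le_sq' h1 (by positivity)).2

end

end Pool.Agent.H40.SQ
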