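import Mathlib
import Pool.Agent.H40.SQ.Defs

/-!
# AMono: comparison principle for convex combinations of monotone maps

`L g x = ∑_{k∈I} p k x-independent weight * g (T k x)`.  Induction on `t`.  `t = 0`: if `x = y` both sides are `0`; otherwise
`|ψ y - ψ x| ≤ 1 ≤ Φ y - Φ x`.  Step: `(L^(t+1)) ψ = L (L^t ψ)` (`pow_succ'`), so
`|L^(t+1) ψ y - L^(t+1) ψ x| ≤ ∑ p k |L^t ψ (T k y) - L^t ψ (T k x)| ≤ ∑ p k (L^t Φ (T k y) - L^t Φ (T k x)) = L^(t+1) Φ y - L^(t+1) Φ x`,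
as `T k x, T k y ∈ S` and `R (T k x) (T k y)`.
-/

set_option autoImplicit false

namespace Pool.Agent.H40.SQ

noncomputable section

theorem mono_compare {α κ : Type} (S : Finset α) (R : α → α → Prop) (I : Finset κ) (p : κ → ℝ)
    (hp : ∀ k ∈ I, 0 ≤ p k) (T : κ → α → α)
    (hS : ∀ k ∈ I, ∀ x ∈ S, T k x ∈ S)
    (hR : ∀ k ∈ I, ∀ x ∈ S, ∀ y ∈ S, R x y → R (T k x) (T k y))
    (L : (α → ℝ) →ₗ[ℝ] (α → ℝ)) (hL : ∀ (g : α → ℝ), ∀ x ∈ S, L g x = ∑ k ∈ I, p k * g (T k x))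
    (Φ : α → ℝ) (hΦ : ∀ x ∈ S, ∀ y ∈ S, R x y → x ≠ y → Φ x + 1 ≤ Φ y)
    (ψ : α → ℝ) (hψ : ∀ x ∈ S, 0 ≤ ψ x ∧ ψ x ≤ 1) (t : ℕ) :
    ∀ x ∈ S, ∀ y ∈ S, R x y → |(L ^ t) ψ y - (L ^ t) ψ x| ≤ (L ^ t) Φ y - (L ^ t) Φ x := by
  induction t with
  | zero =>
    intro x hx y hy hxy
    simp only [pow_zero, Module.End.one_apply]
    by_cases h : x = y
    · subst h
      simp
    · have h1 := hΦ x hx y hy hxy h
      have h2 := hψ x hx
      have h3 := hψ y hy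
      rw [abs_le]
      constructor <;> linarith [h2.1, h2.2, h3.1, h3.2]
  | succ t ih =>
    intro x hx y hy hxy
    have hs : ∀ u : α → ℝ, (L ^ (t + 1)) u = L ((L ^ t) u) := by
      intro u
      rw [pow_succ', Module.End.mul_apply]
    rw [hs, hs, hL _ y hy, hL _ x hx, hL _ y hy, hL _ x hx, ← Finset.sum_sub_distrib,
      ← Finset.sum_sub_distrib]
    refine (Finset.abs_sum_le_sum_abs _ _).trans (Finset.sum_le_sum fun k hk => ?_)
    rw [← mul_sub, ← mul_sub, abs_mul, abs_of_nonneg (hp k hk)]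
    exact mul_le_mul_of_nonneg_left (ih _ (hS k hk x hx) _ (hS k hk y hy)
      (hR k hk x hx y hy hxy)) (hp k hk)

end

end Pool.Agent.H40.SQ
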