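import Mathlib
import Pool.Agent.H40.SQ.Defs
import Pool.Agent.H40.SQ.ACen

/-!
# AShift: `‖(I - P) P^t‖ ≤ 2 / sqrt(2 a (t+1))` for `P = a I + (1-a) Q`, `Q` a sup-norm contraction on `S`, `0 < a ≤ 1/2`

All operators are polynomials in `Q` and commute; say an operator `R` has norm `≤ c` if `(∀ x∈S, |g x| ≤ B) → ∀ x∈S, |R g x| ≤ c B`
for all `g`, `B ≥ 0`; norms are subadditive and submultiplicative, `‖Q^k‖ ≤ 1`.
1. With `H = (1/2)(I + Q)`: `H^j (I - Q) = 2^(-j) ∑_{k=0}^{j+1} (C(j,k) - C(j,k-1)) Q^k` (binomial theorem for the commuting `I`, `Q`),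
so by `sum_abs_choose_sub` and `central_le`: `‖H^j (I-Q)‖ ≤ 2 C(j,j/2)/2^j ≤ 2 / sqrt(j+1)`.
2. `P = (1-2a) Q + 2a H`, so with `p = 2a`: `P^t = ∑_{j=0}^t C(t,j) p^j (1-p)^(t-j) H^j Q^(t-j)` (`Commute.add_pow`), and
`I - P = (1-a)(I - Q)`.  Hence `‖(I-P) P^t‖ ≤ ∑_j b_j 2/sqrt(j+1)`, `b_j = C(t,j) p^j (1-p)^(t-j)`, `∑ b_j = 1`.
3. Cauchy-Schwarz: `∑ b_j (j+1)^(-1/2) ≤ sqrt(∑ b_j/(j+1))` and `∑_j b_j/(j+1) = (1 - (1-p)^(t+1))/((t+1)p) ≤ 1/((t+1)p)`
because `C(t,j)/(j+1) = C(t+1,j+1)/(t+1)` (`Nat.succ_mul_choose_eq`).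
-/

set_option autoImplicit false

namespace Pool.Agent.H40.SQ

noncomputable section

open Polynomial in
/-- operator bound of a polynomial in `Q` -/
private def ashNB {α : Type} (S : Finset α) (Q : Module.End ℝ (α → ℝ)) (f : Polynomial ℝ)
    (c : ℝ) : Prop :=
  ∀ (g : α → ℝ) (B : ℝ), (∀ x ∈ S, |g x| ≤ B) → ∀ x ∈ S, |(aeval Q f) g x| ≤ c * B

section
open Polynomial
variable {α : Type} {S : Finset α} {Q : Module.End ℝ (α → ℝ)}

private theorem ash_add {f f' : Polynomial ℝ} {c c' : ℝ} (h : ashNB S Q f c)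
    (h' : ashNB S Q f' c') : ashNB S Q (f + f') (c + c') := by
  intro g B hB x hx
  rw [map_add, LinearMap.add_apply, Pi.add_apply, add_mul]
  exact (abs_add_le _ _).trans (add_le_add (h g B hB x hx) (h' g B hB x hx))

private theorem ash_mul {f f' : Polynomial ℝ} {c c' : ℝ} (h : ashNB S Q f c)
    (h' : ashNB S Q f' c') : ashNB S Q (f * f') (c * c') := by
  intro g B hB x hx
  rw [map_mul, Module.End.mul_apply, mul_assoc]
  exact h _ _ (h' g B hB) x hx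

private theorem ash_C (r : ℝ) : ashNB S Q (C r) |r| := by
  intro g B hB x hx
  rw [aeval_C, Module.algebraMap_end_apply, Pi.smul_apply, smul_eq_mul, abs_mul]
  exact mul_le_mul_of_nonneg_left (hB x hx) (abs_nonneg r)

private theorem ash_mono {f : Polynomial ℝ} {c c' : ℝ} (h : ashNB S Q f c) (hc : c ≤ c') :
    ashNB S Q f c' := by
  intro g B hB x hx
  have hB0 : 0 ≤ B := (abs_nonneg _).trans (hB x hx)
  exact (h g B hB x hx).trans (mul_le_mul_of_nonneg_right hc hB0)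

private theorem ash_zero : ashNB S Q 0 0 := by
  intro g B hB x hx
  simp

private theorem ash_sum {κ : Type} (I : Finset κ) (f : κ → Polynomial ℝ) (c : κ → ℝ)
    (h : ∀ k ∈ I, ashNB S Q (f k) (c k)) : ashNB S Q (∑ k ∈ I, f k) (∑ k ∈ I, c k) := by
  classical
  induction I using Finset.induction_on with
  | empty => simpa using ash_zero
  | insert a I ha ih =>
    rw [Finset.sum_insert ha, Finset.sum_insert ha]
    exact ash_add (h a (Finset.mem_insert_self a I))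
      (ih fun k hk => h k (Finset.mem_insert_of_mem hk))

private theorem ash_X (hQ : ∀ (g : α → ℝ) (B : ℝ), (∀ x ∈ S, |g x| ≤ B) → ∀ x ∈ S, |Q g x| ≤ B) :
    ashNB S Q X 1 := by
  intro g B hB x hx
  rw [aeval_X, one_mul]
  exact hQ g B hB x hx

private theorem ash_one : ashNB S Q 1 1 := by
  intro g B hB x hx
  rw [map_one, Module.End.one_apply, one_mul]
  exact hB x hx

private theorem ash_Xpow
    (hQ : ∀ (g : α → ℝ) (B : ℝ), (∀ x ∈ S, |g x| ≤ B) → ∀ x ∈ S, |Q g x| ≤ B) (k : ℕ) :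
    ashNB S Q (X ^ k) 1 := by
  induction k with
  | zero => simpa using ash_one
  | succ k ih =>
    rw [pow_succ]
    simpa using ash_mul ih (ash_X hQ)

private theorem ash_id (j : ℕ) : (1 + X : Polynomial ℝ) ^ j * (1 - X) =
    ∑ k ∈ Finset.range (j + 2), C (((j.choose k : ℕ) : ℝ) -
      (if k = 0 then 0 else ((j.choose (k - 1) : ℕ) : ℝ))) * X ^ k := by
  have h1 : (1 + X : Polynomial ℝ) ^ j =
      ∑ k ∈ Finset.range (j + 1), C (((j.choose k : ℕ) : ℝ)) * X ^ k := by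
    rw [add_comm, add_pow]
    refine Finset.sum_congr rfl fun k _ => ?_
    rw [one_pow, mul_one, mul_comm, map_natCast]
  have h2 : ∑ k ∈ Finset.range (j + 2), C (((j.choose k : ℕ) : ℝ)) * (X : Polynomial ℝ) ^ k =
      ∑ k ∈ Finset.range (j + 1), C (((j.choose k : ℕ) : ℝ)) * X ^ k := by
    rw [Finset.sum_range_succ _ (j + 1), Nat.choose_succ_self]
    simp
  have h3 : ∑ k ∈ Finset.range (j + 2), C (if k = 0 then (0 : ℝ)
      else ((j.choose (k - 1) : ℕ) : ℝ)) * (X : Polynomial ℝ) ^ k =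
      (∑ k ∈ Finset.range (j + 1), C (((j.choose k : ℕ) : ℝ)) * X ^ k) * X := by
    rw [Finset.sum_range_succ', Finset.sum_mul]
    simp only [Nat.add_eq_zero_iff, one_ne_zero, and_false, if_false, if_true, map_zero, zero_mul,
      add_zero, Nat.add_sub_cancel]
    refine Finset.sum_congr rfl fun k _ => ?_
    rw [pow_succ]
    ring
  simp only [map_sub, sub_mul, Finset.sum_sub_distrib]
  rw [h2, h3, h1]
  ring

private theorem ash_H
    (hQ : ∀ (g : α → ℝ) (B : ℝ), (∀ x ∈ S, |g x| ≤ B) → ∀ x ∈ S, |Q g x| ≤ B) (j : ℕ) :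
    ashNB S Q ((C (1 / 2 : ℝ) * (1 + X)) ^ j * (1 - X)) (2 / √((j : ℝ) + 1)) := by
  have h1 : (C (1 / 2 : ℝ) * (1 + X)) ^ j * (1 - X) = C ((1 / 2 : ℝ) ^ j) *
      ∑ k ∈ Finset.range (j + 2), C (((j.choose k : ℕ) : ℝ) -
      (if k = 0 then 0 else ((j.choose (k - 1) : ℕ) : ℝ))) * X ^ k := by
    rw [← ash_id, mul_pow, map_pow]
    ring
  rw [h1]
  have h2 := ash_mul (ash_C (S := S) (Q := Q) ((1 / 2 : ℝ) ^ j))
    (ash_sum (S := S) (Q := Q) (Finset.range (j + 2)) _ _ (fun k _ =>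
      ash_mul (ash_C (S := S) (Q := Q) (((j.choose k : ℕ) : ℝ) -
      (if k = 0 then 0 else ((j.choose (k - 1) : ℕ) : ℝ)))) (ash_Xpow hQ k)))
  refine ash_mono h2 ?_
  simp only [mul_one]
  have h3 := sum_abs_choose_sub j
  have h4 := central_le j
  set c : ℝ := ((j.choose (j / 2) : ℕ) : ℝ) with hc
  have hc0 : 0 ≤ c := Nat.cast_nonneg _
  have h5 : c * √((j : ℝ) + 1) ≤ 2 ^ j := by
    have h6 : (c * √((j : ℝ) + 1)) ^ 2 ≤ (2 ^ j) ^ 2 := by
      rw [mul_pow, Real.sq_sqrt (by positivity), ← pow_mul, mul_comm j 2, pow_mul]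
      norm_num
      linarith
    exact (abs_le_of_sq_le_sq' h6 (by positivity)).2
  rw [abs_of_nonneg (by positivity), one_div, inv_pow, ← div_eq_inv_mul,
    div_le_div_iff₀ (by positivity) (by positivity)]
  calc (∑ k ∈ Finset.range (j + 2), |((j.choose k : ℕ) : ℝ) -
      (if k = 0 then 0 else ((j.choose (k - 1) : ℕ) : ℝ))|) * √((j : ℝ) + 1)
      ≤ (2 * c) * √((j : ℝ) + 1) := mul_le_mul_of_nonneg_right h3 (Real.sqrt_nonneg _)
    _ ≤ 2 * 2 ^ j := by linarith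

private theorem ash_bin (p : ℝ) (hp0 : 0 < p) (hp1 : p ≤ 1) (t : ℕ) :
    ∑ j ∈ Finset.range (t + 1), p ^ j * (1 - p) ^ (t - j) * ((t.choose j : ℕ) : ℝ) *
      (1 / √((j : ℝ) + 1)) ≤ 1 / √(p * ((t : ℝ) + 1)) := by
  set b : ℕ → ℝ := fun j => p ^ j * (1 - p) ^ (t - j) * ((t.choose j : ℕ) : ℝ) with hb
  have hb0 : ∀ j, 0 ≤ b j := fun j => by
    have : 0 ≤ 1 - p := by linarith
    simp only [hb]
    positivity
  have hsum : ∑ j ∈ Finset.range (t + 1), b j = 1 := by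
    have h := add_pow p (1 - p) t
    rw [add_sub_cancel, one_pow] at h
    exact h.symm
  have hsum2 : ∑ j ∈ Finset.range (t + 1), b j / ((j : ℝ) + 1) ≤ 1 / (p * ((t : ℝ) + 1)) := by
    have h := add_pow p (1 - p) (t + 1)
    rw [add_sub_cancel, one_pow, Finset.sum_range_succ'] at h
    have h1 : 0 ≤ p ^ 0 * (1 - p) ^ (t + 1 - 0) * (((t + 1).choose 0 : ℕ) : ℝ) := by
      have : 0 ≤ 1 - p := by linarith
      positivity
    have h2 : ∀ j ∈ Finset.range (t + 1), p ^ (j + 1) * (1 - p) ^ (t + 1 - (j + 1)) *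
        (((t + 1).choose (j + 1) : ℕ) : ℝ) = (b j / ((j : ℝ) + 1)) * (p * ((t : ℝ) + 1)) := by
      intro j _
      have h3 : ((t + 1 : ℕ) : ℝ) * (t.choose j : ℕ) = ((t + 1).choose (j + 1) : ℕ) * (j + 1 : ℕ) := by
        exact_mod_cast Nat.add_one_mul_choose_eq t j
      push_cast at h3
      have hj : ((j : ℝ) + 1) ≠ 0 := by positivity
      have h4 : (((t + 1).choose (j + 1) : ℕ) : ℝ) =
          ((t : ℝ) + 1) * ((t.choose j : ℕ) : ℝ) / ((j : ℝ) + 1) := by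
        rw [eq_div_iff hj]
        exact h3.symm
      rw [h4, Nat.add_sub_add_right]
      simp only [hb]
      field_simp
      ring
    rw [Finset.sum_congr rfl h2, ← Finset.sum_mul] at h
    rw [le_div_iff₀ (by positivity)]
    linarith
  have hcs := Finset.sum_mul_sq_le_sq_mul_sq (Finset.range (t + 1)) (fun j => √(b j))
    (fun j => √(b j) * (1 / √((j : ℝ) + 1)))
  have e1 : ∑ j ∈ Finset.range (t + 1), √(b j) * (√(b j) * (1 / √((j : ℝ) + 1))) =
      ∑ j ∈ Finset.range (t + 1), b j * (1 / √((j : ℝ) + 1)) := by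
    refine Finset.sum_congr rfl fun j _ => ?_
    rw [← mul_assoc, Real.mul_self_sqrt (hb0 j)]
  have e2 : ∑ j ∈ Finset.range (t + 1), √(b j) ^ 2 = 1 := by
    rw [← hsum]
    exact Finset.sum_congr rfl fun j _ => Real.sq_sqrt (hb0 j)
  have e3 : ∑ j ∈ Finset.range (t + 1), (√(b j) * (1 / √((j : ℝ) + 1))) ^ 2 =
      ∑ j ∈ Finset.range (t + 1), b j / ((j : ℝ) + 1) := by
    refine Finset.sum_congr rfl fun j _ => ?_
    rw [mul_pow, Real.sq_sqrt (hb0 j), div_pow, one_pow, Real.sq_sqrt (by positivity)]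
    ring
  rw [e1, e2, e3, one_mul] at hcs
  have h7 : (1 / √(p * ((t : ℝ) + 1))) ^ 2 = 1 / (p * ((t : ℝ) + 1)) := by
    rw [div_pow, one_pow, Real.sq_sqrt (by positivity)]
  have h8 : (∑ j ∈ Finset.range (t + 1), b j * (1 / √((j : ℝ) + 1))) ^ 2 ≤
      (1 / √(p * ((t : ℝ) + 1))) ^ 2 := by
    rw [h7]
    exact hcs.trans hsum2
  exact (abs_le_of_sq_le_sq' h8 (by positivity)).2

private theorem ash_main
    (hQ : ∀ (g : α → ℝ) (B : ℝ), (∀ x ∈ S, |g x| ≤ B) → ∀ x ∈ S, |Q g x| ≤ B) (a : ℝ)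
    (ha0 : 0 < a) (ha1 : a ≤ 1 / 2) (t : ℕ) :
    ashNB S Q ((C a + C (1 - a) * X) ^ t - (C a + C (1 - a) * X) ^ (t + 1))
      (2 / √(2 * a * ((t : ℝ) + 1))) := by
  have h1 : (C a + C (1 - a) * X : Polynomial ℝ) =
      C (2 * a) * (C (1 / 2 : ℝ) * (1 + X)) + C (1 - 2 * a) * X := by
    have e1 : C (2 * a) * C (1 / 2 : ℝ) = C a := by
      rw [← C_mul]
      congr 1
      ring
    have e2 : C (1 - a) = C (1 - 2 * a) + C a := by
      rw [← C_add]
      congr 1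
      ring
    rw [← mul_assoc, e1, e2]
    ring
  have h2 : (C a + C (1 - a) * X : Polynomial ℝ) ^ t - (C a + C (1 - a) * X) ^ (t + 1) =
      C (1 - a) * ∑ j ∈ Finset.range (t + 1), C ((2 * a) ^ j * (1 - 2 * a) ^ (t - j) *
        ((t.choose j : ℕ) : ℝ)) * (X ^ (t - j) * ((C (1 / 2 : ℝ) * (1 + X)) ^ j * (1 - X))) := by
    have e1 : (C a + C (1 - a) * X : Polynomial ℝ) ^ t =
        ∑ j ∈ Finset.range (t + 1), C ((2 * a) ^ j * (1 - 2 * a) ^ (t - j) *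
        ((t.choose j : ℕ) : ℝ)) * (X ^ (t - j) * (C (1 / 2 : ℝ) * (1 + X)) ^ j) := by
      rw [h1, add_pow]
      refine Finset.sum_congr rfl fun j _ => ?_
      simp only [mul_pow, C_mul, C_pow, map_natCast]
      ring
    have e2 : (C a + C (1 - a) * X : Polynomial ℝ) ^ t - (C a + C (1 - a) * X) ^ (t + 1) =
        C (1 - a) * ((C a + C (1 - a) * X) ^ t * (1 - X)) := by
      have e3 : (1 : Polynomial ℝ) - (C a + C (1 - a) * X) = C (1 - a) * (1 - X) := by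
        rw [C_sub, C_1]
        ring
      calc (C a + C (1 - a) * X : Polynomial ℝ) ^ t - (C a + C (1 - a) * X) ^ (t + 1)
          = (C a + C (1 - a) * X) ^ t * (1 - (C a + C (1 - a) * X)) := by ring
        _ = _ := by rw [e3]; ring
    rw [e2, e1, Finset.sum_mul]
    congr 1
    exact Finset.sum_congr rfl fun j _ => by ring
  rw [h2]
  have h3 := ash_mul (ash_C (S := S) (Q := Q) (1 - a))
    (ash_sum (S := S) (Q := Q) (Finset.range (t + 1)) _ _ (fun j _ =>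
      ash_mul (ash_C (S := S) (Q := Q) ((2 * a) ^ j * (1 - 2 * a) ^ (t - j) *
        ((t.choose j : ℕ) : ℝ))) (ash_mul (ash_Xpow hQ (t - j)) (ash_H hQ j))))
  refine ash_mono h3 ?_
  have hp := ash_bin (2 * a) (by linarith) (by linarith) t
  have h4 : ∑ j ∈ Finset.range (t + 1), |(2 * a) ^ j * (1 - 2 * a) ^ (t - j) *
      ((t.choose j : ℕ) : ℝ)| * (1 * (2 / √((j : ℝ) + 1))) =
      2 * ∑ j ∈ Finset.range (t + 1), (2 * a) ^ j * (1 - 2 * a) ^ (t - j) *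
      ((t.choose j : ℕ) : ℝ) * (1 / √((j : ℝ) + 1)) := by
    rw [Finset.mul_sum]
    refine Finset.sum_congr rfl fun j _ => ?_
    have h5 : 0 ≤ (2 * a) ^ j * (1 - 2 * a) ^ (t - j) * ((t.choose j : ℕ) : ℝ) := by
      have : 0 ≤ 1 - 2 * a := by linarith
      positivity
    rw [abs_of_nonneg h5]
    ring
  rw [h4, abs_of_nonneg (by linarith)]
  have h6 : 0 ≤ 2 * ∑ j ∈ Finset.range (t + 1), (2 * a) ^ j * (1 - 2 * a) ^ (t - j) *
      ((t.choose j : ℕ) : ℝ) * (1 / √((j : ℝ) + 1)) := by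
    have : 0 ≤ 1 - 2 * a := by linarith
    positivity
  calc (1 - a) * (2 * ∑ j ∈ Finset.range (t + 1), (2 * a) ^ j * (1 - 2 * a) ^ (t - j) *
      ((t.choose j : ℕ) : ℝ) * (1 / √((j : ℝ) + 1)))
      ≤ 1 * (2 * ∑ j ∈ Finset.range (t + 1), (2 * a) ^ j * (1 - 2 * a) ^ (t - j) *
      ((t.choose j : ℕ) : ℝ) * (1 / √((j : ℝ) + 1))) :=
        mul_le_mul_of_nonneg_right (by linarith) h6
    _ ≤ 1 * (2 * (1 / √(2 * a * ((t : ℝ) + 1)))) := by linarith
    _ = _ := by ring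

end

theorem shift_bound {α : Type} (S : Finset α) (P Q : (α → ℝ) →ₗ[ℝ] (α → ℝ)) (a : ℝ)
    (ha0 : 0 < a) (ha1 : a ≤ 1 / 2)
    (hP : P = a • LinearMap.id + (1 - a) • Q)
    (hQ : ∀ (g : α → ℝ) (B : ℝ), (∀ x ∈ S, |g x| ≤ B) → ∀ x ∈ S, |Q g x| ≤ B)
    (g : α → ℝ) (B : ℝ) (hB : ∀ x ∈ S, |g x| ≤ B) (t : ℕ) :
    ∀ x ∈ S, |(P ^ t) g x - (P ^ (t + 1)) g x| ≤ 2 * B / Real.sqrt (2 * a * ((t : ℝ) + 1)) := by
  intro x hx
  have h := ash_main (S := S) (Q := Q) hQ a ha0 ha1 t g B hB x hx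
  have hP' : P = Polynomial.aeval (Q : Module.End ℝ (α → ℝ))
      (Polynomial.C a + Polynomial.C (1 - a) * Polynomial.X) := by
    rw [hP, map_add, map_mul, Polynomial.aeval_C, Polynomial.aeval_C, Polynomial.aeval_X,
      Algebra.algebraMap_eq_smul_one, Algebra.algebraMap_eq_smul_one, smul_mul_assoc, one_mul]
    rfl
  rw [map_sub, map_pow, map_pow, ← hP', LinearMap.sub_apply, Pi.sub_apply] at h
  refine h.trans (le_of_eq ?_)
  ring

end

end Pool.Agent.H40.SQ
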