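import Mathlib
import Pool.Agent.H40.SQ.Defs

/-!
# AVar: variance decay of the lazy operator from a weak Poincaré inequality

`⟪g,h⟫ = ∑_{x∈S} π x * g x * h x`, `L = (1/2)(I + P)`.  For every `u`: with `v = P u`,
`⟪u, L u⟫ - ⟪L u, L u⟫ = ⟪L u, (I - L) u⟫ = (1/4) ⟪u + v, u - v⟫ = (1/4)(⟪u,u⟫ - ⟪v,v⟫) ≥ 0` by `hcontr`
(symmetric bilinear form, no self-adjointness needed).  So `⟪L u, L u⟫ ≤ ⟪u,u⟫ - ⟪u, u - L u⟫`.  Take `u = L^t g`: by
`hwp` (`K u` holds by `hK`) `⟪u, u - L u⟫ ≥ (⟪u,u⟫ - β)/A`, so with `a t = ⟪L^t g, L^t g⟫`: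
`a (t+1) ≤ a t - (a t - β)/A`, i.e. `a (t+1) - β ≤ (1 - 1/A)(a t - β)`.  By induction
`a t - β ≤ (1 - 1/A)^t (a 0 - β) ≤ (1 - 1/A)^t a 0` (`1 - 1/A ≥ 0` as `A ≥ 1`, `β ≥ 0`).  Here `K` is a predicate which is
preserved by `L` (mean zero).
-/

set_option autoImplicit false

namespace Pool.Agent.H40.SQ

noncomputable section

theorem var_decay {α : Type} (S : Finset α) (π : α → ℝ) (hπ : ∀ x ∈ S, 0 ≤ π x)
    (P : (α → ℝ) →ₗ[ℝ] (α → ℝ))
    (hcontr : ∀ g : α → ℝ, ∑ x ∈ S, π x * (P g x) ^ 2 ≤ ∑ x ∈ S, π x * g x ^ 2)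
    (L : (α → ℝ) →ₗ[ℝ] (α → ℝ)) (hL : L = (1 / 2 : ℝ) • (LinearMap.id + P))
    (A β : ℝ) (hA : 1 ≤ A) (hβ : 0 ≤ β) (K : (α → ℝ) → Prop) (hK : ∀ u, K u → K (L u))
    (hwp : ∀ u : α → ℝ, K u →
      ∑ x ∈ S, π x * u x ^ 2 ≤ A * (∑ x ∈ S, π x * u x * (u x - L u x)) + β)
    (g : α → ℝ) (hg : K g) (t : ℕ) :
    ∑ x ∈ S, π x * ((L ^ t) g x) ^ 2 ≤ (1 - 1 / A) ^ t * ∑ x ∈ S, π x * g x ^ 2 + β := by
  have hA0 : 0 < A := by linarith
  have hsucc : ∀ t, (L ^ (t + 1)) g = L ((L ^ t) g) := by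
    intro t
    rw [pow_succ', Module.End.mul_apply]
  have hLx : ∀ (u : α → ℝ) (x : α), L u x = (1 / 2) * (u x + P u x) := by
    intro u x
    rw [hL]
    simp
    ring
  have hstep : ∀ u : α → ℝ, K u → ∑ x ∈ S, π x * (L u x) ^ 2 ≤
      (1 - 1 / A) * ∑ x ∈ S, π x * u x ^ 2 + β / A := by
    intro u hu
    have h1 : ∑ x ∈ S, π x * u x * L u x - ∑ x ∈ S, π x * (L u x) ^ 2 =
        (1 / 4) * (∑ x ∈ S, π x * u x ^ 2 - ∑ x ∈ S, π x * (P u x) ^ 2) := by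
      rw [← Finset.sum_sub_distrib, ← Finset.sum_sub_distrib, Finset.mul_sum]
      refine Finset.sum_congr rfl fun x _ => ?_
      rw [hLx]
      ring
    have h2 := hcontr u
    have h3 : ∑ x ∈ S, π x * u x * (u x - L u x) =
        ∑ x ∈ S, π x * u x ^ 2 - ∑ x ∈ S, π x * u x * L u x := by
      rw [← Finset.sum_sub_distrib]
      refine Finset.sum_congr rfl fun x _ => ?_
      ring
    have h4 := hwp u hu
    set a := ∑ x ∈ S, π x * u x ^ 2 with ha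
    set d := ∑ x ∈ S, π x * u x * (u x - L u x) with hd
    have h5 : (a - β) / A ≤ d := by
      rw [div_le_iff₀ hA0]
      linarith
    have h6 : (1 - 1 / A) * a + β / A = a - (a - β) / A := by
      field_simp
      ring
    rw [h6]
    linarith
  have hKt : ∀ t, K ((L ^ t) g) := by
    intro t
    induction t with
    | zero => simpa using hg
    | succ t ih =>
      rw [hsucc]
      exact hK _ ih
  have h1A : 0 ≤ 1 - 1 / A := by
    have : 1 / A ≤ 1 := by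
      rw [div_le_one hA0]
      exact hA
    linarith
  induction t with
  | zero => simpa using hβ
  | succ t ih =>
    have h1 := hstep _ (hKt t)
    rw [← hsucc] at h1
    refine h1.trans ?_
    have h2 := mul_le_mul_of_nonneg_left ih h1A
    have h3 : (1 - 1 / A) * ((1 - 1 / A) ^ t * ∑ x ∈ S, π x * g x ^ 2 + β) + β / A =
        (1 - 1 / A) ^ (t + 1) * ∑ x ∈ S, π x * g x ^ 2 + β := by
      rw [pow_succ]
      ring
    linarith

end

end Pool.Agent.H40.SQ
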