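import Mathlib
import Pool.Agent.H40.SQ.Defs

/-!
# AsD: constants

`AA`: constant of the weak Poincaré inequality (with `M = 8(ℓ+1)`), `DD`: its defect.
-/

set_option autoImplicit false

namespace Pool.Agent.H40.SQ

noncomputable section

def AA (n ℓ : ℕ) (q : ℝ) : ℝ :=
  8 * (n : ℝ) ^ 2 / q ^ 4 * (49 * (n : ℝ) ^ 4 * (Pol n ℓ).card * (2 ^ (4 * (8 * (ℓ + 1))) * 4 ^ (ℓ + 1) / q ^ 6))

def DD (n ℓ : ℕ) (q : ℝ) : ℝ :=
  4 * ((E n).card * (18 * q) ^ (ℓ + 1)) + 8 * (E n).card * ((5 * n + 2) * (n + ℓ) * (26 * q) ^ (ℓ + 1))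

end

end Pool.Agent.H40.SQ
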