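import Mathlib
import Pool.Agent.H40.SQ.Defs

/-!
# HStep: steps and support of the height function

* `mem_E_false`: `(false,i,j) ∈ E n ↔ 0 ≤ i < n ∧ 0 ≤ j ≤ n`; `mem_E_true`: `(true,i,j) ∈ E n ↔ 0 ≤ i ≤ n ∧ 0 ≤ j < n` (for the boundary use the
square `(i,j-1)` resp. `(i-1,j)`).
* `F_step`: for `i ≥ 0`: `Finset.Icc 0 i = insert i (Icc 0 (i-1))`; for `i < 0` both heights are empty sums and `ind γ (true,i,j) = 0`.
* `F_vstep` for `γ ∈ Om n`: induction on `i ≥ -1` (for `i < 0` everything vanishes), `D i = F γ i j - F γ i (j-1)`.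
`D i = D (i-1) + sgn i j * ind (true,i,j) - sgn i (j-1) * ind (true,i,j-1) = -sgn i j * ind (false,i-1,j) + sgn i j (ind (true,i,j) + ind (true,i,j-1))
= sgn i j * ind (false,i,j)` by the vertex condition, since `sgn i (j-1) = -sgn i j`, `sgn (i-1) j = -sgn i j`.
* `F_supp`: `j < 0` or `j ≥ n`: the row contains no vertical edges.  `i < 0`: empty sum.  `i ≥ n`: `F γ i j - F γ i (j-1) = 0` for all `j`
(`(false,i,j) ∉ E n`), and `F γ i j = 0` for `j < 0`; induction on `j`.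
-/

set_option autoImplicit false

namespace Pool.Agent.H40.SQ

noncomputable section

theorem mem_E_false {n : ℕ} {i j : ℤ} : (false, i, j) ∈ E n ↔ 0 ≤ i ∧ i < n ∧ 0 ≤ j ∧ j ≤ n := by
  unfold E box sq
  simp only [Finset.mem_biUnion, Finset.mem_product, Finset.mem_Ico, Finset.mem_insert,
    Finset.mem_singleton, Prod.mk.injEq, Prod.exists, true_and, Bool.false_eq_true, false_and,
    or_false]
  constructor
  · rintro ⟨a, b, ⟨⟨h1, h2⟩, h3, h4⟩, ⟨rfl, rfl⟩ | ⟨rfl, rfl⟩⟩ <;> omega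
  · rintro ⟨h1, h2, h3, h4⟩
    by_cases h : j < n
    · exact ⟨i, j, ⟨⟨h1, h2⟩, h3, h⟩, Or.inl ⟨rfl, rfl⟩⟩
    · exact ⟨i, j - 1, ⟨⟨h1, h2⟩, by omega, by omega⟩, Or.inr ⟨rfl, by omega⟩⟩

theorem mem_E_true {n : ℕ} {i j : ℤ} : (true, i, j) ∈ E n ↔ 0 ≤ i ∧ i ≤ n ∧ 0 ≤ j ∧ j < n := by
  unfold E box sq
  simp only [Finset.mem_biUnion, Finset.mem_product, Finset.mem_Ico, Finset.mem_insert,
    Finset.mem_singleton, Prod.mk.injEq, Prod.exists, true_and, Bool.true_eq_false, false_and,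
    false_or]
  constructor
  · rintro ⟨a, b, ⟨⟨h1, h2⟩, h3, h4⟩, ⟨rfl, rfl⟩ | ⟨rfl, rfl⟩⟩ <;> omega
  · rintro ⟨h1, h2, h3, h4⟩
    by_cases h : i < n
    · exact ⟨i, j, ⟨⟨h1, h⟩, h3, h4⟩, Or.inl ⟨rfl, rfl⟩⟩
    · exact ⟨i - 1, j, ⟨⟨by omega, by omega⟩, h3, h4⟩, Or.inr ⟨by omega, rfl⟩⟩

theorem sgn_left (i j : ℤ) : sgn (i - 1) j = - sgn i j := by
  unfold sgn
  split_ifs <;> omega

theorem sgn_down (i j : ℤ) : sgn i (j - 1) = - sgn i j := by
  unfold sgn
  split_ifs <;> omega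

theorem F_neg (γ : Finset Edge) (i j : ℤ) (h : i < 0) : F γ i j = 0 := by
  unfold F
  rw [Finset.Icc_eq_empty (by omega), Finset.sum_empty]

private theorem ind_zero {γ : Finset Edge} {e : Edge} (h : e ∉ γ) : ind γ e = 0 := by
  unfold ind
  rw [if_neg h]

theorem F_step {n : ℕ} {γ : Finset Edge} (hγ : γ ⊆ E n) (i j : ℤ) :
    F γ i j - F γ (i - 1) j = sgn i j * ind γ (true, i, j) := by
  by_cases hi : i < 0
  · rw [F_neg γ i j hi, F_neg γ (i - 1) j (by omega), ind_zero, mul_zero, sub_zero]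
    intro h
    have := mem_E_true.mp (hγ h)
    omega
  · unfold F
    have e : Finset.Icc 0 i = insert i (Finset.Icc 0 (i - 1)) := by
      ext x
      simp only [Finset.mem_Icc, Finset.mem_insert]
      omega
    rw [e, Finset.sum_insert (by simp)]
    ring

theorem F_vstep {n : ℕ} {γ : Finset Edge} (hγ : γ ∈ Om n) (i j : ℤ) :
    F γ i j - F γ i (j - 1) = sgn i j * ind γ (false, i, j) := by
  obtain ⟨hE, hV⟩ := mem_Om.mp hγ
  have hneg : ∀ i < 0, F γ i j - F γ i (j - 1) = sgn i j * ind γ (false, i, j) := by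
    intro i hi
    rw [F_neg γ i j hi, F_neg γ i (j - 1) hi, ind_zero, mul_zero, sub_zero]
    intro h
    have := mem_E_false.mp (hE h)
    omega
  have key : ∀ k : ℕ, F γ ((k : ℤ) - 1) j - F γ ((k : ℤ) - 1) (j - 1) =
      sgn ((k : ℤ) - 1) j * ind γ (false, (k : ℤ) - 1, j) := by
    intro k
    induction k with
    | zero => exact hneg _ (by simp)
    | succ k ih =>
      have e : ((k + 1 : ℕ) : ℤ) - 1 = k := by push_cast; ring
      rw [e]
      have h1 := F_step hE (k : ℤ) j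
      have h2 := F_step hE (k : ℤ) (j - 1)
      have h3 := hV (k : ℤ) j
      rw [sgn_down] at h2
      rw [sgn_left] at ih
      linear_combination h1 - h2 + ih - sgn (k : ℤ) j * h3
  by_cases hi : i < 0
  · exact hneg i hi
  · obtain ⟨k, hk⟩ : ∃ k : ℕ, (k : ℤ) - 1 = i := ⟨(i + 1).toNat, by omega⟩
    rw [← hk]
    exact key k

theorem F_supp {n : ℕ} {γ : Finset Edge} (hγ : γ ∈ Om n) {i j : ℤ} (h : (i, j) ∉ box n) : F γ i j = 0 := by
  obtain ⟨hE, hV⟩ := mem_Om.mp hγ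
  have hrow : ∀ j : ℤ, (j < 0 ∨ (n : ℤ) ≤ j) → ∀ i, F γ i j = 0 := by
    intro j hj i
    unfold F
    refine Finset.sum_eq_zero fun k _ => ?_
    rw [ind_zero, mul_zero]
    intro h
    have := mem_E_true.mp (hE h)
    omega
  by_cases hi : i < 0
  · exact F_neg γ i j hi
  by_cases hj : j < 0 ∨ (n : ℤ) ≤ j
  · exact hrow j hj i
  have hin : (n : ℤ) ≤ i := by
    by_contra hcon
    apply h
    unfold box
    rw [Finset.mem_product, Finset.mem_Ico, Finset.mem_Ico]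
    omega
  have key : ∀ k : ℕ, F γ i ((k : ℤ) - 1) = 0 := by
    intro k
    induction k with
    | zero => exact hrow _ (by simp) i
    | succ k ih =>
      have e : ((k + 1 : ℕ) : ℤ) - 1 = k := by push_cast; ring
      rw [e]
      have h1 := F_vstep hγ i (k : ℤ)
      rw [ind_zero (fun h => by have := mem_E_false.mp (hE h); omega), mul_zero, ih] at h1
      omega
  obtain ⟨k, hk⟩ : ∃ k : ℕ, (k : ℤ) - 1 = j := ⟨(j + 1).toNat, by omega⟩
  rw [← hk]
  exact key k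

theorem val_F {n : ℕ} {γ : Finset Edge} (hγ : γ ∈ Om n) : Val n (F γ) := by
  have hE := (mem_Om.mp hγ).1
  refine ⟨fun i j => ⟨?_, ?_⟩, fun i j h => F_supp hγ h⟩
  · rw [F_step hE]
    unfold ind
    split_ifs
    · right; ring
    · left; ring
  · rw [F_vstep hγ]
    unfold ind
    split_ifs
    · right; ring
    · left; ring

end

end Pool.Agent.H40.SQ
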