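import Mathlib
import Pool.Agent.H40.SQ.Defs
import Pool.Agent.H40.SQ.HStep

/-!
# HAdd: additivity and injectivity of the heights; algebra of the vertex condition

`ind (γ ∪ γ') e = ind γ e + ind γ' e` for disjoint sets, `ind (γ \ κ) e = ind γ e - ind κ e` for `κ ⊆ γ`.  All claims are immediate; injectivity:
`F_step` and `F_vstep` determine `ind γ` (as `sgn ≠ 0`), hence `γ` (edges are `(true,i,j)` or `(false,i,j)`).
-/

set_option autoImplicit false

namespace Pool.Agent.H40.SQ

noncomputable section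

private theorem ind_union {γ κ : Finset Edge} (h : Disjoint γ κ) (e : Edge) :
    ind (γ ∪ κ) e = ind γ e + ind κ e := by
  unfold ind
  by_cases h1 : e ∈ γ
  · have h2 : e ∉ κ := Finset.disjoint_left.mp h h1
    rw [if_pos (Finset.mem_union_left _ h1), if_pos h1, if_neg h2]
    rfl
  · by_cases h2 : e ∈ κ
    · rw [if_pos (Finset.mem_union_right _ h2), if_neg h1, if_pos h2]
      rfl
    · rw [if_neg (by rw [Finset.mem_union]; tauto), if_neg h1, if_neg h2]
      rfl

private theorem ind_sdiff {γ κ : Finset Edge} (h : κ ⊆ γ) (e : Edge) :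
    ind (γ \ κ) e = ind γ e - ind κ e := by
  have h1 := ind_union (Finset.sdiff_disjoint (s := κ) (t := γ)) e
  rw [Finset.sdiff_union_of_subset h] at h1
  omega

theorem F_union {γ κ : Finset Edge} (h : Disjoint γ κ) (i j : ℤ) : F (γ ∪ κ) i j = F γ i j + F κ i j := by
  unfold F
  rw [← Finset.sum_add_distrib]
  refine Finset.sum_congr rfl fun k _ => ?_
  rw [ind_union h]
  ring

theorem VC_union {γ κ : Finset Edge} (h : Disjoint γ κ) (h1 : VC γ) (h2 : VC κ) : VC (γ ∪ κ) := by
  intro i j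
  have a1 := h1 i j
  have a2 := h2 i j
  simp only [ind_union h]
  omega

theorem VC_sdiff {γ κ : Finset Edge} (h : κ ⊆ γ) (h1 : VC γ) (h2 : VC κ) : VC (γ \ κ) := by
  intro i j
  have a1 := h1 i j
  have a2 := h2 i j
  simp only [ind_sdiff h]
  omega

theorem VC_empty : VC ∅ := by
  intro i j
  simp [ind]

private theorem ind_inj {γ γ' : Finset Edge} {e : Edge} (h : ind γ e = ind γ' e) :
    e ∈ γ ↔ e ∈ γ' := by
  unfold ind at h
  by_cases h1 : e ∈ γ <;> by_cases h2 : e ∈ γ' <;> simp [h1, h2] at h ⊢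

theorem F_inj {n : ℕ} {γ γ' : Finset Edge} (hγ : γ ∈ Om n) (hγ' : γ' ∈ Om n)
    (h : ∀ i j, F γ i j = F γ' i j) : γ = γ' := by
  have hs : ∀ i j, sgn i j ≠ 0 := by
    intro i j
    unfold sgn
    split_ifs <;> simp
  ext ⟨b, i, j⟩
  cases b with
  | false =>
    have h1 := F_vstep hγ i j
    have h2 := F_vstep hγ' i j
    rw [h, h, h2] at h1
    exact ind_inj (mul_left_cancel₀ (hs i j) h1).symm
  | true =>
    have h1 := F_step (mem_Om.mp hγ).1 i j
    have h2 := F_step (mem_Om.mp hγ').1 i j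
    rw [h, h, h2] at h1
    exact ind_inj (mul_left_cancel₀ (hs i j) h1).symm

end

end Pool.Agent.H40.SQ
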