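import Mathlib
import Pool.Agent.H40.SQ.Defs

/-!
# LNb: at most 7 edges touch a given edge (itself included)

`(false,i,j)` has the endpoints `(i,j),(i+1,j)`; the edges at a vertex `(x,y)` are `(false,x,y),(false,x-1,y),(true,x,y),(true,x,y-1)`.
So the set of edges touching `a` is contained in the union of two such sets of 4 elements, both containing `a`: at most 7.
Construct it explicitly: `nb a` = this union; `mem_nb` by cases and arithmetic (`simp [ends, Tch]`, `omega`).
Second: adjacent edges differ by at most 1 in both coordinates.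
-/

set_option autoImplicit false

namespace Pool.Agent.H40.SQ

noncomputable section

/-- The edges touching `a`. -/
def nb (a : Edge) : Finset Edge :=
  (ends a).biUnion (fun v => {(false, v.1, v.2), (false, v.1 - 1, v.2), (true, v.1, v.2), (true, v.1, v.2 - 1)})

private theorem lnb_star (b : Edge) (v : ℤ × ℤ) :
    b ∈ ({(false, v.1, v.2), (false, v.1 - 1, v.2), (true, v.1, v.2), (true, v.1, v.2 - 1)} :
      Finset Edge) ↔ v ∈ ends b := by
  obtain ⟨t, x, y⟩ := b
  obtain ⟨p, q⟩ := v
  cases t
  · simp only [Finset.mem_insert, Finset.mem_singleton, Prod.mk.injEq, ends]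
    simp
    omega
  · simp only [Finset.mem_insert, Finset.mem_singleton, Prod.mk.injEq, ends]
    simp
    omega

theorem mem_nb {a b : Edge} : b ∈ nb a ↔ Tch a b := by
  unfold nb Tch
  rw [Finset.mem_biUnion]
  exact exists_congr fun v => and_congr_right fun _ => lnb_star b v

theorem card_nb_le (a : Edge) : (nb a).card ≤ 7 := by
  have h1 : ∀ v w : ℤ × ℤ, ends a = {v, w} → (nb a).card ≤ 7 := by
    intro v w h
    have hv : a ∈ ({(false, v.1, v.2), (false, v.1 - 1, v.2), (true, v.1, v.2),
        (true, v.1, v.2 - 1)} : Finset Edge) := (lnb_star a v).2 (by rw [h]; simp)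
    have hw : a ∈ ({(false, w.1, w.2), (false, w.1 - 1, w.2), (true, w.1, w.2),
        (true, w.1, w.2 - 1)} : Finset Edge) := (lnb_star a w).2 (by rw [h]; simp)
    unfold nb
    rw [h, Finset.biUnion_insert, Finset.singleton_biUnion]
    have h2 := Finset.card_union_add_card_inter
      ({(false, v.1, v.2), (false, v.1 - 1, v.2), (true, v.1, v.2), (true, v.1, v.2 - 1)} :
        Finset Edge)
      ({(false, w.1, w.2), (false, w.1 - 1, w.2), (true, w.1, w.2), (true, w.1, w.2 - 1)} :
        Finset Edge)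
    have h3 := Finset.card_le_four (a := ((false, v.1, v.2) : Edge)) (b := (false, v.1 - 1, v.2))
      (c := (true, v.1, v.2)) (d := (true, v.1, v.2 - 1))
    have h4 := Finset.card_le_four (a := ((false, w.1, w.2) : Edge)) (b := (false, w.1 - 1, w.2))
      (c := (true, w.1, w.2)) (d := (true, w.1, w.2 - 1))
    have h5 := Finset.card_pos.2 ⟨a, Finset.mem_inter.2 ⟨hv, hw⟩⟩
    omega
  obtain ⟨t, x, y⟩ := a
  cases t
  · exact h1 (x, y) (x + 1, y) (by simp [ends])
  · exact h1 (x, y) (x, y + 1) (by simp [ends])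

theorem tch_symm {a b : Edge} (h : Tch a b) : Tch b a := by
  obtain ⟨v, h1, h2⟩ := h
  exact ⟨v, h2, h1⟩

theorem tch_refl (a : Edge) : Tch a a := by
  refine ⟨(a.2.1, a.2.2), ?_, ?_⟩ <;>
  · unfold ends
    split_ifs <;> simp

theorem tch_coord {a b : Edge} (h : Tch a b) : |a.2.1 - b.2.1| ≤ 1 ∧ |a.2.2 - b.2.2| ≤ 1 := by
  obtain ⟨v, h1, h2⟩ := h
  obtain ⟨t, x, y⟩ := a
  obtain ⟨t', x', y'⟩ := b
  obtain ⟨p, q⟩ := v
  simp only [abs_le]
  cases t <;> cases t' <;> simp [ends] at h1 h2 ⊢ <;> omega

end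

end Pool.Agent.H40.SQ
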