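import Mathlib
import Pool.Agent.H40.SQ.Defs
import Pool.Agent.H40.SQ.LNb
import Pool.Agent.H40.SQ.HAdd

/-!
# CComp: components

`γ` nonempty finite set of edges with `VC γ`.  Among all nonempty subsets `A ⊆ γ` which are closed (`a ∈ A`, `b ∈ γ`, `Tch a b` imply `b ∈ A`), e.g. `γ` itself, choose one of minimal
cardinality, `κ` (`Finset.exists_min_image`).  `Conn κ`: if `A ⊆ κ` is nonempty, `A ≠ κ` and no `a ∈ A` touches `b ∈ κ∖A`, then `A` is closed in `γ` (elements of `γ` touching `a ∈ A ⊆ κ` are in `κ`), nonempty and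
smaller: contradiction.  `VC κ`: at every vertex all edges of `γ` at this vertex touch each other, so either all or none of them belong to `κ`; so at this vertex
the indicators of `κ` are those of `γ` or all zero.
-/

set_option autoImplicit false

namespace Pool.Agent.H40.SQ

noncomputable section

theorem exists_component {γ : Finset Edge} (hne : γ.Nonempty) (hγ : VC γ) :
    ∃ κ ⊆ γ, κ.Nonempty ∧ Conn κ ∧ VC κ ∧ ∀ a ∈ κ, ∀ b ∈ γ \ κ, ¬ Tch a b := by
  classical
  have h1 : ((γ.powerset).filter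
      (fun A => A.Nonempty ∧ ∀ a ∈ A, ∀ b ∈ γ, Tch a b → b ∈ A)).Nonempty :=
    ⟨γ, Finset.mem_filter.mpr ⟨Finset.mem_powerset_self γ, hne, fun _ _ _ hb _ => hb⟩⟩
  obtain ⟨κ, hκ, hmin⟩ := Finset.exists_min_image _ Finset.card h1
  rw [Finset.mem_filter, Finset.mem_powerset] at hκ
  obtain ⟨hsub, hne', hcl⟩ := hκ
  refine ⟨κ, hsub, hne', ?_, ?_, ?_⟩
  · intro A hA hAne hAκ
    by_contra hcon
    push Not at hcon
    have h2 := hmin A (Finset.mem_filter.mpr ⟨Finset.mem_powerset.mpr (hA.trans hsub), hAne,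
      fun a ha b hb hab => by
        by_contra hbA
        exact hcon a ha b (Finset.mem_sdiff.mpr ⟨hcl a (hA ha) b hb hab, hbA⟩) hab⟩)
    exact hAκ (Finset.eq_of_subset_of_card_le hA h2)
  · intro i j
    have m1 : (i, j) ∈ ends (false, i - 1, j) := by simp [ends]
    have m2 : (i, j) ∈ ends (false, i, j) := by simp [ends]
    have m3 : (i, j) ∈ ends (true, i, j - 1) := by simp [ends]
    have m4 : (i, j) ∈ ends (true, i, j) := by simp [ends]
    by_cases h : ∃ a ∈ κ, (i, j) ∈ ends a
    · obtain ⟨a, ha, hv⟩ := h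
      have key : ∀ e, (i, j) ∈ ends e → ind κ e = ind γ e := by
        intro e he
        unfold ind
        by_cases hγe : e ∈ γ
        · rw [if_pos hγe, if_pos (hcl a ha e hγe ⟨_, hv, he⟩)]
        · rw [if_neg hγe, if_neg (fun h => hγe (hsub h))]
      rw [key _ m1, key _ m2, key _ m3, key _ m4]
      exact hγ i j
    · have key : ∀ e, (i, j) ∈ ends e → ind κ e = 0 := by
        intro e he
        unfold ind
        rw [if_neg (fun h' => h ⟨e, h', he⟩)]
      rw [key _ m1, key _ m2, key _ m3, key _ m4]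
  · intro a ha b hb hab
    exact (Finset.mem_sdiff.mp hb).2 (hcl a ha b (Finset.mem_sdiff.mp hb).1 hab)

end

end Pool.Agent.H40.SQ
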