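import Mathlib
import Pool.Agent.H40.SQ.Defs
import Pool.Agent.H40.SQ.LNb
import Pool.Agent.H40.SQ.HAdd
import Pool.Agent.H40.SQ.HStep

/-!
# CUni: unions of compatible polymers

`X ∈ St (Pol n ℓ) inc`, i.e. `X ⊆ Pol n ℓ` and distinct members do not touch, in particular they are disjoint (`tch_refl`).
* `U_insert`/`U_erase`: `U X = U (X.erase κ) ∪ κ`, disjoint.  `U (X.erase κ) = U X ∖ κ`.
* `U_mem`: `VC (U X)` by induction with `VC_union`; `U X ⊆ E n`.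
* `U_card`: `(U X).card = ∑ κ.card` (`Finset.card_biUnion`), so `wt (q^card) X = q^(U X).card` (`Finset.prod_pow_eq_pow_sum`).
* `F_U`: `F (U X) = ∑ F κ`.
* `U_inj`: let `κ ∈ X`, `e ∈ κ` (nonempty), `e ∈ U X = U Y`, so `e ∈ κ'` for some `κ' ∈ Y`.  `κ = κ'`: `A = κ ∩ κ'` is nonempty; if `A ≠ κ` then by `Conn κ` there are touching `a ∈ A`, `b ∈ κ∖κ'`;
`b ∈ U Y`, `b ∈ κ''`, `κ'' ≠ κ'` (as `b ∉ κ'`), `a ∈ κ'`: `inc κ' κ''`, contradiction to `Comp inc Y`.  So `κ ⊆ κ'`, and symmetrically `κ' ⊆ κ`.  Hence `X ⊆ Y`, and by symmetry `X = Y`.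
-/

set_option autoImplicit false

namespace Pool.Agent.H40.SQ

noncomputable section

private theorem disj_of {n ℓ : ℕ} {X : Finset (Finset Edge)} (hX : X ∈ St (Pol n ℓ) inc)
    {κ κ' : Finset Edge} (hκ : κ ∈ X) (hκ' : κ' ∈ X) (h : κ ≠ κ') : Disjoint κ κ' := by
  rw [Finset.disjoint_left]
  intro a ha ha'
  exact (mem_St.mp hX).2 κ hκ κ' hκ' h ⟨a, ha, a, ha', tch_refl a⟩

private theorem St_sub {n ℓ : ℕ} {X Y : Finset (Finset Edge)} (hX : X ∈ St (Pol n ℓ) inc)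
    (h : Y ⊆ X) : Y ∈ St (Pol n ℓ) inc := by
  rw [mem_St] at hX ⊢
  exact ⟨h.trans hX.1, fun a ha b hb => hX.2 a (h ha) b (h hb)⟩

theorem U_disj {n ℓ : ℕ} {X : Finset (Finset Edge)} (hX : X ∈ St (Pol n ℓ) inc) {κ : Finset Edge} (hκ : κ ∈ X) :
    Disjoint (U (X.erase κ)) κ ∧ U X = U (X.erase κ) ∪ κ := by
  constructor
  · rw [Finset.disjoint_left]
    intro a ha ha'
    unfold U at ha
    rw [Finset.mem_biUnion] at ha
    obtain ⟨κ', hκ', ha⟩ := ha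
    rw [Finset.mem_erase] at hκ'
    exact Finset.disjoint_left.mp (disj_of hX hκ'.2 hκ hκ'.1) ha ha'
  · unfold U
    conv_lhs => rw [← Finset.insert_erase hκ]
    rw [Finset.biUnion_insert, id, Finset.union_comm]

private theorem U_ins {n ℓ : ℕ} {Y : Finset (Finset Edge)} {κ : Finset Edge}
    (hX : insert κ Y ∈ St (Pol n ℓ) inc) (hκ : κ ∉ Y) :
    Disjoint (U Y) κ ∧ U (insert κ Y) = U Y ∪ κ := by
  have h := U_disj hX (Finset.mem_insert_self κ Y)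
  rwa [Finset.erase_insert hκ] at h

theorem U_mem {n ℓ : ℕ} {X : Finset (Finset Edge)} (hX : X ∈ St (Pol n ℓ) inc) : U X ∈ Om n := by
  revert hX
  induction X using Finset.induction_on with
  | empty =>
    intro _
    rw [mem_Om]
    have e : U (∅ : Finset (Finset Edge)) = ∅ := by simp [U]
    rw [e]
    exact ⟨Finset.empty_subset _, VC_empty⟩
  | insert κ Y hκ ih =>
    intro hX
    obtain ⟨h1, h2⟩ := U_ins hX hκ
    have h3 := mem_Om.mp (ih (St_sub hX (Finset.subset_insert κ Y)))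
    have h4 := mem_Pol.mp ((mem_St.mp hX).1 (Finset.mem_insert_self κ Y))
    rw [h2, mem_Om]
    exact ⟨Finset.union_subset h3.1 h4.1, VC_union h1 h3.2 h4.2.2.2.1⟩

theorem U_card {n ℓ : ℕ} {X : Finset (Finset Edge)} (hX : X ∈ St (Pol n ℓ) inc) :
    (U X).card = ∑ κ ∈ X, κ.card := by
  unfold U
  rw [Finset.card_biUnion]
  · rfl
  · intro a ha b hb hab
    exact disj_of hX ha hb hab

theorem U_wt {n ℓ : ℕ} {X : Finset (Finset Edge)} (hX : X ∈ St (Pol n ℓ) inc) (q : ℝ) :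
    wt (fun κ => q ^ κ.card) X = q ^ (U X).card := by
  rw [U_card hX]
  unfold wt
  exact Finset.prod_pow_eq_pow_sum X _ q

theorem F_U {n ℓ : ℕ} {X : Finset (Finset Edge)} (hX : X ∈ St (Pol n ℓ) inc) (i j : ℤ) :
    F (U X) i j = ∑ κ ∈ X, F κ i j := by
  revert hX
  induction X using Finset.induction_on with
  | empty =>
    intro _
    simp [U, F, ind]
  | insert κ Y hκ ih =>
    intro hX
    obtain ⟨h1, h2⟩ := U_ins hX hκ
    rw [h2, F_union h1, ih (St_sub hX (Finset.subset_insert κ Y)), Finset.sum_insert hκ, add_comm]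

private theorem sub_of {n ℓ : ℕ} {X Y : Finset (Finset Edge)} (hX : X ∈ St (Pol n ℓ) inc)
    (hY : Y ∈ St (Pol n ℓ) inc) (h : U X = U Y) {κ κ' : Finset Edge} (hκ : κ ∈ X) (hκ' : κ' ∈ Y)
    {e : Edge} (he : e ∈ κ) (he' : e ∈ κ') : κ ⊆ κ' := by
  have hP := mem_Pol.mp ((mem_St.mp hX).1 hκ)
  have h1 : κ ∩ κ' = κ := by
    by_contra hne
    obtain ⟨a, ha, b, hb, hab⟩ := hP.2.2.1 (κ ∩ κ') Finset.inter_subset_left
      ⟨e, Finset.mem_inter.mpr ⟨he, he'⟩⟩ hne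
    rw [Finset.mem_inter] at ha
    rw [Finset.mem_sdiff, Finset.mem_inter] at hb
    have hbU : b ∈ U Y := by
      rw [← h]
      exact Finset.mem_biUnion.mpr ⟨κ, hκ, hb.1⟩
    unfold U at hbU
    rw [Finset.mem_biUnion] at hbU
    obtain ⟨κ'', hκ'', hb''⟩ := hbU
    refine (mem_St.mp hY).2 κ' hκ' κ'' hκ'' ?_ ⟨a, ha.2, b, hb'', hab⟩
    rintro rfl
    exact hb.2 ⟨hb.1, hb''⟩
  rw [← h1]
  exact Finset.inter_subset_right

private theorem sub_UU {n ℓ : ℕ} {X Y : Finset (Finset Edge)} (hX : X ∈ St (Pol n ℓ) inc)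
    (hY : Y ∈ St (Pol n ℓ) inc) (h : U X = U Y) : X ⊆ Y := by
  intro κ hκ
  have hP := mem_Pol.mp ((mem_St.mp hX).1 hκ)
  obtain ⟨e, he⟩ := hP.2.1
  have heU : e ∈ U Y := by
    rw [← h]
    exact Finset.mem_biUnion.mpr ⟨κ, hκ, he⟩
  unfold U at heU
  rw [Finset.mem_biUnion] at heU
  obtain ⟨κ', hκ', he'⟩ := heU
  have e1 : κ = κ' := Finset.Subset.antisymm (sub_of hX hY h hκ hκ' he he')
    (sub_of hY hX h.symm hκ' hκ he' he)
  rw [e1]
  exact hκ'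

theorem U_inj {n ℓ : ℕ} {X Y : Finset (Finset Edge)} (hX : X ∈ St (Pol n ℓ) inc) (hY : Y ∈ St (Pol n ℓ) inc)
    (h : U X = U Y) : X = Y :=
  Finset.Subset.antisymm (sub_UU hX hY h) (sub_UU hY hX h.symm)

end

end Pool.Agent.H40.SQ
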