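import Mathlib
import Pool.Agent.H40.SQ.Defs
import Pool.Agent.H40.SQ.CComp
import Pool.Agent.H40.SQ.CUni

/-!
# CDec: decomposition and large polymers

* `exists_decomp`: strong induction on `γ.card`: `γ = ∅`: `X = ∅`.  Otherwise `κ` from `exists_component`; `κ ∈ Pol n (E n).card`; `γ ∖ κ ∈ Om n` (`VC_sdiff`) has a decomposition `Y`; no element of `κ`
touches an element of `γ∖κ = U Y`, so `X = insert κ Y` is compatible (`inc` is symmetric by `tch_symm`), `U X = γ`.
* `big_bound`: if `γ ∈ Om n` is not of the form `U X`, `X ∈ St (Pol n ℓ) inc`, then its decomposition contains some `κ ∈ Pol n (E n).card` with `κ.card > ℓ`, `κ ⊆ γ`, and `γ∖κ ∈ Om n`.  So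
`∑_{bad γ} q^γ.card ≤ ∑_{κ big} q^κ.card ∑_{γ'∈Om n} q^γ'.card` (the map `γ ↦ (κ, γ∖κ)` is injective), and `∑_{κ big} q^κ.card ≤ ∑_{e∈E n} ∑_{κ∋e} ≤ (E n).card (18q)^(ℓ+1)` (`animal_tail`).
-/

set_option autoImplicit false

namespace Pool.Agent.H40.SQ

noncomputable section

private theorem decomp_aux {n : ℕ} (k : ℕ) : ∀ γ ∈ Om n, γ.card ≤ k →
    ∃ X ∈ St (Pol n (E n).card) inc, U X = γ := by
  induction k with
  | zero =>
    intro γ _ hk
    have e : γ = ∅ := Finset.card_eq_zero.mp (by omega)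
    refine ⟨∅, ?_, by simp [U, e]⟩
    rw [mem_St]
    exact ⟨Finset.empty_subset _, fun a ha => absurd ha (Finset.notMem_empty a)⟩
  | succ k ih =>
    intro γ hγ hk
    by_cases hne : γ.Nonempty
    swap
    · rw [Finset.not_nonempty_iff_eq_empty] at hne
      exact ih γ hγ (by rw [hne, Finset.card_empty]; omega)
    obtain ⟨hE, hV⟩ := mem_Om.mp hγ
    obtain ⟨κ, hsub, hκne, hconn, hκV, hsep⟩ := exists_component hne hV
    have hc1 := Finset.card_pos.mpr hκne
    have hc2 := Finset.card_sdiff_add_card_eq_card hsub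
    obtain ⟨Y, hY, hUY⟩ := ih (γ \ κ) (mem_Om.mpr ⟨Finset.sdiff_subset.trans hE,
      VC_sdiff hsub hV hκV⟩) (by omega)
    have hYs := mem_St.mp hY
    have hmemY : ∀ κ' ∈ Y, κ' ⊆ γ \ κ := by
      intro κ' hκ'
      rw [← hUY]
      exact Finset.subset_biUnion_of_mem id hκ'
    refine ⟨insert κ Y, ?_, ?_⟩
    · rw [mem_St]
      constructor
      · intro x hx
        rw [Finset.mem_insert] at hx
        rcases hx with rfl | hx
        · exact mem_Pol.mpr ⟨hsub.trans hE, hκne, hconn, hκV, Finset.card_le_card (hsub.trans hE)⟩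
        · exact hYs.1 hx
      · intro x hx y hy hxy
        rw [Finset.mem_insert] at hx hy
        rcases hx with rfl | hx <;> rcases hy with rfl | hy
        · exact absurd rfl hxy
        · rintro ⟨a, ha, b, hb, hab⟩
          exact hsep a ha b (hmemY y hy hb) hab
        · rintro ⟨a, ha, b, hb, hab⟩
          exact hsep b hb a (hmemY x hx ha) (tch_symm hab)
        · exact hYs.2 x hx y hy hxy
    · unfold U at hUY ⊢
      rw [Finset.biUnion_insert, hUY, id]
      exact Finset.union_sdiff_of_subset hsub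

theorem exists_decomp {n : ℕ} {γ : Finset Edge} (hγ : γ ∈ Om n) :
    ∃ X ∈ St (Pol n (E n).card) inc, U X = γ :=
  decomp_aux γ.card γ hγ le_rfl

end

end Pool.Agent.H40.SQ
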