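import Mathlib
import Pool.Agent.H40.SQ.Defs
import Pool.Agent.H40.SQ.LNb

/-!
# LCnt: counting connected sets by percolation

Let `p = 1/7`.  For `ω ⊆ EE` put `m ω = p^|ω| (1-p)^(|EE|-|ω|)`; `∑_{ω⊆EE} m ω = 1` (`Finset.sum_pow_mul_eq_add_pow`-like, or
`Finset.prod_add`).  For connected `κ ⊆ EE` containing `e` let `∂κ = {b ∈ EE ∖ κ : ∃ a ∈ κ, Tch a b}`, `|∂κ| ≤ 6|κ|` (`card_nb_le`: each
`a` touches at most 6 edges other than `a`), and `A κ = {ω ⊆ EE : κ ⊆ ω, ω ∩ ∂κ = ∅}`.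
* `∑_{ω∈A κ} m ω = p^|κ| (1-p)^|∂κ| ≥ (p (1-p)^6)^|κ|` (the remaining edges are free), and `p(1-p)^6 = 6^6/7^7 ≥ 1/18`.
* The `A κ` are pairwise disjoint: let `ω ∈ A κ1 ∩ A κ2`, `κ1 ≠ κ2`, wlog `κ2 ⊄ κ1`.  `B = κ1 ∩ κ2` contains `e`, `B ≠ κ2`, so by
`Conn κ2` there are `a ∈ B`, `b ∈ κ2 ∖ B` with `Tch a b`; then `b ∉ κ1`, `b ∈ ω`, `b ∈ ∂κ1`: contradiction.
So `∑_κ (1/18)^|κ| ≤ ∑_κ ∑_{ω∈A κ} m ω ≤ 1`.
-/

set_option autoImplicit false

namespace Pool.Agent.H40.SQ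

noncomputable section

open Classical in
/-- The outer boundary of `κ` in `EE`. -/
private def bd (EE κ : Finset Edge) : Finset Edge := (EE \ κ).filter (fun b => ∃ a ∈ κ, Tch a b)

private theorem card_bd (EE κ : Finset Edge) : (bd EE κ).card ≤ 6 * κ.card := by
  classical
  have h1 : bd EE κ ⊆ κ.biUnion (fun a => (nb a).erase a) := by
    intro b hb
    unfold bd at hb
    rw [Finset.mem_filter, Finset.mem_sdiff] at hb
    obtain ⟨⟨_, hbκ⟩, a, ha, hab⟩ := hb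
    rw [Finset.mem_biUnion]
    refine ⟨a, ha, Finset.mem_erase.2 ⟨?_, mem_nb.2 hab⟩⟩
    rintro rfl
    exact hbκ ha
  refine (Finset.card_le_card h1).trans (Finset.card_biUnion_le.trans ?_)
  have h2 : ∀ a ∈ κ, ((nb a).erase a).card ≤ 6 := by
    intro a _
    rw [Finset.card_erase_of_mem (mem_nb.2 (tch_refl a))]
    have := card_nb_le a
    omega
  calc ∑ a ∈ κ, ((nb a).erase a).card ≤ ∑ _a ∈ κ, 6 := Finset.sum_le_sum h2
    _ = 6 * κ.card := by rw [Finset.sum_const, smul_eq_mul, mul_comm]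

/-- The percolation weight. -/
private def mw (EE ω : Finset Edge) : ℝ := (1 / 7 : ℝ) ^ ω.card * (6 / 7 : ℝ) ^ (EE.card - ω.card)

private theorem mw_nonneg (EE ω : Finset Edge) : 0 ≤ mw EE ω := by unfold mw; positivity

private theorem mw_sum (EE : Finset Edge) : ∑ ω ∈ EE.powerset, mw EE ω = 1 := by
  have h := Finset.sum_pow_mul_eq_add_pow (1 / 7 : ℝ) (6 / 7) EE
  unfold mw
  rw [h]
  norm_num

open Classical in
private def ev (EE κ : Finset Edge) : Finset (Finset Edge) :=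
  EE.powerset.filter (fun ω => κ ⊆ ω ∧ Disjoint ω (bd EE κ))

private theorem ev_weight (EE κ : Finset Edge) (hκ : κ ⊆ EE) :
    ((1 : ℝ) / 18) ^ κ.card ≤ ∑ ω ∈ ev EE κ, mw EE ω := by
  classical
  obtain ⟨R, hR⟩ : ∃ R : Finset Edge, R = (EE \ κ) \ bd EE κ := ⟨_, rfl⟩
  have hbd : bd EE κ ⊆ EE \ κ := Finset.filter_subset _ _
  have hcard : EE.card = κ.card + (bd EE κ).card + R.card := by
    have h1 := Finset.card_sdiff_add_card_eq_card hκ
    have h2 := Finset.card_sdiff_add_card_eq_card hbd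
    rw [hR]
    omega
  have hRκ : Disjoint R κ := by
    rw [hR]
    exact Finset.disjoint_of_subset_left Finset.sdiff_subset Finset.sdiff_disjoint
  have hRb : Disjoint R (bd EE κ) := by rw [hR]; exact Finset.sdiff_disjoint
  have hRE : R ⊆ EE := by
    rw [hR]; exact Finset.sdiff_subset.trans Finset.sdiff_subset
  have hκb : Disjoint κ (bd EE κ) :=
    Finset.disjoint_of_subset_right hbd Finset.disjoint_sdiff
  -- the image
  have himg : R.powerset.image (fun τ => κ ∪ τ) ⊆ ev EE κ := by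
    intro ω hω
    rw [Finset.mem_image] at hω
    obtain ⟨τ, hτ, rfl⟩ := hω
    rw [Finset.mem_powerset] at hτ
    unfold ev
    rw [Finset.mem_filter, Finset.mem_powerset]
    refine ⟨Finset.union_subset hκ (hτ.trans hRE), Finset.subset_union_left, ?_⟩
    rw [Finset.disjoint_union_left]
    exact ⟨hκb, Finset.disjoint_of_subset_left hτ hRb⟩
  have hinj : Set.InjOn (fun τ => κ ∪ τ) (R.powerset : Set (Finset Edge)) := by
    intro τ hτ τ' hτ' h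
    have hτ1 : Disjoint τ κ := Finset.disjoint_of_subset_left (Finset.mem_powerset.1 hτ) hRκ
    have hτ2 : Disjoint τ' κ := Finset.disjoint_of_subset_left (Finset.mem_powerset.1 hτ') hRκ
    have h3 : (κ ∪ τ) \ κ = (κ ∪ τ') \ κ := by
      simp only at h
      rw [h]
    rwa [Finset.union_sdiff_cancel_left hτ1.symm, Finset.union_sdiff_cancel_left hτ2.symm] at h3
  have h1 : ∑ ω ∈ R.powerset.image (fun τ => κ ∪ τ), mw EE ω ≤ ∑ ω ∈ ev EE κ, mw EE ω :=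
    Finset.sum_le_sum_of_subset_of_nonneg himg fun ω _ _ => mw_nonneg EE ω
  rw [Finset.sum_image hinj] at h1
  have h2 : ∀ τ ∈ R.powerset, mw EE (κ ∪ τ) =
      (1 / 7 : ℝ) ^ κ.card * (6 / 7 : ℝ) ^ (bd EE κ).card *
        ((1 / 7 : ℝ) ^ τ.card * (6 / 7 : ℝ) ^ (R.card - τ.card)) := by
    intro τ hτ
    rw [Finset.mem_powerset] at hτ
    have hτ1 : Disjoint κ τ := (Finset.disjoint_of_subset_left hτ hRκ).symm
    have hc : τ.card ≤ R.card := Finset.card_le_card hτ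
    unfold mw
    rw [Finset.card_union_of_disjoint hτ1, hcard, pow_add]
    have e : κ.card + (bd EE κ).card + R.card - (κ.card + τ.card) =
        (bd EE κ).card + (R.card - τ.card) := by omega
    rw [e, pow_add]
    ring
  rw [Finset.sum_congr rfl h2, ← Finset.mul_sum, Finset.sum_pow_mul_eq_add_pow] at h1
  have h3 : ((1 / 7 : ℝ) + 6 / 7) ^ R.card = 1 := by norm_num
  rw [h3, mul_one] at h1
  refine le_trans ?_ h1
  have h4 : (6 / 7 : ℝ) ^ (6 * κ.card) ≤ (6 / 7 : ℝ) ^ (bd EE κ).card :=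
    pow_le_pow_of_le_one (by norm_num) (by norm_num) (card_bd EE κ)
  calc ((1 : ℝ) / 18) ^ κ.card ≤ ((1 / 7 : ℝ) * (6 / 7) ^ 6) ^ κ.card :=
        pow_le_pow_left₀ (by norm_num) (by norm_num) _
    _ = (1 / 7 : ℝ) ^ κ.card * (6 / 7 : ℝ) ^ (6 * κ.card) := by rw [mul_pow, ← pow_mul]
    _ ≤ _ := mul_le_mul_of_nonneg_left h4 (by positivity)

private theorem ev_sub (EE : Finset Edge) (e : Edge) (κ₁ κ₂ : Finset Edge) (h1e : e ∈ κ₁)
    (h2 : κ₂ ⊆ EE) (h2e : e ∈ κ₂) (h2c : Conn κ₂) (ω : Finset Edge)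
    (hω1 : ω ∈ ev EE κ₁) (hω2 : ω ∈ ev EE κ₂) : κ₂ ⊆ κ₁ := by
  classical
  by_contra hn
  unfold ev at hω1 hω2
  rw [Finset.mem_filter, Finset.mem_powerset] at hω1 hω2
  obtain ⟨_, _, hd1⟩ := hω1
  obtain ⟨_, hs2, _⟩ := hω2
  have hB : κ₁ ∩ κ₂ ≠ κ₂ := fun h => hn (by rw [← h]; exact Finset.inter_subset_left)
  obtain ⟨a, ha, b, hb, hab⟩ := h2c (κ₁ ∩ κ₂) Finset.inter_subset_right
    ⟨e, Finset.mem_inter.2 ⟨h1e, h2e⟩⟩ hB
  rw [Finset.mem_sdiff, Finset.mem_inter] at hb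
  obtain ⟨hb2, hb3⟩ := hb
  have hb1 : b ∉ κ₁ := fun h => hb3 ⟨h, hb2⟩
  have hbb : b ∈ bd EE κ₁ := by
    unfold bd
    rw [Finset.mem_filter, Finset.mem_sdiff]
    exact ⟨⟨h2 hb2, hb1⟩, a, (Finset.mem_inter.1 ha).1, hab⟩
  exact Finset.disjoint_left.1 hd1 (hs2 hb2) hbb

theorem animal_sum (EE : Finset Edge) (e : Edge) (Q : Finset (Finset Edge))
    (hQ : ∀ κ ∈ Q, κ ⊆ EE ∧ e ∈ κ ∧ Conn κ) :
    ∑ κ ∈ Q, ((1 : ℝ) / 18) ^ κ.card ≤ 1 := by
  classical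
  have hdis : (Q : Set (Finset Edge)).PairwiseDisjoint (ev EE) := by
    intro κ₁ h₁ κ₂ h₂ hne
    rw [Function.onFun, Finset.disjoint_left]
    intro ω hω1 hω2
    obtain ⟨h11, h12, h13⟩ := hQ κ₁ h₁
    obtain ⟨h21, h22, h23⟩ := hQ κ₂ h₂
    exact hne (Finset.Subset.antisymm (ev_sub EE e κ₂ κ₁ h22 h11 h12 h13 ω hω2 hω1)
      (ev_sub EE e κ₁ κ₂ h12 h21 h22 h23 ω hω1 hω2))
  calc ∑ κ ∈ Q, ((1 : ℝ) / 18) ^ κ.card ≤ ∑ κ ∈ Q, ∑ ω ∈ ev EE κ, mw EE ω :=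
        Finset.sum_le_sum fun κ hκ => ev_weight EE κ (hQ κ hκ).1
    _ = ∑ ω ∈ Q.biUnion (ev EE), mw EE ω := (Finset.sum_biUnion hdis).symm
    _ ≤ ∑ ω ∈ EE.powerset, mw EE ω := by
        refine Finset.sum_le_sum_of_subset_of_nonneg ?_ fun ω _ _ => mw_nonneg EE ω
        intro ω hω
        rw [Finset.mem_biUnion] at hω
        obtain ⟨κ, _, hω⟩ := hω
        unfold ev at hω
        exact (Finset.mem_filter.1 hω).1
    _ = 1 := mw_sum EE

end

end Pool.Agent.H40.SQ
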