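import Mathlib
import Pool.Agent.H40.SQ.Defs
import Pool.Agent.H40.SQ.LCnt

/-!
# LSum: weighted sums over polymers

All from `animal_sum`: `x^|κ| = (18x)^|κ| (1/18)^|κ|`.
* `animal_tail`: if `18 x ≤ 1` and all `κ ∈ Q` have `|κ| ≥ m` then `∑ x^|κ| ≤ (18x)^m`.
* `animal_count`: sets with `|κ| ≤ ℓ`: `1 = 18^|κ| (1/18)^|κ| ≤ 18^ℓ (1/18)^|κ|`, so there are at most `18^ℓ` of them; for all of `Pol n ℓ`
sum over `e ∈ E n` (every `κ` is nonempty).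
* `pol_theta`: for `κ ∈ Pol n ℓ` and `Q ⊆ Pol n ℓ` with `inc κ κ'` for `κ' ∈ Q`: each `κ' ∈ Q` contains an edge `b` touching some `a ∈ κ`:
`∑_{κ'∈Q} q^|κ'| |κ'| ≤ ∑_{a∈κ} ∑_{b∈nb a} ∑_{κ'∈Q, b∈κ'} (2q)^|κ'| ≤ |κ| * 7 * 36 q` (`|κ'| ≤ 2^|κ'|`, `|κ'| ≥ 1`, `36 q ≤ 1`), and
`252 q ≤ 1/2` for `q ≤ 1/1000`.
-/

set_option autoImplicit false

namespace Pool.Agent.H40.SQ

noncomputable section

theorem animal_tail (EE : Finset Edge) (e : Edge) (Q : Finset (Finset Edge))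
    (hQ : ∀ κ ∈ Q, κ ⊆ EE ∧ e ∈ κ ∧ Conn κ) (x : ℝ) (hx0 : 0 ≤ x) (hx1 : 18 * x ≤ 1) (m : ℕ)
    (hm : ∀ κ ∈ Q, m ≤ κ.card) : ∑ κ ∈ Q, x ^ κ.card ≤ (18 * x) ^ m := by
  have h1 : ∀ κ ∈ Q, x ^ κ.card ≤ (18 * x) ^ m * ((1 : ℝ) / 18) ^ κ.card := by
    intro κ hκ
    have h2 : x ^ κ.card = (18 * x) ^ κ.card * ((1 : ℝ) / 18) ^ κ.card := by
      rw [← mul_pow]; congr 1; ring
    rw [h2]
    exact mul_le_mul_of_nonneg_right (pow_le_pow_of_le_one (by positivity) hx1 (hm κ hκ))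
      (by positivity)
  refine (Finset.sum_le_sum h1).trans ?_
  rw [← Finset.mul_sum]
  have h3 := animal_sum EE e Q hQ
  have h4 : 0 ≤ (18 * x) ^ m := by positivity
  calc (18 * x) ^ m * ∑ κ ∈ Q, ((1 : ℝ) / 18) ^ κ.card ≤ (18 * x) ^ m * 1 :=
        mul_le_mul_of_nonneg_left h3 h4
    _ = (18 * x) ^ m := mul_one _

theorem pol_card (n ℓ : ℕ) : ((Pol n ℓ).card : ℝ) ≤ (E n).card * 18 ^ ℓ := by
  classical
  have h1 : Pol n ℓ ⊆ (E n).biUnion (fun e => (Pol n ℓ).filter (fun κ => e ∈ κ)) := by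
    intro κ hκ
    obtain ⟨h2, ⟨e, he⟩, _⟩ := mem_Pol.1 hκ
    exact Finset.mem_biUnion.2 ⟨e, h2 he, Finset.mem_filter.2 ⟨hκ, he⟩⟩
  have h2 : ∀ e ∈ E n, (((Pol n ℓ).filter (fun κ => e ∈ κ)).card : ℝ) ≤ 18 ^ ℓ := by
    intro e _
    have h3 := animal_sum (E n) e ((Pol n ℓ).filter (fun κ => e ∈ κ)) (by
      intro κ hκ
      obtain ⟨h4, h5⟩ := Finset.mem_filter.1 hκ
      obtain ⟨h6, _, h7, _⟩ := mem_Pol.1 h4
      exact ⟨h6, h5, h7⟩)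
    have h4 : ∀ κ ∈ (Pol n ℓ).filter (fun κ => e ∈ κ), (1 : ℝ) ≤ 18 ^ ℓ * ((1 : ℝ) / 18) ^ κ.card := by
      intro κ hκ
      obtain ⟨h5, _⟩ := Finset.mem_filter.1 hκ
      obtain ⟨_, _, _, _, h6⟩ := mem_Pol.1 h5
      have h7 : ((1 : ℝ) / 18) ^ ℓ ≤ ((1 : ℝ) / 18) ^ κ.card :=
        pow_le_pow_of_le_one (by norm_num) (by norm_num) h6
      calc (1 : ℝ) = 18 ^ ℓ * ((1 : ℝ) / 18) ^ ℓ := by rw [← mul_pow]; norm_num
        _ ≤ _ := mul_le_mul_of_nonneg_left h7 (by positivity)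
    have h5 : (((Pol n ℓ).filter (fun κ => e ∈ κ)).card : ℝ) =
        ∑ _κ ∈ (Pol n ℓ).filter (fun κ => e ∈ κ), (1 : ℝ) := by simp
    rw [h5]
    refine (Finset.sum_le_sum h4).trans ?_
    rw [← Finset.mul_sum]
    calc (18 : ℝ) ^ ℓ * ∑ κ ∈ (Pol n ℓ).filter (fun κ => e ∈ κ), ((1 : ℝ) / 18) ^ κ.card ≤
          18 ^ ℓ * 1 := mul_le_mul_of_nonneg_left h3 (by positivity)
      _ = 18 ^ ℓ := mul_one _
  calc ((Pol n ℓ).card : ℝ) ≤ (((E n).biUnion (fun e => (Pol n ℓ).filter (fun κ => e ∈ κ))).card : ℝ) := by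
        exact_mod_cast Finset.card_le_card h1
    _ ≤ ((∑ e ∈ E n, ((Pol n ℓ).filter (fun κ => e ∈ κ)).card : ℕ) : ℝ) := by
        exact_mod_cast Finset.card_biUnion_le
    _ = ∑ e ∈ E n, (((Pol n ℓ).filter (fun κ => e ∈ κ)).card : ℝ) := by push_cast; rfl
    _ ≤ ∑ _e ∈ E n, (18 : ℝ) ^ ℓ := Finset.sum_le_sum h2
    _ = (E n).card * 18 ^ ℓ := by rw [Finset.sum_const, nsmul_eq_mul]

theorem pol_theta (n ℓ : ℕ) (q : ℝ) (hq0 : 0 < q) (hq1 : q ≤ 1 / 1000) :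
    ∀ κ ∈ Pol n ℓ, ∀ Q : Finset (Finset Edge), Q ⊆ Pol n ℓ → (∀ κ' ∈ Q, inc κ κ') →
      ∑ κ' ∈ Q, q ^ κ'.card * (κ'.card : ℝ) ≤ (1 / 2) * (κ.card : ℝ) := by
  classical
  intro κ _ Q hQ hinc
  have hf : ∀ κ' : Finset Edge, 0 ≤ q ^ κ'.card * (κ'.card : ℝ) := fun κ' => by positivity
  have h1 : ∀ κ' ∈ Q, q ^ κ'.card * (κ'.card : ℝ) ≤
      ∑ a ∈ κ, ∑ b ∈ nb a, if b ∈ κ' then q ^ κ'.card * (κ'.card : ℝ) else 0 := by
    intro κ' hκ'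
    obtain ⟨a, ha, b, hb, hab⟩ := hinc κ' hκ'
    have h2 : q ^ κ'.card * (κ'.card : ℝ) ≤
        ∑ b ∈ nb a, if b ∈ κ' then q ^ κ'.card * (κ'.card : ℝ) else 0 := by
      have h3 := Finset.single_le_sum
        (f := fun b => if b ∈ κ' then q ^ κ'.card * (κ'.card : ℝ) else 0)
        (fun b _ => by
          show (0 : ℝ) ≤ if b ∈ κ' then q ^ κ'.card * (κ'.card : ℝ) else 0
          split_ifs
          · exact hf κ'
          · exact le_rfl) (mem_nb.2 hab)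
      simp only [hb, if_true] at h3
      exact h3
    refine h2.trans ?_
    exact Finset.single_le_sum
      (f := fun a => ∑ b ∈ nb a, if b ∈ κ' then q ^ κ'.card * (κ'.card : ℝ) else 0)
      (fun a _ => Finset.sum_nonneg fun b _ => by
        split_ifs
        · exact hf κ'
        · exact le_rfl) ha
  refine (Finset.sum_le_sum h1).trans ?_
  rw [Finset.sum_comm]
  have h2 : ∀ a ∈ κ, ∑ κ' ∈ Q, ∑ b ∈ nb a, (if b ∈ κ' then q ^ κ'.card * (κ'.card : ℝ) else 0) ≤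
      1 / 2 := by
    intro a _
    rw [Finset.sum_comm]
    have h3 : ∀ b ∈ nb a, ∑ κ' ∈ Q, (if b ∈ κ' then q ^ κ'.card * (κ'.card : ℝ) else 0) ≤ 36 * q := by
      intro b _
      rw [← Finset.sum_filter]
      have h4 : ∀ κ' ∈ Q.filter (fun κ' => b ∈ κ'), q ^ κ'.card * (κ'.card : ℝ) ≤
          (2 * q) ^ κ'.card := by
        intro κ' _
        have h5 : (κ'.card : ℝ) ≤ 2 ^ κ'.card := by exact_mod_cast (Nat.lt_two_pow_self).le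
        rw [mul_pow, mul_comm]
        exact mul_le_mul_of_nonneg_right h5 (by positivity)
      refine (Finset.sum_le_sum h4).trans ?_
      have h6 := animal_tail (E n) b (Q.filter (fun κ' => b ∈ κ')) (by
        intro κ' hκ'
        obtain ⟨h7, h8⟩ := Finset.mem_filter.1 hκ'
        obtain ⟨h9, _, h10, _⟩ := mem_Pol.1 (hQ h7)
        exact ⟨h9, h8, h10⟩) (2 * q) (by positivity) (by linarith) 1 (by
        intro κ' hκ'
        obtain ⟨h7, h8⟩ := Finset.mem_filter.1 hκ'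
        exact Finset.card_pos.2 ⟨b, h8⟩)
      refine h6.trans (le_of_eq ?_)
      ring
    refine (Finset.sum_le_sum h3).trans ?_
    rw [Finset.sum_const, nsmul_eq_mul]
    have h4 : ((nb a).card : ℝ) ≤ 7 := by exact_mod_cast card_nb_le a
    nlinarith
  refine (Finset.sum_le_sum h2).trans (le_of_eq ?_)
  rw [Finset.sum_const, nsmul_eq_mul, mul_comm]

end

end Pool.Agent.H40.SQ
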