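import Mathlib
import Pool.Agent.H40.SQ.Defs
import Pool.Agent.H40.SQ.HStep
import Pool.Agent.H40.SQ.HAdd

/-!
# HFlip: the moves in terms of heights

`F (sq c) i j = sgn c.1 c.2` if `(i,j) = c`, else `0` (for `c.1 ≥ 0`): the two vertical edges of the square contribute `sgn i j` and `sgn (i+1) j = -sgn i j`.
`sq c ∈ Om n` for `c ∈ box n` (vertex condition by checking the four corners).
* `flip_mem`, `flip_flip`: from `VC_union`, `VC_sdiff`.
* `flip_wt`: if `sq c ∩ γ = ∅` then `(flip c γ).card = γ.card + 4`, `rate lam c γ = lam = q^4`, `rate lam c (flip c γ) = 1`; if `sq c ⊆ γ` the reverse; otherwise `flip c γ = γ`.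
* `F_flip`: `F (flip c γ)` differs from `F γ` only at `c`, by at most `1` in absolute value.
* `flip_of_heights`: `η, η' ∈ Om n` with `F η' = F η` except at `c ∈ box n` where `F η' = F η + 1`.  Let `s = sgn c`.  For the right neighbour `(i+1,j)` of `c = (i,j)`:
`F η (i+1) j - F η i j ∈ {0,-s}` and `F η (i+1) j - (F η i j + 1) ∈ {0,-s}`; so if `s = 1`: `F η (i+1) j = F η i j` and the edge `(true,i+1,j)` is absent in `η` and
present in `η'`; if `s = -1` it is present in `η` and absent in `η'`.  The same for the other three edges of `sq c` (`F_step`, `F_vstep`).  All other edges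
agree.  So `s = 1`: `sq c ∩ η = ∅`, `η' = η ∪ sq c`; `s = -1`: `sq c ⊆ η`, `η' = η ∖ sq c`.
-/

set_option autoImplicit false

namespace Pool.Agent.H40.SQ

noncomputable section

theorem hflip_mem_false (c : ℤ × ℤ) (i j : ℤ) :
    (false, i, j) ∈ sq c ↔ i = c.1 ∧ (j = c.2 ∨ j = c.2 + 1) := by
  simp only [sq, Finset.mem_insert, Finset.mem_singleton, Prod.mk.injEq, Bool.false_eq_true,
    false_and, or_false, true_and]
  tauto

theorem hflip_mem_true (c : ℤ × ℤ) (i j : ℤ) :
    (true, i, j) ∈ sq c ↔ j = c.2 ∧ (i = c.1 ∨ i = c.1 + 1) := by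
  simp only [sq, Finset.mem_insert, Finset.mem_singleton, Prod.mk.injEq, Bool.true_eq_false,
    false_and, false_or, true_and]
  tauto

theorem hflip_ind_cases (γ : Finset Edge) (e : Edge) : ind γ e = 0 ∨ ind γ e = 1 := by
  unfold ind
  split_ifs <;> simp

theorem hflip_mem_iff (γ : Finset Edge) (e : Edge) : e ∈ γ ↔ ind γ e = 1 := by
  unfold ind
  split_ifs with h <;> simp [h]

theorem hflip_sgn_cases (i j : ℤ) : sgn i j = 1 ∨ sgn i j = -1 := by
  unfold sgn
  split_ifs <;> simp

theorem sq_mem_Om {n : ℕ} {c : ℤ × ℤ} (hc : c ∈ box n) : sq c ∈ Om n := by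
  rw [mem_Om]
  refine ⟨Finset.subset_biUnion_of_mem sq hc, ?_⟩
  intro i j
  simp only [ind, hflip_mem_false, hflip_mem_true]
  split_ifs <;> omega

theorem card_sq (c : ℤ × ℤ) : (sq c).card = 4 := by
  obtain ⟨a, b⟩ := c
  unfold sq
  rw [Finset.card_insert_of_notMem (by simp), Finset.card_insert_of_notMem (by simp),
    Finset.card_insert_of_notMem (by simp), Finset.card_singleton]

theorem hflip_box_nonneg {n : ℕ} {c : ℤ × ℤ} (hc : c ∈ box n) : 0 ≤ c.1 := by
  unfold box at hc
  rw [Finset.mem_product, Finset.mem_Ico] at hc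
  exact hc.1.1

theorem F_sq {n : ℕ} {c : ℤ × ℤ} (hc : c ∈ box n) (i j : ℤ) :
    F (sq c) i j = if (i, j) = c then sgn c.1 c.2 else 0 := by
  have hE : sq c ⊆ E n := (mem_Om.mp (sq_mem_Om hc)).1
  have hc0 := hflip_box_nonneg hc
  have key : ∀ m : ℕ, F (sq c) ((m : ℤ) - 1) j =
      if ((m : ℤ) - 1, j) = c then sgn c.1 c.2 else 0 := by
    intro m
    induction m with
    | zero =>
      rw [F_neg _ _ _ (by norm_num), if_neg]
      intro h
      rw [← h] at hc0
      norm_num at hc0
    | succ m ih =>
      have h1 := F_step hE (((m + 1 : ℕ) : ℤ) - 1) j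
      have h2 : (((m + 1 : ℕ) : ℤ) - 1) - 1 = (m : ℤ) - 1 := by push_cast; ring
      rw [h2, ih] at h1
      have h3 : F (sq c) (((m + 1 : ℕ) : ℤ) - 1) j =
          sgn (((m + 1 : ℕ) : ℤ) - 1) j * ind (sq c) (true, ((m + 1 : ℕ) : ℤ) - 1, j) +
            (if ((m : ℤ) - 1, j) = c then sgn c.1 c.2 else 0) := by linarith
      rw [h3]
      obtain ⟨a, b⟩ := c
      simp only [ind, hflip_mem_true, Prod.mk.injEq] at *
      push_cast
      by_cases hj : j = b
      · subst hj
        by_cases ha : (m : ℤ) = a
        · subst ha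
          rw [if_pos (by constructor <;> [rfl; left] <;> ring), if_neg (by omega),
            if_pos (by constructor <;> ring)]
          rw [show (m : ℤ) + 1 - 1 = m by ring]
          ring
        · by_cases ha2 : (m : ℤ) - 1 = a
          · subst ha2
            rw [if_pos (by constructor <;> [rfl; right] <;> ring), if_pos (by simp),
              if_neg (by omega)]
            rw [show (m : ℤ) + 1 - 1 = m by ring, sgn_left]
            ring
          · rw [if_neg (by omega), if_neg (by omega), if_neg (by omega)]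
            ring
      · rw [if_neg (by omega), if_neg (by omega), if_neg (by omega)]
        ring
  by_cases hi : i < 0
  · rw [F_neg _ _ _ hi, if_neg]
    intro h
    rw [← h] at hc0
    simp only at hc0
    omega
  · have h := key (i + 1).toNat
    have h2 : (((i + 1).toNat : ℕ) : ℤ) - 1 = i := by
      rw [Int.toNat_of_nonneg (by omega)]
      ring
    rwa [h2] at h

theorem flip_mem {n : ℕ} {c : ℤ × ℤ} (hc : c ∈ box n) {γ : Finset Edge} (hγ : γ ∈ Om n) : flip c γ ∈ Om n := by
  obtain ⟨h1, h2⟩ := mem_Om.mp hγ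
  obtain ⟨h3, h4⟩ := mem_Om.mp (sq_mem_Om hc)
  unfold flip
  split_ifs with h5 h6
  · rw [mem_Om]
    refine ⟨Finset.union_subset h1 h3, VC_union ?_ h2 h4⟩
    rw [Finset.disjoint_iff_inter_eq_empty, Finset.inter_comm]
    exact h5
  · rw [mem_Om]
    exact ⟨Finset.sdiff_subset.trans h1, VC_sdiff h6 h2 h4⟩
  · exact hγ

theorem hflip_nonempty (c : ℤ × ℤ) : sq c ≠ ∅ := by
  intro h
  have := card_sq c
  rw [h, Finset.card_empty] at this
  omega

theorem flip_flip (c : ℤ × ℤ) (γ : Finset Edge) : flip c (flip c γ) = γ := by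
  by_cases h1 : sq c ∩ γ = ∅
  · have h2 : flip c γ = γ ∪ sq c := by unfold flip; rw [if_pos h1]
    have h3 : sq c ∩ (γ ∪ sq c) = sq c := Finset.inter_eq_left.mpr Finset.subset_union_right
    rw [h2]
    unfold flip
    rw [if_neg (by rw [h3]; exact hflip_nonempty c), if_pos Finset.subset_union_right,
      Finset.union_sdiff_right]
    rw [Finset.sdiff_eq_self_iff_disjoint, Finset.disjoint_iff_inter_eq_empty, Finset.inter_comm]
    exact h1
  · by_cases h2 : sq c ⊆ γ
    · have h3 : flip c γ = γ \ sq c := by unfold flip; rw [if_neg h1, if_pos h2]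
      have h4 : sq c ∩ (γ \ sq c) = ∅ := Finset.inter_sdiff_self _ _
      rw [h3]
      unfold flip
      rw [if_pos h4]
      exact Finset.sdiff_union_of_subset h2
    · have h3 : flip c γ = γ := by unfold flip; rw [if_neg h1, if_neg h2]
      rw [h3, h3]

theorem flip_wt (q lam : ℝ) (hq : q ^ 4 = lam) (c : ℤ × ℤ) (γ : Finset Edge) (h : flip c γ ≠ γ) :
    q ^ γ.card * rate lam c γ = q ^ (flip c γ).card * rate lam c (flip c γ) := by
  by_cases h1 : sq c ∩ γ = ∅
  · have h2 : flip c γ = γ ∪ sq c := by unfold flip; rw [if_pos h1]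
    have h3 : sq c ∩ (γ ∪ sq c) = sq c := Finset.inter_eq_left.mpr Finset.subset_union_right
    have h4 : (γ ∪ sq c).card = γ.card + 4 := by
      rw [Finset.card_union_of_disjoint, card_sq]
      rw [Finset.disjoint_iff_inter_eq_empty, Finset.inter_comm]
      exact h1
    rw [h2, h4]
    unfold rate
    rw [if_pos h1, if_neg (by rw [h3]; exact hflip_nonempty c), pow_add, hq]
    ring
  · by_cases h2 : sq c ⊆ γ
    · have h3 : flip c γ = γ \ sq c := by unfold flip; rw [if_neg h1, if_pos h2]
      have h4 : sq c ∩ (γ \ sq c) = ∅ := Finset.inter_sdiff_self _ _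
      have h5 : γ.card = (γ \ sq c).card + 4 := by
        rw [← card_sq c, Finset.card_sdiff_add_card_eq_card h2]
      rw [h3, h5]
      unfold rate
      rw [if_neg h1, if_pos h4, pow_add, hq]
      ring
    · exact absurd (by unfold flip; rw [if_neg h1, if_neg h2]) h

theorem hflip_ind {n : ℕ} {c : ℤ × ℤ} {η η' : Finset Edge} (hη : η ∈ Om n) (hη' : η' ∈ Om n)
    (h1 : ∀ i j, (i, j) ≠ c → F η' i j = F η i j) (h2 : F η' c.1 c.2 = F η c.1 c.2 + 1)
    (e : Edge) : ind η' e - ind η e = if e ∈ sq c then sgn c.1 c.2 else 0 := by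
  have hd : ∀ i j : ℤ, F η' i j - F η i j = if (i, j) = c then 1 else 0 := by
    intro i j
    split_ifs with h
    · rw [← h] at h2
      simp only at h2
      linarith
    · rw [h1 i j h, sub_self]
  obtain ⟨t, i, j⟩ := e
  have hsg : sgn i j * sgn i j = 1 := by
    rcases hflip_sgn_cases i j with h | h <;> rw [h] <;> norm_num
  cases t with
  | true =>
    have s1 := F_step (mem_Om.mp hη).1 i j
    have s2 := F_step (mem_Om.mp hη').1 i j
    have d1 := hd i j
    have d2 := hd (i - 1) j
    have h3 : ind η' (true, i, j) - ind η (true, i, j) =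
        sgn i j * ((F η' i j - F η i j) - (F η' (i - 1) j - F η (i - 1) j)) := by
      have : sgn i j * ((F η' i j - F η i j) - (F η' (i - 1) j - F η (i - 1) j)) =
          sgn i j * ((F η' i j - F η' (i - 1) j) - (F η i j - F η (i - 1) j)) := by ring
      rw [this, s1, s2]
      linear_combination (-(ind η' (true, i, j) - ind η (true, i, j))) * hsg
    rw [h3, d1, d2]
    obtain ⟨a, b⟩ := c
    simp only [hflip_mem_true, Prod.mk.injEq]
    by_cases hj : j = b
    · subst hj
      by_cases ha : i = a
      · subst ha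
        rw [if_pos ⟨rfl, rfl⟩, if_neg (by omega), if_pos ⟨rfl, Or.inl rfl⟩]
        ring
      · by_cases ha2 : i = a + 1
        · subst ha2
          rw [if_neg (by omega), if_pos ⟨by ring, rfl⟩, if_pos ⟨rfl, Or.inr rfl⟩]
          have := sgn_left (a + 1) j
          rw [show a + 1 - 1 = a by ring] at this
          rw [this]
          ring
        · rw [if_neg (by omega), if_neg (by omega), if_neg (by omega)]
          ring
    · rw [if_neg (by omega), if_neg (by omega), if_neg (by omega)]
      ring
  | false =>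
    have s1 := F_vstep hη i j
    have s2 := F_vstep hη' i j
    have d1 := hd i j
    have d2 := hd i (j - 1)
    have h3 : ind η' (false, i, j) - ind η (false, i, j) =
        sgn i j * ((F η' i j - F η i j) - (F η' i (j - 1) - F η i (j - 1))) := by
      have : sgn i j * ((F η' i j - F η i j) - (F η' i (j - 1) - F η i (j - 1))) =
          sgn i j * ((F η' i j - F η' i (j - 1)) - (F η i j - F η i (j - 1))) := by ring
      rw [this, s1, s2]
      linear_combination (-(ind η' (false, i, j) - ind η (false, i, j))) * hsg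
    rw [h3, d1, d2]
    obtain ⟨a, b⟩ := c
    simp only [hflip_mem_false, Prod.mk.injEq]
    by_cases ha : i = a
    · subst ha
      by_cases hj : j = b
      · subst hj
        rw [if_pos ⟨rfl, rfl⟩, if_neg (by omega), if_pos ⟨rfl, Or.inl rfl⟩]
        ring
      · by_cases hj2 : j = b + 1
        · subst hj2
          rw [if_neg (by omega), if_pos ⟨rfl, by ring⟩, if_pos ⟨rfl, Or.inr rfl⟩]
          have := sgn_down i (b + 1)
          rw [show b + 1 - 1 = b by ring] at this
          rw [this]
          ring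
        · rw [if_neg (by omega), if_neg (by omega), if_neg (by omega)]
          ring
    · rw [if_neg (by omega), if_neg (by omega), if_neg (by omega)]
      ring

theorem flip_of_heights {n : ℕ} {c : ℤ × ℤ} (hc : c ∈ box n) {η η' : Finset Edge} (hη : η ∈ Om n) (hη' : η' ∈ Om n)
    (h1 : ∀ i j, (i, j) ≠ c → F η' i j = F η i j) (h2 : F η' c.1 c.2 = F η c.1 c.2 + 1) :
    flip c η = η' := by
  have key := hflip_ind hη hη' h1 h2
  rcases hflip_sgn_cases c.1 c.2 with hs | hs
  · have h3 : sq c ∩ η = ∅ := by
      rw [Finset.eq_empty_iff_forall_notMem]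
      intro e he
      rw [Finset.mem_inter] at he
      have h4 := key e
      rw [if_pos he.1, hs, (hflip_mem_iff η e).mp he.2] at h4
      rcases hflip_ind_cases η' e with h5 | h5 <;> rw [h5] at h4 <;> norm_num at h4
    unfold flip
    rw [if_pos h3]
    ext e
    rw [Finset.mem_union, hflip_mem_iff η' e, hflip_mem_iff η e]
    have h4 := key e
    by_cases he : e ∈ sq c
    · rw [if_pos he, hs] at h4
      rcases hflip_ind_cases η' e with h5 | h5 <;> rcases hflip_ind_cases η e with h6 | h6 <;>
        rw [h5, h6] at h4 <;> norm_num at h4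
      simp [h5, he]
    · rw [if_neg he] at h4
      have h5 : ind η' e = ind η e := by linarith
      simp [h5, he]
  · have h3 : sq c ⊆ η := by
      intro e he
      have h4 := key e
      rw [if_pos he, hs] at h4
      rw [hflip_mem_iff]
      rcases hflip_ind_cases η' e with h5 | h5 <;> rcases hflip_ind_cases η e with h6 | h6 <;>
        rw [h5, h6] at h4 <;> norm_num at h4
      exact h6
    have h3' : ¬ sq c ∩ η = ∅ := by
      rw [Finset.inter_eq_left.mpr h3]
      exact hflip_nonempty c
    unfold flip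
    rw [if_neg h3', if_pos h3]
    ext e
    rw [Finset.mem_sdiff, hflip_mem_iff η' e, hflip_mem_iff η e]
    have h4 := key e
    by_cases he : e ∈ sq c
    · rw [if_pos he, hs] at h4
      rcases hflip_ind_cases η' e with h5 | h5 <;> rcases hflip_ind_cases η e with h6 | h6 <;>
        rw [h5, h6] at h4 <;> norm_num at h4
      simp [h5, he]
    · rw [if_neg he] at h4
      have h5 : ind η' e = ind η e := by linarith
      simp [h5, he]

end

end Pool.Agent.H40.SQ
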