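import Mathlib
import Pool.Agent.H40.SQ.Defs
import Pool.Agent.H40.SQ.HFlip

/-!
# CSa: the chain is reversible for the weights `q^card`, `lam = q^4`

For `c ∈ box n` the map `flip c` is an involution of `Om n` (`flip_mem`, `flip_flip`) and `W γ * rate c γ * d(γ) ` with `d = 0` when `flip c γ = γ` is invariant (`flip_wt`).  So `∑_γ W γ rate c γ (g(flip c γ) - g γ) h γ = ∑_γ W γ rate c γ (g γ - g (flip c γ)) h (flip c γ)`, hence both are
`-(1/2) ∑ W rate (g(flip) - g)(h(flip) - h)`, symmetric.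
* `TP_dir`: with `h = g`.  * `TP_dir_lb`: `rate ≥ lam` where the difference is not zero (`rate ∈ {lam, 1}`, `lam ≤ 1`).
* `TP_const`.  * `TP_sup`: `TP g γ = (1 - (1/n^2) ∑_{c: flip c γ ≠ γ} rate) g γ + (1/n^2) ∑ rate g(flip c γ)`, the coefficients are `≥ 0` with sum 1 (`(box n).card = n^2`, `rate ≤ 1`); for `n = 0` trivial.
* `TP_contr`: Jensen `(TP g γ)^2 ≤ TP (g^2) γ`, and `∑ W TP(g^2) = ∑ W g^2` (self-adjointness with the constant 1).
* `TP_mono`: positivity.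
-/

set_option autoImplicit false

namespace Pool.Agent.H40.SQ

noncomputable section

theorem csa_apply (n : ℕ) (lam : ℝ) (g : Finset Edge → ℝ) (γ : Finset Edge) :
    TP lam n g γ = g γ + (1 / (n : ℝ) ^ 2) * ∑ c ∈ box n, rate lam c γ * (g (flip c γ) - g γ) :=
  rfl

theorem csa_inv (q lam : ℝ) (hq : q ^ 4 = lam) (c : ℤ × ℤ) (γ : Finset Edge) :
    q ^ (flip c γ).card * rate lam c (flip c γ) = q ^ γ.card * rate lam c γ := by
  by_cases h : flip c γ = γ
  · rw [h]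
  · exact (flip_wt q lam hq c γ h).symm

theorem csa_reindex (n : ℕ) (c : ℤ × ℤ) (hc : c ∈ box n) (φ : Finset Edge → ℝ) :
    ∑ γ ∈ Om n, φ (flip c γ) = ∑ γ ∈ Om n, φ γ := by
  refine Finset.sum_nbij' (fun γ => flip c γ) (fun γ => flip c γ) ?_ ?_ ?_ ?_ ?_
  · intro γ hγ
    exact flip_mem hc hγ
  · intro γ hγ
    exact flip_mem hc hγ
  · intro γ _
    exact flip_flip c γ
  · intro γ _
    exact flip_flip c γ
  · intro γ _
    rfl

theorem csa_swap (n : ℕ) (q lam : ℝ) (hq : q ^ 4 = lam) (c : ℤ × ℤ) (hc : c ∈ box n)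
    (g h : Finset Edge → ℝ) :
    ∑ γ ∈ Om n, q ^ γ.card * rate lam c γ * g (flip c γ) * h γ =
      ∑ γ ∈ Om n, q ^ γ.card * rate lam c γ * g γ * h (flip c γ) := by
  rw [← csa_reindex n c hc (fun γ => q ^ γ.card * rate lam c γ * g (flip c γ) * h γ)]
  apply Finset.sum_congr rfl
  intro γ _
  rw [flip_flip, csa_inv q lam hq]

theorem csa_box_card (n : ℕ) : ((box n).card : ℝ) = (n : ℝ) ^ 2 := by
  unfold box
  rw [Finset.card_product, Int.card_Ico, sub_zero, Int.toNat_natCast]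
  push_cast
  ring

theorem csa_box_le (n : ℕ) : (1 / (n : ℝ) ^ 2) * ((box n).card : ℝ) ≤ 1 := by
  rw [csa_box_card]
  by_cases hn : (n : ℝ) ^ 2 = 0
  · rw [hn]
    norm_num
  · rw [one_div, inv_mul_cancel₀ hn]

theorem csa_rate_nonneg (lam : ℝ) (h0 : 0 ≤ lam) (c : ℤ × ℤ) (γ : Finset Edge) :
    0 ≤ rate lam c γ := by
  unfold rate
  split_ifs
  · exact h0
  · exact zero_le_one

theorem csa_rate_le (lam : ℝ) (h1 : lam ≤ 1) (c : ℤ × ℤ) (γ : Finset Edge) :
    rate lam c γ ≤ 1 := by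
  unfold rate
  split_ifs
  · exact h1
  · exact le_refl 1

theorem csa_le_rate (lam : ℝ) (h1 : lam ≤ 1) (c : ℤ × ℤ) (γ : Finset Edge) :
    lam ≤ rate lam c γ := by
  unfold rate
  split_ifs
  · exact le_refl lam
  · exact h1

theorem csa_expand (n : ℕ) (q lam : ℝ) (g h : Finset Edge → ℝ) :
    ∑ γ ∈ Om n, q ^ γ.card * TP lam n g γ * h γ =
      ∑ γ ∈ Om n, q ^ γ.card * g γ * h γ + (1 / (n : ℝ) ^ 2) * ∑ c ∈ box n,
        (∑ γ ∈ Om n, q ^ γ.card * rate lam c γ * g (flip c γ) * h γ -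
          ∑ γ ∈ Om n, q ^ γ.card * rate lam c γ * g γ * h γ) := by
  have h1 : ∀ c ∈ box n, (∑ γ ∈ Om n, q ^ γ.card * rate lam c γ * g (flip c γ) * h γ -
          ∑ γ ∈ Om n, q ^ γ.card * rate lam c γ * g γ * h γ) =
      ∑ γ ∈ Om n, q ^ γ.card * h γ * (rate lam c γ * (g (flip c γ) - g γ)) := by
    intro c _
    rw [← Finset.sum_sub_distrib]
    apply Finset.sum_congr rfl
    intro γ _
    ring
  rw [Finset.sum_congr rfl h1, Finset.sum_comm, Finset.mul_sum, ← Finset.sum_add_distrib]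
  apply Finset.sum_congr rfl
  intro γ _
  rw [csa_apply, ← Finset.mul_sum]
  ring

theorem TP_sa (n : ℕ) (q lam : ℝ) (hq : q ^ 4 = lam) (g h : Finset Edge → ℝ) :
    ∑ γ ∈ Om n, q ^ γ.card * TP lam n g γ * h γ = ∑ γ ∈ Om n, q ^ γ.card * g γ * TP lam n h γ := by
  have h2 : ∑ γ ∈ Om n, q ^ γ.card * g γ * TP lam n h γ =
      ∑ γ ∈ Om n, q ^ γ.card * TP lam n h γ * g γ := by
    apply Finset.sum_congr rfl
    intro γ _
    ring
  rw [h2, csa_expand, csa_expand]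
  congr 1
  · apply Finset.sum_congr rfl
    intro γ _
    ring
  · congr 1
    apply Finset.sum_congr rfl
    intro c hc
    congr 1
    · rw [csa_swap n q lam hq c hc g h]
      apply Finset.sum_congr rfl
      intro γ _
      ring
    · apply Finset.sum_congr rfl
      intro γ _
      ring

theorem TP_dir_lb (n : ℕ) (q lam : ℝ) (hq : q ^ 4 = lam) (hq0 : 0 < q) (hq1 : q ≤ 1) (g : Finset Edge → ℝ) :
    lam / (2 * (n : ℝ) ^ 2) * ∑ x ∈ box n, ∑ γ ∈ Om n, q ^ γ.card * (g (flip x γ) - g γ) ^ 2 ≤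
      ∑ γ ∈ Om n, q ^ γ.card * g γ * (g γ - TP lam n g γ) := by
  have hlam1 : lam ≤ 1 := by
    rw [← hq]
    exact pow_le_one₀ hq0.le hq1
  have h1 : ∑ γ ∈ Om n, q ^ γ.card * g γ * (g γ - TP lam n g γ) =
      (1 / (n : ℝ) ^ 2) * ∑ c ∈ box n, (1 / 2) * ∑ γ ∈ Om n,
        q ^ γ.card * rate lam c γ * (g (flip c γ) - g γ) ^ 2 := by
    have e1 : ∑ γ ∈ Om n, q ^ γ.card * g γ * (g γ - TP lam n g γ) =
        ∑ γ ∈ Om n, q ^ γ.card * g γ * g γ - ∑ γ ∈ Om n, q ^ γ.card * TP lam n g γ * g γ := by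
      rw [← Finset.sum_sub_distrib]
      apply Finset.sum_congr rfl
      intro γ _
      ring
    rw [e1, csa_expand]
    have e2 : ∀ c ∈ box n, (1 / 2 : ℝ) * ∑ γ ∈ Om n,
        q ^ γ.card * rate lam c γ * (g (flip c γ) - g γ) ^ 2 =
        -(∑ γ ∈ Om n, q ^ γ.card * rate lam c γ * g (flip c γ) * g γ -
          ∑ γ ∈ Om n, q ^ γ.card * rate lam c γ * g γ * g γ) := by
      intro c hc
      have e3 := csa_reindex n c hc (fun γ => q ^ γ.card * rate lam c γ * g γ * g γ)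
      have e4 : ∑ γ ∈ Om n, q ^ (flip c γ).card * rate lam c (flip c γ) * g (flip c γ) *
          g (flip c γ) = ∑ γ ∈ Om n, q ^ γ.card * rate lam c γ * g (flip c γ) ^ 2 := by
        apply Finset.sum_congr rfl
        intro γ _
        rw [csa_inv q lam hq]
        ring
      rw [e4] at e3
      have e5 : ∑ γ ∈ Om n, q ^ γ.card * rate lam c γ * (g (flip c γ) - g γ) ^ 2 =
          ∑ γ ∈ Om n, q ^ γ.card * rate lam c γ * g (flip c γ) ^ 2 -
            2 * ∑ γ ∈ Om n, q ^ γ.card * rate lam c γ * g (flip c γ) * g γ +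
            ∑ γ ∈ Om n, q ^ γ.card * rate lam c γ * g γ * g γ := by
        rw [Finset.mul_sum, ← Finset.sum_sub_distrib, ← Finset.sum_add_distrib]
        apply Finset.sum_congr rfl
        intro γ _
        ring
      rw [e5, e3]
      ring
    rw [Finset.sum_congr rfl e2, Finset.sum_neg_distrib]
    ring
  rw [h1]
  have h2 : lam / (2 * (n : ℝ) ^ 2) * ∑ x ∈ box n, ∑ γ ∈ Om n,
      q ^ γ.card * (g (flip x γ) - g γ) ^ 2 = (1 / (n : ℝ) ^ 2) * ∑ c ∈ box n,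
        (1 / 2) * ∑ γ ∈ Om n, q ^ γ.card * lam * (g (flip c γ) - g γ) ^ 2 := by
    rw [← Finset.mul_sum]
    have e6 : ∑ c ∈ box n, ∑ γ ∈ Om n, q ^ γ.card * lam * (g (flip c γ) - g γ) ^ 2 =
        lam * ∑ x ∈ box n, ∑ γ ∈ Om n, q ^ γ.card * (g (flip x γ) - g γ) ^ 2 := by
      rw [Finset.mul_sum]
      apply Finset.sum_congr rfl
      intro c _
      rw [Finset.mul_sum]
      apply Finset.sum_congr rfl
      intro γ _
      ring
    rw [e6]
    by_cases hn : (n : ℝ) ^ 2 = 0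
    · rw [hn]
      simp
    · field_simp
  rw [h2]
  apply mul_le_mul_of_nonneg_left _ (by positivity)
  apply Finset.sum_le_sum
  intro c _
  apply mul_le_mul_of_nonneg_left _ (by norm_num)
  apply Finset.sum_le_sum
  intro γ _
  apply mul_le_mul_of_nonneg_right _ (sq_nonneg _)
  exact mul_le_mul_of_nonneg_left (csa_le_rate lam hlam1 c γ) (by positivity)

theorem TP_const (n : ℕ) (lam c : ℝ) : TP lam n (fun _ => c) = fun _ => c := by
  funext γ
  rw [csa_apply]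
  simp

theorem csa_upper (n : ℕ) (lam : ℝ) (h0 : 0 ≤ lam) (h1 : lam ≤ 1) (g : Finset Edge → ℝ) (b : ℝ)
    (γ : Finset Edge) (hγ : g γ ≤ b) (hf : ∀ c ∈ box n, g (flip c γ) ≤ b) :
    TP lam n g γ ≤ b := by
  rw [csa_apply]
  have h2 : ∑ c ∈ box n, rate lam c γ * (g (flip c γ) - g γ) ≤ ∑ c ∈ box n, (b - g γ) := by
    apply Finset.sum_le_sum
    intro c hc
    calc rate lam c γ * (g (flip c γ) - g γ) ≤ rate lam c γ * (b - g γ) :=
          mul_le_mul_of_nonneg_left (by linarith [hf c hc]) (csa_rate_nonneg lam h0 c γ)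
      _ ≤ 1 * (b - g γ) :=
          mul_le_mul_of_nonneg_right (csa_rate_le lam h1 c γ) (by linarith)
      _ = b - g γ := one_mul _
  rw [Finset.sum_const, nsmul_eq_mul] at h2
  have h3 : (1 / (n : ℝ) ^ 2) * ∑ c ∈ box n, rate lam c γ * (g (flip c γ) - g γ) ≤
      (1 / (n : ℝ) ^ 2) * (((box n).card : ℝ) * (b - g γ)) :=
    mul_le_mul_of_nonneg_left h2 (by positivity)
  have h4 : (1 / (n : ℝ) ^ 2) * (((box n).card : ℝ) * (b - g γ)) ≤ 1 * (b - g γ) := by
    rw [← mul_assoc]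
    exact mul_le_mul_of_nonneg_right (csa_box_le n) (by linarith)
  linarith

theorem csa_neg (n : ℕ) (lam : ℝ) (g : Finset Edge → ℝ) (γ : Finset Edge) :
    TP lam n (fun η => - g η) γ = - TP lam n g γ := by
  rw [csa_apply, csa_apply]
  have h : ∀ c ∈ box n, rate lam c γ * (-g (flip c γ) - -g γ) =
      - (rate lam c γ * (g (flip c γ) - g γ)) := by
    intro c _
    ring
  rw [Finset.sum_congr rfl h, Finset.sum_neg_distrib]
  ring

theorem csa_lower (n : ℕ) (lam : ℝ) (h0 : 0 ≤ lam) (h1 : lam ≤ 1) (g : Finset Edge → ℝ) (a : ℝ)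
    (γ : Finset Edge) (hγ : a ≤ g γ) (hf : ∀ c ∈ box n, a ≤ g (flip c γ)) :
    a ≤ TP lam n g γ := by
  have h := csa_upper n lam h0 h1 (fun η => - g η) (-a) γ (by linarith)
    (fun c hc => by have := hf c hc; linarith)
  rw [csa_neg] at h
  linarith

theorem TP_sup (n : ℕ) (lam : ℝ) (h0 : 0 ≤ lam) (h1 : lam ≤ 1) (g : Finset Edge → ℝ) (a b : ℝ)
    (hg : ∀ γ ∈ Om n, a ≤ g γ ∧ g γ ≤ b) : ∀ γ ∈ Om n, a ≤ TP lam n g γ ∧ TP lam n g γ ≤ b := by
  intro γ hγ
  refine ⟨csa_lower n lam h0 h1 g a γ (hg γ hγ).1 ?_, csa_upper n lam h0 h1 g b γ (hg γ hγ).2 ?_⟩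
  · intro c hc
    exact (hg _ (flip_mem hc hγ)).1
  · intro c hc
    exact (hg _ (flip_mem hc hγ)).2

theorem TP_contr (n : ℕ) (q lam : ℝ) (hq : q ^ 4 = lam) (hq0 : 0 < q) (hq1 : q ≤ 1) (g : Finset Edge → ℝ) :
    ∑ γ ∈ Om n, q ^ γ.card * (TP lam n g γ) ^ 2 ≤ ∑ γ ∈ Om n, q ^ γ.card * g γ ^ 2 := by
  have hlam1 : lam ≤ 1 := by
    rw [← hq]
    exact pow_le_one₀ hq0.le hq1
  have hlam0 : 0 ≤ lam := by
    rw [← hq]
    positivity
  have hJ : ∀ γ, (TP lam n g γ) ^ 2 ≤ TP lam n (fun η => g η ^ 2) γ := by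
    intro γ
    obtain ⟨m, hm⟩ : ∃ m, m = TP lam n g γ := ⟨_, rfl⟩
    have h1 := csa_lower n lam hlam0 hlam1 (fun η => (g η - m) ^ 2) 0 γ (sq_nonneg _)
      (fun c _ => sq_nonneg _)
    have h2 : TP lam n (fun η => (g η - m) ^ 2) γ =
        TP lam n (fun η => g η ^ 2) γ - 2 * m * TP lam n g γ + m ^ 2 := by
      rw [csa_apply, csa_apply, csa_apply]
      have h3 : ∀ c ∈ box n, rate lam c γ * ((g (flip c γ) - m) ^ 2 - (g γ - m) ^ 2) =
          rate lam c γ * (g (flip c γ) ^ 2 - g γ ^ 2) -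
            2 * m * (rate lam c γ * (g (flip c γ) - g γ)) := by
        intro c _
        ring
      rw [Finset.sum_congr rfl h3, Finset.sum_sub_distrib, ← Finset.mul_sum]
      ring
    rw [h2, ← hm] at h1
    rw [← hm]
    nlinarith
  calc ∑ γ ∈ Om n, q ^ γ.card * (TP lam n g γ) ^ 2
      ≤ ∑ γ ∈ Om n, q ^ γ.card * TP lam n (fun η => g η ^ 2) γ * (fun _ => (1 : ℝ)) γ := by
        apply Finset.sum_le_sum
        intro γ _
        dsimp only
        rw [mul_one]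
        exact mul_le_mul_of_nonneg_left (hJ γ) (by positivity)
    _ = ∑ γ ∈ Om n, q ^ γ.card * (fun η => g η ^ 2) γ * TP lam n (fun _ => (1 : ℝ)) γ :=
        TP_sa n q lam hq _ _
    _ = ∑ γ ∈ Om n, q ^ γ.card * g γ ^ 2 := by
        rw [TP_const]
        apply Finset.sum_congr rfl
        intro γ _
        dsimp only
        rw [mul_one]

end

end Pool.Agent.H40.SQ
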