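import Mathlib
import Pool.Agent.H40.SQ.Defs

/-!
# GBij: the bijection `(X, κ ∈ X) ↔ (Y, κ addable to Y)`, `Y = X.erase κ`

For `X ∈ St P r`, `κ ∈ X`: `Y = X.erase κ ∈ St P r`, `κ ∉ Y`, `insert κ Y = X` is compatible, so `κ ∈ Add P r Y`, and
`wt w X = w κ * wt w Y` (`Finset.mul_prod_erase`).  Conversely for `Y ∈ St P r`, `κ ∈ Add P r Y`: `X = insert κ Y ∈ St P r`,
`X.erase κ = Y`.  Use `Finset.sum_sigma'` and `Finset.sum_bij'` (or `Finset.sum_nbij'`).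
-/

set_option autoImplicit false

namespace Pool.Agent.H40.SQ

noncomputable section

variable {ι : Type} [DecidableEq ι]


private theorem erase_mem_St' {P : Finset ι} {r : ι → ι → Prop} {X : Finset ι} (hX : X ∈ St P r)
    (κ : ι) : X.erase κ ∈ St P r := by
  refine mem_St.2 ⟨(Finset.erase_subset κ X).trans (mem_St.1 hX).1, ?_⟩
  intro a ha b hb hab
  exact (mem_St.1 hX).2 a (Finset.mem_of_mem_erase ha) b (Finset.mem_of_mem_erase hb) hab

theorem sum_remove_eq_sum_add (P : Finset ι) (r : ι → ι → Prop) (w : ι → ℝ)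
    (Ψ : Finset ι → Finset ι → ℝ) :
    ∑ X ∈ St P r, ∑ κ ∈ X, wt w X * Ψ X (X.erase κ) =
      ∑ Y ∈ St P r, ∑ κ ∈ Add P r Y, wt w Y * w κ * Ψ (insert κ Y) Y := by
  classical
  rw [Finset.sum_sigma', Finset.sum_sigma']
  refine Finset.sum_bij' (fun p _ => (⟨p.1.erase p.2, p.2⟩ : (_ : Finset ι) × ι))
    (fun p _ => (⟨insert p.2 p.1, p.2⟩ : (_ : Finset ι) × ι)) ?_ ?_ ?_ ?_ ?_
  · rintro ⟨X, κ⟩ h
    simp only [Finset.mem_sigma] at h ⊢
    obtain ⟨hX, hκ⟩ := h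
    refine ⟨erase_mem_St' hX κ, mem_Add.2 ⟨(mem_St.1 hX).1 hκ, Finset.notMem_erase κ X, ?_⟩⟩
    rw [Finset.insert_erase hκ]
    exact (mem_St.1 hX).2
  · rintro ⟨Y, κ⟩ h
    simp only [Finset.mem_sigma] at h ⊢
    obtain ⟨hY, hκ⟩ := h
    obtain ⟨h1, h2, h3⟩ := mem_Add.1 hκ
    exact ⟨mem_St.2 ⟨Finset.insert_subset h1 (mem_St.1 hY).1, h3⟩, Finset.mem_insert_self _ _⟩
  · rintro ⟨X, κ⟩ h
    simp only [Finset.mem_sigma] at h
    simp only [Finset.insert_erase h.2]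
  · rintro ⟨Y, κ⟩ h
    simp only [Finset.mem_sigma] at h
    simp only [Finset.erase_insert (mem_Add.1 h.2).2.1]
  · rintro ⟨X, κ⟩ h
    simp only [Finset.mem_sigma] at h
    simp only [Finset.insert_erase h.2]
    have h1 : wt w X = wt w (X.erase κ) * w κ := by
      unfold wt
      rw [mul_comm]
      exact (Finset.mul_prod_erase X w h.2).symm
    rw [h1]

theorem erase_mem_St {P : Finset ι} {r : ι → ι → Prop} {X : Finset ι} (hX : X ∈ St P r) (κ : ι) :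
    X.erase κ ∈ St P r := by
  exact erase_mem_St' hX κ

theorem insert_mem_St {P : Finset ι} {r : ι → ι → Prop} {Y : Finset ι} (hY : Y ∈ St P r) {κ : ι}
    (h : κ ∈ Add P r Y) : insert κ Y ∈ St P r := by
  obtain ⟨h1, _, h3⟩ := mem_Add.1 h
  exact mem_St.2 ⟨Finset.insert_subset h1 (mem_St.1 hY).1, h3⟩

end

end Pool.Agent.H40.SQ
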