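import Mathlib
import Pool.Agent.H40.SQ.Defs
import Pool.Agent.H40.SQ.GBij

/-!
# GLip: contraction of the Lipschitz seminorm

Let `X ∈ St P r`, `κ0 ∈ X`, `Y = X.erase κ0`, `D Z = g(insert κ0 Z) - g Z`, so `|D Y| ≤ c s κ0` and more generally
`|D Z| ≤ c s κ0` whenever `insert κ0 Z ∈ St P r`, `κ0 ∉ Z`.  Expand `opK g X - opK g Y`:
* sum over `κ ∈ X`: `κ = κ0` gives `g Y - g X = -D Y`; `κ ∈ Y` gives (together with the removal of `κ` from `Y`)
`[g(X∖κ) - g X] - [g(Y∖κ) - g Y] = D(Y∖κ) - D Y`.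
* additions: `Add P r X ⊆ Add P r Y` (for `κ ∈ Add P r X`: `κ ≠ κ0`, `insert κ Y ⊆ insert κ X`), common ones give
`w κ (D(insert κ Y) - D Y)` (`insert κ X = insert κ0 (insert κ Y)`);
the others, `κ ∈ Add P r Y ∖ Add P r X`: either `κ = κ0`, or `r κ κ0` or `r κ0 κ` (incompatible with `κ0` only); with `hsymm`, `hrefl`
all of them satisfy `r κ0 κ`.  They contribute `-w κ (g(insert κ Y) - g Y)`, of absolute value `≤ w κ c s κ`.
So `opK g X - opK g Y = (1 - ε (1 + |Y| + ∑_{Add X} w)) D Y + ε ∑_{κ∈Y} D(Y∖κ) + ε ∑_{κ∈Add X} w κ D(insert κ Y) + R`,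
`|R| ≤ ε c ∑_{κ∈P, r κ0 κ} w κ s κ ≤ ε c θ s κ0`.  The coefficient of `D Y` is `≥ 0` because `1 + |Y| = |X| ≤ B`.  Total
`≤ c s κ0 (1 - ε (1 + |Y| + ∑w) + ε|Y| + ε ∑ w + ε θ) = c s κ0 (1 - ε(1-θ))`.
-/

set_option autoImplicit false

namespace Pool.Agent.H40.SQ

noncomputable section

variable {ι : Type} [DecidableEq ι]


theorem opK_lip (P : Finset ι) (r : ι → ι → Prop) (hsymm : ∀ a b, r a b → r b a) (hrefl : ∀ a ∈ P, r a a)
    (w s : ι → ℝ) (hw : ∀ κ ∈ P, 0 ≤ w κ) (hs : ∀ κ ∈ P, 0 ≤ s κ) (θ : ℝ)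
    (hθ : ∀ κ ∈ P, ∀ Q : Finset ι, Q ⊆ P → (∀ κ' ∈ Q, r κ κ') → ∑ κ' ∈ Q, w κ' * s κ' ≤ θ * s κ)
    (ε B : ℝ) (hε : 0 ≤ ε) (hB : ∀ X ∈ St P r, (X.card : ℝ) ≤ B) (hεB : ε * (B + ∑ κ ∈ P, w κ) ≤ 1)
    (g : Finset ι → ℝ) (c : ℝ) (hc : 0 ≤ c)
    (hg : ∀ X ∈ St P r, ∀ κ ∈ X, |g X - g (X.erase κ)| ≤ c * s κ) :
    ∀ X ∈ St P r, ∀ κ ∈ X, |opK P r w ε g X - opK P r w ε g (X.erase κ)| ≤
      c * (1 - ε * (1 - θ)) * s κ := by
  intro X hX κ0 hκ0
  set Y := X.erase κ0 with hY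
  have hXY : insert κ0 Y = X := Finset.insert_erase hκ0
  have hκY : κ0 ∉ Y := Finset.notMem_erase κ0 X
  have hYX : Y ⊆ X := Finset.erase_subset κ0 X
  have hYS : Y ∈ St P r := erase_mem_St hX κ0
  have hXm := mem_St.1 hX
  have hκP : κ0 ∈ P := hXm.1 hκ0
  set D : Finset ι → ℝ := fun Z => g (insert κ0 Z) - g Z with hD
  have hDb : ∀ Z, insert κ0 Z ∈ St P r → κ0 ∉ Z → |D Z| ≤ c * s κ0 := by
    intro Z hZ hZ0
    have h := hg _ hZ κ0 (Finset.mem_insert_self _ _)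
    rwa [Finset.erase_insert hZ0] at h
  have hDY : |D Y| ≤ c * s κ0 := hDb Y (by rw [hXY]; exact hX) hκY
  have hAXP : Add P r X ⊆ P := fun κ hκ => (mem_Add.1 hκ).1
  have hsub : Add P r X ⊆ Add P r Y := by
    intro κ hκ
    obtain ⟨h1, h2, h3⟩ := mem_Add.1 hκ
    refine mem_Add.2 ⟨h1, fun h => h2 (hYX h), ?_⟩
    intro a ha b hb hab
    exact h3 a (Finset.insert_subset_insert κ hYX ha) b (Finset.insert_subset_insert κ hYX hb) hab
  have hrest : ∀ κ ∈ Add P r Y \ Add P r X, r κ0 κ := by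
    intro κ hκ
    rw [Finset.mem_sdiff] at hκ
    obtain ⟨h1, h2, h3⟩ := mem_Add.1 hκ.1
    by_cases hk : κ = κ0
    · rw [hk]
      exact hrefl κ0 hκP
    · have hkX : κ ∉ X := by
        rw [← hXY, Finset.mem_insert]
        rintro (h | h)
        · exact hk h
        · exact h2 h
      by_contra hcon
      apply hκ.2
      refine mem_Add.2 ⟨h1, hkX, ?_⟩
      intro a ha b hb hab hr
      rw [Finset.mem_insert] at ha hb
      rcases ha with ha | ha
      · rcases hb with hb | hb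
        · exact hab (ha.trans hb.symm)
        · by_cases hb0 : b = κ0
          · rw [ha, hb0] at hr
            exact hcon (hsymm _ _ hr)
          · refine h3 a ?_ b ?_ hab hr
            · rw [ha]; exact Finset.mem_insert_self _ _
            · exact Finset.mem_insert_of_mem (Finset.mem_erase.2 ⟨hb0, hb⟩)
      · rcases hb with hb | hb
        · by_cases ha0 : a = κ0
          · rw [hb, ha0] at hr
            exact hcon hr
          · refine h3 a ?_ b ?_ hab hr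
            · exact Finset.mem_insert_of_mem (Finset.mem_erase.2 ⟨ha0, ha⟩)
            · rw [hb]; exact Finset.mem_insert_self _ _
        · exact hXm.2 a ha b hb hab hr
  -- the removal sums
  have hS1 : ∑ κ ∈ X, (g (X.erase κ) - g X) - ∑ κ ∈ Y, (g (Y.erase κ) - g Y) =
      -D Y + (∑ κ ∈ Y, D (Y.erase κ) - Y.card * D Y) := by
    have h1 : ∑ κ ∈ X, (g (X.erase κ) - g X) =
        (g Y - g X) + ∑ κ ∈ Y, (g (X.erase κ) - g X) := by
      conv_lhs => rw [← hXY]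
      rw [Finset.sum_insert hκY, hXY]
    have h2 : ∀ κ ∈ Y, X.erase κ = insert κ0 (Y.erase κ) := by
      intro κ hκ
      have hne : κ ≠ κ0 := fun h => hκY (h ▸ hκ)
      rw [← hXY, Finset.erase_insert_of_ne hne.symm]
    have h3 : ∑ κ ∈ Y, (g (X.erase κ) - g X) - ∑ κ ∈ Y, (g (Y.erase κ) - g Y) =
        ∑ κ ∈ Y, (D (Y.erase κ) - D Y) := by
      rw [← Finset.sum_sub_distrib]
      refine Finset.sum_congr rfl fun κ hκ => ?_
      simp only [hD]
      rw [h2 κ hκ, hXY]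
      ring
    have h4 : ∑ κ ∈ Y, (D (Y.erase κ) - D Y) = ∑ κ ∈ Y, D (Y.erase κ) - Y.card * D Y := by
      rw [Finset.sum_sub_distrib, Finset.sum_const, nsmul_eq_mul]
    have h5 : D Y = g X - g Y := by
      simp only [hD]
      rw [hXY]
    rw [h1, ← h4, ← h3]
    rw [h5]
    ring
  have hS2 : ∑ κ ∈ Add P r X, w κ * (g (insert κ X) - g X) -
      ∑ κ ∈ Add P r Y, w κ * (g (insert κ Y) - g Y) =
      (∑ κ ∈ Add P r X, w κ * D (insert κ Y) - (∑ κ ∈ Add P r X, w κ) * D Y) -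
        ∑ κ ∈ Add P r Y \ Add P r X, w κ * (g (insert κ Y) - g Y) := by
    have h1 := Finset.sum_sdiff (f := fun κ => w κ * (g (insert κ Y) - g Y)) hsub
    rw [← h1]
    have h2 : ∑ κ ∈ Add P r X, w κ * D (insert κ Y) - (∑ κ ∈ Add P r X, w κ) * D Y =
        ∑ κ ∈ Add P r X, w κ * (g (insert κ X) - g X) -
          ∑ κ ∈ Add P r X, w κ * (g (insert κ Y) - g Y) := by
      rw [Finset.sum_mul, ← Finset.sum_sub_distrib, ← Finset.sum_sub_distrib]
      refine Finset.sum_congr rfl fun κ _ => ?_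
      simp only [hD]
      rw [Finset.insert_comm, hXY]
      ring
    rw [h2]
    ring
  set WX : ℝ := ∑ κ ∈ Add P r X, w κ with hWX
  have hWX0 : 0 ≤ WX := Finset.sum_nonneg fun κ hκ => hw κ (hAXP hκ)
  have hWXP : WX ≤ ∑ κ ∈ P, w κ :=
    Finset.sum_le_sum_of_subset_of_nonneg hAXP fun κ hκ _ => hw κ hκ
  set M : ℝ := c * s κ0 with hM
  have hM0 : 0 ≤ M := mul_nonneg hc (hs κ0 hκP)
  have hb1 : |∑ κ ∈ Y, D (Y.erase κ)| ≤ Y.card * M := by
    refine (Finset.abs_sum_le_sum_abs _ _).trans ?_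
    rw [← nsmul_eq_mul]
    refine Finset.sum_le_card_nsmul _ _ _ fun κ hκ => ?_
    have hne : κ ≠ κ0 := fun h => hκY (h ▸ hκ)
    refine hDb _ ?_ (fun h => hκY (Finset.mem_of_mem_erase h))
    have h2 : insert κ0 (Y.erase κ) = X.erase κ := by
      conv_rhs => rw [← hXY]
      rw [Finset.erase_insert_of_ne hne.symm]
    rw [h2]
    exact erase_mem_St hX κ
  have hb2 : |∑ κ ∈ Add P r X, w κ * D (insert κ Y)| ≤ WX * M := by
    refine (Finset.abs_sum_le_sum_abs _ _).trans ?_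
    rw [hWX, Finset.sum_mul]
    refine Finset.sum_le_sum fun κ hκ => ?_
    rw [abs_mul, abs_of_nonneg (hw κ (hAXP hκ))]
    refine mul_le_mul_of_nonneg_left (hDb _ ?_ ?_) (hw κ (hAXP hκ))
    · rw [Finset.insert_comm, hXY]
      exact insert_mem_St hX hκ
    · rw [Finset.mem_insert]
      rintro (h | h)
      · exact (mem_Add.1 hκ).2.1 (h ▸ hκ0)
      · exact hκY h
  have hb3 : |∑ κ ∈ Add P r Y \ Add P r X, w κ * (g (insert κ Y) - g Y)| ≤ θ * M := by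
    refine (Finset.abs_sum_le_sum_abs _ _).trans ?_
    have hQP : Add P r Y \ Add P r X ⊆ P := fun κ hκ =>
      (mem_Add.1 (Finset.mem_sdiff.1 hκ).1).1
    have h1 : ∀ κ ∈ Add P r Y \ Add P r X, |w κ * (g (insert κ Y) - g Y)| ≤
        c * (w κ * s κ) := by
      intro κ hκ
      have hκA := (Finset.mem_sdiff.1 hκ).1
      rw [abs_mul, abs_of_nonneg (hw κ (hQP hκ))]
      have h2 := hg _ (insert_mem_St hYS hκA) κ (Finset.mem_insert_self _ _)
      rw [Finset.erase_insert (mem_Add.1 hκA).2.1] at h2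
      calc w κ * |g (insert κ Y) - g Y| ≤ w κ * (c * s κ) :=
            mul_le_mul_of_nonneg_left h2 (hw κ (hQP hκ))
        _ = c * (w κ * s κ) := by ring
    refine (Finset.sum_le_sum h1).trans ?_
    rw [← Finset.mul_sum]
    calc c * ∑ κ ∈ Add P r Y \ Add P r X, w κ * s κ ≤ c * (θ * s κ0) :=
          mul_le_mul_of_nonneg_left (hθ κ0 hκP _ hQP hrest) hc
      _ = θ * M := by rw [hM]; ring
  have hcard : ((Y.card : ℝ) + 1) ≤ B := by
    have h1 : Y.card + 1 = X.card := Finset.card_erase_add_one hκ0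
    have h2 := hB X hX
    rw [← h1] at h2
    push_cast at h2
    exact h2
  have hcoef : 0 ≤ 1 - ε * (1 + Y.card + WX) := by
    have h1 : ε * (1 + Y.card + WX) ≤ ε * (B + ∑ κ ∈ P, w κ) :=
      mul_le_mul_of_nonneg_left (by linarith) hε
    linarith
  have htot : opK P r w ε g X - opK P r w ε g Y = (1 - ε * (1 + Y.card + WX)) * D Y +
      ε * ∑ κ ∈ Y, D (Y.erase κ) + ε * ∑ κ ∈ Add P r X, w κ * D (insert κ Y) -
      ε * ∑ κ ∈ Add P r Y \ Add P r X, w κ * (g (insert κ Y) - g Y) := by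
    have h1 : opK P r w ε g X = g X + ε * (∑ κ ∈ X, (g (X.erase κ) - g X)
      + ∑ κ ∈ Add P r X, w κ * (g (insert κ X) - g X)) := rfl
    have h2 : opK P r w ε g Y = g Y + ε * (∑ κ ∈ Y, (g (Y.erase κ) - g Y)
      + ∑ κ ∈ Add P r Y, w κ * (g (insert κ Y) - g Y)) := rfl
    have h5 : D Y = g X - g Y := by
      simp only [hD]
      rw [hXY]
    have h3 : opK P r w ε g X - opK P r w ε g Y = D Y +
        ε * ((∑ κ ∈ X, (g (X.erase κ) - g X) - ∑ κ ∈ Y, (g (Y.erase κ) - g Y)) +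
        (∑ κ ∈ Add P r X, w κ * (g (insert κ X) - g X) -
          ∑ κ ∈ Add P r Y, w κ * (g (insert κ Y) - g Y))) := by
      rw [h1, h2, h5]
      ring
    rw [h3, hS1, hS2]
    ring
  rw [htot]
  have e1 : |(1 - ε * (1 + Y.card + WX)) * D Y| ≤ (1 - ε * (1 + Y.card + WX)) * M := by
    rw [abs_mul, abs_of_nonneg hcoef]
    exact mul_le_mul_of_nonneg_left hDY hcoef
  have e2 : |ε * ∑ κ ∈ Y, D (Y.erase κ)| ≤ ε * (Y.card * M) := by
    rw [abs_mul, abs_of_nonneg hε]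
    exact mul_le_mul_of_nonneg_left hb1 hε
  have e3 : |ε * ∑ κ ∈ Add P r X, w κ * D (insert κ Y)| ≤ ε * (WX * M) := by
    rw [abs_mul, abs_of_nonneg hε]
    exact mul_le_mul_of_nonneg_left hb2 hε
  have e4 : |ε * ∑ κ ∈ Add P r Y \ Add P r X, w κ * (g (insert κ Y) - g Y)| ≤ ε * (θ * M) := by
    rw [abs_mul, abs_of_nonneg hε]
    exact mul_le_mul_of_nonneg_left hb3 hε
  rw [abs_le] at e1 e2 e3 e4 ⊢
  have hfin : c * (1 - ε * (1 - θ)) * s κ0 = (1 - ε * (1 + Y.card + WX)) * M +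
      ε * (Y.card * M) + ε * (WX * M) + ε * (θ * M) := by
    rw [hM]
    ring
  rw [hfin]
  constructor
  · linarith [e1.1, e2.1, e3.1, e4.2]
  · linarith [e1.2, e2.2, e3.2, e4.1]

end

end Pool.Agent.H40.SQ
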