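import Mathlib
import Pool.Agent.H40.SQ.Defs
import Pool.Agent.H40.SQ.GBij

/-!
# GSa: the polymer dynamics is self-adjoint, preserves constants, is positive; its Dirichlet form

Use `sum_remove_eq_sum_add`.
* `opK_sa`: `∑ W X (opK g X) h X = ∑ W g h + ε [∑_X ∑_{κ∈X} W X (g(X∖κ) - g X) h X + ∑_Y ∑_{κ∈Add} W Y w κ (g(Y∪κ) - g Y) h Y]`;
by the bijection the second double sum is `∑_X ∑_{κ∈X} W X (g X - g(X∖κ)) h(X∖κ)`, so the bracket is
`-∑_X∑_{κ∈X} W X (g X - g(X∖κ))(h X - h(X∖κ))`, symmetric in `g,h`.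
* `opK_dir`: the same computation with `h = g`.
* `opK_mono`: if `g ≤ h` on `St P r` then `opK g ≤ opK h` on `St P r`: `opK g X = (1 - ε(|X| + ∑_{Add} w)) g X + ε ∑_{κ∈X} g(X∖κ) + ε ∑_{Add} w κ g(X∪κ)`
and `ε (|X| + ∑_{Add} w) ≤ ε (B + ∑_P w) ≤ 1`.
* `opK_one`: all differences vanish.
-/

set_option autoImplicit false

namespace Pool.Agent.H40.SQ

noncomputable section

variable {ι : Type} [DecidableEq ι]


private theorem gsa_opK (P : Finset ι) (r : ι → ι → Prop) (w : ι → ℝ) (ε : ℝ) (g : Finset ι → ℝ)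
    (X : Finset ι) :
    opK P r w ε g X = g X + ε * (∑ κ ∈ X, (g (X.erase κ) - g X)
    + ∑ κ ∈ Add P r X, w κ * (g (insert κ X) - g X)) := rfl

private theorem gsa_form (P : Finset ι) (r : ι → ι → Prop) (w : ι → ℝ) (ε : ℝ)
    (g h : Finset ι → ℝ) :
    ∑ X ∈ St P r, wt w X * opK P r w ε g X * h X = ∑ X ∈ St P r, wt w X * g X * h X -
      ε * ∑ X ∈ St P r, ∑ κ ∈ X, wt w X * ((g X - g (X.erase κ)) * (h X - h (X.erase κ))) := by
  have h1 : ∑ X ∈ St P r, wt w X * opK P r w ε g X * h X = ∑ X ∈ St P r, wt w X * g X * h X +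
      ε * (∑ X ∈ St P r, ∑ κ ∈ X, wt w X * ((g (X.erase κ) - g X) * h X) +
        ∑ X ∈ St P r, ∑ κ ∈ Add P r X, wt w X * w κ * ((g (insert κ X) - g X) * h X)) := by
    rw [← Finset.sum_add_distrib, Finset.mul_sum, ← Finset.sum_add_distrib]
    refine Finset.sum_congr rfl fun X _ => ?_
    rw [gsa_opK]
    have h2 : ∑ κ ∈ X, wt w X * ((g (X.erase κ) - g X) * h X) =
        (wt w X * h X) * ∑ κ ∈ X, (g (X.erase κ) - g X) := by
      rw [Finset.mul_sum]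
      exact Finset.sum_congr rfl fun κ _ => by ring
    have h3 : ∑ κ ∈ Add P r X, wt w X * w κ * ((g (insert κ X) - g X) * h X) =
        (wt w X * h X) * ∑ κ ∈ Add P r X, w κ * (g (insert κ X) - g X) := by
      rw [Finset.mul_sum]
      exact Finset.sum_congr rfl fun κ _ => by ring
    rw [h2, h3]
    ring
  have h2 := sum_remove_eq_sum_add P r w (fun X Y => (g X - g Y) * h Y)
  rw [h1, ← h2, ← Finset.sum_add_distrib, sub_eq_add_neg, ← mul_neg, ← Finset.sum_neg_distrib]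
  congr 2
  refine Finset.sum_congr rfl fun X _ => ?_
  rw [← Finset.sum_add_distrib, ← Finset.sum_neg_distrib]
  exact Finset.sum_congr rfl fun κ _ => by ring

theorem opK_sa (P : Finset ι) (r : ι → ι → Prop) (w : ι → ℝ) (ε : ℝ) (g h : Finset ι → ℝ) :
    ∑ X ∈ St P r, wt w X * opK P r w ε g X * h X = ∑ X ∈ St P r, wt w X * g X * opK P r w ε h X := by
  rw [gsa_form]
  have h1 : ∑ X ∈ St P r, wt w X * g X * opK P r w ε h X =
      ∑ X ∈ St P r, wt w X * opK P r w ε h X * g X :=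
    Finset.sum_congr rfl fun X _ => by ring
  rw [h1, gsa_form]
  congr 1
  · exact Finset.sum_congr rfl fun X _ => by ring
  · congr 1
    exact Finset.sum_congr rfl fun X _ => Finset.sum_congr rfl fun κ _ => by ring

theorem opK_dir (P : Finset ι) (r : ι → ι → Prop) (w : ι → ℝ) (ε : ℝ) (g : Finset ι → ℝ) :
    ∑ X ∈ St P r, wt w X * g X * (g X - opK P r w ε g X) =
      ε * ∑ X ∈ St P r, ∑ κ ∈ X, wt w X * (g X - g (X.erase κ)) ^ 2 := by
  have h1 : ∑ X ∈ St P r, wt w X * g X * (g X - opK P r w ε g X) =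
      ∑ X ∈ St P r, wt w X * g X * g X - ∑ X ∈ St P r, wt w X * opK P r w ε g X * g X := by
    rw [← Finset.sum_sub_distrib]
    exact Finset.sum_congr rfl fun X _ => by ring
  rw [h1, gsa_form, sub_sub_cancel]
  congr 1
  exact Finset.sum_congr rfl fun X _ => Finset.sum_congr rfl fun κ _ => by ring

theorem opK_one (P : Finset ι) (r : ι → ι → Prop) (w : ι → ℝ) (ε c : ℝ) :
    opK P r w ε (fun _ => c) = fun _ => c := by
  funext X
  rw [gsa_opK]
  simp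

theorem opK_mono (P : Finset ι) (r : ι → ι → Prop) (w : ι → ℝ) (hw : ∀ κ ∈ P, 0 ≤ w κ) (ε B : ℝ)
    (hε : 0 ≤ ε) (hB : ∀ X ∈ St P r, (X.card : ℝ) ≤ B) (hεB : ε * (B + ∑ κ ∈ P, w κ) ≤ 1)
    (g h : Finset ι → ℝ) (hgh : ∀ X ∈ St P r, g X ≤ h X) :
    ∀ X ∈ St P r, opK P r w ε g X ≤ opK P r w ε h X := by
  intro X hX
  rw [gsa_opK, gsa_opK]
  have h1 : ∑ κ ∈ X, (g (X.erase κ) - g X) = ∑ κ ∈ X, g (X.erase κ) - X.card * g X := by
    rw [Finset.sum_sub_distrib, Finset.sum_const, nsmul_eq_mul]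
  have h1' : ∑ κ ∈ X, (h (X.erase κ) - h X) = ∑ κ ∈ X, h (X.erase κ) - X.card * h X := by
    rw [Finset.sum_sub_distrib, Finset.sum_const, nsmul_eq_mul]
  have h2 : ∑ κ ∈ Add P r X, w κ * (g (insert κ X) - g X) =
      ∑ κ ∈ Add P r X, w κ * g (insert κ X) - (∑ κ ∈ Add P r X, w κ) * g X := by
    rw [Finset.sum_mul, ← Finset.sum_sub_distrib]
    exact Finset.sum_congr rfl fun κ _ => by ring
  have h2' : ∑ κ ∈ Add P r X, w κ * (h (insert κ X) - h X) =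
      ∑ κ ∈ Add P r X, w κ * h (insert κ X) - (∑ κ ∈ Add P r X, w κ) * h X := by
    rw [Finset.sum_mul, ← Finset.sum_sub_distrib]
    exact Finset.sum_congr rfl fun κ _ => by ring
  have h3 : ∑ κ ∈ X, g (X.erase κ) ≤ ∑ κ ∈ X, h (X.erase κ) :=
    Finset.sum_le_sum fun κ _ => hgh _ (erase_mem_St hX κ)
  have hAP : Add P r X ⊆ P := fun κ hκ => (mem_Add.1 hκ).1
  have h4 : ∑ κ ∈ Add P r X, w κ * g (insert κ X) ≤ ∑ κ ∈ Add P r X, w κ * h (insert κ X) :=
    Finset.sum_le_sum fun κ hκ =>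
      mul_le_mul_of_nonneg_left (hgh _ (insert_mem_St hX hκ)) (hw κ (hAP hκ))
  have h5 : ∑ κ ∈ Add P r X, w κ ≤ ∑ κ ∈ P, w κ :=
    Finset.sum_le_sum_of_subset_of_nonneg hAP fun κ hκ _ => hw κ hκ
  have h6 := hB X hX
  have h7 : ε * ((X.card : ℝ) + ∑ κ ∈ Add P r X, w κ) ≤ 1 :=
    (mul_le_mul_of_nonneg_left (add_le_add h6 h5) hε).trans hεB
  have h8 := hgh X hX
  rw [h1, h1', h2, h2']
  have h9 : 0 ≤ (1 - ε * ((X.card : ℝ) + ∑ κ ∈ Add P r X, w κ)) * (h X - g X) :=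
    mul_nonneg (by linarith) (by linarith)
  have h10 := mul_le_mul_of_nonneg_left h3 hε
  have h11 := mul_le_mul_of_nonneg_left h4 hε
  nlinarith

end

end Pool.Agent.H40.SQ
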