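import Mathlib
import Pool.Agent.H40.SQ.Defs
import Pool.Agent.H40.SQ.GBij
import Pool.Agent.H40.SQ.GSa
import Pool.Agent.H40.SQ.GLip

/-!
# GOsc: oscillation decay of the polymer dynamics

Let `ρ = 1 - ε(1-θ) ∈ [0,1]`.  By induction on `m` (`opK_lip`, `pow_succ'`): `|K^m g X - K^m g (X∖κ)| ≤ c ρ^m s κ` if it holds
for `m = 0` with `c`.  Hence `|K^m g X - K^m g ∅| ≤ c ρ^m ∑_{κ∈X} s κ ≤ c ρ^m D` for `X ∈ St P r` (induction on `X`, removing
polymers one by one: `Finset.induction_on` or strong induction on `X.card`, `erase_mem_St`).  Since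
`∑_X W X K^m g X = ∑_X W X g X` (`opK_sa` with `h = 1` and `opK_one`), dividing by `Z = ∑ W > 0`:
`|K^m g X - μ(g)| = |K^m g X - μ(K^m g)| ≤ 2 c ρ^m D`.
-/

set_option autoImplicit false

namespace Pool.Agent.H40.SQ

noncomputable section

variable {ι : Type} [DecidableEq ι]


theorem opK_osc (P : Finset ι) (r : ι → ι → Prop) (hsymm : ∀ a b, r a b → r b a) (hrefl : ∀ a ∈ P, r a a)
    (w s : ι → ℝ) (hw : ∀ κ ∈ P, 0 < w κ) (hs : ∀ κ ∈ P, 0 ≤ s κ) (θ : ℝ) (hθ0 : 0 ≤ θ) (hθ1 : θ ≤ 1)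
    (hθ : ∀ κ ∈ P, ∀ Q : Finset ι, Q ⊆ P → (∀ κ' ∈ Q, r κ κ') → ∑ κ' ∈ Q, w κ' * s κ' ≤ θ * s κ)
    (ε B : ℝ) (hε : 0 ≤ ε) (hε1 : ε ≤ 1) (hB : ∀ X ∈ St P r, (X.card : ℝ) ≤ B)
    (hεB : ε * (B + ∑ κ ∈ P, w κ) ≤ 1) (D : ℝ) (hD : ∀ X ∈ St P r, ∑ κ ∈ X, s κ ≤ D)
    (g : Finset ι → ℝ) (c : ℝ) (hc : 0 ≤ c)
    (hg : ∀ X ∈ St P r, ∀ κ ∈ X, |g X - g (X.erase κ)| ≤ c * s κ) (m : ℕ) :
    ∀ X ∈ St P r, |((opK P r w ε) ^ m) g X -
      (∑ Y ∈ St P r, wt w Y * g Y) / (∑ Y ∈ St P r, wt w Y)| ≤ 2 * c * (1 - ε * (1 - θ)) ^ m * D := by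
  set ρ : ℝ := 1 - ε * (1 - θ) with hρ
  have hρ0 : 0 ≤ ρ := by
    have h1 : ε * (1 - θ) ≤ 1 * 1 := mul_le_mul hε1 (by linarith) (by linarith) (by norm_num)
    linarith
  set T := opK P r w ε with hT
  have hw' : ∀ κ ∈ P, 0 ≤ w κ := fun κ hκ => (hw κ hκ).le
  have hsucc : ∀ t, (T ^ (t + 1)) g = T ((T ^ t) g) := by
    intro t
    rw [pow_succ', Module.End.mul_apply]
  have hlip : ∀ t : ℕ, ∀ X ∈ St P r, ∀ κ ∈ X,
      |(T ^ t) g X - (T ^ t) g (X.erase κ)| ≤ (c * ρ ^ t) * s κ := by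
    intro t
    induction t with
    | zero => simpa using hg
    | succ t ih =>
      intro X hX κ hκ
      rw [hsucc]
      have h1 := opK_lip P r hsymm hrefl w s hw' hs θ hθ ε B hε hB hεB ((T ^ t) g) (c * ρ ^ t)
        (by positivity) ih X hX κ hκ
      refine h1.trans (le_of_eq ?_)
      rw [← hρ, pow_succ]
      ring
  have hinv : ∀ t : ℕ, ∑ X ∈ St P r, wt w X * (T ^ t) g X = ∑ X ∈ St P r, wt w X * g X := by
    intro t
    induction t with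
    | zero => simp
    | succ t ih =>
      rw [← ih, hsucc]
      have h1 := opK_sa P r w ε ((T ^ t) g) (fun _ => 1)
      rw [opK_one] at h1
      simpa using h1
  set u := (T ^ m) g with hu
  have hL0 : 0 ≤ c * ρ ^ m := by positivity
  have hosc : ∀ X : Finset ι, X ∈ St P r → |u X - u ∅| ≤ c * ρ ^ m * ∑ κ ∈ X, s κ := by
    intro X
    induction X using Finset.induction_on with
    | empty => intro _; simp
    | insert a Y ha ih =>
      intro hX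
      have hYS : Y ∈ St P r := by
        have h1 := erase_mem_St hX a
        rwa [Finset.erase_insert ha] at h1
      have h1 := ih hYS
      have h2 := hlip m (insert a Y) hX a (Finset.mem_insert_self _ _)
      rw [Finset.erase_insert ha] at h2
      rw [Finset.sum_insert ha]
      calc |u (insert a Y) - u ∅| ≤ |u (insert a Y) - u Y| + |u Y - u ∅| := abs_sub_le _ _ _
        _ ≤ c * ρ ^ m * s a + c * ρ ^ m * ∑ κ ∈ Y, s κ := add_le_add h2 h1
        _ = _ := by ring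
  have hosc2 : ∀ X ∈ St P r, |u X - u ∅| ≤ c * ρ ^ m * D := by
    intro X hX
    exact (hosc X hX).trans (mul_le_mul_of_nonneg_left (hD X hX) hL0)
  have hemp : (∅ : Finset ι) ∈ St P r := by
    refine mem_St.2 ⟨Finset.empty_subset _, ?_⟩
    intro a ha
    exact absurd ha (Finset.notMem_empty a)
  have hwt : ∀ Y ∈ St P r, 0 ≤ wt w Y := by
    intro Y hY
    exact Finset.prod_nonneg fun κ hκ => hw' κ ((mem_St.1 hY).1 hκ)
  have hZ : 0 < ∑ Y ∈ St P r, wt w Y := by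
    have h1 : wt w (∅ : Finset ι) ≤ ∑ Y ∈ St P r, wt w Y :=
      Finset.single_le_sum hwt hemp
    have h2 : wt w (∅ : Finset ι) = 1 := by simp [wt]
    linarith
  intro X hX
  rw [← hinv m]
  have h1 : u X - (∑ Y ∈ St P r, wt w Y * (T ^ m) g Y) / (∑ Y ∈ St P r, wt w Y) =
      (∑ Y ∈ St P r, wt w Y * (u X - u Y)) / (∑ Y ∈ St P r, wt w Y) := by
    rw [eq_div_iff hZ.ne', sub_mul, div_mul_cancel₀ _ hZ.ne', mul_comm, Finset.sum_mul,
      ← Finset.sum_sub_distrib]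
    exact Finset.sum_congr rfl fun Y _ => by ring
  rw [h1, abs_div, abs_of_pos hZ, div_le_iff₀ hZ, Finset.mul_sum]
  refine (Finset.abs_sum_le_sum_abs _ _).trans (Finset.sum_le_sum fun Y hY => ?_)
  rw [abs_mul, abs_of_nonneg (hwt Y hY), mul_comm]
  refine mul_le_mul_of_nonneg_right ?_ (hwt Y hY)
  have h2 := hosc2 X hX
  have h3 := hosc2 Y hY
  calc |u X - u Y| ≤ |u X - u ∅| + |u ∅ - u Y| := abs_sub_le _ _ _
    _ = |u X - u ∅| + |u Y - u ∅| := by rw [abs_sub_comm (u ∅) (u Y)]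
    _ ≤ c * ρ ^ m * D + c * ρ ^ m * D := add_le_add h2 h3
    _ = 2 * c * ρ ^ m * D := by ring

end

end Pool.Agent.H40.SQ
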