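import Mathlib
import Pool.Agent.H40.SQ.Defs
import Pool.Agent.H40.SQ.AGap
import Pool.Agent.H40.SQ.GSa
import Pool.Agent.H40.SQ.GOsc

/-!
# GPoin: Poincaré inequality of the polymer gas

Let `μ(g) = (∑ W g)/Z`, `Z = ∑_{X∈St} W X > 0` (all `w > 0` on `P`, `∅ ∈ St`).  Put `g0 = g - μ(g)` (constant subtracted) and
`ρ = 1 - ε(1-θ) < 1`.  `c = 2 sup |g| / min s`... simply: `St P r` is finite, let `G` bound `|g|` on `St P r`; since `s κ ≥ 1`,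
`|g X - g(X∖κ)| ≤ 2G ≤ 2G s κ`.  By `opK_osc` (and `opK_one`, linearity): `|K^t g0 X| ≤ 4 G ρ^t D` on `St P r`, so
`∑ W (K^t g0)^2 ≤ Z (4 G D)^2 ρ^(2t)`.  `gap_of_decay` (with `π = wt w`, `T = opK`, `opK_sa`) gives
`(1-ρ) ∑ W g0^2 ≤ ∑ W g0 (g0 - K g0) = ε ∑_X ∑_{κ∈X} W X (g X - g(X∖κ))^2` (`opK_dir`; constants cancel), and `1 - ρ = ε(1-θ)`,
`ε > 0`.  Here `ε = 1/(1 + B + ∑ w)`, `B = P.card`, `D = ∑_{κ∈P} s κ` can be chosen inside the proof.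
-/

set_option autoImplicit false

namespace Pool.Agent.H40.SQ

noncomputable section

variable {ι : Type} [DecidableEq ι]


theorem gas_poincare (P : Finset ι) (r : ι → ι → Prop) (hsymm : ∀ a b, r a b → r b a) (hrefl : ∀ a ∈ P, r a a)
    (w s : ι → ℝ) (hw : ∀ κ ∈ P, 0 < w κ) (hs : ∀ κ ∈ P, 1 ≤ s κ) (θ : ℝ) (hθ0 : 0 ≤ θ) (hθ1 : θ < 1)
    (hθ : ∀ κ ∈ P, ∀ Q : Finset ι, Q ⊆ P → (∀ κ' ∈ Q, r κ κ') → ∑ κ' ∈ Q, w κ' * s κ' ≤ θ * s κ)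
    (g : Finset ι → ℝ) :
    (1 - θ) * ∑ X ∈ St P r, wt w X *
        (g X - (∑ Y ∈ St P r, wt w Y * g Y) / (∑ Y ∈ St P r, wt w Y)) ^ 2 ≤
      ∑ X ∈ St P r, ∑ κ ∈ X, wt w X * (g X - g (X.erase κ)) ^ 2 := by
  have hwsum : 0 ≤ ∑ κ ∈ P, w κ := Finset.sum_nonneg fun κ hκ => (hw κ hκ).le
  have hwt : ∀ X ∈ St P r, 0 < wt w X := fun X hX =>
    Finset.prod_pos fun κ hκ => hw κ ((mem_St.1 hX).1 hκ)
  have hempty : (∅ : Finset ι) ∈ St P r := mem_St.2 ⟨Finset.empty_subset _, fun a ha => by simp at ha⟩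
  have herase : ∀ X ∈ St P r, ∀ κ, X.erase κ ∈ St P r := by
    intro X hX κ
    obtain ⟨h1, h2⟩ := mem_St.1 hX
    exact mem_St.2 ⟨(Finset.erase_subset _ _).trans h1, fun a ha b hb hab =>
      h2 a (Finset.mem_of_mem_erase ha) b (Finset.mem_of_mem_erase hb) hab⟩
  obtain ⟨Z, hZ⟩ : ∃ Z : ℝ, Z = ∑ Y ∈ St P r, wt w Y := ⟨_, rfl⟩
  have hZ0 : 0 < Z := by rw [hZ]; exact Finset.sum_pos hwt ⟨∅, hempty⟩
  obtain ⟨μ, hμ⟩ : ∃ μ : ℝ, μ = (∑ Y ∈ St P r, wt w Y * g Y) / Z := ⟨_, rfl⟩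
  obtain ⟨g0, hg0⟩ : ∃ g0 : Finset ι → ℝ, g0 = fun X => g X - μ := ⟨_, rfl⟩
  have hg0' : ∀ X, g0 X = g X - μ := fun X => by rw [hg0]
  have hmean : (∑ Y ∈ St P r, wt w Y * g0 Y) / (∑ Y ∈ St P r, wt w Y) = 0 := by
    have h1 : ∑ Y ∈ St P r, wt w Y * g0 Y = (∑ Y ∈ St P r, wt w Y * g Y) - μ * Z := by
      rw [hZ, Finset.mul_sum, ← Finset.sum_sub_distrib]
      refine Finset.sum_congr rfl fun Y _ => ?_
      rw [hg0']; ring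
    rw [h1, hμ, div_mul_cancel₀ _ hZ0.ne', sub_self, zero_div]
  -- the constants
  obtain ⟨ε, hεd⟩ : ∃ ε : ℝ, ε = 1 / (1 + (P.card : ℝ) + ∑ κ ∈ P, w κ) := ⟨_, rfl⟩
  have hden : 0 < 1 + (P.card : ℝ) + ∑ κ ∈ P, w κ := by positivity
  have hε0 : 0 < ε := by rw [hεd]; positivity
  have hε1 : ε ≤ 1 := by
    rw [hεd, div_le_one hden]
    have : (0 : ℝ) ≤ P.card := Nat.cast_nonneg _
    linarith
  have hεB : ε * ((P.card : ℝ) + ∑ κ ∈ P, w κ) ≤ 1 := by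
    rw [hεd, one_div, inv_mul_le_iff₀ hden]
    linarith
  obtain ⟨ρ, hρ⟩ : ∃ ρ : ℝ, ρ = 1 - ε * (1 - θ) := ⟨_, rfl⟩
  have hρ0 : 0 ≤ ρ := by
    have : ε * (1 - θ) ≤ 1 * 1 := mul_le_mul hε1 (by linarith) (by linarith) zero_le_one
    rw [hρ]; linarith
  have hρ1 : ρ < 1 := by
    have : 0 < ε * (1 - θ) := mul_pos hε0 (by linarith)
    rw [hρ]; linarith
  obtain ⟨D, hD⟩ : ∃ D : ℝ, D = ∑ κ ∈ P, s κ := ⟨_, rfl⟩
  have hD' : ∀ X ∈ St P r, ∑ κ ∈ X, s κ ≤ D := by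
    intro X hX
    rw [hD]
    exact Finset.sum_le_sum_of_subset_of_nonneg (mem_St.1 hX).1 fun κ hκ _ =>
      zero_le_one.trans (hs κ hκ)
  have hcardB : ∀ X ∈ St P r, (X.card : ℝ) ≤ P.card := fun X hX => by
    exact_mod_cast Finset.card_le_card (mem_St.1 hX).1
  obtain ⟨G, hG⟩ : ∃ G : ℝ, G = ∑ X ∈ St P r, |g0 X| := ⟨_, rfl⟩
  have hG0 : 0 ≤ G := by rw [hG]; exact Finset.sum_nonneg fun X _ => abs_nonneg _
  have hGX : ∀ X ∈ St P r, |g0 X| ≤ G := fun X hX => by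
    rw [hG]
    exact Finset.single_le_sum (f := fun X => |g0 X|) (fun X _ => abs_nonneg _) hX
  have hosc := opK_osc P r hsymm hrefl w s hw (fun κ hκ => zero_le_one.trans (hs κ hκ)) θ hθ0 hθ1.le hθ
    ε (P.card : ℝ) hε0.le hε1 hcardB hεB D hD' g0 (2 * G) (by positivity) (by
      intro X hX κ hκ
      have h1 := hGX X hX
      have h2 := hGX (X.erase κ) (herase X hX κ)
      have h3 := abs_sub (g0 X) (g0 (X.erase κ))
      have h4 : 1 ≤ s κ := hs κ ((mem_St.1 hX).1 hκ)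
      have h5 : 2 * G * 1 ≤ 2 * G * s κ := mul_le_mul_of_nonneg_left h4 (by positivity)
      linarith)
  have hdec : ∀ t : ℕ, ∑ X ∈ St P r, wt w X * (((opK P r w ε) ^ t) g0 X) ^ 2 ≤
      (Z * (2 * (2 * G) * D) ^ 2) * ρ ^ (2 * t) := by
    intro t
    have h1 : ∀ X ∈ St P r, wt w X * (((opK P r w ε) ^ t) g0 X) ^ 2 ≤
        wt w X * ((2 * (2 * G) * D) ^ 2 * ρ ^ (2 * t)) := by
      intro X hX
      refine mul_le_mul_of_nonneg_left ?_ (hwt X hX).le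
      have h2 := hosc t X hX
      rw [hmean, sub_zero, ← hρ] at h2
      have h3 : |((opK P r w ε) ^ t) g0 X| ≤ 2 * (2 * G) * D * ρ ^ t := by
        refine h2.trans (le_of_eq ?_)
        ring
      have h4 := pow_le_pow_left₀ (abs_nonneg _) h3 2
      rw [sq_abs] at h4
      refine h4.trans (le_of_eq ?_)
      rw [mul_pow, ← pow_mul, mul_comm t 2]
    refine (Finset.sum_le_sum h1).trans (le_of_eq ?_)
    rw [← Finset.sum_mul, ← hZ]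
    ring
  have hgap := gap_of_decay (St P r) (wt w) (fun X hX => (hwt X hX).le) (opK P r w ε)
    (fun g h => opK_sa P r w ε g h) ρ hρ0 hρ1 g0 (Z * (2 * (2 * G) * D) ^ 2) hdec
  rw [opK_dir] at hgap
  have h1 : 1 - ρ = ε * (1 - θ) := by rw [hρ]; ring
  rw [h1, mul_assoc] at hgap
  have h2 := le_of_mul_le_mul_left hgap hε0
  rw [← hZ, ← hμ]
  have e1 : ∑ X ∈ St P r, wt w X * g0 X ^ 2 = ∑ X ∈ St P r, wt w X * (g X - μ) ^ 2 :=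
    Finset.sum_congr rfl fun X _ => by rw [hg0']
  have e2 : ∑ X ∈ St P r, ∑ κ ∈ X, wt w X * (g0 X - g0 (X.erase κ)) ^ 2 =
      ∑ X ∈ St P r, ∑ κ ∈ X, wt w X * (g X - g (X.erase κ)) ^ 2 :=
    Finset.sum_congr rfl fun X _ => Finset.sum_congr rfl fun κ _ => by
      rw [hg0', hg0']; ring
  rw [e1, e2] at h2
  exact h2

end

end Pool.Agent.H40.SQ
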