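import Mathlib
import Pool.Agent.H40.SQ.Defs
import Pool.Agent.H40.SQ.HStep
import Pool.Agent.H40.SQ.HAdd

/-!
# HCfg: every admissible height function comes from a configuration

Let `f` be `Val n` and `γ = cfg n f`.  For all `i j` (also outside the box): `f i j - f (i-1) j = sgn i j * ind γ (true,i,j)`: if `(true,i,j) ∈ E n` this is
the definition together with `Val0`; if `(true,i,j) ∉ E n` then both `(i,j)` and `(i-1,j)` are outside `box n`, both heights vanish.  Similarly for the
horizontal edges.  Vertex condition at `(i,j)`: from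
`f i j - f (i-1) j = s * v_up`, `f i (j-1) - f (i-1) (j-1) = -s * v_down`, `f i j - f i (j-1) = s * h_right`, `f (i-1) j - f (i-1) (j-1) = -s * h_left`
(`s = sgn i j`) we get `s (v_up + v_down) = s (h_right + h_left)`.  `F γ = f`: both vanish for `i < 0` and have the same steps (`F_step`).
-/

set_option autoImplicit false

namespace Pool.Agent.H40.SQ

noncomputable section

private theorem box_mem {n : ℕ} {i j : ℤ} : (i, j) ∈ box n ↔ 0 ≤ i ∧ i < n ∧ 0 ≤ j ∧ j < n := by
  unfold box
  rw [Finset.mem_product, Finset.mem_Ico, Finset.mem_Ico]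
  tauto

private theorem hstep {n : ℕ} {f : ℤ → ℤ → ℤ} (hf : Val n f) (i j : ℤ) :
    f i j - f (i - 1) j = sgn i j * ind (cfg n f) (true, i, j) := by
  unfold ind
  by_cases hE : (true, i, j) ∈ E n
  · by_cases he : f i j = f (i - 1) j
    · rw [if_neg, mul_zero, he, sub_self]
      unfold cfg
      rw [Finset.mem_filter]
      rintro ⟨_, ⟨_, h⟩ | ⟨h, _⟩⟩
      · exact h he
      · exact Bool.noConfusion h
    · rw [if_pos, mul_one]
      · rcases (hf.1 i j).1 with h | h
        · exact absurd (sub_eq_zero.mp h) he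
        · exact h
      · unfold cfg
        rw [Finset.mem_filter]
        exact ⟨hE, Or.inl ⟨rfl, he⟩⟩
  · have h1 : (i, j) ∉ box n := by
      intro h
      rw [box_mem] at h
      exact hE (mem_E_true.mpr (by omega))
    have h2 : (i - 1, j) ∉ box n := by
      intro h
      rw [box_mem] at h
      exact hE (mem_E_true.mpr (by omega))
    rw [if_neg, mul_zero, hf.2 _ _ h1, hf.2 _ _ h2, sub_self]
    intro h
    exact hE (Finset.mem_filter.mp h).1

private theorem vstep {n : ℕ} {f : ℤ → ℤ → ℤ} (hf : Val n f) (i j : ℤ) :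
    f i j - f i (j - 1) = sgn i j * ind (cfg n f) (false, i, j) := by
  unfold ind
  by_cases hE : (false, i, j) ∈ E n
  · by_cases he : f i j = f i (j - 1)
    · rw [if_neg, mul_zero, he, sub_self]
      unfold cfg
      rw [Finset.mem_filter]
      rintro ⟨_, ⟨h, _⟩ | ⟨_, h⟩⟩
      · exact Bool.noConfusion h
      · exact h he
    · rw [if_pos, mul_one]
      · rcases (hf.1 i j).2 with h | h
        · exact absurd (sub_eq_zero.mp h) he
        · exact h
      · unfold cfg
        rw [Finset.mem_filter]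
        exact ⟨hE, Or.inr ⟨rfl, he⟩⟩
  · have h1 : (i, j) ∉ box n := by
      intro h
      rw [box_mem] at h
      exact hE (mem_E_false.mpr (by omega))
    have h2 : (i, j - 1) ∉ box n := by
      intro h
      rw [box_mem] at h
      exact hE (mem_E_false.mpr (by omega))
    rw [if_neg, mul_zero, hf.2 _ _ h1, hf.2 _ _ h2, sub_self]
    intro h
    exact hE (Finset.mem_filter.mp h).1

private theorem sgn_sq (i j : ℤ) : sgn i j * sgn i j = 1 := by
  unfold sgn
  split_ifs <;> norm_num

theorem cfg_mem {n : ℕ} {f : ℤ → ℤ → ℤ} (hf : Val n f) : cfg n f ∈ Om n := by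
  rw [mem_Om]
  refine ⟨Finset.filter_subset _ _, fun i j => ?_⟩
  have h1 := hstep hf i j
  have h2 := hstep hf i (j - 1)
  have h3 := vstep hf i j
  have h4 := vstep hf (i - 1) j
  rw [sgn_down] at h2
  rw [sgn_left] at h4
  have hs := sgn_sq i j
  linear_combination sgn i j * (h1 - h2 - h3 + h4) +
    (ind (cfg n f) (true, i, j) + ind (cfg n f) (true, i, j - 1)
      - ind (cfg n f) (false, i, j) - ind (cfg n f) (false, i - 1, j)) * hs

theorem F_cfg {n : ℕ} {f : ℤ → ℤ → ℤ} (hf : Val n f) (i j : ℤ) : F (cfg n f) i j = f i j := by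
  have hE := (mem_Om.mp (cfg_mem hf)).1
  have hneg : ∀ i < 0, F (cfg n f) i j = f i j := by
    intro i hi
    rw [F_neg _ _ _ hi, hf.2 i j]
    rw [box_mem]
    omega
  have key : ∀ k : ℕ, F (cfg n f) ((k : ℤ) - 1) j = f ((k : ℤ) - 1) j := by
    intro k
    induction k with
    | zero => exact hneg _ (by simp)
    | succ k ih =>
      have e : ((k + 1 : ℕ) : ℤ) - 1 = k := by push_cast; ring
      rw [e]
      have h1 := F_step hE (k : ℤ) j
      have h2 := hstep hf (k : ℤ) j
      linear_combination h1 - h2 + ih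
  by_cases hi : i < 0
  · exact hneg i hi
  · obtain ⟨k, hk⟩ : ∃ k : ℕ, (k : ℤ) - 1 = i := ⟨(i + 1).toNat, by omega⟩
    rw [← hk]
    exact key k

theorem cfg_F {n : ℕ} {γ : Finset Edge} (hγ : γ ∈ Om n) : cfg n (F γ) = γ :=
  F_inj (cfg_mem (val_F hγ)) hγ (F_cfg (val_F hγ))

end

end Pool.Agent.H40.SQ
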