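import Mathlib
import Pool.Agent.H40.SQ.Defs
import Pool.Agent.H40.SQ.HStep

/-!
# HLat: lattice operations and bounds

* The admissible steps are `{0, s}` with `s = ±1`: if both `f` and `g` have a step in `{0,s}` then so have `max f g` and `min f g`
(case distinction `s = 1`, `s = -1`; `omega` after unfolding `max`, `min` with `max_def`, `min_def` / `split_ifs`).
* `val_bound`: `|f i j| ≤ n` for `Val n f`: along the row from `i = -1` (height `0`) each step has absolute value `≤ 1`, and for `i < 0` or `i ≥ n`
the height is `0`; so for `0 ≤ i < n`, `|f i j| ≤ i + 1 ≤ n`.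
* `sgn_cases`.
-/

set_option autoImplicit false

namespace Pool.Agent.H40.SQ

noncomputable section

theorem sgn_cases (i j : ℤ) : sgn i j = 1 ∨ sgn i j = -1 := by
  unfold sgn
  split_ifs
  · exact Or.inl rfl
  · exact Or.inr rfl

theorem val0_max {f g : ℤ → ℤ → ℤ} (hf : Val0 f) (hg : Val0 g) : Val0 (fun i j => max (f i j) (g i j)) := by
  intro i j
  have h1 := hf i j
  have h2 := hg i j
  have h3 := sgn_cases i j
  simp only
  omega

theorem val0_min {f g : ℤ → ℤ → ℤ} (hf : Val0 f) (hg : Val0 g) : Val0 (fun i j => min (f i j) (g i j)) := by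
  intro i j
  have h1 := hf i j
  have h2 := hg i j
  have h3 := sgn_cases i j
  simp only
  omega

theorem val_bound {n : ℕ} {f : ℤ → ℤ → ℤ} (hf : Val n f) (i j : ℤ) : |f i j| ≤ n := by
  have key : ∀ k : ℕ, |f ((k : ℤ) - 1) j| ≤ k := by
    intro k
    induction k with
    | zero =>
      rw [hf.2 _ _ (by
        unfold box
        rw [Finset.mem_product, Finset.mem_Ico]
        intro h
        have := h.1.1
        simp at this)]
      simp
    | succ k ih =>
      have e : ((k + 1 : ℕ) : ℤ) - 1 = k := by push_cast; ring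
      rw [e]
      have h1 := (hf.1 (k : ℤ) j).1
      have h2 := sgn_cases (k : ℤ) j
      rw [abs_le] at ih ⊢
      push_cast
      omega
  by_cases hb : (i, j) ∈ box n
  · unfold box at hb
    rw [Finset.mem_product, Finset.mem_Ico, Finset.mem_Ico] at hb
    have hb' : (0 ≤ i ∧ i < n) ∧ 0 ≤ j ∧ j < n := hb
    obtain ⟨k, hk⟩ : ∃ k : ℕ, (k : ℤ) - 1 = i := ⟨(i + 1).toNat, by omega⟩
    rw [← hk]
    refine (key k).trans ?_
    omega
  · rw [hf.2 i j hb]
    simp

end

end Pool.Agent.H40.SQ
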