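import Mathlib
import Pool.Agent.H40.SQ.Defs
import Pool.Agent.H40.SQ.HStep
import Pool.Agent.H40.SQ.HLat

/-!
# PLin: the sweeping functions

`2 * Lin c i j = c - i + (c+j) % 2 - (i+j) % 2` (the numerator is even: modulo 2 it is `c - i + c + j - i - j`).
* `Lin_step`: along a row the step is `0` if `i+j` is even and `-1` if `i+j` is odd (the minimum of the admissible steps `{0, sgn i j}`).
* `Lin_val0`: vertical steps: `2 (Lin c i j - Lin c i (j-1)) = ((c+j)%2 - (c+j-1)%2) - ((i+j)%2 - (i+j-1)%2) = ±1 ∓ 1`: if `i+j` is even the last bracket is `-1`, so the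
difference is `(±1 + 1)/2 ∈ {0,1}`; if odd it is `(±1 - 1)/2 ∈ {-1,0}`.
* `Lin_succ`, `Lin_sub_two`, bounds, `Lin_self`.  All: `unfold Lin sgn; omega` (after case distinctions).
* `pf_val0`: rows `j` with `(c+j) % 2 ≠ 0` are unaffected (`Lin (c+1) = Lin c`); on rows with `(c+j)%2 = 0`, `Lin (c+1) = Lin c + 1`.  Horizontal step of `pf` at the junction `i = b` in row `r`: `Lin c` step `+ 1 ∈ {1,0} = {0+1, -1+1}`, admissible
(`i+j` even: `1 = sgn`; odd: `0`).  Vertical steps between a row with `(c+j)%2=0` and its neighbours: both `Lin c` and `Lin (c+1)` have admissible vertical steps there, and the neighbouring row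
(other parity) has the same values for `Lin c` and `Lin (c+1)`.
* `pf_ne`: `pf c r b` and `pf c r (b+1)` agree except possibly at `(b,r)`; there `pf c r b b r = Lin (c+1) b r`, `pf c r (b+1) b r = Lin c b r`.
-/

set_option autoImplicit false

namespace Pool.Agent.H40.SQ

noncomputable section

theorem two_Lin (c i j : ℤ) : 2 * Lin c i j = c - i + (c + j) % 2 - (i + j) % 2 := by
  unfold Lin
  omega

theorem Lin_step (c i j : ℤ) : Lin c i j - Lin c (i - 1) j = if (i + j) % 2 = 0 then 0 else -1 := by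
  unfold Lin
  split_ifs <;> omega

theorem Lin_val0 (c : ℤ) : Val0 (Lin c) := by
  intro i j
  unfold Lin sgn
  constructor
  · split_ifs <;> omega
  · split_ifs <;> omega

theorem Lin_succ (c i j : ℤ) : Lin (c + 1) i j = Lin c i j + (if (c + j) % 2 = 0 then 1 else 0) := by
  unfold Lin
  split_ifs <;> omega

theorem Lin_sub_two (c i j : ℤ) : Lin (c - 2) i j = Lin c i j - 1 := by
  unfold Lin
  omega

theorem Lin_bounds (c i j : ℤ) : c - i - 1 ≤ 2 * Lin c i j ∧ 2 * Lin c i j ≤ c - i + 1 := by
  unfold Lin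
  omega

theorem Lin_self (c j : ℤ) : Lin c c j = 0 := by
  unfold Lin
  omega

/-- `f - Lin c` is nondecreasing along rows for admissible `f`. -/
theorem sub_Lin_mono {f : ℤ → ℤ → ℤ} (hf : Val0 f) (c j : ℤ) {i i' : ℤ} (h : i ≤ i') :
    f i j - Lin c i j ≤ f i' j - Lin c i' j := by
  induction i', h using Int.leInduction with
  | base => exact le_refl _
  | succ k _ ih =>
    refine ih.trans ?_
    have h1 := (hf (k + 1) j).1
    have h2 := Lin_step c (k + 1) j
    have e : k + 1 - 1 = k := by ring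
    rw [e] at h1 h2
    unfold sgn at h1
    split_ifs at h1 h2 <;> omega

theorem pf_val0 (c r b : ℤ) : Val0 (pf c r b) := by
  intro i j
  unfold pf Lin sgn
  constructor
  · split_ifs <;> omega
  · split_ifs <;> omega

theorem pf_ne (c r b i j : ℤ) (h : (i, j) ≠ (b, r)) : pf c r b i j = pf c r (b + 1) i j := by
  have h' : ¬ (i = b ∧ j = r) := fun h' => h (by rw [h'.1, h'.2])
  unfold pf
  by_cases h1 : j < r ∨ (j = r ∧ b ≤ i)
  · have h2 : j < r ∨ (j = r ∧ b + 1 ≤ i) := by omega
    rw [if_pos h1, if_pos h2]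
  · have h2 : ¬ (j < r ∨ (j = r ∧ b + 1 ≤ i)) := by omega
    rw [if_neg h1, if_neg h2]

end

end Pool.Agent.H40.SQ
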