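import Mathlib
import Pool.Agent.H40.SQ.Defs
import Pool.Agent.H40.SQ.PLin
import Pool.Agent.H40.SQ.HAdd
import Pool.Agent.H40.SQ.HStep
import Pool.Agent.H40.SQ.HLat
import Pool.Agent.H40.SQ.HCfg

/-!
# PSt: the states of the path

Let `Pair n X Y κ`.  `F X = F Y + F κ` (`F_union`).
* `lo_hi`: `hi X Y i j = lo X Y i j + |F κ i j|`, and `|F κ i j| ∈ {0,1}`.
* `pos_case`/`neg_case`: if `F κ ≥ 0` then `lo = F Y`, `hi = F X`; if `F κ ≤ 0` then `lo = F X`, `hi = F Y`.
* `stf_val`: `lo`, `hi` are admissible (`val0_min`, `val0_max` applied to `F X`, `F Y`), `pf` has admissible slopes, so `stf` has; outside the box `lo = hi = 0`, so `stf = 0`.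
* `stc_mem`, `F_stc`: `cfg_mem`, `F_cfg`.
-/

set_option autoImplicit false

namespace Pool.Agent.H40.SQ

noncomputable section

private theorem F_pair {n : ℕ} {X Y κ : Finset Edge} (h : Pair n X Y κ) (i j : ℤ) :
    F X i j = F Y i j + F κ i j := by
  rw [h.eq]
  exact F_union h.disj i j

theorem lo_hi {n : ℕ} {X Y κ : Finset Edge} (h : Pair n X Y κ) (i j : ℤ) :
    hi X Y i j = lo X Y i j + |F κ i j| ∧ (|F κ i j| = 0 ∨ |F κ i j| = 1) := by
  have h1 := F_pair h i j
  have h2 : F κ i j = 0 ∨ F κ i j = 1 ∨ F κ i j = -1 := by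
    rcases h.sign with hs | hs <;> rcases hs i j with h | h <;> simp [h]
  unfold lo hi
  rcases h2 with h2 | h2 | h2
  · rw [h2] at h1 ⊢
    rw [abs_zero]
    omega
  · rw [h2] at h1 ⊢
    rw [abs_one]
    omega
  · rw [h2] at h1 ⊢
    rw [abs_neg, abs_one]
    omega

theorem pos_case {n : ℕ} {X Y κ : Finset Edge} (h : Pair n X Y κ) (hs : ∀ i j, F κ i j = 0 ∨ F κ i j = 1) :
    (∀ i j, lo X Y i j = F Y i j) ∧ (∀ i j, hi X Y i j = F X i j) := by
  refine ⟨fun i j => ?_, fun i j => ?_⟩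
  · have h1 := F_pair h i j
    have h2 := hs i j
    unfold lo
    omega
  · have h1 := F_pair h i j
    have h2 := hs i j
    unfold hi
    omega

theorem neg_case {n : ℕ} {X Y κ : Finset Edge} (h : Pair n X Y κ) (hs : ∀ i j, F κ i j = 0 ∨ F κ i j = -1) :
    (∀ i j, lo X Y i j = F X i j) ∧ (∀ i j, hi X Y i j = F Y i j) := by
  refine ⟨fun i j => ?_, fun i j => ?_⟩
  · have h1 := F_pair h i j
    have h2 := hs i j
    unfold lo
    omega
  · have h1 := F_pair h i j
    have h2 := hs i j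
    unfold hi
    omega

theorem stf_val {n : ℕ} {X Y κ : Finset Edge} (h : Pair n X Y κ) (c r b : ℤ) : Val n (stf X Y c r b) := by
  have hX := val_F h.hX
  have hY := val_F h.hY
  refine ⟨?_, fun i j hij => ?_⟩
  · exact val0_min (val0_max (val0_min hX.1 hY.1) (pf_val0 c r b)) (val0_max hX.1 hY.1)
  · have h1 := hX.2 i j hij
    have h2 := hY.2 i j hij
    unfold stf lo hi
    rw [h1, h2]
    omega

theorem stc_mem {n : ℕ} {X Y κ : Finset Edge} (h : Pair n X Y κ) (c r b : ℤ) : stc n X Y c r b ∈ Om n :=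
  cfg_mem (stf_val h c r b)

theorem F_stc {n : ℕ} {X Y κ : Finset Edge} (h : Pair n X Y κ) (c r b i j : ℤ) :
    F (stc n X Y c r b) i j = stf X Y c r b i j :=
  F_cfg (stf_val h c r b) i j

end

end Pool.Agent.H40.SQ
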