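import Mathlib
import Pool.Agent.H40.SQ.Defs
import Pool.Agent.H40.SQ.PSt

/-!
# PDec: decoding

Let `Pair n X Y κ`, `Pair n X' Y' κ` with the same state `stc` for the same `c r b` and the same decoding data `kd` for all rows and sides.  Put `f = lo X Y`, `f' = lo X' Y'`, `p = pf c r b`, `S = {F κ ≠ 0}`, `g = ` the common height function `stf`
(`F_stc`).  Outside `S`: `f = g = f'` (`lo = hi`).  On `S`: `hi = f + 1`, so `g = f + 1` if `f < p` and `g = f` if `f ≥ p`.  Hence for a face of `S`:
`g < p → f < p → g = f+1`: impossible unless... precisely: if `g < p` then `f ≤ g < p`, so `f = g - 1`; if `g > p` then `f ≥ p` (else `g = f+1 ≤ p`), so `f = g`; if `g = p` then `f = p - 1` or `f = p`.  The same for `f'`.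
So it remains to show `f = f'` on the faces of `S` with `g = p`.  Fix the row `j` and the side `s`; on this part of the row `p` is `Lin c` or `Lin (c+1)` (row `j ≠ r`: the same function on both sides), so `f - p` and `f' - p` are nondecreasing in `i`
(`sub_Lin_mono`; `f`, `f'` have admissible slopes by `val0_min`).  Let `T = {i ∈ [0,n) on this side, F κ i j ≠ 0, g i j = p i j}`, `A = {i ∈ T : f i j = p i j - 1}`, `A'` likewise.  Note `A = {i on this side, F κ ≠ 0, f = p - 1}` (such a face
has `f < p`, so `g = f+1 = p`): its cardinality is `kd`.  `A` and `A'` are initial segments of `T` (monotonicity) with the same cardinality, so `A = A'` (one contains the other).  So `f = f'` everywhere, i.e. `lo X Y = lo X' Y'`.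
If `κ` is positive: `F X = hi = f + |F κ|`, negative: `F X = lo = f` (`pos_case`, `neg_case`).  So `F X = F X'`, `X = X'` (`F_inj`).
-/

set_option autoImplicit false

namespace Pool.Agent.H40.SQ

noncomputable section

/-- on one side of a row the sweeping function is linear -/
private theorem side (c r b j i₀ : ℤ) : ∃ c' : ℤ, ∀ i : ℤ,
    ((b ≤ i₀ ∧ b ≤ i) ∨ (i₀ < b ∧ i < b)) → pf c r b i j = Lin c' i j := by
  by_cases h1 : j < r ∨ (j = r ∧ b ≤ i₀)
  · refine ⟨c + 1, fun i hi => ?_⟩
    unfold pf
    rw [if_pos (by omega)]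
  · refine ⟨c, fun i hi => ?_⟩
    unfold pf
    rw [if_neg (by omega)]

private theorem lo_val0 {n : ℕ} {X Y κ : Finset Edge} (h : Pair n X Y κ) : Val0 (lo X Y) :=
  val0_min (val_F h.hX).1 (val_F h.hY).1

/-- the pointwise relation between the common height function and the lower heights -/
private theorem pt {n : ℕ} {X Y κ : Finset Edge} (h : Pair n X Y κ) (c r b i j : ℤ) :
    (F κ i j = 0 → stf X Y c r b i j = lo X Y i j) ∧
      (F κ i j ≠ 0 → (lo X Y i j < pf c r b i j → stf X Y c r b i j = lo X Y i j + 1) ∧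
        (pf c r b i j ≤ lo X Y i j → stf X Y c r b i j = lo X Y i j)) := by
  obtain ⟨h1, h2⟩ := lo_hi h i j
  constructor
  · intro h0
    rw [h0, abs_zero] at h1
    unfold stf
    omega
  · intro h0
    have h3 : |F κ i j| = 1 := h2.resolve_left (abs_ne_zero.mpr h0)
    rw [h3] at h1
    unfold stf
    constructor
    · intro h4; omega
    · intro h4; omega

private theorem aux {n : ℕ} {X Y X' Y' κ : Finset Edge} (h : Pair n X Y κ) (h' : Pair n X' Y' κ)
    (c r b : ℤ) (hst : ∀ i j, stf X Y c r b i j = stf X' Y' c r b i j)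
    (hkd : ∀ j : ℤ, ∀ s : Bool, kd n X Y κ c r b j s = kd n X' Y' κ c r b j s) (i₀ j : ℤ)
    (hκ : F κ i₀ j ≠ 0) (h1 : lo X Y i₀ j = pf c r b i₀ j - 1)
    (h2 : lo X' Y' i₀ j = pf c r b i₀ j) : False := by
  classical
  obtain ⟨c', hc'⟩ := side c r b j i₀
  have hp0 : pf c r b i₀ j = Lin c' i₀ j := hc' i₀ (by omega)
  -- the side
  let s : Bool := decide (b ≤ i₀)
  have hs : ∀ i : ℤ, ((s = true ∧ b ≤ i) ∨ (s = false ∧ i < b)) ↔
      ((b ≤ i₀ ∧ b ≤ i) ∨ (i₀ < b ∧ i < b)) := by
    intro i
    simp only [s, decide_eq_true_eq, decide_eq_false_iff_not, not_le]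
  have hk := hkd j s
  unfold kd at hk
  have hlt : ((Finset.Ico 0 (n : ℤ)).filter (fun i => ((s = true ∧ b ≤ i) ∨ (s = false ∧ i < b)) ∧
      F κ i j ≠ 0 ∧ lo X' Y' i j = pf c r b i j - 1)) ⊂
      ((Finset.Ico 0 (n : ℤ)).filter (fun i => ((s = true ∧ b ≤ i) ∨ (s = false ∧ i < b)) ∧
      F κ i j ≠ 0 ∧ lo X Y i j = pf c r b i j - 1)) := by
    rw [Finset.ssubset_iff_of_subset]
    · refine ⟨i₀, ?_, ?_⟩
      · rw [Finset.mem_filter]
        refine ⟨?_, (hs i₀).mpr (by omega), hκ, h1⟩
        have hb : (i₀, j) ∈ box n := by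
          by_contra hb
          exact hκ (F_supp h.hκ hb)
        exact (Finset.mem_product.mp hb).1
      · rw [Finset.mem_filter]
        rintro ⟨-, -, -, h3⟩
        omega
    · intro i hi
      rw [Finset.mem_filter] at hi ⊢
      obtain ⟨hi1, hi2, hi3, hi4⟩ := hi
      refine ⟨hi1, hi2, hi3, ?_⟩
      have hpi : pf c r b i j = Lin c' i j := hc' i ((hs i).mp hi2)
      have e1 := ((pt h' c r b i j).2 hi3).1 (by omega)
      have e2 := hst i j
      have e3 := (pt h c r b i j).2 hi3
      -- `lo X Y i j` is `p - 1` or `p`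
      by_contra hne
      have e4 : lo X Y i j = pf c r b i j := by
        rcases lt_or_ge (lo X Y i j) (pf c r b i j) with hlt | hge
        · have := e3.1 hlt
          omega
        · have := e3.2 hge
          omega
      rcases le_or_gt i₀ i with hle | hgt
      · have := sub_Lin_mono (lo_val0 h') c' j hle
        omega
      · have := sub_Lin_mono (lo_val0 h) c' j hgt.le
        omega
  have := Finset.card_lt_card hlt
  omega

theorem decode {n : ℕ} {X Y X' Y' κ : Finset Edge} (h : Pair n X Y κ) (h' : Pair n X' Y' κ) (c r b : ℤ)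
    (hst : stc n X Y c r b = stc n X' Y' c r b)
    (hkd : ∀ j : ℤ, ∀ s : Bool, kd n X Y κ c r b j s = kd n X' Y' κ c r b j s) : X = X' := by
  have hst' : ∀ i j, stf X Y c r b i j = stf X' Y' c r b i j := by
    intro i j
    rw [← F_stc h, ← F_stc h', hst]
  have hlo : ∀ i j, lo X Y i j = lo X' Y' i j := by
    intro i j
    have e0 := hst' i j
    have e1 := pt h c r b i j
    have e2 := pt h' c r b i j
    by_cases hκ : F κ i j = 0
    · have := e1.1 hκ
      have := e2.1 hκ
      omega
    · have f1 := e1.2 hκ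
      have f2 := e2.2 hκ
      by_contra hne
      rcases lt_or_ge (lo X Y i j) (pf c r b i j) with g1 | g1
      · have a1 := f1.1 g1
        rcases lt_or_ge (lo X' Y' i j) (pf c r b i j) with g2 | g2
        · have a2 := f2.1 g2
          omega
        · have a2 := f2.2 g2
          exact aux h h' c r b hst' hkd i j hκ (by omega) (by omega)
      · have a1 := f1.2 g1
        rcases lt_or_ge (lo X' Y' i j) (pf c r b i j) with g2 | g2
        · have a2 := f2.1 g2
          exact aux h' h c r b (fun i j => (hst' i j).symm) (fun j s => (hkd j s).symm) i j hκ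
            (by omega) (by omega)
        · have a2 := f2.2 g2
          omega
  refine F_inj h.hX h'.hX fun i j => ?_
  rcases h.sign with hs | hs
  · rw [← (pos_case h hs).2 i j, ← (pos_case h' hs).2 i j, (lo_hi h i j).1, (lo_hi h' i j).1, hlo]
  · rw [← (neg_case h hs).1 i j, ← (neg_case h' hs).1 i j, hlo]

end

end Pool.Agent.H40.SQ
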