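import Mathlib
import Pool.Agent.H40.SQ.Defs
import Pool.Agent.H40.SQ.HStep

/-!
# HCard: the number of edges is twice the total variation along rows

For `γ ∈ Om n`: summing the vertex condition over all `i j ∈ Icc 0 n` (all vertices), every horizontal edge `(false,i,j)`, `0 ≤ i < n`, `0 ≤ j ≤ n`, is counted twice
on the left and every vertical edge twice on the right; so the number of horizontal edges equals the number of vertical edges, and `γ.card = 2 * #vertical`.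
By `F_step` `|F γ i j - F γ (i-1) j| = ind γ (true,i,j)`, and all vertical edges have `0 ≤ i ≤ n`, `0 ≤ j < n`.
Practical: split `γ = γ.filter (·.1 = true) ∪ γ.filter (·.1 = false)`, and write both cardinalities as sums of `ind` over `Icc`.
-/

set_option autoImplicit false

namespace Pool.Agent.H40.SQ

noncomputable section

private theorem cnt {γ : Finset Edge} (S : Finset (ℤ × ℤ)) (b : Bool) (g : ℤ × ℤ → ℤ × ℤ)
    (hg : Function.Injective g) (h : ∀ y : ℤ × ℤ, (b, y) ∈ γ → ∃ x ∈ S, g x = y) :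
    ∑ x ∈ S, ind γ (b, g x) = ((γ.filter (fun e => e.1 = b)).card : ℤ) := by
  unfold ind
  rw [Finset.sum_boole]
  congr 1
  refine Finset.card_bij (fun x _ => (b, g x)) ?_ ?_ ?_
  · intro x hx
    rw [Finset.mem_filter] at hx ⊢
    exact ⟨hx.2, rfl⟩
  · intro x _ y _ hxy
    exact hg (Prod.mk.inj hxy).2
  · rintro ⟨b', y⟩ hy
    rw [Finset.mem_filter] at hy
    obtain ⟨hy1, rfl⟩ := hy
    obtain ⟨x, hx, rfl⟩ := h y hy1
    exact ⟨x, Finset.mem_filter.mpr ⟨hx, hy1⟩, rfl⟩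

theorem card_eq_vert {n : ℕ} {γ : Finset Edge} (hγ : γ ∈ Om n) :
    γ.card = 2 * (γ.filter (fun e => e.1 = true)).card := by
  obtain ⟨hE, hV⟩ := mem_Om.mp hγ
  set S : Finset (ℤ × ℤ) := Finset.Icc 0 (n : ℤ) ×ˢ Finset.Icc 0 (n : ℤ) with hS
  have mS : ∀ i j : ℤ, (i, j) ∈ S ↔ 0 ≤ i ∧ i ≤ n ∧ 0 ≤ j ∧ j ≤ n := by
    intro i j
    rw [hS, Finset.mem_product, Finset.mem_Icc, Finset.mem_Icc]
    tauto
  have hf : ∀ y : ℤ × ℤ, (false, y) ∈ γ → 0 ≤ y.1 ∧ y.1 < n ∧ 0 ≤ y.2 ∧ y.2 ≤ n :=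
    fun y hy => mem_E_false.mp (hE hy)
  have ht : ∀ y : ℤ × ℤ, (true, y) ∈ γ → 0 ≤ y.1 ∧ y.1 ≤ n ∧ 0 ≤ y.2 ∧ y.2 < n :=
    fun y hy => mem_E_true.mp (hE hy)
  have a1 := cnt (γ := γ) S false (fun x => (x.1 - 1, x.2))
    (by rintro ⟨a, b⟩ ⟨c, d⟩ h; simp only [Prod.mk.injEq, sub_left_inj] at h ⊢; exact h)
    (by
      rintro ⟨y1, y2⟩ hy
      have := hf _ hy
      dsimp only at this
      exact ⟨(y1 + 1, y2), (mS _ _).mpr (by omega), by simp⟩)
  have a2 := cnt (γ := γ) S false (fun x => x) (fun _ _ h => h)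
    (by
      rintro ⟨y1, y2⟩ hy
      have := hf _ hy
      dsimp only at this
      exact ⟨(y1, y2), (mS _ _).mpr (by omega), rfl⟩)
  have a3 := cnt (γ := γ) S true (fun x => (x.1, x.2 - 1))
    (by rintro ⟨a, b⟩ ⟨c, d⟩ h; simp only [Prod.mk.injEq, sub_left_inj] at h ⊢; exact h)
    (by
      rintro ⟨y1, y2⟩ hy
      have := ht _ hy
      dsimp only at this
      exact ⟨(y1, y2 + 1), (mS _ _).mpr (by omega), by simp⟩)
  have a4 := cnt (γ := γ) S true (fun x => x) (fun _ _ h => h)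
    (by
      rintro ⟨y1, y2⟩ hy
      have := ht _ hy
      dsimp only at this
      exact ⟨(y1, y2), (mS _ _).mpr (by omega), rfl⟩)
  have a5 : ∑ x ∈ S, (ind γ (false, x.1 - 1, x.2) + ind γ (false, x)) =
      ∑ x ∈ S, (ind γ (true, x.1, x.2 - 1) + ind γ (true, x)) :=
    Finset.sum_congr rfl fun x _ => hV x.1 x.2
  rw [Finset.sum_add_distrib, Finset.sum_add_distrib, a1, a2, a3, a4] at a5
  have a6 := Finset.card_filter_add_card_filter_not (s := γ) (fun e => e.1 = true)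
  have a7 : γ.filter (fun e => ¬ (e.1 = true)) = γ.filter (fun e => e.1 = false) := by
    refine Finset.filter_congr fun e _ => ?_
    rw [Bool.not_eq_true]
  rw [a7] at a6
  omega

theorem card_eq_tv {n : ℕ} {γ : Finset Edge} (hγ : γ ∈ Om n) :
    (γ.card : ℤ) = 2 * ∑ j ∈ Finset.Ico 0 (n : ℤ), ∑ i ∈ Finset.Icc 0 (n : ℤ), |F γ i j - F γ (i - 1) j| := by
  obtain ⟨hE, hV⟩ := mem_Om.mp hγ
  have e1 : ∀ i j : ℤ, |F γ i j - F γ (i - 1) j| = ind γ (true, i, j) := by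
    intro i j
    rw [F_step hE]
    unfold sgn ind
    split_ifs <;> norm_num
  simp only [e1]
  rw [← Finset.sum_product' (Finset.Ico 0 (n : ℤ)) (Finset.Icc 0 (n : ℤ))
    (fun j i => ind γ (true, i, j))]
  have a := cnt (γ := γ) (Finset.Ico 0 (n : ℤ) ×ˢ Finset.Icc 0 (n : ℤ)) true Prod.swap
    Prod.swap_injective
    (by
      rintro ⟨y1, y2⟩ hy
      have := mem_E_true.mp (hE hy)
      refine ⟨(y2, y1), ?_, rfl⟩
      rw [Finset.mem_product, Finset.mem_Ico, Finset.mem_Icc]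
      dsimp only
      omega)
  have b : ∑ x ∈ Finset.Ico 0 (n : ℤ) ×ˢ Finset.Icc 0 (n : ℤ), ind γ (true, x.2, x.1) =
      ((γ.filter (fun e => e.1 = true)).card : ℤ) := a
  rw [b, card_eq_vert hγ]
  push_cast
  ring

end

end Pool.Agent.H40.SQ
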