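import Mathlib
import Pool.Agent.H40.SQ.Defs

/-!
# PTv: total variation of a cut 0/1 sequence

`v : ℤ → ℤ` with values in `{0,1}`, `v i = 0` for `i < 0` and for `i ≥ n`; `TV v = ∑_{i∈Icc 0 n} |v i - v (i-1)|`.
* `tv_cut_left`: `A` an initial segment (`A i'`, `i ≤ i'` imply `A i`); `v' i = v i` if `A i`, else `0`.  If `A` holds for no `i` in `[0,n]` then `TV v' = 0`, if for all then `v' = v` on `[-1,n]`.  Otherwise let `ξ` be the first `i ∈ [1,n]` with
`¬ A i` (there `A (ξ-1)`): `TV v' = ∑_{i<ξ} |v i - v (i-1)| + v (ξ-1)` and `v (ξ-1) = v(ξ-1) - v n ≤ ∑_{i=ξ}^{n} |v i - v(i-1)|` (triangle inequality, `v n = 0`).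
Cleaner: prove by induction on `m ≤ n+1` the statement `∑_{i∈Icc 0 (m-1)} |v' i - v' (i-1)| + v' (m-1)`... or prove `tv_cut` for a cut at an explicit integer `ξ` (`A i ↔ i < ξ`; every initial segment restricted to `Icc (-1) n` is of this form) and split the sum at `ξ`.
* `tv_cut_right`: final segments, symmetric (use `v (-1) = 0`).
* `tv_cut3`: for an arbitrary predicate `A`: `|v' i - v' (i-1)| ≤ |v i - v(i-1)| + [A i ≠ A (i-1)]`.
-/

set_option autoImplicit false

namespace Pool.Agent.H40.SQ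

noncomputable section

private theorem ptv_tele (d : ℤ → ℤ) (n : ℕ) :
    ∑ i ∈ Finset.Icc 0 (n : ℤ), (d i - d (i - 1)) = d n - d (-1) := by
  induction n with
  | zero =>
    have h : Finset.Icc (0 : ℤ) ((0 : ℕ) : ℤ) = {0} := by
      ext x
      rw [Finset.mem_Icc, Finset.mem_singleton]
      omega
    rw [h, Finset.sum_singleton]
    rfl
  | succ n ih =>
    have h : Finset.Icc (0 : ℤ) ((n + 1 : ℕ) : ℤ) =
        insert ((n + 1 : ℕ) : ℤ) (Finset.Icc (0 : ℤ) (n : ℤ)) := by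
      ext x
      rw [Finset.mem_insert, Finset.mem_Icc, Finset.mem_Icc]
      omega
    have h2 : ((n + 1 : ℕ) : ℤ) ∉ Finset.Icc (0 : ℤ) (n : ℤ) := by
      rw [Finset.mem_Icc]
      omega
    rw [h, Finset.sum_insert h2, ih]
    have h3 : ((n + 1 : ℕ) : ℤ) - 1 = n := by push_cast; ring
    rw [h3]
    ring

open Classical in
theorem tv_cut_left (n : ℕ) (v : ℤ → ℤ) (hv : ∀ i, v i = 0 ∨ v i = 1) (h0 : ∀ i < 0, v i = 0)
    (hn : ∀ i, (n : ℤ) ≤ i → v i = 0) (A : ℤ → Prop) (hA : ∀ i i', i ≤ i' → A i' → A i) :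
    ∑ i ∈ Finset.Icc 0 (n : ℤ), |(if A i then v i else 0) - (if A (i - 1) then v (i - 1) else 0)| ≤
      ∑ i ∈ Finset.Icc 0 (n : ℤ), |v i - v (i - 1)| := by
  have h1 : ∀ i ∈ Finset.Icc 0 (n : ℤ),
      |(if A i then v i else 0) - (if A (i - 1) then v (i - 1) else 0)| ≤
      |v i - v (i - 1)| + ((v i - (if A i then v i else 0)) -
        (v (i - 1) - (if A (i - 1) then v (i - 1) else 0))) := by
    intro i _
    by_cases hi : A i
    · have hi' : A (i - 1) := hA _ _ (by omega) hi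
      rw [if_pos hi, if_pos hi']
      omega
    · rw [if_neg hi]
      by_cases hi' : A (i - 1)
      · rw [if_pos hi']
        rcases hv i with h | h <;> rcases hv (i - 1) with h' | h' <;> rw [h, h'] <;> norm_num
      · rw [if_neg hi']
        rcases hv i with h | h <;> rcases hv (i - 1) with h' | h' <;> rw [h, h'] <;> norm_num
  refine (Finset.sum_le_sum h1).trans ?_
  rw [Finset.sum_add_distrib, ptv_tele (fun i => v i - (if A i then v i else 0)) n]
  rw [hn n le_rfl, h0 (-1) (by norm_num)]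
  simp

open Classical in
theorem tv_cut_right (n : ℕ) (v : ℤ → ℤ) (hv : ∀ i, v i = 0 ∨ v i = 1) (h0 : ∀ i < 0, v i = 0)
    (hn : ∀ i, (n : ℤ) ≤ i → v i = 0) (A : ℤ → Prop) (hA : ∀ i i', i ≤ i' → A i → A i') :
    ∑ i ∈ Finset.Icc 0 (n : ℤ), |(if A i then v i else 0) - (if A (i - 1) then v (i - 1) else 0)| ≤
      ∑ i ∈ Finset.Icc 0 (n : ℤ), |v i - v (i - 1)| := by
  have h1 : ∀ i ∈ Finset.Icc 0 (n : ℤ),
      |(if A i then v i else 0) - (if A (i - 1) then v (i - 1) else 0)| ≤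
      |v i - v (i - 1)| + (((if A i then v i else 0) - v i) -
        ((if A (i - 1) then v (i - 1) else 0) - v (i - 1))) := by
    intro i _
    by_cases hi' : A (i - 1)
    · have hi : A i := hA _ _ (by omega) hi'
      rw [if_pos hi, if_pos hi']
      omega
    · rw [if_neg hi']
      by_cases hi : A i
      · rw [if_pos hi]
        rcases hv i with h | h <;> rcases hv (i - 1) with h' | h' <;> rw [h, h'] <;> norm_num
      · rw [if_neg hi]
        rcases hv i with h | h <;> rcases hv (i - 1) with h' | h' <;> rw [h, h'] <;> norm_num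
  refine (Finset.sum_le_sum h1).trans ?_
  rw [Finset.sum_add_distrib, ptv_tele (fun i => (if A i then v i else 0) - v i) n]
  rw [hn n le_rfl, h0 (-1) (by norm_num)]
  simp

open Classical in
theorem tv_cut3 (n m : ℕ) (v : ℤ → ℤ) (hv : ∀ i, v i = 0 ∨ v i = 1) (A : ℤ → Prop)
    (hA : ((Finset.Icc 0 (n : ℤ)).filter (fun i => ¬ (A i ↔ A (i - 1)))).card ≤ m) :
    ∑ i ∈ Finset.Icc 0 (n : ℤ), |(if A i then v i else 0) - (if A (i - 1) then v (i - 1) else 0)| ≤
      ∑ i ∈ Finset.Icc 0 (n : ℤ), |v i - v (i - 1)| + m := by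
  have h1 : ∀ i ∈ Finset.Icc 0 (n : ℤ),
      |(if A i then v i else 0) - (if A (i - 1) then v (i - 1) else 0)| ≤
      |v i - v (i - 1)| + (if ¬ (A i ↔ A (i - 1)) then 1 else 0) := by
    intro i _
    by_cases hi : A i <;> by_cases hi' : A (i - 1) <;>
      rcases hv i with h | h <;> rcases hv (i - 1) with h' | h' <;> simp [hi, hi', h, h']
  refine (Finset.sum_le_sum h1).trans ?_
  rw [Finset.sum_add_distrib, ← Finset.sum_filter, Finset.sum_const, nsmul_eq_mul, mul_one]
  have : ((((Finset.Icc 0 (n : ℤ)).filter (fun i => ¬ (A i ↔ A (i - 1)))).card : ℕ) : ℤ) ≤ m := by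
    exact_mod_cast hA
  linarith

end

end Pool.Agent.H40.SQ
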