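import Mathlib
import Pool.Agent.H40.SQ.Defs
import Pool.Agent.H40.SQ.PSt
import Pool.Agent.H40.SQ.PTv
import Pool.Agent.H40.SQ.HCard

/-!
# PEn: the energy along the path never exceeds the energy of `X` by more than 6 edges

Let `v i j = |F κ i j| ∈ {0,1}` (zero outside the box, `F_supp`).  By `card_eq_tv` it suffices to show for every row `j`:
`TV(stf row j) ≤ TV(F X row j) + (3 if j = r, else 0)`.
* `TV(F X) = TV(F Y) + TV(F κ)` in each row: by `F_step` the absolute steps are the indicators, `ind X = ind Y + ind κ` (disjoint union).  `TV(F κ) = TV(v)` (constant sign: `|F κ i - F κ (i-1)| = |v i - v (i-1)|`).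
* Positive case (`lo = F Y`, `hi = F Y + v`): `stf = F Y + v'`, `v' i j = v i j` if `F Y i j < pf c r b i j`, else `0`.
  Negative case (`lo = F Y - v`, `hi = F Y`): `stf = F Y - v'`, `v' i j = v i j` if `pf c r b i j < F Y i j`, else `0`.  (`v ∈ {0,1}`, integers.)
So `TV(stf) ≤ TV(F Y) + TV(v')`.
* Row `j ≠ r`: `pf c r b · j` is `Lin (c+1) · j` (if `j < r`) or `Lin c · j` (if `j > r`) on the whole row; by `sub_Lin_mono` `{i : F Y < pf}` is an initial segment and `{i : pf < F Y}` a final segment; `tv_cut_left`/`tv_cut_right`: `TV(v') ≤ TV(v)`.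
* Row `j = r`: on `i < b` it is `Lin c`, on `i ≥ b` it is `Lin (c+1)`; the predicate changes at most once for `i < b`, at most once for `i > b` (`i-1 ≥ b`), and possibly at `i = b`: at most 3 changes, `tv_cut3`.
Total: `stc.card ≤ X.card + 2 * 3`.
-/

set_option autoImplicit false

namespace Pool.Agent.H40.SQ

noncomputable section

open Classical in
theorem pen_count (n : ℕ) (b : ℤ) (B : ℤ → Prop)
    (h1 : ∀ i i', i ≤ i' → i' < b → B i' → B i) (h2 : ∀ i i', b ≤ i → i ≤ i' → B i' → B i) :
    ((Finset.Icc 0 (n : ℤ)).filter (fun i => ¬ (B i ↔ B (i - 1)))).card ≤ 3 := by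
  set S := (Finset.Icc 0 (n : ℤ)).filter (fun i => ¬ (B i ↔ B (i - 1))) with hS
  have hsub : S ⊆ (S.filter (fun i => i < b) ∪ {b}) ∪ S.filter (fun i => b < i) := by
    intro i hi
    rw [Finset.mem_union, Finset.mem_union, Finset.mem_singleton]
    rcases lt_trichotomy i b with h | h | h
    · exact Or.inl (Or.inl (Finset.mem_filter.mpr ⟨hi, h⟩))
    · exact Or.inl (Or.inr h)
    · exact Or.inr (Finset.mem_filter.mpr ⟨hi, h⟩)
  have hL : (S.filter (fun i => i < b)).card ≤ 1 := by
    have hprop : ∀ i ∈ S.filter (fun i => i < b), i < b ∧ ¬ B i ∧ B (i - 1) := by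
      intro i hi
      rw [Finset.mem_filter, hS, Finset.mem_filter] at hi
      obtain ⟨⟨_, hi2⟩, hi3⟩ := hi
      have h3 : B i → B (i - 1) := h1 (i - 1) i (by omega) hi3
      refine ⟨hi3, ?_, ?_⟩
      · intro hB
        exact hi2 ⟨h3, fun _ => hB⟩
      · by_contra hB
        exact hi2 ⟨h3, fun hB' => absurd hB' hB⟩
    rw [Finset.card_le_one]
    intro x hx y hy
    obtain ⟨hx1, hx2, hx3⟩ := hprop x hx
    obtain ⟨hy1, hy2, hy3⟩ := hprop y hy
    rcases lt_trichotomy x y with h | h | h
    · exact absurd (h1 x (y - 1) (by omega) (by omega) hy3) hx2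
    · exact h
    · exact absurd (h1 y (x - 1) (by omega) (by omega) hx3) hy2
  have hR : (S.filter (fun i => b < i)).card ≤ 1 := by
    have hprop : ∀ i ∈ S.filter (fun i => b < i), b < i ∧ ¬ B i ∧ B (i - 1) := by
      intro i hi
      rw [Finset.mem_filter, hS, Finset.mem_filter] at hi
      obtain ⟨⟨_, hi2⟩, hi3⟩ := hi
      have h3 : B i → B (i - 1) := h2 (i - 1) i (by omega) (by omega)
      refine ⟨hi3, ?_, ?_⟩
      · intro hB
        exact hi2 ⟨h3, fun _ => hB⟩
      · by_contra hB
        exact hi2 ⟨h3, fun hB' => absurd hB' hB⟩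
    rw [Finset.card_le_one]
    intro x hx y hy
    obtain ⟨hx1, hx2, hx3⟩ := hprop x hx
    obtain ⟨hy1, hy2, hy3⟩ := hprop y hy
    rcases lt_trichotomy x y with h | h | h
    · exact absurd (h2 x (y - 1) (by omega) (by omega) hy3) hx2
    · exact h
    · exact absurd (h2 y (x - 1) (by omega) (by omega) hx3) hy2
  have h3 := Finset.card_le_card hsub
  have h4 := Finset.card_union_le (S.filter (fun i => i < b) ∪ {b}) (S.filter (fun i => b < i))
  have h5 := Finset.card_union_le (S.filter (fun i => i < b)) {b}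
  rw [Finset.card_singleton] at h5
  omega

/-- absolute value of the height -/
def penv (κ : Finset Edge) (i j : ℤ) : ℤ := |F κ i j|

theorem pen_ind01 (γ : Finset Edge) (e : Edge) : ind γ e = 0 ∨ ind γ e = 1 := by
  unfold ind
  split_ifs <;> simp

theorem pen_abs_step {n : ℕ} {γ : Finset Edge} (hγ : γ ⊆ E n) (i j : ℤ) :
    |F γ i j - F γ (i - 1) j| = ind γ (true, i, j) := by
  rw [F_step hγ, abs_mul]
  have h1 : |sgn i j| = 1 := by
    unfold sgn
    split_ifs <;> simp
  rw [h1, one_mul]
  rcases pen_ind01 γ (true, i, j) with h | h <;> rw [h] <;> norm_num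

theorem pen_ind_union {Y κ : Finset Edge} (h : Disjoint Y κ) (e : Edge) :
    ind (Y ∪ κ) e = ind Y e + ind κ e := by
  unfold ind
  by_cases h1 : e ∈ Y
  · have h2 : e ∉ κ := Finset.disjoint_left.mp h h1
    simp [h1, h2]
  · simp [h1]

theorem pen_pf_lt (c r b i j : ℤ) (h : j < r) : pf c r b i j = Lin (c + 1) i j := by
  unfold pf
  rw [if_pos (Or.inl h)]

theorem pen_pf_gt (c r b i j : ℤ) (h : r < j) : pf c r b i j = Lin c i j := by
  unfold pf
  rw [if_neg (by omega)]

theorem pen_pf_right (c r b i : ℤ) (h : b ≤ i) : pf c r b i r = Lin (c + 1) i r := by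
  unfold pf
  rw [if_pos (Or.inr ⟨rfl, h⟩)]

theorem pen_pf_left (c r b i : ℤ) (h : i < b) : pf c r b i r = Lin c i r := by
  unfold pf
  rw [if_neg (by omega)]

open Classical in
/-- total variation of the cut sequence in one row -/
theorem pen_cut {n : ℕ} {Y κ : Finset Edge} (hY : Y ∈ Om n) (hκ : κ ∈ Om n)
    (hv : ∀ i j, |F κ i j| = 0 ∨ |F κ i j| = 1) (c r b j : ℤ) (A : ℤ → Prop)
    (hA : (∀ i, A i ↔ F Y i j < pf c r b i j) ∨ (∀ i, A i ↔ pf c r b i j < F Y i j)) :
    ∑ i ∈ Finset.Icc 0 (n : ℤ), |(if A i then penv κ i j else 0) -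
        (if A (i - 1) then penv κ (i - 1) j else 0)| ≤
      ∑ i ∈ Finset.Icc 0 (n : ℤ), |penv κ i j - penv κ (i - 1) j| +
        (if j = r then 3 else 0) := by
  have hYv := (val_F hY).1
  have h0 : ∀ i < 0, penv κ i j = 0 := by
    intro i hi
    unfold penv
    rw [F_neg κ i j hi, abs_zero]
  have hn : ∀ i, (n : ℤ) ≤ i → penv κ i j = 0 := by
    intro i hi
    unfold penv
    rw [F_supp hκ, abs_zero]
    unfold box
    rw [Finset.mem_product, Finset.mem_Ico]
    intro h
    exact absurd h.1.2 (not_lt.mpr hi)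
  by_cases hj : j = r
  · subst hj
    rw [if_pos rfl]
    have hmono : ∀ i i', i ≤ i' → (i' < b ∨ b ≤ i) →
        F Y i j - pf c j b i j ≤ F Y i' j - pf c j b i' j := by
      intro i i' hii hb
      rcases hb with hb | hb
      · rw [pen_pf_left c j b i (by omega), pen_pf_left c j b i' hb]
        exact sub_Lin_mono hYv c j hii
      · rw [pen_pf_right c j b i hb, pen_pf_right c j b i' (by omega)]
        exact sub_Lin_mono hYv (c + 1) j hii
    refine tv_cut3 n 3 (fun i => penv κ i j) (fun i => hv i j) A ?_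
    rcases hA with hA | hA
    · refine pen_count n b A ?_ ?_
      · intro i i' hii hb h
        rw [hA] at h ⊢
        have := hmono i i' hii (Or.inl hb)
        omega
      · intro i i' hb hii h
        rw [hA] at h ⊢
        have := hmono i i' hii (Or.inr hb)
        omega
    · obtain ⟨B, hB⟩ : ∃ B : ℤ → Prop, ∀ i, B i ↔ ¬ A i := ⟨_, fun _ => Iff.rfl⟩
      have h1 := pen_count n b B (by
        intro i i' hii hb h
        rw [hB] at h ⊢
        intro h'
        apply h
        rw [hA] at h' ⊢
        have := hmono i i' hii (Or.inl hb)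
        omega) (by
        intro i i' hb hii h
        rw [hB] at h ⊢
        intro h'
        apply h
        rw [hA] at h' ⊢
        have := hmono i i' hii (Or.inr hb)
        omega)
      refine le_trans (Finset.card_le_card ?_) h1
      intro i hi
      rw [Finset.mem_filter] at hi ⊢
      refine ⟨hi.1, fun h => hi.2 ?_⟩
      rw [hB, hB] at h
      exact not_iff_not.mp h
  · rw [if_neg hj, add_zero]
    have hmono : ∀ i i', i ≤ i' → F Y i j - pf c r b i j ≤ F Y i' j - pf c r b i' j := by
      intro i i' hii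
      rcases lt_or_gt_of_ne hj with h | h
      · rw [pen_pf_lt c r b i j h, pen_pf_lt c r b i' j h]
        exact sub_Lin_mono hYv (c + 1) j hii
      · rw [pen_pf_gt c r b i j h, pen_pf_gt c r b i' j h]
        exact sub_Lin_mono hYv c j hii
    rcases hA with hA | hA
    · refine tv_cut_left n (fun i => penv κ i j) (fun i => hv i j) h0 hn A ?_
      intro i i' hii h
      rw [hA] at h ⊢
      have := hmono i i' hii
      omega
    · refine tv_cut_right n (fun i => penv κ i j) (fun i => hv i j) h0 hn A ?_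
      intro i i' hii h
      rw [hA] at h ⊢
      have := hmono i i' hii
      omega

theorem pen_row {n : ℕ} {X Y κ : Finset Edge} (h : Pair n X Y κ) (c r b j : ℤ) :
    ∑ i ∈ Finset.Icc 0 (n : ℤ), |stf X Y c r b i j - stf X Y c r b (i - 1) j| ≤
      ∑ i ∈ Finset.Icc 0 (n : ℤ), |F X i j - F X (i - 1) j| + (if j = r then 3 else 0) := by
  classical
  have hv : ∀ i j, |F κ i j| = 0 ∨ |F κ i j| = 1 := fun i j => (lo_hi h i j).2
  have hFX : ∀ i j, F X i j = F Y i j + F κ i j := by
    intro i j
    rw [h.eq, F_union h.disj]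
  have hXs : ∀ i, |F X i j - F X (i - 1) j| =
      |F Y i j - F Y (i - 1) j| + |penv κ i j - penv κ (i - 1) j| := by
    intro i
    have e1 : |penv κ i j - penv κ (i - 1) j| = |F κ i j - F κ (i - 1) j| := by
      unfold penv
      rcases h.sign with hs | hs
      · rcases hs i j with a | a <;> rcases hs (i - 1) j with a' | a' <;> rw [a, a'] <;> norm_num
      · rcases hs i j with a | a <;> rcases hs (i - 1) j with a' | a' <;> rw [a, a'] <;> norm_num
    rw [e1, pen_abs_step (mem_Om.mp h.hX).1, pen_abs_step (mem_Om.mp h.hY).1,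
      pen_abs_step (mem_Om.mp h.hκ).1, h.eq, pen_ind_union h.disj]
  have hmain : ∃ A : ℤ → Prop,
      ((∀ i, A i ↔ F Y i j < pf c r b i j) ∨ (∀ i, A i ↔ pf c r b i j < F Y i j)) ∧
      ∀ i, |stf X Y c r b i j - stf X Y c r b (i - 1) j| ≤ |F Y i j - F Y (i - 1) j| +
        |(if A i then penv κ i j else 0) - (if A (i - 1) then penv κ (i - 1) j else 0)| := by
    rcases h.sign with hs | hs
    · obtain ⟨A, hA⟩ : ∃ A : ℤ → Prop, ∀ i, A i ↔ F Y i j < pf c r b i j :=
        ⟨_, fun _ => Iff.rfl⟩
      refine ⟨A, Or.inl hA, ?_⟩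
      have hst : ∀ i, stf X Y c r b i j = F Y i j + (if A i then penv κ i j else 0) := by
        intro i
        unfold stf
        rw [(pos_case h hs).1, (pos_case h hs).2, hFX]
        by_cases ha : A i
        · rw [if_pos ha]
          rw [hA] at ha
          try unfold penv
          rcases hs i j with a | a <;> rw [a] <;> simp <;> omega
        · rw [if_neg ha]
          rw [hA] at ha
          try unfold penv
          rcases hs i j with a | a <;> rw [a] <;> simp <;> omega
      intro i
      rw [hst i, hst (i - 1)]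
      have e2 : F Y i j + (if A i then penv κ i j else 0) -
          (F Y (i - 1) j + (if A (i - 1) then penv κ (i - 1) j else 0)) =
          (F Y i j - F Y (i - 1) j) + ((if A i then penv κ i j else 0) -
            (if A (i - 1) then penv κ (i - 1) j else 0)) := by ring
      rw [e2]
      exact abs_add_le _ _
    · obtain ⟨A, hA⟩ : ∃ A : ℤ → Prop, ∀ i, A i ↔ pf c r b i j < F Y i j :=
        ⟨_, fun _ => Iff.rfl⟩
      refine ⟨A, Or.inr hA, ?_⟩
      have hst : ∀ i, stf X Y c r b i j = F Y i j - (if A i then penv κ i j else 0) := by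
        intro i
        unfold stf
        rw [(neg_case h hs).1, (neg_case h hs).2, hFX]
        by_cases ha : A i
        · rw [if_pos ha]
          rw [hA] at ha
          try unfold penv
          rcases hs i j with a | a <;> rw [a] <;> simp <;> omega
        · rw [if_neg ha]
          rw [hA] at ha
          try unfold penv
          rcases hs i j with a | a <;> rw [a] <;> simp <;> omega
      intro i
      rw [hst i, hst (i - 1)]
      have e2 : F Y i j - (if A i then penv κ i j else 0) -
          (F Y (i - 1) j - (if A (i - 1) then penv κ (i - 1) j else 0)) =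
          (F Y i j - F Y (i - 1) j) + -((if A i then penv κ i j else 0) -
            (if A (i - 1) then penv κ (i - 1) j else 0)) := by ring
      rw [e2]
      refine (abs_add_le _ _).trans ?_
      rw [abs_neg]
  obtain ⟨A, hA, hb⟩ := hmain
  have hcut := pen_cut h.hY h.hκ hv c r b j A hA
  calc ∑ i ∈ Finset.Icc 0 (n : ℤ), |stf X Y c r b i j - stf X Y c r b (i - 1) j|
      ≤ ∑ i ∈ Finset.Icc 0 (n : ℤ), (|F Y i j - F Y (i - 1) j| +
        |(if A i then penv κ i j else 0) - (if A (i - 1) then penv κ (i - 1) j else 0)|) :=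
        Finset.sum_le_sum fun i _ => hb i
    _ = ∑ i ∈ Finset.Icc 0 (n : ℤ), |F Y i j - F Y (i - 1) j| +
        ∑ i ∈ Finset.Icc 0 (n : ℤ), |(if A i then penv κ i j else 0) -
          (if A (i - 1) then penv κ (i - 1) j else 0)| := Finset.sum_add_distrib
    _ ≤ ∑ i ∈ Finset.Icc 0 (n : ℤ), |F Y i j - F Y (i - 1) j| +
        (∑ i ∈ Finset.Icc 0 (n : ℤ), |penv κ i j - penv κ (i - 1) j| +
          (if j = r then 3 else 0)) := by
        exact add_le_add le_rfl hcut
    _ = ∑ i ∈ Finset.Icc 0 (n : ℤ), |F X i j - F X (i - 1) j| + (if j = r then 3 else 0) := by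
        rw [Finset.sum_congr rfl fun i _ => hXs i, Finset.sum_add_distrib]
        ring

theorem stc_card {n : ℕ} {X Y κ : Finset Edge} (h : Pair n X Y κ) (c r b : ℤ) :
    (stc n X Y c r b).card ≤ X.card + 6 := by
  have h1 := card_eq_tv (stc_mem h c r b)
  have h2 := card_eq_tv h.hX
  have h3 : ∑ j ∈ Finset.Ico 0 (n : ℤ), ∑ i ∈ Finset.Icc 0 (n : ℤ),
      |F (stc n X Y c r b) i j - F (stc n X Y c r b) (i - 1) j| ≤
      ∑ j ∈ Finset.Ico 0 (n : ℤ), ∑ i ∈ Finset.Icc 0 (n : ℤ), |F X i j - F X (i - 1) j| + 3 := by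
    calc ∑ j ∈ Finset.Ico 0 (n : ℤ), ∑ i ∈ Finset.Icc 0 (n : ℤ),
          |F (stc n X Y c r b) i j - F (stc n X Y c r b) (i - 1) j|
        ≤ ∑ j ∈ Finset.Ico 0 (n : ℤ), (∑ i ∈ Finset.Icc 0 (n : ℤ), |F X i j - F X (i - 1) j| +
          (if j = r then 3 else 0)) := by
          refine Finset.sum_le_sum fun j _ => ?_
          refine le_trans (le_of_eq ?_) (pen_row h c r b j)
          refine Finset.sum_congr rfl fun i _ => ?_
          rw [F_stc h, F_stc h]
      _ = ∑ j ∈ Finset.Ico 0 (n : ℤ), ∑ i ∈ Finset.Icc 0 (n : ℤ), |F X i j - F X (i - 1) j| +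
          ∑ j ∈ Finset.Ico 0 (n : ℤ), (if j = r then (3 : ℤ) else 0) := Finset.sum_add_distrib
      _ ≤ _ := by
          refine add_le_add le_rfl ?_
          rw [Finset.sum_ite_eq']
          split_ifs <;> norm_num
  have h4 : ((stc n X Y c r b).card : ℤ) ≤ (X.card : ℤ) + 6 := by
    rw [h1, h2]
    linarith
  exact_mod_cast h4

end

end Pool.Agent.H40.SQ
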