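import Mathlib
import Pool.Agent.H40.SQ.Defs
import Pool.Agent.H40.SQ.LNb

/-!
# LSpr: a connected set of edges with `m` elements has coordinate spread `< m`

Let `κ` be connected, `e, e' ∈ κ`, and `φ : Edge → ℤ` with `|φ a - φ b| ≤ 1` for touching edges (`tch_coord`).  wlog `φ e ≤ φ e'`.  For every integer
`v` with `φ e ≤ v ≤ φ e'` there is an edge of `κ` with `φ = v`: otherwise (`φ e < v < φ e'`) `A = {a ∈ κ : φ a < v}` contains `e`, not `e'`, and
`Conn κ` gives touching `a ∈ A`, `b ∈ κ∖A` with `φ a < v < φ b`, so `φ b - φ a ≥ 2`.  So `κ.card ≥ φ e' - φ e + 1` (image of `κ` under `φ` contains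
`Finset.Icc (φ e) (φ e')`).
-/

set_option autoImplicit false

namespace Pool.Agent.H40.SQ

noncomputable section

theorem conn_spread (κ : Finset Edge) (hc : Conn κ) (φ : Edge → ℤ)
    (hφ : ∀ a b : Edge, Tch a b → |φ a - φ b| ≤ 1) {e e' : Edge} (he : e ∈ κ) (he' : e' ∈ κ) :
    |φ e - φ e'| < (κ.card : ℤ) := by
  have key : ∀ e ∈ κ, ∀ e' ∈ κ, φ e ≤ φ e' → φ e' - φ e < (κ.card : ℤ) := by
    intro e he e' he' hle
    have hsub : Finset.Icc (φ e) (φ e') ⊆ κ.image φ := by
      intro v hv
      rw [Finset.mem_Icc] at hv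
      rw [Finset.mem_image]
      by_contra hcon
      push Not at hcon
      have h1 : φ e < v := lt_of_le_of_ne hv.1 (hcon e he)
      have h2 : v < φ e' := lt_of_le_of_ne hv.2 (Ne.symm (hcon e' he'))
      obtain ⟨a, ha, b, hb, hab⟩ := hc (κ.filter (fun a => φ a < v)) (Finset.filter_subset _ _)
        ⟨e, Finset.mem_filter.mpr ⟨he, h1⟩⟩ (fun h => by
          have h3 : e' ∈ κ.filter (fun a => φ a < v) := by
            rw [h]
            exact he'
          rw [Finset.mem_filter] at h3
          omega)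
      rw [Finset.mem_filter] at ha
      rw [Finset.mem_sdiff, Finset.mem_filter] at hb
      have h3 := hφ a b hab
      have h4 := hcon b hb.1
      have h5 : ¬ φ b < v := fun h => hb.2 ⟨hb.1, h⟩
      rw [abs_le] at h3
      omega
    have h3 := (Finset.card_le_card hsub).trans Finset.card_image_le
    rw [Int.card_Icc] at h3
    omega
  rcases le_total (φ e) (φ e') with h | h
  · rw [abs_sub_comm, abs_of_nonneg (by omega)]
    exact key e he e' he' h
  · rw [abs_of_nonneg (by omega)]
    exact key e' he' e he h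

end

end Pool.Agent.H40.SQ
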