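import Mathlib
import Pool.Agent.H40.SQ.Defs
import Pool.Agent.H40.SQ.HStep
import Pool.Agent.H40.SQ.HCard
import Pool.Agent.H40.SQ.LNb
import Pool.Agent.H40.SQ.LSpr

/-!
# HRow: vertical edges of a polymer around a face

Let `κ ∈ Om n`, `F κ i j ≠ 0`.  Then there is a vertical edge `(true,i1,j) ∈ κ` with `i1 ≤ i` (otherwise `F κ i j` is an empty signed sum) and one `(true,i2,j) ∈ κ`, `i2 > i`
(otherwise the height stays `F κ i j ≠ 0` to the right, contradicting `F_supp`).
* `four_rows`: if `y : ℤ → ℤ` and `J` is a finite set of rows with `F κ (y j) j ≠ 0` for `j ∈ J` then every row `j ∈ J` contains at least 2 vertical edges of `κ`, so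
`κ.card = 2 #vertical ≥ 4 |J|` (`card_eq_vert`).
* `right_edge`: for connected `κ`: `(true,i2,j) ∈ κ` for some `i2 > i` with `i2 - i ≤ κ.card` (spread: `i2 - i ≤ i2 - i1 < κ.card`, `conn_spread` with `φ e = e.2.1`, `tch_coord`).
-/

set_option autoImplicit false

namespace Pool.Agent.H40.SQ

noncomputable section

theorem two_vert {n : ℕ} {κ : Finset Edge} (hκ : κ ∈ Om n) {i j : ℤ} (h : F κ i j ≠ 0) :
    ∃ i1 i2 : ℤ, i1 ≤ i ∧ i < i2 ∧ (true, i1, j) ∈ κ ∧ (true, i2, j) ∈ κ := by
  have hE := (mem_Om.mp hκ).1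
  have h1 : ∃ i1 : ℤ, i1 ≤ i ∧ (true, i1, j) ∈ κ := by
    unfold F at h
    obtain ⟨k, hk, hk2⟩ := Finset.exists_ne_zero_of_sum_ne_zero h
    rw [Finset.mem_Icc] at hk
    refine ⟨k, hk.2, ?_⟩
    by_contra hcon
    apply hk2
    unfold ind
    rw [if_neg hcon, mul_zero]
  have h2 : ∃ i2 : ℤ, i < i2 ∧ (true, i2, j) ∈ κ := by
    by_contra hcon
    push Not at hcon
    have key : ∀ d : ℕ, F κ (i + d) j = F κ i j := by
      intro d
      induction d with
      | zero => simp
      | succ d ih =>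
        have h3 := F_step hE (i + (d + 1 : ℕ)) j
        have h4 : ind κ (true, i + (d + 1 : ℕ), j) = 0 := by
          unfold ind
          rw [if_neg (hcon _ (by omega))]
        have h5 : i + ((d + 1 : ℕ) : ℤ) - 1 = i + d := by
          push_cast
          ring
        rw [h4, mul_zero, h5, ih] at h3
        omega
    apply h
    rw [← key ((n : ℤ) - i).toNat]
    apply F_supp hκ
    intro hbox
    unfold box at hbox
    rw [Finset.mem_product, Finset.mem_Ico, Finset.mem_Ico] at hbox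
    have := hbox.1.2
    dsimp only at this
    omega
  obtain ⟨i1, a1, a2⟩ := h1
  obtain ⟨i2, b1, b2⟩ := h2
  exact ⟨i1, i2, a1, b1, a2, b2⟩

theorem four_rows {n : ℕ} {κ : Finset Edge} (hκ : κ ∈ Om n) (y : ℤ → ℤ) (J : Finset ℤ)
    (h : ∀ j ∈ J, F κ (y j) j ≠ 0) : 4 * J.card ≤ κ.card := by
  have h1 : ∀ j ∈ J, ∃ i1 i2 : ℤ, i1 ≤ y j ∧ y j < i2 ∧ (true, i1, j) ∈ κ ∧ (true, i2, j) ∈ κ :=
    fun j hj => two_vert hκ (h j hj)
  choose! a b hab using h1
  have h2 : (J ×ˢ (Finset.univ : Finset Bool)).card ≤ (κ.filter (fun e => e.1 = true)).card := by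
    apply Finset.card_le_card_of_injOn
      (fun z : ℤ × Bool => ((true, if z.2 then b z.1 else a z.1, z.1) : Edge))
    · rintro ⟨j, s⟩ hz
      rw [Finset.mem_coe, Finset.mem_product] at hz
      obtain ⟨-, -, h3, h4⟩ := hab j hz.1
      rw [Finset.mem_coe, Finset.mem_filter]
      cases s
      · exact ⟨by simpa using h3, rfl⟩
      · exact ⟨by simpa using h4, rfl⟩
    · rintro ⟨j, s⟩ hz ⟨j', s'⟩ hz' heq
      simp only [Prod.mk.injEq, true_and] at heq
      obtain ⟨h3, h4⟩ := heq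
      subst h4
      rw [Finset.mem_coe, Finset.mem_product] at hz
      obtain ⟨h5, h6, -, -⟩ := hab j hz.1
      cases s <;> cases s'
      · rfl
      · exfalso
        simp at h3
        omega
      · exfalso
        simp at h3
        omega
      · rfl
  rw [Finset.card_product, Finset.card_univ, Fintype.card_bool] at h2
  have h3 := card_eq_vert hκ
  omega

theorem right_edge {n : ℕ} {κ : Finset Edge} (hκ : κ ∈ Om n) (hc : Conn κ) {i j : ℤ} (h : F κ i j ≠ 0) :
    ∃ d : ℕ, 1 ≤ d ∧ d ≤ κ.card ∧ (true, i + d, j) ∈ κ := by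
  obtain ⟨i1, i2, h1, h2, h3, h4⟩ := two_vert hκ h
  have h5 := conn_spread κ hc (fun e => e.2.1) (fun a b hab => (tch_coord hab).1) h3 h4
  dsimp only at h5
  have h6 : i2 - i1 ≤ |i1 - i2| := by
    rw [abs_sub_comm]
    exact le_abs_self _
  refine ⟨(i2 - i).toNat, by omega, by omega, ?_⟩
  have h7 : i + ((i2 - i).toNat : ℤ) = i2 := by omega
  rw [h7]
  exact h4

end

end Pool.Agent.H40.SQ
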