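import Mathlib
import Pool.Agent.H40.SQ.Defs
import Pool.Agent.H40.SQ.HStep
import Pool.Agent.H40.SQ.HCard

/-!
# HSign: a connected configuration has heights in `{0,1}` or in `{0,-1}`

For an edge `e` of `κ` let `lab e` be the larger of the two heights on its sides: `lab (true,i,j) = max (F i j) (F (i-1) j)`, `lab (false,i,j) = max (F i j) (F i (j-1))`
(`F = F κ`).  Claim: two touching edges of `κ` have the same label.  At the vertex `(i,j)` with `s = sgn i j`, `a = F i j`, `b = F (i-1) j`, `c = F i (j-1)`, `d = F (i-1) (j-1)`: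
`a - b = s u`, `a - c = s r`, `b - d = -s l`, `c - d = -s w`, with `u,r,l,w ∈ {0,1}` the indicators of up, right, left, down and `l + r = w + u` (vertex condition).
If `s = 1`: present up or right edges have label `a` (`b = a - 1` resp. `c = a-1`), present left or down edges have label `d`
(`d = b + l`, `d = c + w`).  If up or right is present and left or down is present then `a = d`: `a - d = u - l = r - w`; since `l + r = w + u`, the cases with
`u = 1, l = 0`: then `r = w + 1` so `r = 1, w = 0`: no left/down edge present.  Similarly the others.  If `s = -1` the roles of the larger sides are `b` and `c`, and the same argument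
applies (present up/left edges: larger side `b`; present right/down: larger side `c`).  (16 cases; `omega` does it.)
By `Conn κ` (take `A` = edges with the label of a fixed edge) all labels are equal to some `k`, so every edge separates heights `k-1` and `k`.  There is a vertical edge
(`card_eq_vert`, `κ ≠ ∅`); in its row take the leftmost vertical edge `(true,i,j)`: `F (i-1) j = 0` (all indicators before vanish), so `0 ∈ {k-1,k}`.
Going along any row (induction on `i`, `F_step`): `F i j ∈ {0, k-1, k}`, which is `{0,1}` or `{-1,0}`.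
-/

set_option autoImplicit false

namespace Pool.Agent.H40.SQ

noncomputable section

/-- the larger of the two heights on the sides of an edge -/
def hsignLab (κ : Finset Edge) (e : Edge) : ℤ :=
  if e.1 = true then max (F κ e.2.1 e.2.2) (F κ (e.2.1 - 1) e.2.2)
  else max (F κ e.2.1 e.2.2) (F κ e.2.1 (e.2.2 - 1))

theorem hsign_ends {v : ℤ × ℤ} {e : Edge} (h : v ∈ ends e) :
    e = (true, v.1, v.2) ∨ e = (true, v.1, v.2 - 1) ∨ e = (false, v.1, v.2) ∨
      e = (false, v.1 - 1, v.2) := by
  obtain ⟨t, i, j⟩ := e
  obtain ⟨x, y⟩ := v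
  unfold ends at h
  cases t with
  | true =>
    simp only [if_true, Finset.mem_insert, Finset.mem_singleton, Prod.mk.injEq] at h
    simp only [Prod.mk.injEq]
    rcases h with h | h
    · left
      exact ⟨trivial, h.1.symm, h.2.symm⟩
    · right; left
      refine ⟨trivial, h.1.symm, ?_⟩
      omega
  | false =>
    simp only [Bool.false_eq_true, if_false, Finset.mem_insert, Finset.mem_singleton,
      Prod.mk.injEq] at h
    simp only [Prod.mk.injEq]
    rcases h with h | h
    · right; right; left
      exact ⟨trivial, h.1.symm, h.2.symm⟩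
    · right; right; right
      refine ⟨trivial, ?_, h.2.symm⟩
      omega

theorem hsign_ind01 (κ : Finset Edge) (e : Edge) : ind κ e = 0 ∨ ind κ e = 1 := by
  unfold ind
  split_ifs <;> simp

theorem hsign_mem {κ : Finset Edge} {e : Edge} (h : e ∈ κ) : ind κ e = 1 := by
  unfold ind
  rw [if_pos h]

theorem hsign_not_mem {κ : Finset Edge} {e : Edge} (h : e ∉ κ) : ind κ e = 0 := by
  unfold ind
  rw [if_neg h]

theorem hsign_sgn (i j : ℤ) : sgn i j = 1 ∨ sgn i j = -1 := by
  unfold sgn
  split_ifs <;> simp

theorem hsign_touch {n : ℕ} {κ : Finset Edge} (hκ : κ ∈ Om n) {v : ℤ × ℤ} {e e' : Edge}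
    (he : e ∈ κ) (he' : e' ∈ κ) (hv : v ∈ ends e) (hv' : v ∈ ends e') :
    hsignLab κ e = hsignLab κ e' := by
  obtain ⟨x, y⟩ := v
  have hE := (mem_Om.mp hκ).1
  have hVC := (mem_Om.mp hκ).2 x y
  have s1 := F_step hE x y
  have s2 := F_vstep hκ x y
  have s3 := F_step hE x (y - 1)
  have s4 := F_vstep hκ (x - 1) y
  rw [sgn_down] at s3
  rw [sgn_left] at s4
  have hu := hsign_ind01 κ (true, x, y)
  have hr := hsign_ind01 κ (false, x, y)
  have hw := hsign_ind01 κ (true, x, y - 1)
  have hl := hsign_ind01 κ (false, x - 1, y)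
  have h1 := hsign_ends hv
  have h2 := hsign_ends hv'
  simp only at h1 h2
  rcases hsign_sgn x y with hs | hs <;> rw [hs] at s1 s2 s3 s4 <;>
  rcases h1 with h1 | h1 | h1 | h1 <;> rcases h2 with h2 | h2 | h2 | h2 <;> subst h1 <;> subst h2 <;>
  (have g1 := hsign_mem he
   have g2 := hsign_mem he'
   simp only [hsignLab, if_true, Bool.false_eq_true, if_false]
   try (
     generalize ind κ (true, x, y) = u at *
     generalize ind κ (false, x, y) = r at *
     generalize ind κ (true, x, y - 1) = w at *
     generalize ind κ (false, x - 1, y) = l at *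
     generalize F κ x y = A at *
     generalize F κ (x - 1) y = B at *
     generalize F κ x (y - 1) = C at *
     generalize F κ (x - 1) (y - 1) = D at *
     omega))

theorem hsign_row {P : ℤ → Prop} (h0 : ∀ i, i < 0 → P i) (h1 : ∀ i, P (i - 1) → P i) :
    ∀ i, P i := by
  have key : ∀ m : ℕ, P ((m : ℤ) - 1) := by
    intro m
    induction m with
    | zero => exact h0 _ (by norm_num)
    | succ m ih =>
      have h2 := h1 (((m + 1 : ℕ) : ℤ) - 1) (by
        have : (((m + 1 : ℕ) : ℤ) - 1) - 1 = (m : ℤ) - 1 := by push_cast; ring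
        rwa [this])
      exact h2
  intro i
  by_cases hi : i < 0
  · exact h0 i hi
  · have h := key (i + 1).toNat
    have h2 : (((i + 1).toNat : ℕ) : ℤ) - 1 = i := by
      rw [Int.toNat_of_nonneg (by omega)]
      ring
    rwa [h2] at h

theorem sign_of_conn {n : ℕ} {κ : Finset Edge} (hκ : κ ∈ Om n) (hc : Conn κ) (hne : κ.Nonempty) :
    (∀ i j, F κ i j = 0 ∨ F κ i j = 1) ∨ (∀ i j, F κ i j = 0 ∨ F κ i j = -1) := by
  classical
  obtain ⟨e0, he0⟩ := hne
  set k : ℤ := hsignLab κ e0 with hk
  have hall : ∀ e ∈ κ, hsignLab κ e = k := by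
    by_contra hcon
    push Not at hcon
    obtain ⟨e1, he1, hne1⟩ := hcon
    have hA : κ.filter (fun e => hsignLab κ e = k) ≠ κ := by
      intro h
      rw [← h, Finset.mem_filter] at he1
      exact hne1 he1.2
    obtain ⟨a, ha, b, hb, v, hv, hv'⟩ := hc (κ.filter (fun e => hsignLab κ e = k))
      (Finset.filter_subset _ _) ⟨e0, Finset.mem_filter.mpr ⟨he0, rfl⟩⟩ hA
    rw [Finset.mem_filter] at ha
    rw [Finset.mem_sdiff, Finset.mem_filter] at hb
    apply hb.2
    refine ⟨hb.1, ?_⟩
    rw [← ha.2]
    exact (hsign_touch hκ ha.1 hb.1 hv hv').symm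
  have hE := (mem_Om.mp hκ).1
  have hedge : ∀ i j, (true, i, j) ∈ κ →
      (F κ i j = k - 1 ∨ F κ i j = k) ∧ (F κ (i - 1) j = k - 1 ∨ F κ (i - 1) j = k) := by
    intro i j h
    have h1 := hall _ h
    have h2 := F_step hE i j
    rw [hsign_mem h] at h2
    simp only [hsignLab, if_true] at h1
    rcases hsign_sgn i j with hs | hs <;> rw [hs] at h2 <;> omega
  have hflat : ∀ i j, (true, i, j) ∉ κ → F κ i j = F κ (i - 1) j := by
    intro i j h
    have h2 := F_step hE i j
    rw [hsign_not_mem h, mul_zero] at h2
    linarith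
  have hvert : ∃ i j, (true, i, j) ∈ κ := by
    have h1 := card_eq_vert hκ
    have h2 : 0 < κ.card := Finset.card_pos.mpr ⟨e0, he0⟩
    have h3 : 0 < (κ.filter (fun e => e.1 = true)).card := by omega
    obtain ⟨⟨t, i, j⟩, he⟩ := Finset.card_pos.mp h3
    rw [Finset.mem_filter] at he
    obtain ⟨he1, he2⟩ := he
    simp only at he2
    subst he2
    exact ⟨i, j, he1⟩
  have hk01 : k = 0 ∨ k = 1 := by
    by_contra hcon
    push Not at hcon
    obtain ⟨i0, j0, h0⟩ := hvert
    have hz : ∀ i, F κ i j0 = 0 := by
      refine hsign_row (fun i hi => F_neg κ i j0 hi) ?_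
      intro i hi
      by_cases h : (true, i, j0) ∈ κ
      · exfalso
        have h1 := (hedge i j0 h).2
        rw [hi] at h1
        omega
      · rw [hflat i j0 h, hi]
    have h1 := (hedge i0 j0 h0).1
    rw [hz i0] at h1
    omega
  have hrow : ∀ j i, F κ i j = 0 ∨ F κ i j = k - 1 ∨ F κ i j = k := by
    intro j
    refine hsign_row (fun i hi => Or.inl (F_neg κ i j hi)) ?_
    intro i hi
    by_cases h : (true, i, j) ∈ κ
    · exact Or.inr (hedge i j h).1
    · rw [hflat i j h]
      exact hi
  rcases hk01 with h | h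
  · right
    intro i j
    have := hrow j i
    omega
  · left
    intro i j
    have := hrow j i
    omega

end

end Pool.Agent.H40.SQ
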