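import Mathlib
import Pool.Agent.H40.SQ.Defs
import Pool.Agent.H40.SQ.CUni
import Pool.Agent.H40.SQ.HSign

/-!
# PPair: removing a polymer gives a `Pair`

`X ∈ St (Pol n ℓ) inc`, `κ ∈ X`: `U X = U (X.erase κ) ∪ κ`, disjoint (`U_disj`); `U X, U (X.erase κ) ∈ Om n` (`U_mem`; `X.erase κ ∈ St`); `κ ∈ Om n` (`mem_Pol`), sign by `sign_of_conn`.
-/

set_option autoImplicit false

namespace Pool.Agent.H40.SQ

noncomputable section

theorem pair_of_mem {n ℓ : ℕ} {X : Finset (Finset Edge)} (hX : X ∈ St (Pol n ℓ) inc) {κ : Finset Edge}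
    (hκ : κ ∈ X) : Pair n (U X) (U (X.erase κ)) κ := by
  have h1 := mem_St.mp hX
  have h2 := mem_Pol.mp (h1.1 hκ)
  have hOm : κ ∈ Om n := mem_Om.mpr ⟨h2.1, h2.2.2.2.1⟩
  have hX' : X.erase κ ∈ St (Pol n ℓ) inc :=
    mem_St.mpr ⟨(Finset.erase_subset _ _).trans h1.1, fun a ha b hb hab =>
      h1.2 a (Finset.mem_of_mem_erase ha) b (Finset.mem_of_mem_erase hb) hab⟩
  obtain ⟨h3, h4⟩ := U_disj hX hκ
  exact ⟨U_mem hX, U_mem hX', hOm, h3, h4, sign_of_conn hOm h2.2.2.1 h2.2.1⟩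

end

end Pool.Agent.H40.SQ
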