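import Mathlib
import Pool.Agent.H40.SQ.Defs
import Pool.Agent.H40.SQ.PPair
import Pool.Agent.H40.SQ.PSt
import Pool.Agent.H40.SQ.HRow

/-!
# PGood: for good configurations the decoding data are small and live in a window of `ℓ+1` rows

Let `κ ∈ Pol n ℓ`, `Pair n X Y κ`.
* `window`: there is `r0` (depending only on `κ`) such that `F κ i j ≠ 0` implies `r0 ≤ j ≤ r0 + ℓ` and `0 ≤ j < n`: every such row contains a vertical edge of `κ` (`two_vert`), and the rows of the edges of `κ` have spread `< κ.card ≤ ℓ` (`conn_spread` with `φ e = e.2.2`): take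
`r0` the minimal row of an edge.
* `kd_zero`: `kd = 0` for rows outside the window.
* `kd_sum`: for a face counted in `kd n X Y κ c r b j s`: `F κ i j ≠ 0`, `lo = pf - 1`.  Positive `κ`: `lo = F Y = F X - 1`, so `F X = pf`.  Negative: `lo = F X = pf - 1`.  `pf ∈ {Lin c, Lin (c+1)}` and `Lin c - 1 = Lin (c-2)`, `Lin (c+1) - 1 = Lin (c-1)` (`Lin_sub_two`).  So `F X i j = Lin c' i j` for some
`c' ∈ {c-2, c-1, c, c+1}`; the two sides `s` are disjoint.  Hence `∑_{j∈window} ∑_s kd ≤ ∑_{c'} ∑_j #{i : F X i j = Lin c' i j} ≤ 4M` by `Good n ℓ M X`.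
-/

set_option autoImplicit false

namespace Pool.Agent.H40.SQ

noncomputable section

theorem window {n ℓ : ℕ} {κ : Finset Edge} (hκ : κ ∈ Pol n ℓ) :
    ∃ r0 : ℤ, ∀ i j : ℤ, F κ i j ≠ 0 → j ∈ Finset.Ico r0 (r0 + ℓ + 1) ∩ Finset.Ico 0 (n : ℤ) := by
  obtain ⟨hE, hne, hc, hV, hcard⟩ := mem_Pol.mp hκ
  obtain ⟨e0, he0, hmin⟩ := Finset.exists_min_image κ (fun e => e.2.2) hne
  refine ⟨e0.2.2, fun i j hF => ?_⟩
  obtain ⟨i1, i2, h1, h2, h3, h4⟩ := two_vert (mem_Om.mpr ⟨hE, hV⟩) hF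
  have h5 := conn_spread κ hc (fun e => e.2.2) (fun a b hab => (tch_coord hab).2) he0 h3
  have h6 := hmin _ h3
  have h7 := mem_E_true.mp (hE h3)
  dsimp only at h5 h6
  rw [abs_lt] at h5
  rw [Finset.mem_inter, Finset.mem_Ico, Finset.mem_Ico]
  omega

theorem kd_zero {n : ℕ} {X Y κ : Finset Edge} (c r b j : ℤ) (s : Bool) (h : ∀ i, F κ i j = 0) :
    kd n X Y κ c r b j s = 0 := by
  unfold kd
  rw [Finset.card_eq_zero, Finset.filter_eq_empty_iff]
  rintro i _ ⟨_, h1, _⟩
  exact h1 (h i)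

private theorem PGood_key {n : ℕ} {X Y κ : Finset Edge} (h : Pair n X Y κ) (c r b i j : ℤ)
    (h1 : F κ i j ≠ 0) (h2 : lo X Y i j = pf c r b i j - 1) :
    F X i j = Lin (c - 2) i j ∨ F X i j = Lin (c - 1) i j ∨ F X i j = Lin c i j ∨
      F X i j = Lin (c + 1) i j := by
  have h3 := lo_hi h i j
  have h4 : |F κ i j| = 1 := by
    rcases h3.2 with h5 | h5
    · exact absurd (abs_eq_zero.mp h5) h1
    · exact h5
  have h5 : pf c r b i j = Lin (c + 1) i j ∨ pf c r b i j = Lin c i j := by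
    unfold pf
    split_ifs
    · exact Or.inl rfl
    · exact Or.inr rfl
  have h6 := Lin_sub_two c i j
  have h7 := Lin_sub_two (c + 1) i j
  have e : c + 1 - 2 = c - 1 := by ring
  rw [e] at h7
  rcases h.sign with hs | hs
  · have h8 := (pos_case h hs).2 i j
    rw [h4, h8] at h3
    omega
  · have h8 := (neg_case h hs).1 i j
    omega

private theorem PGood_row {n : ℕ} {X Y κ : Finset Edge} (h : Pair n X Y κ) (c r b j : ℤ) :
    ∑ s : Bool, kd n X Y κ c r b j s ≤
      ((Finset.Ico 0 (n : ℤ)).filter (fun i => F X i j = Lin (c - 2) i j)).card +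
      ((Finset.Ico 0 (n : ℤ)).filter (fun i => F X i j = Lin (c - 1) i j)).card +
      ((Finset.Ico 0 (n : ℤ)).filter (fun i => F X i j = Lin c i j)).card +
      ((Finset.Ico 0 (n : ℤ)).filter (fun i => F X i j = Lin (c + 1) i j)).card := by
  rw [Fintype.sum_bool]
  unfold kd
  rw [← Finset.card_union_of_disjoint]
  · refine (Finset.card_le_card (t := (((Finset.Ico 0 (n : ℤ)).filter
      (fun i => F X i j = Lin (c - 2) i j)) ∪
      ((Finset.Ico 0 (n : ℤ)).filter (fun i => F X i j = Lin (c - 1) i j)) ∪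
      ((Finset.Ico 0 (n : ℤ)).filter (fun i => F X i j = Lin c i j)) ∪
      ((Finset.Ico 0 (n : ℤ)).filter (fun i => F X i j = Lin (c + 1) i j)))) ?_).trans ?_
    · intro i hi
      have h1 : i ∈ Finset.Ico 0 (n : ℤ) ∧ F κ i j ≠ 0 ∧ lo X Y i j = pf c r b i j - 1 := by
        rw [Finset.mem_union, Finset.mem_filter, Finset.mem_filter] at hi
        rcases hi with hi | hi
        · exact ⟨hi.1, hi.2.2⟩
        · exact ⟨hi.1, hi.2.2⟩
      simp only [Finset.mem_union, Finset.mem_filter]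
      have h2 := PGood_key h c r b i j h1.2.1 h1.2.2
      have h3 := h1.1
      tauto
    · refine (Finset.card_union_le _ _).trans (Nat.add_le_add_right ?_ _)
      refine (Finset.card_union_le _ _).trans (Nat.add_le_add_right ?_ _)
      exact Finset.card_union_le _ _
  · rw [Finset.disjoint_left]
    intro i h1 h2
    rw [Finset.mem_filter] at h1 h2
    have h3 := h1.2.1
    have h4 := h2.2.1
    simp only [Bool.true_eq_false, false_and, or_false, true_and, Bool.false_eq_true,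
      false_or] at h3 h4
    omega

theorem kd_sum {n ℓ M : ℕ} {X Y κ : Finset Edge} (h : Pair n X Y κ) (hG : Good n ℓ M X) (c r b r0 : ℤ) :
    ∑ j ∈ Finset.Ico r0 (r0 + ℓ + 1) ∩ Finset.Ico 0 (n : ℤ), ∑ s : Bool, kd n X Y κ c r b j s ≤ 4 * M := by
  have h1 := hG (c - 2) r0
  have h2 := hG (c - 1) r0
  have h3 := hG c r0
  have h4 := hG (c + 1) r0
  refine (Finset.sum_le_sum fun j _ => PGood_row h c r b j).trans ?_
  rw [Finset.sum_add_distrib, Finset.sum_add_distrib, Finset.sum_add_distrib]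
  omega

end

end Pool.Agent.H40.SQ
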