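import Mathlib
import Pool.Agent.H40.SQ.Defs
import Pool.Agent.H40.SQ.PGood
import Pool.Agent.H40.SQ.PDec
import Pool.Agent.H40.SQ.PEn

/-!
# PKd: the weighted number of good configurations with a given state

Fix `κ ∈ Pol n ℓ` and `c r b`.  Let `J = Ico r0 (r0+ℓ+1) ∩ Ico 0 n` be the window of `κ` (`window`), `m = J.card ≤ ℓ+1`.  For `X ∈ St (Pol n ℓ) inc` with `κ ∈ X` and `Good n ℓ M (U X)` put `η = stc n (U X) (U (X.erase κ)) c r b ∈ Om n` and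
`k = (kd (j,s))_{j∈J, s}`, values in `[0,n]` (`kd ≤ n`).  The map `X ↦ (η,k)` is injective (`decode`; outside `J` the data vanish by `kd_zero`; `U_inj`).  `(U X).card + 6 ≥ η.card` (`stc_card`), so `q^(U X).card * q^6 ≤ q^η.card` (`q ≤ 1`);
`1 ≤ 2^(4M) ∏_{j,s} (1/2)^(k (j,s))` by `kd_sum`.  Hence
`∑_X q^(U X).card φ(η) ≤ q^(-6) 2^(4M) ∑_{η∈Om n} q^η.card φ η * ∑_k ∏ (1/2)^(k(j,s))` and `∑_k ∏ = ∏_{(j,s)} ∑_{k≤n} (1/2)^k ≤ 2^(2m) ≤ 4^(ℓ+1)` (`Finset.prod_univ_sum` / `Finset.sum_pi`-type; index set `J ×ˢ univ`, functions `Fintype.piFinset` or `Finset.pi`).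
-/

set_option autoImplicit false

namespace Pool.Agent.H40.SQ

noncomputable section

theorem pkd_le (n : ℕ) (X Y κ : Finset Edge) (c r b j : ℤ) (t : Bool) :
    kd n X Y κ c r b j t ≤ n := by
  unfold kd
  refine (Finset.card_filter_le _ _).trans ?_
  rw [Int.card_Ico]
  simp

/-- the index set of the decoding data -/
def pkdI (n ℓ : ℕ) (r0 : ℤ) : Finset (ℤ × Bool) :=
  (Finset.Ico r0 (r0 + ℓ + 1) ∩ Finset.Ico 0 (n : ℤ)) ×ˢ (Finset.univ : Finset Bool)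

theorem pkdI_card (n ℓ : ℕ) (r0 : ℤ) : (pkdI n ℓ r0).card ≤ 2 * (ℓ + 1) := by
  unfold pkdI
  rw [Finset.card_product, Finset.card_univ, Fintype.card_bool]
  have h1 : (Finset.Ico r0 (r0 + ℓ + 1) ∩ Finset.Ico 0 (n : ℤ)).card ≤ ℓ + 1 := by
    refine (Finset.card_le_card Finset.inter_subset_left).trans ?_
    rw [Int.card_Ico]
    omega
  omega

theorem pkd_point {n ℓ M : ℕ} {q : ℝ} (hq0 : 0 < q) (hq1 : q ≤ 1) {X Y κ : Finset Edge}
    (h : Pair n X Y κ) (hG : Good n ℓ M X) (c r b r0 : ℤ) :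
    q ^ X.card ≤ 2 ^ (4 * M) / q ^ 6 * (q ^ (stc n X Y c r b).card *
      ∏ x ∈ (pkdI n ℓ r0).attach, ((1 : ℝ) / 2) ^ kd n X Y κ c r b x.1.1 x.1.2) := by
  have h1 : q ^ X.card * q ^ 6 ≤ q ^ (stc n X Y c r b).card := by
    rw [← pow_add]
    exact pow_le_pow_of_le_one hq0.le hq1 (stc_card h c r b)
  have h2 : ∏ x ∈ (pkdI n ℓ r0).attach, ((1 : ℝ) / 2) ^ kd n X Y κ c r b x.1.1 x.1.2 =
      ((1 : ℝ) / 2) ^ (∑ x ∈ pkdI n ℓ r0, kd n X Y κ c r b x.1 x.2) := by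
    rw [Finset.prod_attach (pkdI n ℓ r0)
      (fun x => ((1 : ℝ) / 2) ^ kd n X Y κ c r b x.1 x.2), Finset.prod_pow_eq_pow_sum]
  have h3 : ∑ x ∈ pkdI n ℓ r0, kd n X Y κ c r b x.1 x.2 ≤ 4 * M := by
    unfold pkdI
    rw [Finset.sum_product]
    exact kd_sum h hG c r b r0
  have h4 : (1 : ℝ) ≤ 2 ^ (4 * M) *
      ((1 : ℝ) / 2) ^ (∑ x ∈ pkdI n ℓ r0, kd n X Y κ c r b x.1 x.2) := by
    calc (1 : ℝ) = 2 ^ (4 * M) * ((1 : ℝ) / 2) ^ (4 * M) := by rw [← mul_pow]; norm_num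
      _ ≤ _ := mul_le_mul_of_nonneg_left
        (pow_le_pow_of_le_one (by norm_num) (by norm_num) h3) (by positivity)
  rw [h2]
  have hq6 : 0 < q ^ 6 := by positivity
  have h5 : q ^ X.card ≤ q ^ (stc n X Y c r b).card / q ^ 6 := by
    rw [le_div_iff₀ hq6]
    exact h1
  calc q ^ X.card ≤ q ^ (stc n X Y c r b).card / q ^ 6 := h5
    _ = q ^ (stc n X Y c r b).card / q ^ 6 * 1 := by ring
    _ ≤ q ^ (stc n X Y c r b).card / q ^ 6 * (2 ^ (4 * M) *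
      ((1 : ℝ) / 2) ^ (∑ x ∈ pkdI n ℓ r0, kd n X Y κ c r b x.1 x.2)) :=
        mul_le_mul_of_nonneg_left h4 (by positivity)
    _ = _ := by ring

open Classical in
theorem sum_states (n ℓ M : ℕ) (q : ℝ) (hq0 : 0 < q) (hq1 : q ≤ 1) {κ : Finset Edge} (hκ : κ ∈ Pol n ℓ)
    (c r b : ℤ) (φ : Finset Edge → ℝ) (hφ : ∀ η, 0 ≤ φ η) :
    ∑ X ∈ (St (Pol n ℓ) inc).filter (fun X => κ ∈ X ∧ Good n ℓ M (U X)),
        q ^ (U X).card * φ (stc n (U X) (U (X.erase κ)) c r b) ≤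
      2 ^ (4 * M) * 4 ^ (ℓ + 1) / q ^ 6 * ∑ η ∈ Om n, q ^ η.card * φ η := by
  obtain ⟨r0, hr0⟩ := window hκ
  set S := (St (Pol n ℓ) inc).filter (fun X => κ ∈ X ∧ Good n ℓ M (U X)) with hS
  have hmem : ∀ X ∈ S, X ∈ St (Pol n ℓ) inc ∧ κ ∈ X ∧ Good n ℓ M (U X) := by
    intro X hX
    rw [hS, Finset.mem_filter] at hX
    exact hX
  set I := pkdI n ℓ r0 with hI
  set K : Finset (Finset Edge) → (x : ℤ × Bool) → x ∈ I → ℕ :=
    fun X x _ => kd n (U X) (U (X.erase κ)) κ c r b x.1 x.2 with hK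
  set G : Finset (Finset Edge) → Finset Edge × ((x : ℤ × Bool) → x ∈ I → ℕ) :=
    fun X => (stc n (U X) (U (X.erase κ)) c r b, K X) with hGdef
  set f : Finset Edge × ((x : ℤ × Bool) → x ∈ I → ℕ) → ℝ := fun y =>
    2 ^ (4 * M) / q ^ 6 * (q ^ y.1.card * φ y.1 * ∏ x ∈ I.attach, ((1 : ℝ) / 2) ^ y.2 x.1 x.2)
    with hf
  have hf0 : ∀ y, 0 ≤ f y := by
    intro y
    have h1 := hφ y.1
    have h2 : 0 ≤ ∏ x ∈ I.attach, ((1 : ℝ) / 2) ^ y.2 x.1 x.2 :=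
      Finset.prod_nonneg fun x _ => by positivity
    simp only [hf]
    positivity
  have hle : ∀ X ∈ S, q ^ (U X).card * φ (stc n (U X) (U (X.erase κ)) c r b) ≤ f (G X) := by
    intro X hX
    obtain ⟨h1, h2, h3⟩ := hmem X hX
    have h4 := pkd_point hq0 hq1 (pair_of_mem h1 h2) h3 c r b r0
    calc q ^ (U X).card * φ (stc n (U X) (U (X.erase κ)) c r b)
        ≤ (2 ^ (4 * M) / q ^ 6 * (q ^ (stc n (U X) (U (X.erase κ)) c r b).card *
          ∏ x ∈ (pkdI n ℓ r0).attach, ((1 : ℝ) / 2) ^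
            kd n (U X) (U (X.erase κ)) κ c r b x.1.1 x.1.2)) *
          φ (stc n (U X) (U (X.erase κ)) c r b) := mul_le_mul_of_nonneg_right h4 (hφ _)
      _ = f (G X) := by
          simp only [hf, hGdef, hK]
          ring
  have hinj : Set.InjOn G (S : Set (Finset (Finset Edge))) := by
    intro X hX X' hX' hGG
    obtain ⟨h1, h2, _⟩ := hmem X hX
    obtain ⟨h1', h2', _⟩ := hmem X' hX'
    have e1 : stc n (U X) (U (X.erase κ)) c r b = stc n (U X') (U (X'.erase κ)) c r b :=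
      congrArg Prod.fst hGG
    have e2 : K X = K X' := congrArg Prod.snd hGG
    refine U_inj h1 h1' (decode (pair_of_mem h1 h2) (pair_of_mem h1' h2') c r b e1 ?_)
    intro j t
    by_cases hj : j ∈ Finset.Ico r0 (r0 + ℓ + 1) ∩ Finset.Ico 0 (n : ℤ)
    · have hx : (j, t) ∈ I := by
        rw [hI]
        unfold pkdI
        exact Finset.mem_product.mpr ⟨hj, Finset.mem_univ _⟩
      exact congrFun (congrFun e2 (j, t)) hx
    · have hz : ∀ i, F κ i j = 0 := by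
        intro i
        by_contra hne
        exact hj (hr0 i j hne)
      rw [kd_zero c r b j t hz, kd_zero c r b j t hz]
  have himg : S.image G ⊆ Om n ×ˢ I.pi (fun _ => Finset.range (n + 1)) := by
    intro y hy
    rw [Finset.mem_image] at hy
    obtain ⟨X, hX, rfl⟩ := hy
    obtain ⟨h1, h2, _⟩ := hmem X hX
    rw [Finset.mem_product]
    refine ⟨stc_mem (pair_of_mem h1 h2) c r b, ?_⟩
    rw [Finset.mem_pi]
    intro x hx
    rw [Finset.mem_range]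
    exact Nat.lt_succ_of_le (pkd_le n _ _ κ c r b x.1 x.2)
  have hgeo : ∏ x ∈ I, ∑ k ∈ Finset.range (n + 1), ((1 : ℝ) / 2) ^ k ≤ 4 ^ (ℓ + 1) := by
    calc ∏ x ∈ I, ∑ k ∈ Finset.range (n + 1), ((1 : ℝ) / 2) ^ k ≤ ∏ x ∈ I, (2 : ℝ) := by
          refine Finset.prod_le_prod (fun x _ => Finset.sum_nonneg fun k _ => by positivity)
            fun x _ => sum_geometric_two_le (n + 1)
      _ = 2 ^ I.card := by rw [Finset.prod_const]
      _ ≤ 2 ^ (2 * (ℓ + 1)) := pow_le_pow_right₀ (by norm_num) (pkdI_card n ℓ r0)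
      _ = 4 ^ (ℓ + 1) := by rw [pow_mul]; norm_num
  calc ∑ X ∈ S, q ^ (U X).card * φ (stc n (U X) (U (X.erase κ)) c r b)
      ≤ ∑ X ∈ S, f (G X) := Finset.sum_le_sum hle
    _ = ∑ y ∈ S.image G, f y := (Finset.sum_image hinj).symm
    _ ≤ ∑ y ∈ Om n ×ˢ I.pi (fun _ => Finset.range (n + 1)), f y :=
        Finset.sum_le_sum_of_subset_of_nonneg himg fun y _ _ => hf0 y
    _ = ∑ η ∈ Om n, ∑ k ∈ I.pi (fun _ => Finset.range (n + 1)), f (η, k) :=
        Finset.sum_product _ _ _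
    _ = ∑ η ∈ Om n, 2 ^ (4 * M) / q ^ 6 * (q ^ η.card * φ η) *
          ∏ x ∈ I, ∑ k ∈ Finset.range (n + 1), ((1 : ℝ) / 2) ^ k := by
        refine Finset.sum_congr rfl fun η _ => ?_
        rw [Finset.prod_sum, Finset.mul_sum]
        refine Finset.sum_congr rfl fun k _ => ?_
        simp only [hf]
        ring
    _ ≤ ∑ η ∈ Om n, 2 ^ (4 * M) / q ^ 6 * (q ^ η.card * φ η) * 4 ^ (ℓ + 1) := by
        refine Finset.sum_le_sum fun η _ => mul_le_mul_of_nonneg_left hgeo ?_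
        have := hφ η
        positivity
    _ = 2 ^ (4 * M) * 4 ^ (ℓ + 1) / q ^ 6 * ∑ η ∈ Om n, q ^ η.card * φ η := by
        rw [Finset.mul_sum]
        refine Finset.sum_congr rfl fun η _ => ?_
        ring

end

end Pool.Agent.H40.SQ
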