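import Mathlib
import Pool.Agent.H40.SQ.Defs
import Pool.Agent.H40.SQ.PSt
import Pool.Agent.H40.SQ.HFlip

/-!
# PTel: the path connects `Y` and `X`

States `s c r b = stc n X Y c r b`.
1. (start) `s (-3n) 0 n = cfg lo`: on the box `pf = Lin (-3n)` (row 0 is changed only for `i ≥ n`), `2 Lin (-3n) i j ≤ -3n + 1` so `Lin ≤ -n ≤ lo` (`val_bound`), `n ≥ 1`; `stf = lo` on the box, and both vanish outside.
2. (end) after the last step `c = 4n-1`, `r = n-1`, `b = 0`: on the box `pf = Lin (4n) ≥ n ≥ hi`, `2 Lin (4n) i j ≥ 4n - (n-1) - 1 = 3n`; so `stf = hi`.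
3. `s c r 0 = s c (r+1) n` (the two `pf` agree on the box), `s c n n = s (c+1) 0 n`, with `s c (n-1) 0 = s c n n`.
4. `s c r b` and `s c r (b+1)` (`0 ≤ b < n`, `0 ≤ r < n`): the heights agree except possibly at `(b,r)` (`pf_ne`), where `pf` increases by `0` or `1` (`Lin_succ`), so `stf` increases by `0` or `1`: either `s c r b = s c r (b+1)` (`F_inj`) or
`s c r b = flip (b,r) (s c r (b+1))` (`flip_of_heights`).  In both cases `(g (s c r b) - g (s c r (b+1)))^2 ≤ (g (flip (b,r) η) - g η)^2`, `η = s c r (b+1)`.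
5. `g(cfg hi) - g(cfg lo) = ∑_c ∑_r ∑_b (g (s c r b) - g (s c r (b+1)))`, `c ∈ Ico (-3n) (4n)`, `r, b ∈ Ico 0 n` (telescoping in `b`, then `r`, then `c`).  `{cfg hi, cfg lo} = {X, Y}` (`pos_case`, `neg_case`, `cfg_F`).  Cauchy-Schwarz with `7n * n * n` terms
(`sq_sum_le_card_mul_sum_sq`).
-/

set_option autoImplicit false

namespace Pool.Agent.H40.SQ

noncomputable section

private theorem tel (G : ℤ → ℝ) (a : ℤ) (k : ℕ) :
    ∑ b ∈ Finset.Ico a (a + k), (G b - G (b + 1)) = G a - G (a + k) := by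
  induction k with
  | zero => simp
  | succ k ih =>
    have e : Finset.Ico a (a + ((k + 1 : ℕ) : ℤ)) = insert (a + k) (Finset.Ico a (a + k)) := by
      ext x
      simp only [Finset.mem_Ico, Finset.mem_insert]
      push_cast
      omega
    rw [e, Finset.sum_insert (by simp), ih]
    have e' : a + ((k + 1 : ℕ) : ℤ) = a + k + 1 := by push_cast; ring
    rw [e']
    ring

private theorem stc_congr {n : ℕ} {X Y κ : Finset Edge} (h : Pair n X Y κ) {c r b c' r' b' : ℤ}
    (hp : ∀ i j, (i, j) ∈ box n → pf c r b i j = pf c' r' b' i j) :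
    stc n X Y c r b = stc n X Y c' r' b' := by
  refine F_inj (stc_mem h c r b) (stc_mem h c' r' b') fun i j => ?_
  rw [F_stc h, F_stc h]
  by_cases hb : (i, j) ∈ box n
  · unfold stf
    rw [hp i j hb]
  · rw [(stf_val h c r b).2 i j hb, (stf_val h c' r' b').2 i j hb]

private theorem mem_box {n : ℕ} {i j : ℤ} : (i, j) ∈ box n ↔ (0 ≤ i ∧ i < n) ∧ 0 ≤ j ∧ j < n := by
  unfold box
  rw [Finset.mem_product, Finset.mem_Ico, Finset.mem_Ico]

/-- one step of the path -/
private theorem step {n : ℕ} {X Y κ : Finset Edge} (h : Pair n X Y κ) (g : Finset Edge → ℝ)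
    (c b r : ℤ) (hb : (b, r) ∈ box n) :
    (g (stc n X Y c r b) - g (stc n X Y c r (b + 1))) ^ 2 ≤
      (g (flip (b, r) (stc n X Y c r (b + 1))) - g (stc n X Y c r (b + 1))) ^ 2 := by
  have hne : ∀ i j, (i, j) ≠ (b, r) → stf X Y c r b i j = stf X Y c r (b + 1) i j := by
    intro i j hij
    unfold stf
    rw [pf_ne c r b i j hij]
  have hp1 : pf c r b b r = Lin (c + 1) b r := by
    unfold pf
    rw [if_pos (by omega)]
  have hp2 : pf c r (b + 1) b r = Lin c b r := by
    unfold pf
    rw [if_neg (by omega)]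
  have hl := Lin_succ c b r
  have hlh := (lo_hi h b r)
  have hcase : stf X Y c r b b r = stf X Y c r (b + 1) b r ∨
      stf X Y c r b b r = stf X Y c r (b + 1) b r + 1 := by
    unfold stf
    rw [hp1, hp2]
    have hhi : lo X Y b r ≤ hi X Y b r := by
      rcases hlh.2 with h0 | h0
      · rw [hlh.1, h0]; omega
      · rw [hlh.1, h0]; omega
    split_ifs at hl <;> omega
  rcases hcase with hc | hc
  · have e : stc n X Y c r b = stc n X Y c r (b + 1) := by
      refine F_inj (stc_mem h c r b) (stc_mem h c r (b + 1)) fun i j => ?_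
      rw [F_stc h, F_stc h]
      by_cases hij : (i, j) = (b, r)
      · rw [Prod.mk.injEq] at hij
        rw [hij.1, hij.2, hc]
      · exact hne i j hij
    rw [e, sub_self, zero_pow two_ne_zero]
    positivity
  · have e : flip (b, r) (stc n X Y c r (b + 1)) = stc n X Y c r b := by
      refine flip_of_heights hb (stc_mem h c r (b + 1)) (stc_mem h c r b) (fun i j hij => ?_) ?_
      · rw [F_stc h, F_stc h, hne i j hij]
      · rw [F_stc h, F_stc h]
        exact hc
    rw [e]

private theorem total {n : ℕ} (hn : 1 ≤ n) {X Y κ : Finset Edge} (h : Pair n X Y κ)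
    (g : Finset Edge → ℝ) :
    (∑ c ∈ Finset.Ico (-(3 * n : ℤ)) (4 * n), ∑ x ∈ box n,
      (g (stc n X Y c x.2 x.1) - g (stc n X Y c x.2 (x.1 + 1)))) ^ 2 = (g X - g Y) ^ 2 := by
  have h1 : ∀ c : ℤ, ∑ x ∈ box n, (g (stc n X Y c x.2 x.1) - g (stc n X Y c x.2 (x.1 + 1))) =
      g (stc n X Y (c + 1) 0 n) - g (stc n X Y c 0 n) := by
    intro c
    unfold box
    rw [Finset.sum_product_right]
    have h2 : ∀ r ∈ Finset.Ico 0 (n : ℤ), ∑ b ∈ Finset.Ico 0 (n : ℤ),
        (g (stc n X Y c (b, r).2 (b, r).1) - g (stc n X Y c (b, r).2 ((b, r).1 + 1))) =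
        -(g (stc n X Y c r n) - g (stc n X Y c (r + 1) n)) := by
      intro r _
      have h3 := tel (fun b => g (stc n X Y c r b)) 0 n
      simp only [zero_add] at h3
      have h4 : stc n X Y c r 0 = stc n X Y c (r + 1) n := by
        refine stc_congr h fun i j hij => ?_
        rw [mem_box] at hij
        unfold pf
        by_cases hj : j ≤ r
        · rw [if_pos (by omega), if_pos (by omega)]
        · rw [if_neg (by omega), if_neg (by omega)]
      simp only
      rw [h3, h4]
      ring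
    rw [Finset.sum_congr rfl h2, Finset.sum_neg_distrib]
    have h5 := tel (fun r => g (stc n X Y c r n)) 0 n
    simp only [zero_add] at h5
    rw [h5]
    have h6 : stc n X Y c n n = stc n X Y (c + 1) 0 n := by
      refine stc_congr h fun i j hij => ?_
      rw [mem_box] at hij
      unfold pf
      rw [if_pos (by omega), if_neg (by omega)]
    rw [h6]
    ring
  rw [Finset.sum_congr rfl fun c _ => h1 c]
  have h7 : ∑ c ∈ Finset.Ico (-(3 * n : ℤ)) (4 * n),
      (g (stc n X Y (c + 1) 0 n) - g (stc n X Y c 0 n)) =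
      -(g (stc n X Y (-(3 * n : ℤ)) 0 n) - g (stc n X Y (4 * n) 0 n)) := by
    have h8 := tel (fun c => g (stc n X Y c 0 n)) (-(3 * n : ℤ)) (7 * n)
    have e : -(3 * n : ℤ) + ((7 * n : ℕ) : ℤ) = 4 * n := by push_cast; ring
    rw [e] at h8
    rw [← h8, ← Finset.sum_neg_distrib]
    refine Finset.sum_congr rfl fun c _ => ?_
    ring
  rw [h7]
  -- the endpoints
  have hX := val_F h.hX
  have hY := val_F h.hY
  have hlo : stc n X Y (-(3 * n : ℤ)) 0 n = cfg n (lo X Y) := by
    have e : stf X Y (-(3 * n : ℤ)) 0 n = lo X Y := by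
      funext i j
      by_cases hb : (i, j) ∈ box n
      · have hb' := mem_box.mp hb
        have a1 := Lin_bounds (-(3 * n : ℤ)) i j
        have a2 := abs_le.mp (val_bound hX i j)
        have a3 := abs_le.mp (val_bound hY i j)
        have a4 : pf (-(3 * n : ℤ)) 0 n i j = Lin (-(3 * n : ℤ)) i j := by
          unfold pf
          rw [if_neg (by omega)]
        unfold stf lo hi
        rw [a4]
        omega
      · rw [(stf_val h _ _ _).2 i j hb]
        unfold lo
        rw [hX.2 i j hb, hY.2 i j hb]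
        omega
    unfold stc
    rw [e]
  have hhi : stc n X Y (4 * n) 0 n = cfg n (hi X Y) := by
    have e : stf X Y (4 * n) 0 n = hi X Y := by
      funext i j
      by_cases hb : (i, j) ∈ box n
      · have hb' := mem_box.mp hb
        have a1 := Lin_bounds (4 * n : ℤ) i j
        have a2 := abs_le.mp (val_bound hX i j)
        have a3 := abs_le.mp (val_bound hY i j)
        have a4 : pf (4 * n : ℤ) 0 n i j = Lin (4 * n : ℤ) i j := by
          unfold pf
          rw [if_neg (by omega)]
        unfold stf lo hi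
        rw [a4]
        omega
      · rw [(stf_val h _ _ _).2 i j hb]
        unfold hi
        rw [hX.2 i j hb, hY.2 i j hb]
        omega
    unfold stc
    rw [e]
  rw [hlo, hhi]
  rcases h.sign with hs | hs
  · have e1 : lo X Y = F Y := by funext i j; exact (pos_case h hs).1 i j
    have e2 : hi X Y = F X := by funext i j; exact (pos_case h hs).2 i j
    rw [e1, e2, cfg_F h.hX, cfg_F h.hY]
    ring
  · have e1 : lo X Y = F X := by funext i j; exact (neg_case h hs).1 i j
    have e2 : hi X Y = F Y := by funext i j; exact (neg_case h hs).2 i j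
    rw [e1, e2, cfg_F h.hX, cfg_F h.hY]
    ring

theorem path_sq {n : ℕ} (hn : 1 ≤ n) {X Y κ : Finset Edge} (h : Pair n X Y κ) (g : Finset Edge → ℝ) :
    (g X - g Y) ^ 2 ≤ 7 * (n : ℝ) ^ 3 * ∑ c ∈ Finset.Ico (-(3 * n : ℤ)) (4 * n), ∑ x ∈ box n,
      (g (flip x (stc n X Y c x.2 (x.1 + 1))) - g (stc n X Y c x.2 (x.1 + 1))) ^ 2 := by
  rw [← total hn h g, ← Finset.sum_product', ← Finset.sum_product']
  refine (sq_sum_le_card_mul_sum_sq).trans ?_
  have hcard : ((Finset.Ico (-(3 * n : ℤ)) (4 * n) ×ˢ box n).card : ℝ) = 7 * (n : ℝ) ^ 3 := by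
    rw [Finset.card_product]
    unfold box
    rw [Finset.card_product, Int.card_Ico, Int.card_Ico]
    have e1 : (4 * (n : ℤ) - -(3 * n)).toNat = 7 * n := by omega
    have e2 : ((n : ℤ) - 0).toNat = n := by omega
    rw [e1, e2]
    push_cast
    ring
  rw [hcard]
  refine mul_le_mul_of_nonneg_left ?_ (by positivity)
  refine Finset.sum_le_sum fun y hy => ?_
  exact step h g y.1 y.2.1 y.2.2 (Finset.mem_product.mp hy).2

end

end Pool.Agent.H40.SQ
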