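import Mathlib
import Pool.Agent.H40.SQ.Defs
import Pool.Agent.H40.SQ.PKd
import Pool.Agent.H40.SQ.PTel
import Pool.Agent.H40.SQ.PPair

/-!
# PCmp: comparison of the polymer Dirichlet form with the Dirichlet form of the square moves

Exchange the sums over `X` and `κ`.  By `path_sq` (for `pair_of_mem`) the left side is
`≤ 7 n^3 ∑_{κ∈Pol n ℓ} ∑_{c} ∑_{x∈box n} ∑_{X ∋ κ, good} q^(U X).card φ_x(stc n (U X) (U (X.erase κ)) c x.2 (x.1+1))` with `φ_x η = (g (flip x η) - g η)^2`; apply `sum_states`; there are `7n` values of `c` and `(Pol n ℓ).card` polymers.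
-/

set_option autoImplicit false

namespace Pool.Agent.H40.SQ

noncomputable section

private theorem pcmp_comm {A B C D : Type*} (S : Finset A) (t : A → Finset B) (I : Finset C)
    (J : Finset D) (ψ : A → B → C → D → ℝ) :
    ∑ X ∈ S, ∑ κ ∈ t X, ∑ c ∈ I, ∑ x ∈ J, ψ X κ c x =
      ∑ c ∈ I, ∑ x ∈ J, ∑ X ∈ S, ∑ κ ∈ t X, ψ X κ c x := by
  have h1 : ∀ X ∈ S, ∑ κ ∈ t X, ∑ c ∈ I, ∑ x ∈ J, ψ X κ c x =
      ∑ c ∈ I, ∑ x ∈ J, ∑ κ ∈ t X, ψ X κ c x := by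
    intro X _
    rw [Finset.sum_comm]
    refine Finset.sum_congr rfl fun c _ => ?_
    rw [Finset.sum_comm]
  rw [Finset.sum_congr rfl h1, Finset.sum_comm]
  refine Finset.sum_congr rfl fun c _ => ?_
  rw [Finset.sum_comm]

open Classical in
theorem compare (n ℓ M : ℕ) (hn : 1 ≤ n) (q : ℝ) (hq0 : 0 < q) (hq1 : q ≤ 1) (g : Finset Edge → ℝ) :
    ∑ X ∈ (St (Pol n ℓ) inc).filter (fun X => Good n ℓ M (U X)), ∑ κ ∈ X,
        q ^ (U X).card * (g (U X) - g (U (X.erase κ))) ^ 2 ≤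
      49 * (n : ℝ) ^ 4 * (Pol n ℓ).card * (2 ^ (4 * M) * 4 ^ (ℓ + 1) / q ^ 6) *
        ∑ x ∈ box n, ∑ η ∈ Om n, q ^ η.card * (g (flip x η) - g η) ^ 2 := by
  set K : ℝ := 2 ^ (4 * M) * 4 ^ (ℓ + 1) / q ^ 6 with hK
  set S := (St (Pol n ℓ) inc).filter (fun X => Good n ℓ M (U X)) with hS
  set I := Finset.Ico (-(3 * n : ℤ)) (4 * n) with hI
  set φ : ℤ × ℤ → Finset Edge → ℝ := fun x η => (g (flip x η) - g η) ^ 2 with hφ
  set ψ : Finset (Finset Edge) → Finset Edge → ℤ → ℤ × ℤ → ℝ := fun X κ c x =>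
    q ^ (U X).card * φ x (stc n (U X) (U (X.erase κ)) c x.2 (x.1 + 1)) with hψ
  have hstep : ∀ X ∈ S, ∀ κ ∈ X, q ^ (U X).card * (g (U X) - g (U (X.erase κ))) ^ 2 ≤
      7 * (n : ℝ) ^ 3 * ∑ c ∈ I, ∑ x ∈ box n, ψ X κ c x := by
    intro X hX κ hκ
    have hX' := (Finset.mem_filter.1 hX).1
    have h1 := path_sq hn (pair_of_mem hX' hκ) g
    have h2 := mul_le_mul_of_nonneg_left h1 (by positivity : (0 : ℝ) ≤ q ^ (U X).card)
    refine h2.trans (le_of_eq ?_)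
    simp only [hψ, hφ, Finset.mul_sum]
    refine Finset.sum_congr rfl fun c _ => Finset.sum_congr rfl fun x _ => ?_
    ring
  have hswap : ∀ θ : Finset (Finset Edge) → Finset Edge → ℝ,
      ∑ X ∈ S, ∑ κ ∈ X, θ X κ = ∑ κ ∈ Pol n ℓ,
        ∑ X ∈ (St (Pol n ℓ) inc).filter (fun X => κ ∈ X ∧ Good n ℓ M (U X)), θ X κ := by
    intro θ
    refine Finset.sum_comm' ?_
    intro X κ
    rw [hS, Finset.mem_filter, Finset.mem_filter]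
    constructor
    · rintro ⟨⟨h1, h2⟩, h3⟩
      exact ⟨⟨h1, h3, h2⟩, (mem_St.1 h1).1 h3⟩
    · rintro ⟨⟨h1, h3, h2⟩, _⟩
      exact ⟨⟨h1, h2⟩, h3⟩
  have hinner : ∀ (c : ℤ) (x : ℤ × ℤ), ∑ X ∈ S, ∑ κ ∈ X, ψ X κ c x ≤
      (Pol n ℓ).card * (K * ∑ η ∈ Om n, q ^ η.card * φ x η) := by
    intro c x
    rw [hswap (fun X κ => ψ X κ c x), ← nsmul_eq_mul]
    refine Finset.sum_le_card_nsmul _ _ _ fun κ hκ => ?_
    exact sum_states n ℓ M q hq0 hq1 hκ c x.2 (x.1 + 1) (φ x) (fun η => sq_nonneg _)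
  have h1 : ∑ X ∈ S, ∑ κ ∈ X, q ^ (U X).card * (g (U X) - g (U (X.erase κ))) ^ 2 ≤
      ∑ X ∈ S, ∑ κ ∈ X, 7 * (n : ℝ) ^ 3 * ∑ c ∈ I, ∑ x ∈ box n, ψ X κ c x :=
    Finset.sum_le_sum fun X hX => Finset.sum_le_sum fun κ hκ => hstep X hX κ hκ
  have h2 : ∑ X ∈ S, ∑ κ ∈ X, 7 * (n : ℝ) ^ 3 * ∑ c ∈ I, ∑ x ∈ box n, ψ X κ c x =
      7 * (n : ℝ) ^ 3 * ∑ c ∈ I, ∑ x ∈ box n, ∑ X ∈ S, ∑ κ ∈ X, ψ X κ c x := by
    rw [← pcmp_comm S (fun X => X) I (box n) ψ, Finset.mul_sum]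
    refine Finset.sum_congr rfl fun X _ => ?_
    rw [Finset.mul_sum]
  have h3 : 7 * (n : ℝ) ^ 3 * ∑ c ∈ I, ∑ x ∈ box n, ∑ X ∈ S, ∑ κ ∈ X, ψ X κ c x ≤
      7 * (n : ℝ) ^ 3 * ∑ c ∈ I, ∑ x ∈ box n,
        (Pol n ℓ).card * (K * ∑ η ∈ Om n, q ^ η.card * φ x η) :=
    mul_le_mul_of_nonneg_left
      (Finset.sum_le_sum fun c _ => Finset.sum_le_sum fun x _ => hinner c x) (by positivity)
  have hcard : (I.card : ℝ) = 7 * n := by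
    rw [hI, Int.card_Ico]
    have e1 : (4 * (n : ℤ) - -(3 * n)).toNat = 7 * n := by omega
    rw [e1]
    push_cast
    ring
  refine (h1.trans (h2.le.trans h3)).trans (le_of_eq ?_)
  rw [Finset.sum_const, nsmul_eq_mul, hcard, ← Finset.mul_sum, ← Finset.mul_sum]
  ring

end

end Pool.Agent.H40.SQ
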