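import Mathlib
import Pool.Agent.H40.SQ.Defs
import Pool.Agent.H40.SQ.PLin
import Pool.Agent.H40.SQ.HStep

/-!
# TAnc: anchors

Let `T = {i ∈ [0,n) : F γ i j = Lin c i j}`, `k = T.card`.  If `k = 0` take `i = c`: `Lin c c j = 0` (`Lin_self`).  Otherwise let `s = min T`, `e = max T`, `e - s ≥ k - 1`.  From the bounds `2 Lin c s j ≥ c - s - 1`, `2 Lin c e j ≤ c - e + 1`: `2 (Lin c s j - Lin c e j) ≥ e - s - 2 ≥ k - 3`.
So `4 max(|Lin c s j|, |Lin c e j|) ≥ 2(|Lin s| + |Lin e|) ≥ k - 3`, i.e. `k ≤ 4 |Lin c i j| + 3` for `i = s` or `i = e`, where `F γ i j = Lin c i j`.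
* `Lin_sum`: along the row `Lin c · j` is nonincreasing with steps alternately `0` and `-1` (`Lin_step`), so every value `v` is taken at exactly two `i`; hence
`∑_{i∈I} x^|Lin c i j| ≤ 2 ∑_{v∈ℤ} x^|v| = 2 (1 + 2x/(1-x)) ≤ 6`.  (Practical: explicitly `i = c - 2v + const`; or split `I` by the parity of `i + j`, on each part `Lin c · j` is injective, and
for an injective integer sequence `∑ x^natAbs ≤ 3` because `x ≤ 1/2`: at most one `0`, at most two of absolute value `k` for `k ≥ 1`.)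
-/

set_option autoImplicit false

namespace Pool.Agent.H40.SQ

noncomputable section

theorem anchor (n : ℕ) (γ : Finset Edge) (c j : ℤ) :
    ∃ i : ℤ, (i ∈ Finset.Ico 0 (n : ℤ) ∨ i = c) ∧ |Lin c i j| ≤ |F γ i j| ∧
      (((Finset.Ico 0 (n : ℤ)).filter (fun i => F γ i j = Lin c i j)).card : ℤ) ≤ 4 * |Lin c i j| + 3 := by
  set T := (Finset.Ico 0 (n : ℤ)).filter (fun i => F γ i j = Lin c i j) with hT
  rcases T.eq_empty_or_nonempty with h0 | hne
  · refine ⟨c, Or.inr rfl, ?_, ?_⟩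
    · rw [Lin_self, abs_zero]
      exact abs_nonneg _
    · rw [h0, Lin_self]
      simp
  · have hs := T.min'_mem hne
    have he := T.max'_mem hne
    set s := T.min' hne with hs'
    set e := T.max' hne with he'
    have hsub : T ⊆ Finset.Icc s e := by
      intro i hi
      rw [Finset.mem_Icc]
      exact ⟨T.min'_le i hi, T.le_max' i hi⟩
    have hse : s ≤ e := T.min'_le e he
    have hcard := Finset.card_le_card hsub
    rw [Int.card_Icc] at hcard
    have b1 := Lin_bounds c s j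
    have b2 := Lin_bounds c e j
    have a1 := le_abs_self (Lin c s j)
    have a2 := neg_abs_le (Lin c e j)
    rw [hT, Finset.mem_filter] at hs he
    by_cases hcase : |Lin c e j| ≤ |Lin c s j|
    · refine ⟨s, Or.inl hs.1, by rw [hs.2], ?_⟩
      omega
    · refine ⟨e, Or.inl he.1, by rw [he.2], ?_⟩
      omega

private theorem TAnc_step (c j a : ℤ) (ha : a = c - (if (c + j) % 2 = 0 then 1 else 0)) (x : ℝ)
    (hx0 : 0 ≤ x) (hx1 : x ≤ 1 / 2) (N : ℕ) :
    ∑ i ∈ Finset.Ico (a - 2 * N) (a + 2 * N + 2), x ^ (Lin c i j).natAbs ≤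
      6 - 4 * (1 / 2 : ℝ) ^ N := by
  induction N with
  | zero =>
    have e : Finset.Ico (a - 2 * ((0 : ℕ) : ℤ)) (a + 2 * ((0 : ℕ) : ℤ) + 2) = {a, a + 1} := by
      ext i
      simp only [Finset.mem_Ico, Finset.mem_insert, Finset.mem_singleton]
      push_cast
      omega
    have e1 : (Lin c a j).natAbs = 0 := by
      unfold Lin
      split_ifs at ha <;> omega
    have e2 : (Lin c (a + 1) j).natAbs = 0 := by
      unfold Lin
      split_ifs at ha <;> omega
    rw [e, Finset.sum_insert (by simp), Finset.sum_singleton, e1, e2]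
    norm_num
  | succ N ih =>
    have e : Finset.Ico (a - 2 * ((N + 1 : ℕ) : ℤ)) (a + 2 * ((N + 1 : ℕ) : ℤ) + 2) =
        insert (a - 2 * N - 2) (insert (a - 2 * N - 1) (insert (a + 2 * N + 2)
          (insert (a + 2 * N + 3) (Finset.Ico (a - 2 * N) (a + 2 * N + 2))))) := by
      ext i
      simp only [Finset.mem_Ico, Finset.mem_insert]
      push_cast
      omega
    have e1 : (Lin c (a - 2 * N - 2) j).natAbs = N + 1 := by
      unfold Lin
      split_ifs at ha <;> omega
    have e2 : (Lin c (a - 2 * N - 1) j).natAbs = N + 1 := by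
      unfold Lin
      split_ifs at ha <;> omega
    have e3 : (Lin c (a + 2 * N + 2) j).natAbs = N + 1 := by
      unfold Lin
      split_ifs at ha <;> omega
    have e4 : (Lin c (a + 2 * N + 3) j).natAbs = N + 1 := by
      unfold Lin
      split_ifs at ha <;> omega
    have hx : x ^ (N + 1) ≤ (1 / 2 : ℝ) ^ (N + 1) := pow_le_pow_left₀ hx0 hx1 _
    have hp : (1 / 2 : ℝ) ^ (N + 1) = (1 / 2 : ℝ) ^ N * (1 / 2) := pow_succ _ _
    rw [e, Finset.sum_insert (by simp only [Finset.mem_Ico, Finset.mem_insert]; omega),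
      Finset.sum_insert (by simp only [Finset.mem_Ico, Finset.mem_insert]; omega),
      Finset.sum_insert (by simp only [Finset.mem_Ico, Finset.mem_insert]; omega),
      Finset.sum_insert (by simp only [Finset.mem_Ico]; omega), e1, e2, e3, e4]
    linarith

theorem Lin_sum (c j : ℤ) (x : ℝ) (hx0 : 0 ≤ x) (hx1 : x ≤ 1 / 2) (I : Finset ℤ) :
    ∑ i ∈ I, x ^ (Lin c i j).natAbs ≤ 6 := by
  obtain ⟨a, ha⟩ : ∃ a, a = c - (if (c + j) % 2 = 0 then 1 else 0) := ⟨_, rfl⟩
  obtain ⟨N, hN⟩ : ∃ N : ℕ, ∀ i ∈ I, (i - a).natAbs ≤ N :=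
    ⟨I.sup fun i => (i - a).natAbs, fun i hi => Finset.le_sup (f := fun i => (i - a).natAbs) hi⟩
  have hsub : I ⊆ Finset.Ico (a - 2 * N) (a + 2 * N + 2) := by
    intro i hi
    have := hN i hi
    rw [Finset.mem_Ico]
    omega
  have h1 := Finset.sum_le_sum_of_subset_of_nonneg (f := fun i => x ^ (Lin c i j).natAbs) hsub
    (fun i _ _ => pow_nonneg hx0 _)
  have h2 := TAnc_step c j a ha x hx0 hx1 N
  have h3 : (0 : ℝ) ≤ (1 / 2 : ℝ) ^ N := by positivity
  linarith

end

end Pool.Agent.H40.SQ
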