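import Mathlib
import Pool.Agent.H40.SQ.Defs

/-!
# GMgf: exponential moments of the polymer gas

Split `X = (X ∩ A) ∪ (X ∖ A)`.  Both parts are compatible.  The map `X ↦ (X ∩ A, X ∖ A)` is injective from `St P r` into
`(A.powerset) × St P r`, and `wt w X * ∏_{κ∈X∩A} τ κ = (∏_{κ∈X∩A} w κ τ κ) * wt w (X∖A)`.  So the left side is
`≤ (∑_{B ⊆ A} ∏_{κ∈B} w κ τ κ) * ∑_{Y∈St} wt w Y = ∏_{κ∈A} (1 + w κ τ κ) * Z` (`Finset.prod_one_add` / `Finset.prod_add`),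
then `1 + x ≤ exp x`.
-/

set_option autoImplicit false

namespace Pool.Agent.H40.SQ

noncomputable section

variable {ι : Type} [DecidableEq ι]


theorem gas_mgf (P : Finset ι) (r : ι → ι → Prop) (w τ : ι → ℝ) (hw : ∀ κ ∈ P, 0 ≤ w κ)
    (hτ : ∀ κ ∈ P, 0 ≤ τ κ) (A : Finset ι) (hA : A ⊆ P) :
    ∑ X ∈ St P r, wt w X * ∏ κ ∈ X ∩ A, τ κ ≤
      Real.exp (∑ κ ∈ A, w κ * τ κ) * ∑ X ∈ St P r, wt w X := by
  have h0 : ∀ X ∈ St P r, wt w X * ∏ κ ∈ X ∩ A, τ κ =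
      (∏ κ ∈ X ∩ A, (w κ * τ κ)) * wt w (X \ A) := by
    intro X _
    have h1 : wt w X = (∏ κ ∈ X ∩ A, w κ) * wt w (X \ A) := by
      unfold wt
      exact (Finset.prod_inter_mul_prod_sdiff X A w).symm
    rw [h1, Finset.prod_mul_distrib]
    ring
  rw [Finset.sum_congr rfl h0]
  have hnn : ∀ p ∈ A.powerset ×ˢ St P r, 0 ≤ (∏ κ ∈ p.1, (w κ * τ κ)) * wt w p.2 := by
    intro p hp
    rw [Finset.mem_product, Finset.mem_powerset] at hp
    refine mul_nonneg (Finset.prod_nonneg fun κ hκ => ?_) (Finset.prod_nonneg fun κ hκ => ?_)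
    · exact mul_nonneg (hw κ (hA (hp.1 hκ))) (hτ κ (hA (hp.1 hκ)))
    · exact hw κ ((mem_St.1 hp.2).1 hκ)
  have hsub : ∀ X ∈ St P r, (X ∩ A, X \ A) ∈ A.powerset ×ˢ St P r := by
    intro X hX
    rw [Finset.mem_product, Finset.mem_powerset]
    refine ⟨Finset.inter_subset_right, mem_St.2 ⟨Finset.sdiff_subset.trans (mem_St.1 hX).1, ?_⟩⟩
    intro a ha b hb hab
    exact (mem_St.1 hX).2 a (Finset.sdiff_subset ha) b (Finset.sdiff_subset hb) hab
  have hinj : Set.InjOn (fun X : Finset ι => (X ∩ A, X \ A)) (St P r : Set (Finset ι)) := by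
    intro X _ Y _ hXY
    simp only [Prod.mk.injEq] at hXY
    calc X = (X ∩ A) ∪ (X \ A) := by rw [Finset.union_comm, Finset.sdiff_union_inter]
      _ = (Y ∩ A) ∪ (Y \ A) := by rw [hXY.1, hXY.2]
      _ = Y := by rw [Finset.union_comm, Finset.sdiff_union_inter]
  have h1 : ∑ X ∈ St P r, (∏ κ ∈ X ∩ A, (w κ * τ κ)) * wt w (X \ A) ≤
      ∑ p ∈ A.powerset ×ˢ St P r, (∏ κ ∈ p.1, (w κ * τ κ)) * wt w p.2 := by
    have h2 := Finset.sum_image (f := fun p : Finset ι × Finset ι =>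
      (∏ κ ∈ p.1, (w κ * τ κ)) * wt w p.2) (s := St P r) (g := fun X => (X ∩ A, X \ A)) hinj
    rw [← h2]
    refine Finset.sum_le_sum_of_subset_of_nonneg ?_ (fun p hp _ => hnn p hp)
    intro p hp
    rw [Finset.mem_image] at hp
    obtain ⟨X, hX, rfl⟩ := hp
    exact hsub X hX
  refine h1.trans ?_
  rw [Finset.sum_product]
  have h3 : ∑ x ∈ A.powerset, ∑ y ∈ St P r, (∏ κ ∈ x, (w κ * τ κ)) * wt w y =
      (∏ κ ∈ A, (1 + w κ * τ κ)) * ∑ X ∈ St P r, wt w X := by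
    rw [Finset.prod_one_add, Finset.sum_mul]
    exact Finset.sum_congr rfl fun x _ => by rw [Finset.mul_sum]
  rw [h3]
  refine mul_le_mul_of_nonneg_right ?_ (Finset.sum_nonneg fun X hX =>
    Finset.prod_nonneg fun κ hκ => hw κ ((mem_St.1 hX).1 hκ))
  rw [Real.exp_sum]
  refine Finset.prod_le_prod (fun κ hκ => ?_) (fun κ hκ => ?_)
  · have := mul_nonneg (hw κ (hA hκ)) (hτ κ (hA hκ))
    linarith
  · have := Real.add_one_le_exp (w κ * τ κ)
    linarith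

end

end Pool.Agent.H40.SQ
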