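import Mathlib
import Pool.Agent.H40.SQ.Defs
import Pool.Agent.H40.SQ.GMgf
import Pool.Agent.H40.SQ.LSum
import Pool.Agent.H40.SQ.HRow
import Pool.Agent.H40.SQ.HSign
import Pool.Agent.H40.SQ.CUni

/-!
# TPr: probability of prescribed heights at one face in each row of `J`

Let `A = {κ ∈ Pol n ℓ : ∃ j∈J, F κ (y j) j ≠ 0}`, `τ κ = t^κ.card` with `t = 1/(36 q) ≥ 1`.  For `X ∈ St` with `m j ≤ |F (U X) (y j) j|` (`j ∈ J`): by `F_U` and `|F κ| ≤ 1` (`sign_of_conn`) at least `m j` of the `κ ∈ X` have `F κ (y j) j ≠ 0`; and `κ.card ≥ 4 #{j∈J : F κ (y j) j ≠ 0}` (`four_rows`).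
So `∑_{κ∈X∩A} κ.card ≥ 4 ∑_j m j` and `∏_{κ∈X∩A} τ κ ≥ t^(4 ∑ m j)`.  By `gas_mgf` (`w κ τ κ = (1/36)^κ.card`):
`t^(4∑m) * LHS ≤ exp(∑_{κ∈A} (1/36)^κ.card) * ∑_X q^(U X).card` (`U_wt`).  Finally `∑_{κ∈A} (1/36)^κ.card ≤ ∑_{j∈J} ∑_{κ: F κ (y j) j ≠ 0} ≤ ∑_{j∈J} ∑_{d=1}^{ℓ} ∑_{κ∋(true,y j + d,j), κ.card ≥ d} (1/36)^κ.card ≤ ∑_j ∑_d (1/2)^d ≤ J.card`
(`right_edge`, `animal_tail` with `x = 1/36`).
-/

set_option autoImplicit false

namespace Pool.Agent.H40.SQ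

noncomputable section

private theorem half_sum (l : ℕ) : ∑ d ∈ Finset.Icc 1 l, ((1 : ℝ) / 2) ^ d ≤ 1 := by
  have h : ∑ d ∈ Finset.Icc 1 l, ((1 : ℝ) / 2) ^ d = 1 - (1 / 2) ^ l := by
    induction l with
    | zero => simp
    | succ k ih =>
      rw [Finset.sum_Icc_succ_top (by omega), ih, pow_succ]
      ring
  rw [h]
  have : (0 : ℝ) ≤ (1 / 2) ^ l := by positivity
  linarith

open Classical in
private theorem bU_le {ι : Type} [DecidableEq ι] (s : Finset ι) (g : ι → Finset (Finset Edge))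
    (f : Finset Edge → ℝ) (hf : ∀ κ, 0 ≤ f κ) :
    ∑ κ ∈ s.biUnion g, f κ ≤ ∑ i ∈ s, ∑ κ ∈ g i, f κ := by
  induction s using Finset.induction_on with
  | empty => simp
  | insert a s ha ih =>
    rw [Finset.biUnion_insert, Finset.sum_insert ha]
    have h1 := Finset.sum_union_inter (s₁ := g a) (s₂ := s.biUnion g) (f := f)
    have h2 : 0 ≤ ∑ κ ∈ g a ∩ s.biUnion g, f κ := Finset.sum_nonneg (fun κ _ => hf κ)
    linarith

open Classical in
private theorem row_sum (n ℓ : ℕ) (i j : ℤ) :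
    ∑ κ ∈ (Pol n ℓ).filter (fun κ => F κ i j ≠ 0), ((1 : ℝ) / 36) ^ κ.card ≤ 1 := by
  have hf : ∀ κ : Finset Edge, (0 : ℝ) ≤ (1 / 36) ^ κ.card := fun κ => by positivity
  have h1 : (Pol n ℓ).filter (fun κ => F κ i j ≠ 0) ⊆
      (Finset.Icc 1 ℓ).biUnion (fun d => (Pol n ℓ).filter
        (fun κ => (true, i + (d : ℤ), j) ∈ κ ∧ d ≤ κ.card)) := by
    intro κ hκ
    obtain ⟨h2, h3⟩ := Finset.mem_filter.1 hκ
    obtain ⟨h4, h5, h6, h7, h8⟩ := mem_Pol.1 h2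
    obtain ⟨d, hd1, hd2, hd3⟩ := right_edge (mem_Om.2 ⟨h4, h7⟩) h6 h3
    exact Finset.mem_biUnion.2 ⟨d, Finset.mem_Icc.2 ⟨hd1, hd2.trans h8⟩,
      Finset.mem_filter.2 ⟨h2, hd3, hd2⟩⟩
  refine (Finset.sum_le_sum_of_subset_of_nonneg h1 (fun κ _ _ => hf κ)).trans ?_
  refine (bU_le _ _ _ hf).trans ?_
  refine le_trans (Finset.sum_le_sum ?_) (half_sum ℓ)
  intro d _
  have h2 := animal_tail (E n) (true, i + (d : ℤ), j)
    ((Pol n ℓ).filter (fun κ => (true, i + (d : ℤ), j) ∈ κ ∧ d ≤ κ.card))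
    (by
      intro κ hκ
      obtain ⟨h2, h3, _⟩ := Finset.mem_filter.1 hκ
      obtain ⟨h4, h5, h6, h7, h8⟩ := mem_Pol.1 h2
      exact ⟨h4, h3, h6⟩)
    (1 / 36) (by norm_num) (by norm_num) d
    (by
      intro κ hκ
      exact (Finset.mem_filter.1 hκ).2.2)
  refine h2.trans (le_of_eq ?_)
  norm_num

open Classical in
theorem prob_heights (n ℓ : ℕ) (q : ℝ) (hq0 : 0 < q) (hq1 : 36 * q ≤ 1) (J : Finset ℤ) (y : ℤ → ℤ) (m : ℤ → ℕ) :
    ∑ X ∈ (St (Pol n ℓ) inc).filter (fun X => ∀ j ∈ J, (m j : ℤ) ≤ |F (U X) (y j) j|), q ^ (U X).card ≤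
      (36 * q) ^ (4 * ∑ j ∈ J, m j) * Real.exp (J.card) * ∑ X ∈ St (Pol n ℓ) inc, q ^ (U X).card := by
  set A : Finset (Finset Edge) := (Pol n ℓ).filter (fun κ => ∃ j ∈ J, F κ (y j) j ≠ 0) with hA
  set t : ℝ := 1 / (36 * q) with ht
  have hq36 : 0 < 36 * q := by positivity
  have ht1 : 1 ≤ t := by
    rw [ht, le_div_iff₀ hq36]
    linarith
  have ht0 : 0 < t := by linarith
  set M : ℕ := ∑ j ∈ J, m j with hM
  -- the key bound
  have hkey : ∀ X ∈ (St (Pol n ℓ) inc).filter (fun X => ∀ j ∈ J, (m j : ℤ) ≤ |F (U X) (y j) j|),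
      4 * M ≤ ∑ κ ∈ X ∩ A, κ.card := by
    intro X hX
    obtain ⟨hX1, hX2⟩ := Finset.mem_filter.1 hX
    have hXP := (mem_St.1 hX1).1
    have h1 : ∀ κ ∈ X, ∀ i j : ℤ, |F κ i j| ≤ if F κ i j ≠ 0 then 1 else 0 := by
      intro κ hκ i j
      obtain ⟨h4, h5, h6, h7, h8⟩ := mem_Pol.1 (hXP hκ)
      rcases sign_of_conn (mem_Om.2 ⟨h4, h7⟩) h6 h5 with h | h
      · rcases h i j with h0 | h0 <;> simp [h0]
      · rcases h i j with h0 | h0 <;> simp [h0]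
    have h2 : (M : ℤ) ≤ ∑ κ ∈ X, ∑ j ∈ J, if F κ (y j) j ≠ 0 then (1 : ℤ) else 0 := by
      rw [Finset.sum_comm, hM]
      push_cast
      apply Finset.sum_le_sum
      intro j hj
      refine (hX2 j hj).trans ?_
      rw [F_U hX1]
      refine (Finset.abs_sum_le_sum_abs _ _).trans ?_
      apply Finset.sum_le_sum
      intro κ hκ
      exact h1 κ hκ (y j) j
    have h3 : ∀ κ ∈ X, (4 : ℤ) * ∑ j ∈ J, (if F κ (y j) j ≠ 0 then (1 : ℤ) else 0) ≤
        if κ ∈ A then (κ.card : ℤ) else 0 := by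
      intro κ hκ
      obtain ⟨h4, h5, h6, h7, h8⟩ := mem_Pol.1 (hXP hκ)
      split_ifs with hκA
      · have h9 := four_rows (mem_Om.2 ⟨h4, h7⟩) y (J.filter (fun j => F κ (y j) j ≠ 0))
          (by
            intro j hj
            exact (Finset.mem_filter.1 hj).2)
        rw [← Finset.sum_filter, Finset.sum_const, nsmul_eq_mul, mul_one]
        exact_mod_cast h9
      · have h9 : ∀ j ∈ J, (if F κ (y j) j ≠ 0 then (1 : ℤ) else 0) = 0 := by
          intro j hj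
          rw [if_neg]
          intro h10
          exact hκA (Finset.mem_filter.2 ⟨hXP hκ, j, hj, h10⟩)
        rw [Finset.sum_eq_zero h9, mul_zero]
    have h4 : (4 : ℤ) * M ≤ ∑ κ ∈ X, if κ ∈ A then (κ.card : ℤ) else 0 := by
      calc (4 : ℤ) * M ≤ 4 * ∑ κ ∈ X, ∑ j ∈ J, (if F κ (y j) j ≠ 0 then (1 : ℤ) else 0) := by
            linarith
        _ = ∑ κ ∈ X, 4 * ∑ j ∈ J, (if F κ (y j) j ≠ 0 then (1 : ℤ) else 0) := by
            rw [Finset.mul_sum]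
        _ ≤ _ := Finset.sum_le_sum h3
    rw [← Finset.sum_filter, Finset.filter_mem_eq_inter] at h4
    exact_mod_cast h4
  have hw : ∀ κ ∈ Pol n ℓ, (0 : ℝ) ≤ (fun κ : Finset Edge => q ^ κ.card) κ := fun κ _ => by
    positivity
  have hτ : ∀ κ ∈ Pol n ℓ, (0 : ℝ) ≤ (fun κ : Finset Edge => t ^ κ.card) κ := fun κ _ => by
    positivity
  have hgas := gas_mgf (Pol n ℓ) inc (fun κ => q ^ κ.card) (fun κ => t ^ κ.card) hw hτ A
    (Finset.filter_subset _ _)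
  have hprod : ∀ X : Finset (Finset Edge),
      ∏ κ ∈ X ∩ A, (fun κ : Finset Edge => t ^ κ.card) κ = t ^ (∑ κ ∈ X ∩ A, κ.card) := by
    intro X
    exact Finset.prod_pow_eq_pow_sum _ _ _
  have hwX : ∀ X ∈ St (Pol n ℓ) inc, wt (fun κ : Finset Edge => q ^ κ.card) X = q ^ (U X).card :=
    fun X hX => U_wt hX q
  -- left side
  have hL : ∑ X ∈ (St (Pol n ℓ) inc).filter (fun X => ∀ j ∈ J, (m j : ℤ) ≤ |F (U X) (y j) j|),
      q ^ (U X).card ≤ (36 * q) ^ (4 * M) * ∑ X ∈ St (Pol n ℓ) inc,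
        wt (fun κ : Finset Edge => q ^ κ.card) X *
          ∏ κ ∈ X ∩ A, (fun κ : Finset Edge => t ^ κ.card) κ := by
    rw [Finset.mul_sum]
    refine le_trans ?_ (Finset.sum_le_sum_of_subset_of_nonneg (Finset.filter_subset
      (fun X => ∀ j ∈ J, (m j : ℤ) ≤ |F (U X) (y j) j|) (St (Pol n ℓ) inc)) ?_)
    · apply Finset.sum_le_sum
      intro X hX
      have hX1 := (Finset.mem_filter.1 hX).1
      rw [hwX X hX1, hprod X]
      have h5 : t ^ (4 * M) ≤ t ^ (∑ κ ∈ X ∩ A, κ.card) := pow_le_pow_right₀ ht1 (hkey X hX)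
      have h6 : (36 * q) ^ (4 * M) * t ^ (4 * M) = 1 := by
        rw [← mul_pow, ht, mul_one_div_cancel hq36.ne', one_pow]
      have h7 : 0 ≤ q ^ (U X).card := by positivity
      have h8 : 0 ≤ (36 * q) ^ (4 * M) := by positivity
      calc q ^ (U X).card = ((36 * q) ^ (4 * M) * t ^ (4 * M)) * q ^ (U X).card := by
            rw [h6, one_mul]
        _ ≤ ((36 * q) ^ (4 * M) * t ^ (∑ κ ∈ X ∩ A, κ.card)) * q ^ (U X).card := by
            exact mul_le_mul_of_nonneg_right (mul_le_mul_of_nonneg_left h5 h8) h7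
        _ = _ := by ring
    · intro X hX _
      rw [hwX X hX, hprod X]
      positivity
  -- the exponent
  have hexp : ∑ κ ∈ A, (fun κ : Finset Edge => q ^ κ.card) κ * (fun κ : Finset Edge => t ^ κ.card) κ
      ≤ (J.card : ℝ) := by
    have h1 : ∀ κ ∈ A, (fun κ : Finset Edge => q ^ κ.card) κ * (fun κ : Finset Edge => t ^ κ.card) κ
        = ((1 : ℝ) / 36) ^ κ.card := by
      intro κ _
      simp only
      rw [← mul_pow, ht]
      congr 1
      field_simp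
    rw [Finset.sum_congr rfl h1]
    have h2 : A ⊆ J.biUnion (fun j => (Pol n ℓ).filter (fun κ => F κ (y j) j ≠ 0)) := by
      intro κ hκ
      obtain ⟨h3, j, hj, h4⟩ := Finset.mem_filter.1 hκ
      exact Finset.mem_biUnion.2 ⟨j, hj, Finset.mem_filter.2 ⟨h3, h4⟩⟩
    refine (Finset.sum_le_sum_of_subset_of_nonneg h2 (fun κ _ _ => by positivity)).trans ?_
    refine (bU_le _ _ _ (fun κ => by positivity)).trans ?_
    refine (Finset.sum_le_sum (fun j _ => row_sum n ℓ (y j) j)).trans ?_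
    rw [Finset.sum_const, nsmul_eq_mul, mul_one]
  have hS0 : 0 ≤ ∑ X ∈ St (Pol n ℓ) inc, q ^ (U X).card :=
    Finset.sum_nonneg (fun X _ => by positivity)
  have hSw : ∑ X ∈ St (Pol n ℓ) inc, wt (fun κ : Finset Edge => q ^ κ.card) X =
      ∑ X ∈ St (Pol n ℓ) inc, q ^ (U X).card := Finset.sum_congr rfl hwX
  rw [hSw] at hgas
  refine hL.trans ?_
  rw [mul_assoc]
  refine mul_le_mul_of_nonneg_left ?_ (by positivity)
  refine hgas.trans ?_
  exact mul_le_mul_of_nonneg_right (Real.exp_le_exp.2 hexp) hS0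

end

end Pool.Agent.H40.SQ
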