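import Mathlib
import Pool.Agent.H40.SQ.Defs
import Pool.Agent.H40.SQ.AsD
import Pool.Agent.H40.SQ.GPoin
import Pool.Agent.H40.SQ.PCmp
import Pool.Agent.H40.SQ.TBad
import Pool.Agent.H40.SQ.CBig
import Pool.Agent.H40.SQ.CSa

/-!
# AsWP: the weak Poincaré inequality of the chain

`W γ = q^γ.card`, `St = St (Pol n ℓ) inc`, `Zl = ∑_{X∈St} W (U X) ≤ Zn q n` (`U` is injective into `Om n`: `U_inj`, `U_mem`).  Let `c0 = (∑_{X∈St} W (U X) g (U X))/Zl`.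
`∑_γ W (g - mean)^2 ≤ ∑_γ W (g - c0)^2` (the mean minimises).  Split `Om n` into the image of `St` under `U` and the rest.
* Image: `gas_poincare` for `P = Pol n ℓ`, `r = inc`, `w κ = q^κ.card` (`U_wt`), `s κ = κ.card ≥ 1`, `θ = 1/2` (`pol_theta`; `inc` is symmetric by `tch_symm`, reflexive on nonempty sets by `tch_refl`): `≤ 2 ∑_X ∑_{κ∈X} W (U X) (g (U X) - g (U (X.erase κ)))^2`.
Good `X` (`M = 8(ℓ+1)`): `compare`.  Bad `X`: each square is `≤ 4 B^2`, `X.card ≤ (U X).card ≤ (E n).card` (`U_card`, members nonempty), `bad_bound`, `Zl ≤ Zn`.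
* Rest: `(g - c0)^2 ≤ 4 B^2` (`|c0| ≤ B`), `big_bound`.
* `∑_x ∑_η W (g(flip x η) - g η)^2 ≤ (2 n^2/lam) ∑ W g (g - TP g)` (`TP_dir_lb`) and `g - TL g = (1/2)(g - TP g)`.  So the good part is `≤ 2 * 49 n^4 |Pol| (...) * (4 n^2/q^4) ∑ W g (g - TL g)`.
-/

set_option autoImplicit false

namespace Pool.Agent.H40.SQ

noncomputable section

/-- The mean minimises the quadratic deviation. -/
private theorem mean_min {α : Type} (S : Finset α) (W g : α → ℝ) (c : ℝ)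
    (hZ : 0 < ∑ x ∈ S, W x) :
    ∑ x ∈ S, W x * (g x - (∑ y ∈ S, W y * g y) / (∑ y ∈ S, W y)) ^ 2 ≤ ∑ x ∈ S, W x * (g x - c) ^ 2 := by
  set m := (∑ y ∈ S, W y * g y) / (∑ y ∈ S, W y) with hm
  have h0 : ∑ y ∈ S, W y * g y = m * ∑ y ∈ S, W y := by
    rw [hm, div_mul_cancel₀ _ hZ.ne']
  have h1 : ∑ x ∈ S, W x * (g x - c) ^ 2 - ∑ x ∈ S, W x * (g x - m) ^ 2 =
      (m - c) ^ 2 * ∑ x ∈ S, W x := by
    rw [← Finset.sum_sub_distrib]
    have : ∀ x ∈ S, W x * (g x - c) ^ 2 - W x * (g x - m) ^ 2 =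
        2 * (m - c) * (W x * g x) + (c ^ 2 - m ^ 2) * W x := by
      intro x _; ring
    rw [Finset.sum_congr rfl this, Finset.sum_add_distrib, ← Finset.mul_sum, ← Finset.mul_sum, h0]
    ring
  have h2 : 0 ≤ (m - c) ^ 2 * ∑ x ∈ S, W x := by positivity
  linarith

private theorem X_card_le {n ℓ : ℕ} {X : Finset (Finset Edge)} (hX : X ∈ St (Pol n ℓ) inc) :
    X.card ≤ (E n).card := by
  have h1 : X.card ≤ (U X).card := by
    rw [U_card hX, Finset.card_eq_sum_ones]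
    apply Finset.sum_le_sum
    intro κ hκ
    have := (mem_Pol.mp ((mem_St.mp hX).1 hκ)).2.1
    exact Finset.card_pos.mpr this
  exact h1.trans (Finset.card_le_card (mem_Om.mp (U_mem hX)).1)

private theorem sq_diff_le {a b B : ℝ} (ha : |a| ≤ B) (hb : |b| ≤ B) : (a - b) ^ 2 ≤ 4 * B ^ 2 := by
  have h1 := abs_le.mp ha
  have h2 := abs_le.mp hb
  nlinarith [h1.1, h1.2, h2.1, h2.2]

theorem weak_poincare (n ℓ : ℕ) (hn : 1 ≤ n) (q lam : ℝ) (hq : q ^ 4 = lam) (hq0 : 0 < q) (hq1 : q ≤ 1 / 1000)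
    (g : Finset Edge → ℝ) (B : ℝ) (hB : 0 ≤ B) (hg : ∀ γ ∈ Om n, |g γ| ≤ B) :
    ∑ γ ∈ Om n, q ^ γ.card * (g γ - mean q n g) ^ 2 ≤
      AA n ℓ q * ∑ γ ∈ Om n, q ^ γ.card * g γ * (g γ - TL lam n g γ) + DD n ℓ q * B ^ 2 * Zn q n := by
  classical
  have hn0 : (0 : ℝ) < n := by exact_mod_cast hn
  have hB2 : 0 ≤ 4 * B ^ 2 := by positivity
  have hE0 : (0 : ℝ) ≤ ((E n).card : ℝ) := Nat.cast_nonneg _
  have hpw : ∀ k : ℕ, 0 ≤ q ^ k := fun k => (pow_pos hq0 k).le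
  have hpw' : ∀ k : ℕ, 0 < q ^ k := fun k => pow_pos hq0 k
  have hbadc : (0 : ℝ) ≤ (5 * n + 2) * (n + ℓ) * (26 * q) ^ (ℓ + 1) := by positivity
  have hCnn : (0 : ℝ) ≤ 49 * (n : ℝ) ^ 4 * (Pol n ℓ).card * (2 ^ (4 * (8 * (ℓ + 1))) * 4 ^ (ℓ + 1) / q ^ 6) := by
    positivity
  have hAnn : (0 : ℝ) ≤ 2 * (n : ℝ) ^ 2 / q ^ 4 := by positivity
  set S := St (Pol n ℓ) inc with hS
  have hUinj : ∀ X ∈ S, ∀ Y ∈ S, U X = U Y → X = Y := fun X hX Y hY h => U_inj hX hY h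
  have himg : S.image U ⊆ Om n := by
    intro γ hγ
    obtain ⟨X, hX, rfl⟩ := Finset.mem_image.mp hγ
    exact U_mem hX
  have hempty : (∅ : Finset (Finset Edge)) ∈ S := by
    rw [hS, mem_St]
    exact ⟨Finset.empty_subset _, fun a ha => absurd ha (Finset.notMem_empty a)⟩
  have hsumU : ∀ f : Finset Edge → ℝ, ∑ γ ∈ S.image U, f γ = ∑ X ∈ S, f (U X) := fun f =>
    Finset.sum_image (fun X hX Y hY h => hUinj X hX Y hY h)
  have hZl : ∑ X ∈ S, q ^ (U X).card ≤ Zn q n := by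
    have := hsumU (fun γ => q ^ γ.card)
    rw [← this]
    unfold Zn
    exact Finset.sum_le_sum_of_subset_of_nonneg himg (fun γ _ _ => hpw _)
  have hZl0 : 0 < ∑ X ∈ S, q ^ (U X).card :=
    Finset.sum_pos (fun X _ => hpw' _) ⟨∅, hempty⟩
  have hZn0 : 0 < Zn q n := lt_of_lt_of_le hZl0 hZl
  have hwt : ∀ X ∈ S, wt (fun κ : Finset Edge => q ^ κ.card) X = q ^ (U X).card := fun X hX => U_wt hX q
  set w : Finset Edge → ℝ := fun κ => q ^ κ.card with hw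
  set c0 := (∑ Y ∈ S, wt w Y * g (U Y)) / (∑ Y ∈ S, wt w Y) with hc0
  have hZw : ∑ Y ∈ S, wt w Y = ∑ X ∈ S, q ^ (U X).card := Finset.sum_congr rfl hwt
  have hc0B : |c0| ≤ B := by
    rw [hc0, hZw, abs_div, abs_of_pos hZl0, div_le_iff₀ hZl0]
    calc |∑ Y ∈ S, wt w Y * g (U Y)| ≤ ∑ Y ∈ S, |wt w Y * g (U Y)| := Finset.abs_sum_le_sum_abs _ _
      _ ≤ ∑ Y ∈ S, B * q ^ (U Y).card := by
          apply Finset.sum_le_sum
          intro Y hY
          rw [hwt Y hY, abs_mul, abs_of_pos (hpw' _), mul_comm]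
          exact mul_le_mul_of_nonneg_right (hg _ (U_mem hY)) (hpw _)
      _ = B * ∑ X ∈ S, q ^ (U X).card := by rw [Finset.mul_sum]
  -- the mean minimises
  have hstep0 : ∑ γ ∈ Om n, q ^ γ.card * (g γ - mean q n g) ^ 2 ≤
      ∑ γ ∈ Om n, q ^ γ.card * (g γ - c0) ^ 2 :=
    mean_min (Om n) (fun γ => q ^ γ.card) g c0 hZn0
  -- split
  have hsplit : ∑ γ ∈ Om n, q ^ γ.card * (g γ - c0) ^ 2 =
      ∑ X ∈ S, q ^ (U X).card * (g (U X) - c0) ^ 2 +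
      ∑ γ ∈ (Om n).filter (fun γ => γ ∉ S.image U), q ^ γ.card * (g γ - c0) ^ 2 := by
    rw [← Finset.sum_filter_add_sum_filter_not (Om n) (fun γ => γ ∈ S.image U)]
    congr 1
    have h1 : (Om n).filter (fun γ => γ ∈ S.image U) = S.image U := by
      ext γ
      rw [Finset.mem_filter]
      exact ⟨fun h => h.2, fun h => ⟨himg h, h⟩⟩
    rw [h1, hsumU]
  -- rest
  have hrest : ∑ γ ∈ (Om n).filter (fun γ => γ ∉ S.image U), q ^ γ.card * (g γ - c0) ^ 2 ≤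
      4 * B ^ 2 * ((E n).card * (18 * q) ^ (ℓ + 1) * Zn q n) := by
    calc ∑ γ ∈ (Om n).filter (fun γ => γ ∉ S.image U), q ^ γ.card * (g γ - c0) ^ 2
        ≤ ∑ γ ∈ (Om n).filter (fun γ => γ ∉ S.image U), 4 * B ^ 2 * q ^ γ.card := by
          apply Finset.sum_le_sum
          intro γ hγ
          rw [mul_comm]
          exact mul_le_mul_of_nonneg_right (sq_diff_le (hg γ (Finset.mem_filter.mp hγ).1) hc0B) (hpw _)
      _ = 4 * B ^ 2 * ∑ γ ∈ (Om n).filter (fun γ => γ ∉ S.image U), q ^ γ.card := by rw [Finset.mul_sum]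
      _ ≤ 4 * B ^ 2 * ((E n).card * (18 * q) ^ (ℓ + 1) * Zn q n) := by
          apply mul_le_mul_of_nonneg_left _ hB2
          exact big_bound n ℓ q hq0 (by linarith)
  -- Poincare for the gas
  set T : Finset (Finset Edge) → ℝ := fun X => ∑ κ ∈ X, q ^ (U X).card * (g (U X) - g (U (X.erase κ))) ^ 2 with hT
  have hgas : ∑ X ∈ S, q ^ (U X).card * (g (U X) - c0) ^ 2 ≤ 2 * ∑ X ∈ S, T X := by
    have h1 := gas_poincare (Pol n ℓ) inc
      (by rintro a b ⟨x, hx, y, hy, hxy⟩; exact ⟨y, hy, x, hx, tch_symm hxy⟩)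
      (by
        intro a ha
        obtain ⟨x, hx⟩ := (mem_Pol.mp ha).2.1
        exact ⟨x, hx, x, hx, tch_refl x⟩)
      w (fun κ => (κ.card : ℝ)) (fun κ _ => hpw' _)
      (by
        intro κ hκ
        have := Finset.card_pos.mpr (mem_Pol.mp hκ).2.1
        exact_mod_cast this)
      (1 / 2) (by norm_num) (by norm_num)
      (by
        intro κ hκ Q hQ hQ'
        exact pol_theta n ℓ q hq0 hq1 κ hκ Q hQ hQ')
      (fun X => g (U X))
    rw [← hS, ← hc0] at h1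
    have h2 : ∑ X ∈ S, wt w X * (g (U X) - c0) ^ 2 = ∑ X ∈ S, q ^ (U X).card * (g (U X) - c0) ^ 2 :=
      Finset.sum_congr rfl (fun X hX => by rw [hwt X hX])
    have h3 : ∑ X ∈ S, ∑ κ ∈ X, wt w X * (g (U X) - g (U (X.erase κ))) ^ 2 = ∑ X ∈ S, T X :=
      Finset.sum_congr rfl (fun X hX => by rw [hT, hwt X hX])
    rw [h2, h3] at h1
    linarith
  have hsplit2 : ∑ X ∈ S, T X = ∑ X ∈ S.filter (fun X => Good n ℓ (8 * (ℓ + 1)) (U X)), T X +
      ∑ X ∈ S.filter (fun X => ¬ Good n ℓ (8 * (ℓ + 1)) (U X)), T X :=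
    (Finset.sum_filter_add_sum_filter_not S (fun X => Good n ℓ (8 * (ℓ + 1)) (U X)) T).symm
  have hgood := compare n ℓ (8 * (ℓ + 1)) hn q hq0 (by linarith) g
  have hbad : ∑ X ∈ S.filter (fun X => ¬ Good n ℓ (8 * (ℓ + 1)) (U X)), T X ≤
      4 * B ^ 2 * (E n).card * ((5 * n + 2) * (n + ℓ) * (26 * q) ^ (ℓ + 1) * Zn q n) := by
    calc ∑ X ∈ S.filter (fun X => ¬ Good n ℓ (8 * (ℓ + 1)) (U X)), T X
        ≤ ∑ X ∈ S.filter (fun X => ¬ Good n ℓ (8 * (ℓ + 1)) (U X)), 4 * B ^ 2 * (E n).card * q ^ (U X).card := by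
          apply Finset.sum_le_sum
          intro X hX
          have hXS := (Finset.mem_filter.mp hX).1
          have h1 : ∀ κ ∈ X, q ^ (U X).card * (g (U X) - g (U (X.erase κ))) ^ 2 ≤ q ^ (U X).card * (4 * B ^ 2) := by
            intro κ _
            apply mul_le_mul_of_nonneg_left _ (hpw _)
            exact sq_diff_le (hg _ (U_mem hXS)) (hg _ (U_mem (erase_mem_St hXS κ)))
          calc T X ≤ ∑ κ ∈ X, q ^ (U X).card * (4 * B ^ 2) := Finset.sum_le_sum h1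
            _ = (X.card : ℝ) * (q ^ (U X).card * (4 * B ^ 2)) := by rw [Finset.sum_const, nsmul_eq_mul]
            _ ≤ ((E n).card : ℝ) * (q ^ (U X).card * (4 * B ^ 2)) := by
                apply mul_le_mul_of_nonneg_right _ (mul_nonneg (hpw _) hB2)
                exact_mod_cast X_card_le hXS
            _ = 4 * B ^ 2 * (E n).card * q ^ (U X).card := by ring
      _ = 4 * B ^ 2 * (E n).card * ∑ X ∈ S.filter (fun X => ¬ Good n ℓ (8 * (ℓ + 1)) (U X)), q ^ (U X).card := by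
          rw [Finset.mul_sum]
      _ ≤ 4 * B ^ 2 * (E n).card * ((5 * n + 2) * (n + ℓ) * (26 * q) ^ (ℓ + 1) * Zn q n) := by
          apply mul_le_mul_of_nonneg_left _ (mul_nonneg hB2 hE0)
          refine (bad_bound n ℓ q hq0 hq1).trans ?_
          exact mul_le_mul_of_nonneg_left hZl hbadc
  -- Dirichlet form
  have hdir := TP_dir_lb n q lam hq hq0 (by linarith) g
  have hTL : ∑ γ ∈ Om n, q ^ γ.card * g γ * (g γ - TP lam n g γ) =
      2 * ∑ γ ∈ Om n, q ^ γ.card * g γ * (g γ - TL lam n g γ) := by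
    rw [Finset.mul_sum]
    apply Finset.sum_congr rfl
    intro γ _
    have : TL lam n g γ = (1 / 2) * (g γ + TP lam n g γ) := by
      unfold TL
      simp only [LinearMap.smul_apply, LinearMap.add_apply, Pi.smul_apply, Pi.add_apply, LinearMap.id_apply, smul_eq_mul]
    rw [this]; ring
  rw [hTL] at hdir
  set Dsum := ∑ x ∈ box n, ∑ γ ∈ Om n, q ^ γ.card * (g (flip x γ) - g γ) ^ 2 with hDsum
  set DL := ∑ γ ∈ Om n, q ^ γ.card * g γ * (g γ - TL lam n g γ) with hDL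
  have hD : Dsum ≤ 4 * (n : ℝ) ^ 2 / q ^ 4 * DL := by
    rw [← hq] at hdir
    have hq4 : (0 : ℝ) < q ^ 4 := hpw' 4
    have h1 : Dsum = (2 * (n : ℝ) ^ 2 / q ^ 4) * (q ^ 4 / (2 * (n : ℝ) ^ 2) * Dsum) := by
      field_simp
    rw [h1]
    calc (2 * (n : ℝ) ^ 2 / q ^ 4) * (q ^ 4 / (2 * (n : ℝ) ^ 2) * Dsum)
        ≤ (2 * (n : ℝ) ^ 2 / q ^ 4) * (2 * DL) := mul_le_mul_of_nonneg_left hdir hAnn
      _ = 4 * (n : ℝ) ^ 2 / q ^ 4 * DL := by ring
  set C := 49 * (n : ℝ) ^ 4 * (Pol n ℓ).card * (2 ^ (4 * (8 * (ℓ + 1))) * 4 ^ (ℓ + 1) / q ^ 6) with hC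
  have hC0 : 0 ≤ C := hCnn
  have hgood' : ∑ X ∈ S.filter (fun X => Good n ℓ (8 * (ℓ + 1)) (U X)), T X ≤ C * (4 * (n : ℝ) ^ 2 / q ^ 4 * DL) :=
    hgood.trans (mul_le_mul_of_nonneg_left hD hC0)
  have hAA : AA n ℓ q = 2 * (C * (4 * (n : ℝ) ^ 2 / q ^ 4)) := by
    unfold AA; rw [hC]; ring
  have hDD : DD n ℓ q * B ^ 2 * Zn q n = 2 * (4 * B ^ 2 * (E n).card * ((5 * n + 2) * (n + ℓ) * (26 * q) ^ (ℓ + 1) * Zn q n)) +
      4 * B ^ 2 * ((E n).card * (18 * q) ^ (ℓ + 1) * Zn q n) := by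
    unfold DD; ring
  rw [hAA, hDD]
  calc ∑ γ ∈ Om n, q ^ γ.card * (g γ - mean q n g) ^ 2
      ≤ ∑ X ∈ S, q ^ (U X).card * (g (U X) - c0) ^ 2 +
      ∑ γ ∈ (Om n).filter (fun γ => γ ∉ S.image U), q ^ γ.card * (g γ - c0) ^ 2 := hstep0.trans hsplit.le
    _ ≤ 2 * (C * (4 * (n : ℝ) ^ 2 / q ^ 4 * DL) +
        4 * B ^ 2 * (E n).card * ((5 * n + 2) * (n + ℓ) * (26 * q) ^ (ℓ + 1) * Zn q n)) +
        4 * B ^ 2 * ((E n).card * (18 * q) ^ (ℓ + 1) * Zn q n) := by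
        apply add_le_add _ hrest
        refine hgas.trans ?_
        rw [hsplit2]
        linarith
    _ = _ := by ring

end

end Pool.Agent.H40.SQ
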