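import Mathlib
import Pool.Agent.H40.SQ.Defs
import Pool.Agent.H40.SQ.AsWP
import Pool.Agent.H40.SQ.AVar
import Pool.Agent.H40.SQ.HLat

/-!
# AsVar: decay of the variance of the sum of all heights

`var_decay` with `S = Om n`, `π γ = q^γ.card`, `P = TP lam n`, `L = TL lam n`, `A = AA n ℓ q + 1 ≥ 1`, `β = DD * (2n^3)^2 * Zn`, `K u : ∑ W u = 0 ∧ ∀ γ ∈ Om n, |u γ| ≤ 2 n^3`, `g = Phi n - m`, `m = mean q n (Phi n)`.
* `|Phi n γ| ≤ n^3` on `Om n` (`val_bound`, `val_F`, `(box n).card = n^2`), so `|m| ≤ n^3` and `K (Phi n - m)`.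
* `K` is preserved by `TL`: `∑ W TP u = ∑ W u` (`TP_sa` with the function `1`, `TP_const`), `TP_sup` with `a = -2n^3`, `b = 2n^3`.
* `hwp`: `weak_poincare` for `u` with `mean q n u = 0`; `∑ W u (u - TL u) ≥ 0` (`TP_dir_lb`), so `AA` may be replaced by `AA + 1`.
* `hcontr`: `TP_contr`.  `(TL^t)(Phi n - m) = (TL^t)(Phi n) - m` (linearity, `TP_const`).  `∑ W (Phi - m)^2 ≤ 4 n^6 Zn`.
-/

set_option autoImplicit false

namespace Pool.Agent.H40.SQ

noncomputable section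

private theorem av_Zn_pos (n : ℕ) (q : ℝ) (hq0 : 0 < q) : 0 < Zn q n := by
  unfold Zn
  refine Finset.sum_pos (fun γ _ => pow_pos hq0 _) ⟨∅, ?_⟩
  rw [mem_Om]
  refine ⟨Finset.empty_subset _, ?_⟩
  intro i j
  simp [ind]

private theorem av_phi_bd (n : ℕ) {γ : Finset Edge} (hγ : γ ∈ Om n) : |Phi n γ| ≤ (n : ℝ) ^ 3 := by
  unfold Phi
  calc |∑ x ∈ box n, (F γ x.1 x.2 : ℝ)| ≤ ∑ x ∈ box n, |(F γ x.1 x.2 : ℝ)| :=
        Finset.abs_sum_le_sum_abs _ _
    _ ≤ ∑ _x ∈ box n, (n : ℝ) := by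
        refine Finset.sum_le_sum fun x _ => ?_
        have h := val_bound (val_F hγ) x.1 x.2
        exact_mod_cast h
    _ = (n : ℝ) ^ 3 := by
        rw [Finset.sum_const, nsmul_eq_mul, csa_box_card]
        ring

private theorem av_mean_bd (n : ℕ) (q : ℝ) (hq0 : 0 < q) (g : Finset Edge → ℝ) (B : ℝ)
    (hg : ∀ γ ∈ Om n, |g γ| ≤ B) : |mean q n g| ≤ B := by
  have hZ := av_Zn_pos n q hq0
  unfold mean
  rw [abs_div, abs_of_pos hZ, div_le_iff₀ hZ]
  calc |∑ γ ∈ Om n, q ^ γ.card * g γ| ≤ ∑ γ ∈ Om n, |q ^ γ.card * g γ| :=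
        Finset.abs_sum_le_sum_abs _ _
    _ ≤ ∑ γ ∈ Om n, B * q ^ γ.card := by
        refine Finset.sum_le_sum fun γ hγ => ?_
        rw [abs_mul, abs_of_pos (pow_pos hq0 _), mul_comm]
        exact mul_le_mul_of_nonneg_right (hg γ hγ) (pow_pos hq0 _).le
    _ = B * Zn q n := by rw [← Finset.mul_sum]; rfl

private theorem av_TL (n : ℕ) (lam : ℝ) (g : Finset Edge → ℝ) (γ : Finset Edge) :
    TL lam n g γ = (1 / 2) * (g γ + TP lam n g γ) := by
  unfold TL
  simp only [LinearMap.smul_apply, LinearMap.add_apply, Pi.smul_apply, Pi.add_apply,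
    LinearMap.id_apply, smul_eq_mul]

private theorem av_TL_const (n : ℕ) (lam c : ℝ) (t : ℕ) :
    ((TL lam n) ^ t) (fun _ => c) = fun _ => c := by
  induction t with
  | zero => rfl
  | succ t ih =>
    rw [pow_succ', Module.End.mul_apply, ih]
    funext γ
    rw [av_TL, TP_const]
    ring

theorem phi_var (n ℓ : ℕ) (hn : 1 ≤ n) (q lam : ℝ) (hq : q ^ 4 = lam) (hq0 : 0 < q) (hq1 : q ≤ 1 / 1000) (t : ℕ) :
    ∑ γ ∈ Om n, q ^ γ.card * (((TL lam n) ^ t) (Phi n) γ - mean q n (Phi n)) ^ 2 ≤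
      ((1 - 1 / (AA n ℓ q + 1)) ^ t + DD n ℓ q) * (4 * (n : ℝ) ^ 6) * Zn q n := by
  have hZ := av_Zn_pos n q hq0
  have hlam0 : 0 ≤ lam := by rw [← hq]; positivity
  have hlam1 : lam ≤ 1 := by
    rw [← hq]
    exact pow_le_one₀ hq0.le (by linarith)
  have hAA : 0 ≤ AA n ℓ q := by unfold AA; positivity
  have hDD : 0 ≤ DD n ℓ q := by unfold DD; positivity
  set m := mean q n (Phi n) with hm
  set B : ℝ := 2 * (n : ℝ) ^ 3 with hB
  have hB0 : 0 ≤ B := by positivity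
  have hmB : |m| ≤ (n : ℝ) ^ 3 := av_mean_bd n q hq0 _ _ (fun γ hγ => av_phi_bd n hγ)
  have hTPsum : ∀ u : Finset Edge → ℝ, ∑ γ ∈ Om n, q ^ γ.card * TP lam n u γ =
      ∑ γ ∈ Om n, q ^ γ.card * u γ := by
    intro u
    have h1 := TP_sa n q lam hq u (fun _ => 1)
    rw [TP_const] at h1
    simpa using h1
  have hTLsum : ∀ u : Finset Edge → ℝ, ∑ γ ∈ Om n, q ^ γ.card * TL lam n u γ =
      ∑ γ ∈ Om n, q ^ γ.card * u γ := by
    intro u
    have h1 : ∑ γ ∈ Om n, q ^ γ.card * TL lam n u γ = (1 / 2) * (∑ γ ∈ Om n, q ^ γ.card * u γ) +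
        (1 / 2) * (∑ γ ∈ Om n, q ^ γ.card * TP lam n u γ) := by
      rw [Finset.mul_sum, Finset.mul_sum, ← Finset.sum_add_distrib]
      refine Finset.sum_congr rfl fun γ _ => ?_
      rw [av_TL]
      ring
    rw [h1, hTPsum]
    ring
  have hmain := var_decay (Om n) (fun γ => q ^ γ.card) (fun γ _ => (pow_pos hq0 _).le) (TP lam n)
    (fun g => TP_contr n q lam hq hq0 (by linarith) g) (TL lam n) rfl (AA n ℓ q + 1)
    (DD n ℓ q * B ^ 2 * Zn q n) (by linarith) (by positivity)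
    (fun u => (∑ γ ∈ Om n, q ^ γ.card * u γ = 0) ∧ ∀ γ ∈ Om n, |u γ| ≤ B)
    (by
      rintro u ⟨h1, h2⟩
      refine ⟨by rw [hTLsum, h1], ?_⟩
      intro γ hγ
      have h3 := TP_sup n lam hlam0 hlam1 u (-B) B (fun η hη => abs_le.1 (h2 η hη)) γ hγ
      have h4 := abs_le.1 (h2 γ hγ)
      rw [av_TL, abs_le]
      constructor
      · linarith [h3.1, h4.1]
      · linarith [h3.2, h4.2])
    (by
      rintro u ⟨h1, h2⟩
      have h3 := weak_poincare n ℓ hn q lam hq hq0 hq1 u B hB0 h2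
      have h4 : mean q n u = 0 := by
        unfold mean
        rw [h1, zero_div]
      rw [h4] at h3
      simp only [sub_zero] at h3
      have h5 : 0 ≤ ∑ γ ∈ Om n, q ^ γ.card * u γ * (u γ - TL lam n u γ) := by
        have h6 := TP_dir_lb n q lam hq hq0 (by linarith) u
        have h7 : 0 ≤ lam / (2 * (n : ℝ) ^ 2) *
            ∑ x ∈ box n, ∑ γ ∈ Om n, q ^ γ.card * (u (flip x γ) - u γ) ^ 2 := by
          refine mul_nonneg (by positivity) (Finset.sum_nonneg fun x _ =>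
            Finset.sum_nonneg fun γ _ => mul_nonneg (pow_pos hq0 _).le (sq_nonneg _))
        have h8 : ∑ γ ∈ Om n, q ^ γ.card * u γ * (u γ - TL lam n u γ) =
            (1 / 2) * ∑ γ ∈ Om n, q ^ γ.card * u γ * (u γ - TP lam n u γ) := by
          rw [Finset.mul_sum]
          refine Finset.sum_congr rfl fun γ _ => ?_
          rw [av_TL]
          ring
        rw [h8]
        linarith
      linarith)
    (fun γ => Phi n γ - m)
    (by
      refine ⟨?_, ?_⟩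
      · have h1 : ∑ γ ∈ Om n, q ^ γ.card * (Phi n γ - m) =
            ∑ γ ∈ Om n, q ^ γ.card * Phi n γ - m * Zn q n := by
          unfold Zn
          rw [Finset.mul_sum, ← Finset.sum_sub_distrib]
          refine Finset.sum_congr rfl fun γ _ => ?_
          ring
        rw [h1, hm]
        unfold mean
        rw [div_mul_cancel₀ _ hZ.ne', sub_self]
      · intro γ hγ
        have h1 := abs_sub (Phi n γ) m
        have h2 := av_phi_bd n hγ
        rw [hB]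
        linarith) t
  have hlin : ∀ γ, ((TL lam n) ^ t) (fun γ => Phi n γ - m) γ = ((TL lam n) ^ t) (Phi n) γ - m := by
    intro γ
    have h1 : (fun γ => Phi n γ - m) = Phi n - (fun _ => m) := rfl
    rw [h1, map_sub, av_TL_const]
    rfl
  have hinit : ∑ γ ∈ Om n, q ^ γ.card * (Phi n γ - m) ^ 2 ≤ B ^ 2 * Zn q n := by
    unfold Zn
    rw [Finset.mul_sum]
    refine Finset.sum_le_sum fun γ hγ => ?_
    rw [mul_comm]
    refine mul_le_mul_of_nonneg_right ?_ (pow_pos hq0 _).le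
    have h1 := abs_sub (Phi n γ) m
    have h2 := av_phi_bd n hγ
    have h3 : |Phi n γ - m| ≤ B := by rw [hB]; linarith
    rw [← sq_abs]
    exact pow_le_pow_left₀ (abs_nonneg _) h3 2
  have hA1 : 0 ≤ 1 - 1 / (AA n ℓ q + 1) := by
    have : 1 / (AA n ℓ q + 1) ≤ 1 := by
      rw [div_le_one (by linarith)]
      linarith
    linarith
  have hlast : (1 - 1 / (AA n ℓ q + 1)) ^ t * ∑ γ ∈ Om n, q ^ γ.card * (Phi n γ - m) ^ 2 ≤
      (1 - 1 / (AA n ℓ q + 1)) ^ t * (B ^ 2 * Zn q n) :=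
    mul_le_mul_of_nonneg_left hinit (pow_nonneg hA1 t)
  simp only [hlin] at hmain
  have hB2 : B ^ 2 = 4 * (n : ℝ) ^ 6 := by rw [hB]; ring
  calc ∑ γ ∈ Om n, q ^ γ.card * (((TL lam n) ^ t) (Phi n) γ - m) ^ 2
      ≤ (1 - 1 / (AA n ℓ q + 1)) ^ t * (B ^ 2 * Zn q n) + DD n ℓ q * B ^ 2 * Zn q n := by
        linarith
    _ = ((1 - 1 / (AA n ℓ q + 1)) ^ t + DD n ℓ q) * (4 * (n : ℝ) ^ 6) * Zn q n := by
        rw [hB2]; ring

end

end Pool.Agent.H40.SQ
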