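import Mathlib
import Pool.Agent.H40.SQ.Defs
import Pool.Agent.H40.SQ.HFlip
import Pool.Agent.H40.SQ.AMono
import Pool.Agent.H40.SQ.HLat

/-!
# CMon: the lazy chain is a mixture of monotone maps

`up_mono`: let `Le γ γ'`, `c ∈ box n`, `s = sgn c`.  `up c γ` has the heights `F γ + 1_c` if raising is possible, else `up c γ = γ`: for `s = 1` possible iff `sq c ∩ γ = ∅` iff all four neighbours of `c` have height `F γ c` (`F_step`, `F_vstep`), for `s = -1` iff
`sq c ⊆ γ` iff all four neighbours have height `F γ c + 1`; and `F (γ ∪ sq c) = F γ + s 1_c`, `F (γ ∖ sq c) = F γ - s 1_c` (`F_sq`, `F_union`).  If `F γ c < F γ' c` nothing to prove.  If `F γ c = F γ' c` and raising is possible in `γ`: `s = 1`: the neighbours satisfy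
`F γ' y ∈ {F γ' c - 1, F γ' c}` (admissible steps) and `F γ' y ≥ F γ y = F γ c = F γ' c`, so raising is possible in `γ'`.  `s = -1`: `F γ' y ∈ {F γ' c, F γ' c + 1}` and `≥ F γ c + 1`.  Same for `dn`.
`TL_rep`: `TL g γ = ∑_{c∈box n} (1/n^2) (pu g(up c γ) + pd g(dn c γ) + (1-pu-pd) g γ)`, `pu = lam/2, pd = 1/2` if `sgn c = 1` and `pu = 1/2, pd = lam/2` otherwise (`n ≥ 1`).
`TL_compare`: `mono_compare` with `S = Om n`, `R = Le`, index set `box n ×ˢ (Finset.univ : Finset (Fin 3))`, `Φ = Phi n`: if `Le γ γ'`, `γ ≠ γ'` then some height is strictly larger (`F_inj`), it lies in the box (`F_supp`), heights are integers, so `Phi γ + 1 ≤ Phi γ'`.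
-/

set_option autoImplicit false

namespace Pool.Agent.H40.SQ

noncomputable section

private theorem union_mem {n : ℕ} {c : ℤ × ℤ} (hc : c ∈ box n) {γ : Finset Edge} (hγ : γ ∈ Om n)
    (h : sq c ∩ γ = ∅) : γ ∪ sq c ∈ Om n := by
  obtain ⟨h1, h2⟩ := mem_Om.mp hγ
  obtain ⟨h3, h4⟩ := mem_Om.mp (sq_mem_Om hc)
  rw [mem_Om]
  refine ⟨Finset.union_subset h1 h3, VC_union ?_ h2 h4⟩
  rw [Finset.disjoint_iff_inter_eq_empty, Finset.inter_comm]
  exact h

private theorem sdiff_mem {n : ℕ} {c : ℤ × ℤ} (hc : c ∈ box n) {γ : Finset Edge} (hγ : γ ∈ Om n)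
    (h : sq c ⊆ γ) : γ \ sq c ∈ Om n := by
  obtain ⟨h1, h2⟩ := mem_Om.mp hγ
  obtain ⟨h3, h4⟩ := mem_Om.mp (sq_mem_Om hc)
  rw [mem_Om]
  exact ⟨Finset.sdiff_subset.trans h1, VC_sdiff h h2 h4⟩

theorem up_mem {n : ℕ} {c : ℤ × ℤ} (hc : c ∈ box n) {γ : Finset Edge} (hγ : γ ∈ Om n) : up c γ ∈ Om n := by
  unfold up
  split_ifs with h1 h2 h2
  · exact union_mem hc hγ h2
  · exact hγ
  · exact sdiff_mem hc hγ h2
  · exact hγ

theorem dn_mem {n : ℕ} {c : ℤ × ℤ} (hc : c ∈ box n) {γ : Finset Edge} (hγ : γ ∈ Om n) : dn c γ ∈ Om n := by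
  unfold dn
  split_ifs with h1 h2 h2
  · exact sdiff_mem hc hγ h2
  · exact hγ
  · exact union_mem hc hγ h2
  · exact hγ

/-- all edges of the square absent -/
private theorem empty_iff (c : ℤ × ℤ) (γ : Finset Edge) : sq c ∩ γ = ∅ ↔
    (ind γ (true, c.1 + 1, c.2) = 0 ∧ ind γ (true, c.1, c.2) = 0 ∧ ind γ (false, c.1, c.2 + 1) = 0 ∧
      ind γ (false, c.1, c.2) = 0) := by
  have h0 : ∀ e, ind γ e = 0 ↔ e ∉ γ := by
    intro e
    unfold ind
    split_ifs with h <;> simp [h]
  rw [h0, h0, h0, h0]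
  constructor
  · intro h
    have h1 : ∀ e ∈ sq c, e ∉ γ := fun e he heγ =>
      Finset.notMem_empty e (h ▸ Finset.mem_inter.2 ⟨he, heγ⟩)
    exact ⟨h1 _ (by simp [sq]), h1 _ (by simp [sq]), h1 _ (by simp [sq]), h1 _ (by simp [sq])⟩
  · rintro ⟨h1, h2, h3, h4⟩
    rw [Finset.eq_empty_iff_forall_notMem]
    intro e he
    rw [Finset.mem_inter] at he
    obtain ⟨he, heγ⟩ := he
    simp only [sq, Finset.mem_insert, Finset.mem_singleton] at he
    rcases he with rfl | rfl | rfl | rfl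
    · exact h4 heγ
    · exact h3 heγ
    · exact h2 heγ
    · exact h1 heγ

/-- all edges of the square present -/
private theorem subset_iff (c : ℤ × ℤ) (γ : Finset Edge) : sq c ⊆ γ ↔
    (ind γ (true, c.1 + 1, c.2) = 1 ∧ ind γ (true, c.1, c.2) = 1 ∧ ind γ (false, c.1, c.2 + 1) = 1 ∧
      ind γ (false, c.1, c.2) = 1) := by
  rw [← hflip_mem_iff, ← hflip_mem_iff, ← hflip_mem_iff, ← hflip_mem_iff]
  constructor
  · intro h
    exact ⟨h (by simp [sq]), h (by simp [sq]), h (by simp [sq]), h (by simp [sq])⟩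
  · rintro ⟨h1, h2, h3, h4⟩ e he
    simp only [sq, Finset.mem_insert, Finset.mem_singleton] at he
    rcases he with rfl | rfl | rfl | rfl
    · exact h4
    · exact h3
    · exact h2
    · exact h1

/-- the heights of the four neighbours -/
private theorem nbr {n : ℕ} {γ : Finset Edge} (hγ : γ ∈ Om n) (c : ℤ × ℤ) :
    F γ (c.1 + 1) c.2 - F γ c.1 c.2 = -sgn c.1 c.2 * ind γ (true, c.1 + 1, c.2) ∧
    F γ c.1 c.2 - F γ (c.1 - 1) c.2 = sgn c.1 c.2 * ind γ (true, c.1, c.2) ∧
    F γ c.1 (c.2 + 1) - F γ c.1 c.2 = -sgn c.1 c.2 * ind γ (false, c.1, c.2 + 1) ∧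
    F γ c.1 c.2 - F γ c.1 (c.2 - 1) = sgn c.1 c.2 * ind γ (false, c.1, c.2) := by
  have hE := (mem_Om.mp hγ).1
  have h1 := F_step hE (c.1 + 1) c.2
  have h2 := F_step hE c.1 c.2
  have h3 := F_vstep hγ c.1 (c.2 + 1)
  have h4 := F_vstep hγ c.1 c.2
  have s1 := sgn_left (c.1 + 1) c.2
  have s2 := sgn_down c.1 (c.2 + 1)
  rw [add_sub_cancel_right] at h1 h3 s1 s2
  refine ⟨?_, h2, ?_, h4⟩
  · rw [h1, s1, neg_neg]
  · rw [h3, s2, neg_neg]

private theorem F_union_sq {n : ℕ} {c : ℤ × ℤ} (hc : c ∈ box n) {γ : Finset Edge}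
    (h : sq c ∩ γ = ∅) (i j : ℤ) :
    F (γ ∪ sq c) i j = F γ i j + if (i, j) = c then sgn c.1 c.2 else 0 := by
  have hd : Disjoint γ (sq c) := by
    rw [Finset.disjoint_iff_inter_eq_empty, Finset.inter_comm]
    exact h
  rw [F_union hd, F_sq hc]

private theorem F_sdiff_sq {n : ℕ} {c : ℤ × ℤ} (hc : c ∈ box n) {γ : Finset Edge}
    (h : sq c ⊆ γ) (i j : ℤ) :
    F (γ \ sq c) i j = F γ i j - if (i, j) = c then sgn c.1 c.2 else 0 := by
  have h1 := F_union (Finset.sdiff_disjoint (s := sq c) (t := γ)) i j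
  rw [Finset.sdiff_union_of_subset h, F_sq hc] at h1
  rw [h1]
  ring

private theorem up_spec {n : ℕ} {c : ℤ × ℤ} (hc : c ∈ box n) (γ : Finset Edge) :
    ∃ r : ℤ, (∀ i j, F (up c γ) i j = F γ i j + if (i, j) = c then r else 0) ∧
      ((r = 1 ∧ ((sgn c.1 c.2 = 1 ∧ sq c ∩ γ = ∅) ∨ (sgn c.1 c.2 = -1 ∧ sq c ⊆ γ))) ∨
        (r = 0 ∧ ¬ ((sgn c.1 c.2 = 1 ∧ sq c ∩ γ = ∅) ∨ (sgn c.1 c.2 = -1 ∧ sq c ⊆ γ)))) := by
  rcases sgn_cases c.1 c.2 with hs | hs
  · by_cases h : sq c ∩ γ = ∅
    · refine ⟨1, fun i j => ?_, Or.inl ⟨rfl, Or.inl ⟨hs, h⟩⟩⟩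
      have h1 : up c γ = γ ∪ sq c := by unfold up; rw [if_pos hs, if_pos h]
      rw [h1, F_union_sq hc h, hs]
    · refine ⟨0, fun i j => ?_, Or.inr ⟨rfl, ?_⟩⟩
      · have h1 : up c γ = γ := by unfold up; rw [if_pos hs, if_neg h]
        rw [h1]
        simp
      · rintro (h1 | h1)
        · exact h h1.2
        · rw [hs] at h1
          exact absurd h1.1 (by norm_num)
  · have hs1 : ¬ sgn c.1 c.2 = 1 := by rw [hs]; norm_num
    by_cases h : sq c ⊆ γ
    · refine ⟨1, fun i j => ?_, Or.inl ⟨rfl, Or.inr ⟨hs, h⟩⟩⟩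
      have h1 : up c γ = γ \ sq c := by unfold up; rw [if_neg hs1, if_pos h]
      rw [h1, F_sdiff_sq hc h, hs]
      split_ifs <;> ring
    · refine ⟨0, fun i j => ?_, Or.inr ⟨rfl, ?_⟩⟩
      · have h1 : up c γ = γ := by unfold up; rw [if_neg hs1, if_neg h]
        rw [h1]
        simp
      · rintro (h1 | h1)
        · exact hs1 h1.1
        · exact h h1.2

private theorem dn_spec {n : ℕ} {c : ℤ × ℤ} (hc : c ∈ box n) (γ : Finset Edge) :
    ∃ r : ℤ, (∀ i j, F (dn c γ) i j = F γ i j - if (i, j) = c then r else 0) ∧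
      ((r = 1 ∧ ((sgn c.1 c.2 = 1 ∧ sq c ⊆ γ) ∨ (sgn c.1 c.2 = -1 ∧ sq c ∩ γ = ∅))) ∨
        (r = 0 ∧ ¬ ((sgn c.1 c.2 = 1 ∧ sq c ⊆ γ) ∨ (sgn c.1 c.2 = -1 ∧ sq c ∩ γ = ∅)))) := by
  rcases sgn_cases c.1 c.2 with hs | hs
  · by_cases h : sq c ⊆ γ
    · refine ⟨1, fun i j => ?_, Or.inl ⟨rfl, Or.inl ⟨hs, h⟩⟩⟩
      have h1 : dn c γ = γ \ sq c := by unfold dn; rw [if_pos hs, if_pos h]
      rw [h1, F_sdiff_sq hc h, hs]
    · refine ⟨0, fun i j => ?_, Or.inr ⟨rfl, ?_⟩⟩
      · have h1 : dn c γ = γ := by unfold dn; rw [if_pos hs, if_neg h]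
        rw [h1]
        simp
      · rintro (h1 | h1)
        · exact h h1.2
        · rw [hs] at h1
          exact absurd h1.1 (by norm_num)
  · have hs1 : ¬ sgn c.1 c.2 = 1 := by rw [hs]; norm_num
    by_cases h : sq c ∩ γ = ∅
    · refine ⟨1, fun i j => ?_, Or.inl ⟨rfl, Or.inr ⟨hs, h⟩⟩⟩
      have h1 : dn c γ = γ ∪ sq c := by unfold dn; rw [if_neg hs1, if_pos h]
      rw [h1, F_union_sq hc h, hs]
      split_ifs <;> ring
    · refine ⟨0, fun i j => ?_, Or.inr ⟨rfl, ?_⟩⟩
      · have h1 : dn c γ = γ := by unfold dn; rw [if_neg hs1, if_neg h]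
        rw [h1]
        simp
      · rintro (h1 | h1)
        · exact hs1 h1.1
        · exact h h1.2

theorem up_mono {n : ℕ} {c : ℤ × ℤ} (hc : c ∈ box n) {γ γ' : Finset Edge} (hγ : γ ∈ Om n) (hγ' : γ' ∈ Om n)
    (h : Le γ γ') : Le (up c γ) (up c γ') := by
  obtain ⟨r, hr1, hr2⟩ := up_spec hc γ
  obtain ⟨r', hr1', hr2'⟩ := up_spec hc γ'
  intro i j
  rw [hr1, hr1']
  by_cases hij : (i, j) = c
  · rw [if_pos hij, if_pos hij]
    subst hij
    have l0 := h i j
    rcases hr2 with ⟨rfl, hA⟩ | ⟨rfl, -⟩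
    · rcases hr2' with ⟨rfl, -⟩ | ⟨rfl, hB⟩
      · linarith
      · by_contra hcon
        have e0 : F γ' i j = F γ i j := by
          rw [add_zero, not_le] at hcon
          exact le_antisymm (Int.lt_add_one_iff.1 hcon) l0
        apply hB
        clear hB hcon hr1 hr1'
        obtain ⟨n11, n12, n13, n14⟩ := nbr hγ (i, j)
        obtain ⟨n21, n22, n23, n24⟩ := nbr hγ' (i, j)
        rw [empty_iff, subset_iff] at hA ⊢
        simp only at n11 n12 n13 n14 n21 n22 n23 n24 hA ⊢
        have l1 := h (i + 1) j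
        have l2 := h (i - 1) j
        have l3 := h i (j + 1)
        have l4 := h i (j - 1)
        rcases hA with ⟨hs, a1, a2, a3, a4⟩ | ⟨hs, a1, a2, a3, a4⟩
        · rw [hs, a1] at n11
          rw [hs, a2] at n12
          rw [hs, a3] at n13
          rw [hs, a4] at n14
          rw [hs] at n21 n22 n23 n24
          refine Or.inl ⟨hs, ?_, ?_, ?_, ?_⟩
          · rcases hflip_ind_cases γ' (true, i + 1, j) with c | c
            · exact c
            · rw [c] at n21; linarith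
          · rcases hflip_ind_cases γ' (true, i, j) with c | c
            · exact c
            · rw [c] at n22; linarith
          · rcases hflip_ind_cases γ' (false, i, j + 1) with c | c
            · exact c
            · rw [c] at n23; linarith
          · rcases hflip_ind_cases γ' (false, i, j) with c | c
            · exact c
            · rw [c] at n24; linarith
        · rw [hs, a1] at n11
          rw [hs, a2] at n12
          rw [hs, a3] at n13
          rw [hs, a4] at n14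
          rw [hs] at n21 n22 n23 n24
          refine Or.inr ⟨hs, ?_, ?_, ?_, ?_⟩
          · rcases hflip_ind_cases γ' (true, i + 1, j) with c | c
            · rw [c] at n21; linarith
            · exact c
          · rcases hflip_ind_cases γ' (true, i, j) with c | c
            · rw [c] at n22; linarith
            · exact c
          · rcases hflip_ind_cases γ' (false, i, j + 1) with c | c
            · rw [c] at n23; linarith
            · exact c
          · rcases hflip_ind_cases γ' (false, i, j) with c | c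
            · rw [c] at n24; linarith
            · exact c
    · rcases hr2' with ⟨rfl, -⟩ | ⟨rfl, -⟩ <;> linarith
  · rw [if_neg hij, if_neg hij]
    simpa using h i j

theorem dn_mono {n : ℕ} {c : ℤ × ℤ} (hc : c ∈ box n) {γ γ' : Finset Edge} (hγ : γ ∈ Om n) (hγ' : γ' ∈ Om n)
    (h : Le γ γ') : Le (dn c γ) (dn c γ') := by
  obtain ⟨r, hr1, hr2⟩ := dn_spec hc γ
  obtain ⟨r', hr1', hr2'⟩ := dn_spec hc γ'
  intro i j
  rw [hr1, hr1']
  by_cases hij : (i, j) = c
  · rw [if_pos hij, if_pos hij]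
    subst hij
    have l0 := h i j
    rcases hr2' with ⟨rfl, hA⟩ | ⟨rfl, -⟩
    · rcases hr2 with ⟨rfl, -⟩ | ⟨rfl, hB⟩
      · linarith
      · by_contra hcon
        have e0 : F γ' i j = F γ i j := by
          rw [sub_zero, not_le, Int.sub_one_lt_iff] at hcon
          exact le_antisymm hcon l0
        apply hB
        clear hB hcon hr1 hr1'
        obtain ⟨n11, n12, n13, n14⟩ := nbr hγ (i, j)
        obtain ⟨n21, n22, n23, n24⟩ := nbr hγ' (i, j)
        rw [empty_iff, subset_iff] at hA ⊢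
        simp only at n11 n12 n13 n14 n21 n22 n23 n24 hA ⊢
        have l1 := h (i + 1) j
        have l2 := h (i - 1) j
        have l3 := h i (j + 1)
        have l4 := h i (j - 1)
        rcases hA with ⟨hs, a1, a2, a3, a4⟩ | ⟨hs, a1, a2, a3, a4⟩
        · rw [hs, a1] at n21
          rw [hs, a2] at n22
          rw [hs, a3] at n23
          rw [hs, a4] at n24
          rw [hs] at n11 n12 n13 n14
          refine Or.inl ⟨hs, ?_, ?_, ?_, ?_⟩
          · rcases hflip_ind_cases γ (true, i + 1, j) with c | c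
            · rw [c] at n11; linarith
            · exact c
          · rcases hflip_ind_cases γ (true, i, j) with c | c
            · rw [c] at n12; linarith
            · exact c
          · rcases hflip_ind_cases γ (false, i, j + 1) with c | c
            · rw [c] at n13; linarith
            · exact c
          · rcases hflip_ind_cases γ (false, i, j) with c | c
            · rw [c] at n14; linarith
            · exact c
        · rw [hs, a1] at n21
          rw [hs, a2] at n22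
          rw [hs, a3] at n23
          rw [hs, a4] at n24
          rw [hs] at n11 n12 n13 n14
          refine Or.inr ⟨hs, ?_, ?_, ?_, ?_⟩
          · rcases hflip_ind_cases γ (true, i + 1, j) with c | c
            · exact c
            · rw [c] at n11; linarith
          · rcases hflip_ind_cases γ (true, i, j) with c | c
            · exact c
            · rw [c] at n12; linarith
          · rcases hflip_ind_cases γ (false, i, j + 1) with c | c
            · exact c
            · rw [c] at n13; linarith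
          · rcases hflip_ind_cases γ (false, i, j) with c | c
            · exact c
            · rw [c] at n14; linarith
    · rcases hr2 with ⟨rfl, -⟩ | ⟨rfl, -⟩ <;> linarith
  · rw [if_neg hij, if_neg hij]
    simpa using h i j

/-- the probability of raising (times 2) -/
private def pu2 (lam : ℝ) (c : ℤ × ℤ) : ℝ := if sgn c.1 c.2 = 1 then lam else 1

/-- the probability of lowering (times 2) -/
private def pd2 (lam : ℝ) (c : ℤ × ℤ) : ℝ := if sgn c.1 c.2 = 1 then 1 else lam

private theorem rate_rep (lam : ℝ) (c : ℤ × ℤ) (γ : Finset Edge) (g : Finset Edge → ℝ) :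
    rate lam c γ * (g (flip c γ) - g γ) =
      pu2 lam c * (g (up c γ) - g γ) + pd2 lam c * (g (dn c γ) - g γ) := by
  unfold rate flip up dn pu2 pd2
  by_cases h1 : sq c ∩ γ = ∅
  · have h2 : ¬ sq c ⊆ γ := by
      intro h
      rw [Finset.inter_eq_left.mpr h] at h1
      exact hflip_nonempty c h1
    by_cases hs : sgn c.1 c.2 = 1
    · simp only [if_pos h1, if_neg h2, if_pos hs]
      ring
    · simp only [if_pos h1, if_neg h2, if_neg hs]
      ring
  · by_cases h2 : sq c ⊆ γ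
    · by_cases hs : sgn c.1 c.2 = 1
      · simp only [if_neg h1, if_pos h2, if_pos hs]
        ring
      · simp only [if_neg h1, if_pos h2, if_neg hs]
        ring
    · by_cases hs : sgn c.1 c.2 = 1
      · simp only [if_neg h1, if_neg h2, if_pos hs]
        ring
      · simp only [if_neg h1, if_neg h2, if_neg hs]
        ring

/-- the maps -/
private def TT (k : (ℤ × ℤ) × Fin 3) (γ : Finset Edge) : Finset Edge :=
  if k.2 = 0 then up k.1 γ else if k.2 = 1 then dn k.1 γ else γ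

/-- the weights -/
private def pp (lam : ℝ) (n : ℕ) (k : (ℤ × ℤ) × Fin 3) : ℝ :=
  (1 / (n : ℝ) ^ 2) * (if k.2 = 0 then pu2 lam k.1 / 2 else if k.2 = 1 then pd2 lam k.1 / 2
    else 1 - pu2 lam k.1 / 2 - pd2 lam k.1 / 2)

private theorem box_card (n : ℕ) : ((box n).card : ℝ) = (n : ℝ) ^ 2 := by
  unfold box
  rw [Finset.card_product, Int.card_Ico, sub_zero, Int.toNat_natCast]
  push_cast
  ring

private theorem TL_rep (n : ℕ) (hn : 1 ≤ n) (lam : ℝ) (g : Finset Edge → ℝ) (γ : Finset Edge) :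
    TL lam n g γ = ∑ k ∈ box n ×ˢ (Finset.univ : Finset (Fin 3)), pp lam n k * g (TT k γ) := by
  have hn0 : (n : ℝ) ≠ 0 := Nat.cast_ne_zero.2 (by omega)
  have hT : TL lam n g γ = (1 / 2 : ℝ) * (g γ + (g γ + (1 / (n : ℝ) ^ 2) *
      ∑ c ∈ box n, rate lam c γ * (g (flip c γ) - g γ))) := rfl
  rw [hT, Finset.sum_product]
  have h1 : ∀ c ∈ box n, ∑ k : Fin 3, pp lam n (c, k) * g (TT (c, k) γ) =
      (1 / (n : ℝ) ^ 2) * (g γ + (1 / 2) * (rate lam c γ * (g (flip c γ) - g γ))) := by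
    intro c _
    rw [Fin.sum_univ_three, rate_rep]
    simp only [pp, TT, if_true, Fin.isValue, one_ne_zero, if_false, Fin.reduceEq]
    ring
  rw [Finset.sum_congr rfl h1, ← Finset.mul_sum, Finset.sum_add_distrib, ← Finset.mul_sum,
    Finset.sum_const, nsmul_eq_mul, box_card]
  field_simp
  ring

theorem TL_compare (n : ℕ) (hn : 1 ≤ n) (lam : ℝ) (h0 : 0 ≤ lam) (h1 : lam ≤ 1) (ψ : Finset Edge → ℝ)
    (hψ : ∀ γ ∈ Om n, 0 ≤ ψ γ ∧ ψ γ ≤ 1) (t : ℕ) {γ γ' : Finset Edge} (hγ : γ ∈ Om n) (hγ' : γ' ∈ Om n)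
    (h : Le γ γ') :
    |((TL lam n) ^ t) ψ γ' - ((TL lam n) ^ t) ψ γ| ≤
      ((TL lam n) ^ t) (Phi n) γ' - ((TL lam n) ^ t) (Phi n) γ := by
  refine mono_compare (Om n) Le (box n ×ˢ (Finset.univ : Finset (Fin 3))) (pp lam n) ?_ TT ?_ ?_
    (TL lam n) (fun g x _ => TL_rep n hn lam g x) (Phi n) ?_ ψ hψ t γ hγ γ' hγ' h
  · rintro ⟨c, k⟩ _
    unfold pp pu2 pd2
    refine mul_nonneg (by positivity) ?_
    simp only
    split_ifs <;> linarith
  · rintro ⟨c, k⟩ hk x hx
    have hc := (Finset.mem_product.1 hk).1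
    unfold TT
    simp only at hc ⊢
    split_ifs
    · exact up_mem hc hx
    · exact dn_mem hc hx
    · exact hx
  · rintro ⟨c, k⟩ hk x hx y hy hxy
    have hc := (Finset.mem_product.1 hk).1
    unfold TT
    simp only at hc ⊢
    split_ifs
    · exact up_mono hc hx hy hxy
    · exact dn_mono hc hx hy hxy
    · exact hxy
  · intro x hx y hy hxy hne
    have h2 : ∃ i j, F x i j < F y i j := by
      by_contra hcon
      push Not at hcon
      exact hne (F_inj hx hy fun i j => le_antisymm (hxy i j) (hcon i j))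
    obtain ⟨i, j, hij⟩ := h2
    have hb : (i, j) ∈ box n := by
      by_contra hb
      rw [F_supp hx hb, F_supp hy hb] at hij
      exact lt_irrefl _ hij
    have h3 : ∑ z ∈ box n, F x z.1 z.2 < ∑ z ∈ box n, F y z.1 z.2 :=
      Finset.sum_lt_sum (fun z _ => hxy z.1 z.2) ⟨(i, j), hb, hij⟩
    have h4 : ((∑ z ∈ box n, F x z.1 z.2 : ℤ) : ℝ) + 1 ≤ ((∑ z ∈ box n, F y z.1 z.2 : ℤ) : ℝ) := by
      exact_mod_cast h3
    unfold Phi
    push_cast at h4
    exact h4

end

end Pool.Agent.H40.SQ
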