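import Mathlib
import Pool.Agent.H40.SQ.Defs
import Pool.Agent.H40.SQ.GBij
import Pool.Agent.H40.SQ.GSa

/-!
# GInt: interpolation along the polymer dynamics

`K = opK P r w ε`.  Fix `X ∈ St`.  `h X - K^m (h X) = ∑_{j<m} K^j (h X - K (h X))` as functions (telescoping, here `h X` is the
function `h X : Finset ι → ℝ` belonging to the start `X`).  For `Y ∈ St`:
`|h X Y - K (h X) Y| ≤ Δ Y := ε (∑_{κ∈Y} |Φ Y - Φ(Y∖κ)| + ∑_{κ∈Add Y} w κ |Φ(Y∪κ) - Φ Y|)` by `hh` (for the additions apply `hh` to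
`insert κ Y ∈ St`, `κ`).  `K` is positive (`opK_mono`, applied to `±`), so `|K^j (h X - K (h X)) Y| ≤ K^j Δ Y`.  Therefore
`∑_X W X |h X X - K^m (h X) X| ≤ ∑_{j<m} ∑_X W X K^j Δ X = m ∑_X W X Δ X` (invariance: `opK_sa` with the function `1`, `opK_one`).
By `sum_remove_eq_sum_add` (for `Ψ X Y = |Φ X - Φ Y|`) `∑ W Δ = 2 ε ∑_X ∑_{κ∈X} W X |Φ X - Φ(X∖κ)|
≤ 2 ε ∑_X ∑_{κ∈X} W X (|Φ X - c| + |Φ(X∖κ) - c|)`; the first part is `≤ 2 ε B ∑ W |Φ - c|`, the second is, again by the bijection,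
`2 ε ∑_Y ∑_{κ∈Add Y} W Y w κ |Φ Y - c| ≤ 2 ε (∑_P w) ∑ W |Φ - c|`.  Sum `≤ 2 ∑ W |Φ - c|` by `hεB`.
-/

set_option autoImplicit false

namespace Pool.Agent.H40.SQ

noncomputable section

variable {ι : Type} [DecidableEq ι]


theorem gas_interpolate (P : Finset ι) (r : ι → ι → Prop)
    (w : ι → ℝ) (hw : ∀ κ ∈ P, 0 ≤ w κ) (ε B : ℝ)
    (hε : 0 ≤ ε) (hB : ∀ X ∈ St P r, (X.card : ℝ) ≤ B) (hεB : ε * (B + ∑ κ ∈ P, w κ) ≤ 1)
    (Φ : Finset ι → ℝ) (c : ℝ) (h : Finset ι → Finset ι → ℝ)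
    (hh : ∀ X ∈ St P r, ∀ Y ∈ St P r, ∀ κ ∈ Y,
      |h X Y - h X (Y.erase κ)| ≤ |Φ Y - Φ (Y.erase κ)|) (m : ℕ) :
    ∑ X ∈ St P r, wt w X * |h X X - ((opK P r w ε) ^ m) (h X) X| ≤
      2 * m * ∑ X ∈ St P r, wt w X * |Φ X - c| := by
  set T := opK P r w ε with hT
  have hwt : ∀ Y ∈ St P r, 0 ≤ wt w Y := by
    intro Y hY
    exact Finset.prod_nonneg fun κ hκ => hw κ ((mem_St.1 hY).1 hκ)
  have hAP : ∀ Y, Add P r Y ⊆ P := fun Y κ hκ => (mem_Add.1 hκ).1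
  have hdom : ∀ (u v : Finset ι → ℝ), (∀ Y ∈ St P r, |u Y| ≤ v Y) → ∀ j : ℕ, ∀ Y ∈ St P r,
      |(T ^ j) u Y| ≤ (T ^ j) v Y := by
    intro u v huv j
    induction j with
    | zero => simpa using huv
    | succ j ih =>
      intro Y hY
      rw [pow_succ', Module.End.mul_apply, Module.End.mul_apply, abs_le]
      have h1 := opK_mono P r w hw ε B hε hB hεB (-((T ^ j) v)) ((T ^ j) u)
        (fun Z hZ => (abs_le.1 (ih Z hZ)).1) Y hY
      have h2 := opK_mono P r w hw ε B hε hB hεB ((T ^ j) u) ((T ^ j) v)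
        (fun Z hZ => (abs_le.1 (ih Z hZ)).2) Y hY
      rw [map_neg] at h1
      exact ⟨h1, h2⟩
  have hinv : ∀ (u : Finset ι → ℝ) (t : ℕ),
      ∑ X ∈ St P r, wt w X * (T ^ t) u X = ∑ X ∈ St P r, wt w X * u X := by
    intro u t
    induction t with
    | zero => simp
    | succ t ih =>
      rw [← ih, pow_succ', Module.End.mul_apply]
      have h1 := opK_sa P r w ε ((T ^ t) u) (fun _ => 1)
      rw [opK_one] at h1
      simpa using h1
  set Δ : Finset ι → ℝ := fun Y => ε * (∑ κ ∈ Y, |Φ Y - Φ (Y.erase κ)| +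
    ∑ κ ∈ Add P r Y, w κ * |Φ (insert κ Y) - Φ Y|) with hΔ
  have hΔb : ∀ X ∈ St P r, ∀ Y ∈ St P r, |(h X - T (h X)) Y| ≤ Δ Y := by
    intro X hX Y hY
    have h1 : (h X - T (h X)) Y = -(ε * (∑ κ ∈ Y, (h X (Y.erase κ) - h X Y)
      + ∑ κ ∈ Add P r Y, w κ * (h X (insert κ Y) - h X Y))) := by
      have h2 : T (h X) Y = h X Y + ε * (∑ κ ∈ Y, (h X (Y.erase κ) - h X Y)
        + ∑ κ ∈ Add P r Y, w κ * (h X (insert κ Y) - h X Y)) := rfl
      rw [Pi.sub_apply, h2]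
      ring
    rw [h1, abs_neg, abs_mul, abs_of_nonneg hε]
    refine mul_le_mul_of_nonneg_left ?_ hε
    refine (abs_add_le _ _).trans (add_le_add ?_ ?_)
    · refine (Finset.abs_sum_le_sum_abs _ _).trans (Finset.sum_le_sum fun κ hκ => ?_)
      rw [abs_sub_comm]
      exact hh X hX Y hY κ hκ
    · refine (Finset.abs_sum_le_sum_abs _ _).trans (Finset.sum_le_sum fun κ hκ => ?_)
      have hκP := hAP Y hκ
      rw [abs_mul, abs_of_nonneg (hw κ hκP)]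
      have h2 := hh X hX (insert κ Y) (insert_mem_St hY hκ) κ (Finset.mem_insert_self _ _)
      rw [Finset.erase_insert (mem_Add.1 hκ).2.1] at h2
      exact mul_le_mul_of_nonneg_left h2 (hw κ hκP)
  have htel : ∀ (u : Finset ι → ℝ) (Y : Finset ι), u Y - (T ^ m) u Y =
      ∑ j ∈ Finset.range m, (T ^ j) (u - T u) Y := by
    intro u Y
    have h1 : ∀ j, (T ^ j) (u - T u) Y = (T ^ j) u Y - (T ^ (j + 1)) u Y := by
      intro j
      rw [map_sub, Pi.sub_apply, pow_succ, Module.End.mul_apply]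
    simp only [h1]
    rw [Finset.sum_range_sub' (fun j => (T ^ j) u Y)]
    simp
  have hpt : ∀ X ∈ St P r, |h X X - (T ^ m) (h X) X| ≤ ∑ j ∈ Finset.range m, (T ^ j) Δ X := by
    intro X hX
    rw [htel]
    refine (Finset.abs_sum_le_sum_abs _ _).trans (Finset.sum_le_sum fun j _ => ?_)
    exact hdom _ _ (hΔb X hX) j X hX
  set N : ℝ := ∑ X ∈ St P r, wt w X * |Φ X - c| with hN
  have hN0 : 0 ≤ N := Finset.sum_nonneg fun X hX => mul_nonneg (hwt X hX) (abs_nonneg _)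
  set S1 : ℝ := ∑ X ∈ St P r, ∑ κ ∈ X, wt w X * |Φ X - Φ (X.erase κ)| with hS1
  have hS2 : S1 = ∑ Y ∈ St P r, ∑ κ ∈ Add P r Y, wt w Y * w κ * |Φ (insert κ Y) - Φ Y| :=
    sum_remove_eq_sum_add P r w (fun X Y => |Φ X - Φ Y|)
  have hWΔ : ∑ X ∈ St P r, wt w X * Δ X = 2 * ε * S1 := by
    have h1 : ∑ X ∈ St P r, wt w X * Δ X = ε * (S1 +
        ∑ Y ∈ St P r, ∑ κ ∈ Add P r Y, wt w Y * w κ * |Φ (insert κ Y) - Φ Y|) := by
      rw [hS1, ← Finset.sum_add_distrib, Finset.mul_sum]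
      refine Finset.sum_congr rfl fun X _ => ?_
      have h2 : ∑ κ ∈ X, wt w X * |Φ X - Φ (X.erase κ)| =
          wt w X * ∑ κ ∈ X, |Φ X - Φ (X.erase κ)| := by rw [Finset.mul_sum]
      have h3 : ∑ κ ∈ Add P r X, wt w X * w κ * |Φ (insert κ X) - Φ X| =
          wt w X * ∑ κ ∈ Add P r X, w κ * |Φ (insert κ X) - Φ X| := by
        rw [Finset.mul_sum]
        exact Finset.sum_congr rfl fun κ _ => by ring
      rw [h2, h3, hΔ]
      ring
    rw [h1, ← hS2]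
    ring
  have hS1b : S1 ≤ (B + ∑ κ ∈ P, w κ) * N := by
    have h1 : S1 ≤ ∑ X ∈ St P r, ∑ κ ∈ X, wt w X * |Φ X - c| +
        ∑ X ∈ St P r, ∑ κ ∈ X, wt w X * |Φ (X.erase κ) - c| := by
      rw [hS1, ← Finset.sum_add_distrib]
      refine Finset.sum_le_sum fun X hX => ?_
      rw [← Finset.sum_add_distrib]
      refine Finset.sum_le_sum fun κ _ => ?_
      rw [← mul_add]
      refine mul_le_mul_of_nonneg_left ?_ (hwt X hX)
      calc |Φ X - Φ (X.erase κ)| ≤ |Φ X - c| + |c - Φ (X.erase κ)| := abs_sub_le _ _ _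
        _ = _ := by rw [abs_sub_comm c]
    have h2 : ∑ X ∈ St P r, ∑ κ ∈ X, wt w X * |Φ X - c| ≤ B * N := by
      rw [hN, Finset.mul_sum]
      refine Finset.sum_le_sum fun X hX => ?_
      rw [Finset.sum_const, nsmul_eq_mul]
      exact mul_le_mul_of_nonneg_right (hB X hX) (mul_nonneg (hwt X hX) (abs_nonneg _))
    have h3 : ∑ X ∈ St P r, ∑ κ ∈ X, wt w X * |Φ (X.erase κ) - c| ≤ (∑ κ ∈ P, w κ) * N := by
      rw [sum_remove_eq_sum_add P r w (fun _ Y => |Φ Y - c|), hN, Finset.mul_sum]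
      refine Finset.sum_le_sum fun Y hY => ?_
      have h4 : ∑ κ ∈ Add P r Y, wt w Y * w κ * |Φ Y - c| =
          (∑ κ ∈ Add P r Y, w κ) * (wt w Y * |Φ Y - c|) := by
        rw [Finset.sum_mul]
        exact Finset.sum_congr rfl fun κ _ => by ring
      rw [h4]
      refine mul_le_mul_of_nonneg_right ?_ (mul_nonneg (hwt Y hY) (abs_nonneg _))
      exact Finset.sum_le_sum_of_subset_of_nonneg (hAP Y) fun κ hκ _ => hw κ hκ
    linarith
  have hfin : ∑ X ∈ St P r, wt w X * Δ X ≤ 2 * N := by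
    rw [hWΔ]
    have h1 := mul_le_mul_of_nonneg_left hS1b hε
    have h2 := mul_le_mul_of_nonneg_right hεB hN0
    nlinarith
  calc ∑ X ∈ St P r, wt w X * |h X X - (T ^ m) (h X) X|
      ≤ ∑ X ∈ St P r, wt w X * ∑ j ∈ Finset.range m, (T ^ j) Δ X :=
        Finset.sum_le_sum fun X hX => mul_le_mul_of_nonneg_left (hpt X hX) (hwt X hX)
    _ = ∑ j ∈ Finset.range m, ∑ X ∈ St P r, wt w X * (T ^ j) Δ X := by
        rw [Finset.sum_comm]
        exact Finset.sum_congr rfl fun X _ => by rw [Finset.mul_sum]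
    _ = ∑ j ∈ Finset.range m, ∑ X ∈ St P r, wt w X * Δ X :=
        Finset.sum_congr rfl fun j _ => hinv Δ j
    _ = m * ∑ X ∈ St P r, wt w X * Δ X := by
        rw [Finset.sum_const, nsmul_eq_mul, Finset.card_range]
    _ ≤ m * (2 * N) := mul_le_mul_of_nonneg_left hfin (Nat.cast_nonneg m)
    _ = 2 * m * N := by ring

end

end Pool.Agent.H40.SQ
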