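import Mathlib
import Pool.Agent.H40.SQ.Defs
import Pool.Agent.H40.SQ.AsVar
import Pool.Agent.H40.SQ.GInt
import Pool.Agent.H40.SQ.GOsc
import Pool.Agent.H40.SQ.CMon
import Pool.Agent.H40.SQ.PPair
import Pool.Agent.H40.SQ.CBig
import Pool.Agent.H40.SQ.LSum

/-!
# AsAvg: average-case mixing of the lazy chain

`W γ = q^γ.card`, `ε = 1/(2 (E n).card)`, `K = opK (Pol n ℓ) inc (q^card) ε`, `Φ_t = TL^t (Phi n)`, `c = mean q n (Phi n)`, `Zl = ∑_{X∈St} W (U X)`.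
For `γ ∈ Om n` not in the image of `U` on `St = St (Pol n ℓ) inc`: the summand is `≤ W γ` (both terms are in `[0,1]`: `TP_sup`), total `≤ (E n).card (18q)^(ℓ+1) Zn` (`big_bound`).
For `γ = U X`: let `h X Y = (TL^t)(ψ (U X)) (U Y)`, values in `[0,1]`.
(a) For `Y ∈ St`, `κ ∈ Y`: `U Y` and `U (Y.erase κ)` are comparable (`Pair.sign`, `F_union`), so by `TL_compare` `|h X Y - h X (Y.erase κ)| ≤ |Φ_t (U Y) - Φ_t (U (Y.erase κ))|`.
(b) `gas_interpolate` (`ε (B + ∑ w) ≤ 1` with `B = (E n).card`, `∑_{Pol} q^card ≤ (E n).card` as `18 q ≤ 1`, `animal_tail` with `m = 1` summed over edges): `∑_X W |h X X - K^m (h X) X| ≤ 2m ∑_X W |Φ_t(U X) - c| ≤ 2 m ∑_γ W |Φ_t - c| ≤ 2m sqrt(Zn) sqrt(∑ W (Φ_t - c)^2) ≤ 2 m Zn sqrt(...)` (`phi_var`).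
(c) `opK_osc` with `s = card`, `c = 1`, `θ = 1/2`, `D = (E n).card`: `|K^m (h X) X - μ(h X)| ≤ 2 (1 - 1/(4 (E n).card))^m (E n).card`, `μ(h X) = (∑_Y W h X Y)/Zl`.
(d) `|μ(h X) - mean q n ((TL^t) (ψ (U X)))| ≤ 2 (Zn - Zl)/Zn ≤ 2 (E n).card (18q)^(ℓ+1)` and `mean q n (TL^t ψ) = mean q n ψ` (`TP_sa`, `TP_const`).
Sum up (`∑_X W (U X) ≤ Zn`).
-/

set_option autoImplicit false

namespace Pool.Agent.H40.SQ

noncomputable section

/-- The error term. -/
def EL (n ℓ : ℕ) (q : ℝ) (t m : ℕ) : ℝ :=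
  2 * m * Real.sqrt (((1 - 1 / (AA n ℓ q + 1)) ^ t + DD n ℓ q) * (4 * (n : ℝ) ^ 6)) +
    2 * (1 - 1 / (4 * ((E n).card : ℝ))) ^ m * (E n).card + 3 * ((E n).card * (18 * q) ^ (ℓ + 1))

private theorem aa_Zn_pos (n : ℕ) (q : ℝ) (hq0 : 0 < q) : 0 < Zn q n := by
  unfold Zn
  refine Finset.sum_pos (fun γ _ => pow_pos hq0 _) ⟨∅, ?_⟩
  rw [mem_Om]
  refine ⟨Finset.empty_subset _, ?_⟩
  intro i j
  simp [ind]

private theorem aa_TL (n : ℕ) (lam : ℝ) (g : Finset Edge → ℝ) (γ : Finset Edge) :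
    TL lam n g γ = (1 / 2) * (g γ + TP lam n g γ) := by
  unfold TL
  simp only [LinearMap.smul_apply, LinearMap.add_apply, Pi.smul_apply, Pi.add_apply,
    LinearMap.id_apply, smul_eq_mul]

private theorem aa_range (n : ℕ) (lam : ℝ) (h0 : 0 ≤ lam) (h1 : lam ≤ 1) (g : Finset Edge → ℝ)
    (a b : ℝ) (hg : ∀ γ ∈ Om n, a ≤ g γ ∧ g γ ≤ b) (t : ℕ) :
    ∀ γ ∈ Om n, a ≤ ((TL lam n) ^ t) g γ ∧ ((TL lam n) ^ t) g γ ≤ b := by
  induction t with
  | zero => exact hg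
  | succ t ih =>
    intro γ hγ
    rw [pow_succ', Module.End.mul_apply, aa_TL]
    have h2 := TP_sup n lam h0 h1 _ a b ih γ hγ
    have h3 := ih γ hγ
    constructor
    · linarith [h2.1, h3.1]
    · linarith [h2.2, h3.2]

private theorem aa_mean_TL (n : ℕ) (q lam : ℝ) (hq : q ^ 4 = lam) (g : Finset Edge → ℝ) (t : ℕ) :
    mean q n (((TL lam n) ^ t) g) = mean q n g := by
  induction t with
  | zero => rfl
  | succ t ih =>
    rw [pow_succ', Module.End.mul_apply, ← ih]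
    set u := ((TL lam n) ^ t) g
    unfold mean
    congr 1
    have h1 : ∑ γ ∈ Om n, q ^ γ.card * TP lam n u γ = ∑ γ ∈ Om n, q ^ γ.card * u γ := by
      have h1 := TP_sa n q lam hq u (fun _ => 1)
      rw [TP_const] at h1
      simpa using h1
    have h2 : ∑ γ ∈ Om n, q ^ γ.card * TL lam n u γ = (1 / 2) * (∑ γ ∈ Om n, q ^ γ.card * u γ) +
        (1 / 2) * (∑ γ ∈ Om n, q ^ γ.card * TP lam n u γ) := by
      rw [Finset.mul_sum, Finset.mul_sum, ← Finset.sum_add_distrib]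
      refine Finset.sum_congr rfl fun γ _ => ?_
      rw [aa_TL]
      ring
    rw [h2, h1]
    ring

private theorem aa_polsum (n ℓ : ℕ) (q : ℝ) (hq0 : 0 < q) (hq1 : 18 * q ≤ 1) :
    ∑ κ ∈ Pol n ℓ, q ^ κ.card ≤ (E n).card := by
  classical
  have h1 : ∀ κ ∈ Pol n ℓ, q ^ κ.card ≤ ∑ e ∈ E n, if e ∈ κ then q ^ κ.card else 0 := by
    intro κ hκ
    obtain ⟨h3, ⟨e, he⟩, _⟩ := mem_Pol.1 hκ
    have h4 := Finset.single_le_sum (f := fun e => if e ∈ κ then q ^ κ.card else 0)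
      (fun b _ => by
        show (0 : ℝ) ≤ if b ∈ κ then q ^ κ.card else 0
        split_ifs
        · positivity
        · exact le_rfl) (h3 he)
    simp only [he, if_true] at h4
    exact h4
  refine (Finset.sum_le_sum h1).trans ?_
  rw [Finset.sum_comm]
  have h2 : ∀ e ∈ E n, ∑ κ ∈ Pol n ℓ, (if e ∈ κ then q ^ κ.card else 0) ≤ 1 := by
    intro e _
    rw [← Finset.sum_filter]
    have h5 := animal_tail (E n) e ((Pol n ℓ).filter (fun κ => e ∈ κ)) (by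
      intro κ hκ
      obtain ⟨h3, h4⟩ := Finset.mem_filter.1 hκ
      obtain ⟨h6, _, h7, _⟩ := mem_Pol.1 h3
      exact ⟨h6, h4, h7⟩) q hq0.le hq1 0 (fun κ _ => Nat.zero_le _)
    rw [pow_zero] at h5
    exact h5
  refine (Finset.sum_le_sum h2).trans (le_of_eq ?_)
  rw [Finset.sum_const, nsmul_eq_mul, mul_one]

private theorem aa_AA (n ℓ : ℕ) (q : ℝ) (hq0 : 0 < q) : 0 ≤ AA n ℓ q := by
  unfold AA; positivity

private theorem aa_DD (n ℓ : ℕ) (q : ℝ) (hq0 : 0 < q) : 0 ≤ DD n ℓ q := by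
  unfold DD; positivity

private theorem aa_l1 (n ℓ : ℕ) (hn : 1 ≤ n) (q lam : ℝ) (hq : q ^ 4 = lam) (hq0 : 0 < q)
    (hq1 : q ≤ 1 / 1000) (t : ℕ) :
    ∑ γ ∈ Om n, q ^ γ.card * |((TL lam n) ^ t) (Phi n) γ - mean q n (Phi n)| ≤
      Real.sqrt (((1 - 1 / (AA n ℓ q + 1)) ^ t + DD n ℓ q) * (4 * (n : ℝ) ^ 6)) * Zn q n := by
  have hZ := aa_Zn_pos n q hq0
  have hA := aa_AA n ℓ q hq0
  have hD := aa_DD n ℓ q hq0
  set V : ℝ := ((1 - 1 / (AA n ℓ q + 1)) ^ t + DD n ℓ q) * (4 * (n : ℝ) ^ 6) with hV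
  have hV0 : 0 ≤ V := by
    have h1 : 1 / (AA n ℓ q + 1) ≤ 1 := by
      rw [div_le_one (by linarith)]
      linarith
    have h2 : 0 ≤ (1 - 1 / (AA n ℓ q + 1)) ^ t := pow_nonneg (by linarith) t
    rw [hV]
    positivity
  have hvar := phi_var n ℓ hn q lam hq hq0 hq1 t
  rw [← hV] at hvar
  have hcs := Finset.sum_sq_le_sum_mul_sum_of_sq_eq_mul (Om n)
    (r := fun γ => q ^ γ.card * |((TL lam n) ^ t) (Phi n) γ - mean q n (Phi n)|)
    (f := fun γ => q ^ γ.card)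
    (g := fun γ => q ^ γ.card * (((TL lam n) ^ t) (Phi n) γ - mean q n (Phi n)) ^ 2)
    (fun γ _ => (pow_pos hq0 _).le)
    (fun γ _ => mul_nonneg (pow_pos hq0 _).le (sq_nonneg _))
    (fun γ _ => by
      rw [mul_pow, sq_abs]
      ring)
  have h3 : (∑ γ ∈ Om n, q ^ γ.card * |((TL lam n) ^ t) (Phi n) γ - mean q n (Phi n)|) ^ 2 ≤
      (Real.sqrt V * Zn q n) ^ 2 := by
    refine hcs.trans ?_
    rw [mul_pow, Real.sq_sqrt hV0]
    have h4 : (∑ γ ∈ Om n, q ^ γ.card) *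
        ∑ γ ∈ Om n, q ^ γ.card * (((TL lam n) ^ t) (Phi n) γ - mean q n (Phi n)) ^ 2 ≤
        Zn q n * (V * Zn q n) := mul_le_mul_of_nonneg_left hvar hZ.le
    refine h4.trans (le_of_eq ?_)
    ring
  exact (pow_le_pow_iff_left₀ (Finset.sum_nonneg fun γ _ =>
    mul_nonneg (pow_pos hq0 _).le (abs_nonneg _))
    (mul_nonneg (Real.sqrt_nonneg _) hZ.le) two_ne_zero).1 h3

/-- comparison of the mean over a subset of almost full weight -/
private theorem aa_mean_sub {α : Type} [DecidableEq α] (A B : Finset α) (hAB : A ⊆ B) (W g : α → ℝ)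
    (hW : ∀ x ∈ B, 0 ≤ W x) (hA : 0 < ∑ x ∈ A, W x) (hg : ∀ x ∈ B, 0 ≤ g x ∧ g x ≤ 1) (δ : ℝ)
    (hδ : ∑ x ∈ B, W x - ∑ x ∈ A, W x ≤ δ * ∑ x ∈ B, W x) :
    |(∑ x ∈ A, W x * g x) / (∑ x ∈ A, W x) - (∑ x ∈ B, W x * g x) / (∑ x ∈ B, W x)| ≤ δ := by
  set ZA := ∑ x ∈ A, W x with hZA
  set ZB := ∑ x ∈ B, W x with hZB
  set a := ∑ x ∈ A, W x * g x with ha
  set b := ∑ x ∈ B, W x * g x with hb
  have hle : ZA ≤ ZB := Finset.sum_le_sum_of_subset_of_nonneg hAB (fun x hx _ => hW x hx)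
  have hB : 0 < ZB := lt_of_lt_of_le hA hle
  have hab : a ≤ b := Finset.sum_le_sum_of_subset_of_nonneg hAB
    (fun x hx _ => mul_nonneg (hW x hx) (hg x hx).1)
  have ha0 : 0 ≤ a := Finset.sum_nonneg fun x hx => mul_nonneg (hW x (hAB hx)) (hg x (hAB hx)).1
  have haZ : a ≤ ZA := by
    refine Finset.sum_le_sum fun x hx => ?_
    have := mul_le_mul_of_nonneg_left (hg x (hAB hx)).2 (hW x (hAB hx))
    linarith
  have hba : b - a ≤ ZB - ZA := by
    have h1 : ∑ x ∈ B \ A, W x * g x = b - a := by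
      rw [hb, ha, ← Finset.sum_sdiff hAB]
      ring
    have h2 : ∑ x ∈ B \ A, W x = ZB - ZA := by
      rw [hZB, hZA, ← Finset.sum_sdiff hAB]
      ring
    rw [← h1, ← h2]
    refine Finset.sum_le_sum fun x hx => ?_
    have hx' := (Finset.mem_sdiff.1 hx).1
    have := mul_le_mul_of_nonneg_left (hg x hx').2 (hW x hx')
    linarith
  have hd : (ZB - ZA) / ZB ≤ δ := by
    rw [div_le_iff₀ hB]
    exact hδ
  rw [abs_le]
  constructor
  · have h1 : a / ZB ≤ a / ZA := div_le_div_of_nonneg_left ha0 hA hle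
    have h2 : b / ZB - a / ZB ≤ (ZB - ZA) / ZB := by
      rw [← sub_div]
      exact div_le_div_of_nonneg_right hba hB.le
    linarith
  · have h1 : a / ZB ≤ b / ZB := div_le_div_of_nonneg_right hab hB.le
    have h2 : a / ZA - a / ZB ≤ (ZB - ZA) / ZB := by
      have h3 : a / ZA - a / ZB = (a / ZA) * ((ZB - ZA) / ZB) := by
        field_simp
      rw [h3]
      have h4 : a / ZA ≤ 1 := by
        rw [div_le_one hA]
        exact haZ
      have h5 : 0 ≤ (ZB - ZA) / ZB := div_nonneg (by linarith) hB.le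
      have := mul_le_mul_of_nonneg_right h4 h5
      linarith
    linarith

private theorem aa_pair {n ℓ : ℕ} (hn : 1 ≤ n) (lam : ℝ) (h0 : 0 ≤ lam) (h1 : lam ≤ 1)
    (ψ : Finset Edge → ℝ) (hψ : ∀ γ ∈ Om n, 0 ≤ ψ γ ∧ ψ γ ≤ 1) (t : ℕ)
    {Y : Finset (Finset Edge)} (hY : Y ∈ St (Pol n ℓ) inc) {κ : Finset Edge} (hκ : κ ∈ Y) :
    |((TL lam n) ^ t) ψ (U Y) - ((TL lam n) ^ t) ψ (U (Y.erase κ))| ≤
      |((TL lam n) ^ t) (Phi n) (U Y) - ((TL lam n) ^ t) (Phi n) (U (Y.erase κ))| := by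
  have hp := pair_of_mem hY hκ
  have hF : ∀ i j, F (U Y) i j = F (U (Y.erase κ)) i j + F κ i j := by
    intro i j
    rw [hp.eq, F_union hp.disj]
  rcases hp.sign with hs | hs
  · have hle : Le (U (Y.erase κ)) (U Y) := by
      intro i j
      rw [hF]
      rcases hs i j with h | h <;> omega
    exact (TL_compare n hn lam h0 h1 ψ hψ t hp.hY hp.hX hle).trans (le_abs_self _)
  · have hle : Le (U Y) (U (Y.erase κ)) := by
      intro i j
      rw [hF]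
      rcases hs i j with h | h <;> omega
    rw [abs_sub_comm, abs_sub_comm (((TL lam n) ^ t) (Phi n) (U Y))]
    exact (TL_compare n hn lam h0 h1 ψ hψ t hp.hX hp.hY hle).trans (le_abs_self _)

theorem avg_L (n ℓ : ℕ) (hn : 1 ≤ n) (q lam : ℝ) (hq : q ^ 4 = lam) (hq0 : 0 < q) (hq1 : q ≤ 1 / 1000) (t m : ℕ)
    (ψ : Finset Edge → Finset Edge → ℝ) (hψ : ∀ γ ∈ Om n, ∀ η ∈ Om n, 0 ≤ ψ γ η ∧ ψ γ η ≤ 1) :
    ∑ γ ∈ Om n, q ^ γ.card * |((TL lam n) ^ t) (ψ γ) γ - mean q n (ψ γ)| ≤ EL n ℓ q t m * Zn q n := by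
  classical
  have hZ := aa_Zn_pos n q hq0
  have hlam0 : 0 ≤ lam := by rw [← hq]; positivity
  have hlam1 : lam ≤ 1 := by
    rw [← hq]
    exact pow_le_one₀ hq0.le (by linarith)
  have hpw : ∀ k : ℕ, 0 < q ^ k := fun k => pow_pos hq0 k
  set S := St (Pol n ℓ) inc with hS
  set w : Finset Edge → ℝ := fun κ => q ^ κ.card with hw
  set e : ℝ := ((E n).card : ℝ) with he
  set δ : ℝ := e * (18 * q) ^ (ℓ + 1) with hδdef
  have hδ0 : 0 ≤ δ := by rw [hδdef]; positivity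
  have hcard1 : ∀ κ ∈ Pol n ℓ, 1 ≤ κ.card := fun κ hκ =>
    Finset.card_pos.2 (mem_Pol.1 hκ).2.1
  have he1 : 1 ≤ e := by
    have h1 : (false, (0 : ℤ), (0 : ℤ)) ∈ E n := by
      unfold E
      rw [Finset.mem_biUnion]
      refine ⟨(0, 0), ?_, by simp [sq]⟩
      unfold box
      simp
      omega
    have h2 : 1 ≤ (E n).card := Finset.card_pos.2 ⟨_, h1⟩
    rw [he]
    exact_mod_cast h2
  have he0 : 0 < e := by linarith
  have himg : S.image U ⊆ Om n := by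
    intro γ hγ
    obtain ⟨X, hX, rfl⟩ := Finset.mem_image.1 hγ
    exact U_mem hX
  have hsumU : ∀ f : Finset Edge → ℝ, ∑ γ ∈ S.image U, f γ = ∑ X ∈ S, f (U X) := fun f =>
    Finset.sum_image (fun X hX Y hY h => U_inj hX hY h)
  have hwt : ∀ X ∈ S, wt w X = q ^ (U X).card := fun X hX => U_wt hX q
  have hempty : (∅ : Finset (Finset Edge)) ∈ S := by
    rw [hS, mem_St]
    exact ⟨Finset.empty_subset _, fun a ha => absurd ha (Finset.notMem_empty a)⟩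
  have hZl0 : 0 < ∑ γ ∈ S.image U, q ^ γ.card := by
    rw [hsumU]
    exact Finset.sum_pos (fun X _ => hpw _) ⟨∅, hempty⟩
  have hbig := big_bound n ℓ q hq0 (by linarith : 18 * q ≤ 1)
  have hfil1 : (Om n).filter (fun γ => γ ∈ S.image U) = S.image U := by
    ext γ
    rw [Finset.mem_filter]
    exact ⟨fun h => h.2, fun h => ⟨himg h, h⟩⟩
  have hsplit : ∀ f : Finset Edge → ℝ, ∑ γ ∈ Om n, f γ = ∑ X ∈ S, f (U X) +
      ∑ γ ∈ (Om n).filter (fun γ => γ ∉ S.image U), f γ := by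
    intro f
    rw [← Finset.sum_filter_add_sum_filter_not (Om n) (fun γ => γ ∈ S.image U), hfil1, hsumU]
  have hZsplit : Zn q n - ∑ γ ∈ S.image U, q ^ γ.card ≤ δ * Zn q n := by
    have h1 := hsplit (fun γ => q ^ γ.card)
    rw [hsumU]
    have h2 : Zn q n = ∑ γ ∈ Om n, q ^ γ.card := rfl
    rw [h2, h1]
    have h3 : ∑ γ ∈ (Om n).filter (fun γ => γ ∉ S.image U), q ^ γ.card ≤
        δ * ∑ γ ∈ Om n, q ^ γ.card := hbig
    rw [h1] at h3
    linarith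
  have hZlZ : ∑ X ∈ S, q ^ (U X).card ≤ Zn q n := by
    rw [← hsumU (fun γ => q ^ γ.card)]
    exact Finset.sum_le_sum_of_subset_of_nonneg himg (fun γ _ _ => (hpw _).le)
  -- ranges
  have hrange : ∀ γ ∈ Om n, ∀ η ∈ Om n, 0 ≤ ((TL lam n) ^ t) (ψ γ) η ∧
      ((TL lam n) ^ t) (ψ γ) η ≤ 1 := fun γ hγ =>
    aa_range n lam hlam0 hlam1 (ψ γ) 0 1 (hψ γ hγ) t
  have hmean01 : ∀ γ ∈ Om n, 0 ≤ mean q n (ψ γ) ∧ mean q n (ψ γ) ≤ 1 := by
    intro γ hγ
    unfold mean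
    constructor
    · exact div_nonneg (Finset.sum_nonneg fun η hη => mul_nonneg (hpw _).le (hψ γ hγ η hη).1) hZ.le
    · rw [div_le_one hZ]
      refine Finset.sum_le_sum fun η hη => ?_
      have := mul_le_mul_of_nonneg_left (hψ γ hγ η hη).2 (hpw η.card).le
      linarith
  -- the rest
  have hrest : ∑ γ ∈ (Om n).filter (fun γ => γ ∉ S.image U),
      q ^ γ.card * |((TL lam n) ^ t) (ψ γ) γ - mean q n (ψ γ)| ≤ δ * Zn q n := by
    refine le_trans (Finset.sum_le_sum fun γ hγ => ?_) hbig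
    have hγ' := (Finset.mem_filter.1 hγ).1
    have h1 : |((TL lam n) ^ t) (ψ γ) γ - mean q n (ψ γ)| ≤ 1 := by
      have h2 := hrange γ hγ' γ hγ'
      have h3 := hmean01 γ hγ'
      rw [abs_le]
      constructor
      · linarith [h2.1, h3.2]
      · linarith [h2.2, h3.1]
    have := mul_le_mul_of_nonneg_left h1 (hpw γ.card).le
    linarith
  -- the polymer dynamics
  set ε : ℝ := 1 / (2 * e) with hε
  have hε0 : 0 ≤ ε := by rw [hε]; positivity
  have hε1 : ε ≤ 1 := by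
    rw [hε, div_le_one (by positivity)]
    linarith
  have hXcard : ∀ X ∈ S, (X.card : ℝ) ≤ e := by
    intro X hX
    have h1 : X.card ≤ (U X).card := by
      rw [U_card hX, Finset.card_eq_sum_ones]
      exact Finset.sum_le_sum fun κ hκ => hcard1 κ ((mem_St.1 hX).1 hκ)
    have h2 := h1.trans (Finset.card_le_card (mem_Om.1 (U_mem hX)).1)
    rw [he]
    exact_mod_cast h2
  have hDsum : ∀ X ∈ S, ∑ κ ∈ X, (κ.card : ℝ) ≤ e := by
    intro X hX
    have h2 := Finset.card_le_card (mem_Om.1 (U_mem hX)).1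
    rw [U_card hX] at h2
    rw [he]
    exact_mod_cast h2
  have hεB : ε * (e + ∑ κ ∈ Pol n ℓ, w κ) ≤ 1 := by
    have h1 := aa_polsum n ℓ q hq0 (by linarith : 18 * q ≤ 1)
    rw [hε, div_mul_eq_mul_div, one_mul, div_le_one (by positivity)]
    linarith
  have hint := gas_interpolate (Pol n ℓ) inc w (fun κ _ => (hpw _).le) ε e hε0 hXcard hεB
    (fun Y => ((TL lam n) ^ t) (Phi n) (U Y)) (mean q n (Phi n))
    (fun X Y => ((TL lam n) ^ t) (ψ (U X)) (U Y))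
    (fun X hX Y hY κ hκ => aa_pair hn lam hlam0 hlam1 (ψ (U X)) (hψ (U X) (U_mem hX)) t hY hκ) m
  have hl1 := aa_l1 n ℓ hn q lam hq hq0 hq1 t
  set V : ℝ := ((1 - 1 / (AA n ℓ q + 1)) ^ t + DD n ℓ q) * (4 * (n : ℝ) ^ 6) with hV
  have hΦ : ∑ X ∈ S, wt w X * |((TL lam n) ^ t) (Phi n) (U X) - mean q n (Phi n)| ≤
      Real.sqrt V * Zn q n := by
    refine le_trans (le_of_eq ?_) ((Finset.sum_le_sum_of_subset_of_nonneg himg
      (fun γ _ _ => mul_nonneg (hpw _).le (abs_nonneg _))).trans hl1)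
    rw [hsumU]
    exact Finset.sum_congr rfl fun X hX => by rw [hwt X hX]
  -- oscillation
  have hosc : ∀ X ∈ S, |((opK (Pol n ℓ) inc w ε) ^ m) (fun Y => ((TL lam n) ^ t) (ψ (U X)) (U Y)) X -
      (∑ Y ∈ S, wt w Y * ((TL lam n) ^ t) (ψ (U X)) (U Y)) / (∑ Y ∈ S, wt w Y)| ≤
        2 * (1 - 1 / (4 * e)) ^ m * e := by
    intro X hX
    have h1 := opK_osc (Pol n ℓ) inc
      (by rintro a b ⟨x, hx, y, hy, hxy⟩; exact ⟨y, hy, x, hx, tch_symm hxy⟩)
      (by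
        intro a ha
        obtain ⟨x, hx⟩ := (mem_Pol.1 ha).2.1
        exact ⟨x, hx, x, hx, tch_refl x⟩)
      w (fun κ => (κ.card : ℝ)) (fun κ _ => hpw _) (fun κ _ => Nat.cast_nonneg _)
      (1 / 2) (by norm_num) (by norm_num)
      (fun κ hκ Q hQ hQ' => pol_theta n ℓ q hq0 hq1 κ hκ Q hQ hQ')
      ε e hε0 hε1 hXcard hεB e hDsum
      (fun Y => ((TL lam n) ^ t) (ψ (U X)) (U Y)) 1 zero_le_one
      (by
        intro Y hY κ hκ
        have h2 := hrange (U X) (U_mem hX) (U Y) (U_mem hY)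
        have h3 := hrange (U X) (U_mem hX) (U (Y.erase κ)) (U_mem (erase_mem_St hY κ))
        have h4 : (1 : ℝ) ≤ κ.card := by exact_mod_cast hcard1 κ ((mem_St.1 hY).1 hκ)
        rw [one_mul, abs_le]
        constructor
        · linarith [h2.1, h3.2]
        · linarith [h2.2, h3.1]) m X hX
    refine h1.trans (le_of_eq ?_)
    have h2 : 1 - ε * (1 - 1 / 2) = 1 - 1 / (4 * e) := by
      rw [hε]
      field_simp
      ring
    rw [h2]
    ring
  -- the mean over the image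
  have hmeanX : ∀ X ∈ S, |(∑ Y ∈ S, wt w Y * ((TL lam n) ^ t) (ψ (U X)) (U Y)) / (∑ Y ∈ S, wt w Y) -
      mean q n (ψ (U X))| ≤ δ := by
    intro X hX
    have h1 := aa_mean_sub (S.image U) (Om n) himg (fun γ => q ^ γ.card)
      (((TL lam n) ^ t) (ψ (U X))) (fun γ _ => (hpw _).le) hZl0
      (hrange (U X) (U_mem hX)) δ hZsplit
    rw [← aa_mean_TL n q lam hq (ψ (U X)) t]
    have h2 : ∑ Y ∈ S, wt w Y * ((TL lam n) ^ t) (ψ (U X)) (U Y) =
        ∑ γ ∈ S.image U, q ^ γ.card * ((TL lam n) ^ t) (ψ (U X)) γ := by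
      rw [hsumU]
      exact Finset.sum_congr rfl fun Y hY => by rw [hwt Y hY]
    have h3 : ∑ Y ∈ S, wt w Y = ∑ γ ∈ S.image U, q ^ γ.card := by
      rw [hsumU]
      exact Finset.sum_congr rfl fun Y hY => hwt Y hY
    rw [h2, h3]
    exact h1
  -- the image
  have himage : ∑ X ∈ S, q ^ (U X).card *
      |((TL lam n) ^ t) (ψ (U X)) (U X) - mean q n (ψ (U X))| ≤
      (2 * m * Real.sqrt V + (2 * (1 - 1 / (4 * e)) ^ m * e + δ)) * Zn q n := by
    have h1 : ∀ X ∈ S, q ^ (U X).card *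
        |((TL lam n) ^ t) (ψ (U X)) (U X) - mean q n (ψ (U X))| ≤
        wt w X * |((TL lam n) ^ t) (ψ (U X)) (U X) -
          ((opK (Pol n ℓ) inc w ε) ^ m) (fun Y => ((TL lam n) ^ t) (ψ (U X)) (U Y)) X| +
        (2 * (1 - 1 / (4 * e)) ^ m * e + δ) * q ^ (U X).card := by
      intro X hX
      rw [hwt X hX]
      have h2 := hosc X hX
      have h3 := hmeanX X hX
      have h4 : |((TL lam n) ^ t) (ψ (U X)) (U X) - mean q n (ψ (U X))| ≤
          |((TL lam n) ^ t) (ψ (U X)) (U X) -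
            ((opK (Pol n ℓ) inc w ε) ^ m) (fun Y => ((TL lam n) ^ t) (ψ (U X)) (U Y)) X| +
          (2 * (1 - 1 / (4 * e)) ^ m * e + δ) := by
        have h5 := abs_sub_le (((TL lam n) ^ t) (ψ (U X)) (U X))
          (((opK (Pol n ℓ) inc w ε) ^ m) (fun Y => ((TL lam n) ^ t) (ψ (U X)) (U Y)) X)
          (mean q n (ψ (U X)))
        have h6 := abs_sub_le
          (((opK (Pol n ℓ) inc w ε) ^ m) (fun Y => ((TL lam n) ^ t) (ψ (U X)) (U Y)) X)
          ((∑ Y ∈ S, wt w Y * ((TL lam n) ^ t) (ψ (U X)) (U Y)) / (∑ Y ∈ S, wt w Y))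
          (mean q n (ψ (U X)))
        linarith
      have h7 := mul_le_mul_of_nonneg_left h4 (hpw (U X).card).le
      linarith
    refine (Finset.sum_le_sum h1).trans ?_
    rw [Finset.sum_add_distrib, ← Finset.mul_sum]
    have h2 : 0 ≤ 2 * (1 - 1 / (4 * e)) ^ m * e + δ := by
      have h3 : 0 ≤ 1 - 1 / (4 * e) := by
        have : 1 / (4 * e) ≤ 1 := by
          rw [div_le_one (by positivity)]
          linarith
        linarith
      have h4 := pow_nonneg h3 m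
      positivity
    have h3 := mul_le_mul_of_nonneg_left hZlZ h2
    have h4 : 2 * (m : ℝ) * ∑ X ∈ S, wt w X * |((TL lam n) ^ t) (Phi n) (U X) - mean q n (Phi n)| ≤
        2 * (m : ℝ) * (Real.sqrt V * Zn q n) := mul_le_mul_of_nonneg_left hΦ (by positivity)
    have h5 := hint.trans h4
    linarith
  rw [hsplit (fun γ => q ^ γ.card * |((TL lam n) ^ t) (ψ γ) γ - mean q n (ψ γ)|)]
  have hEL : EL n ℓ q t m = 2 * m * Real.sqrt V + 2 * (1 - 1 / (4 * e)) ^ m * e + 3 * δ := rfl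
  rw [hEL]
  have h9 : 0 ≤ δ * Zn q n := mul_nonneg hδ0 hZ.le
  linarith

end

end Pool.Agent.H40.SQ
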