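import Mathlib
import Pool.Agent.H40.SQ.Defs
import Pool.Agent.H40.SQ.CSa
import Pool.Agent.H40.SQ.HStep

/-!
# CHold: uniform holding probability for `n ≥ 2`

In every `γ ∈ Om n` at least one of the squares `(0,0)`, `(1,0)` is not contained in `γ`: otherwise `(false,0,0), (false,1,0) ∈ γ` and the vertex condition at `(1,0)` reads `2 = ind (true,1,-1) + ind (true,1,0) ≤ 0 + 1` (`(true,1,-1) ∉ E n`).  Let `c0` be such a square, `a = (1-lam)/n^2`.
`TP g γ = (1 - ∑_{c: flip c γ ≠ γ} rate/n^2) g γ + ∑_{c : flip c γ ≠ γ} (rate/n^2) g(flip c γ)`, where `c0` contributes at most `lam/n^2` to the sum (if `flip c0 γ ≠ γ` then `sq c0 ∩ γ = ∅`, rate `lam`) and the others at most `(n^2-1)/n^2`; so the coefficient of `g γ` is `≥ a`.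
`Q = (TP - a)/(1-a)` is then an average: `|Q g γ| ≤ B`.
-/

set_option autoImplicit false

namespace Pool.Agent.H40.SQ

noncomputable section

theorem chold_sq (n : ℕ) (hn : 2 ≤ n) {γ : Finset Edge} (hγ : γ ∈ Om n) :
    ∃ c ∈ box n, ¬ sq c ⊆ γ := by
  have hb0 : ((0 : ℤ), (0 : ℤ)) ∈ box n := by
    simp only [box, Finset.mem_product, Finset.mem_Ico]
    omega
  have hb1 : ((1 : ℤ), (0 : ℤ)) ∈ box n := by
    simp only [box, Finset.mem_product, Finset.mem_Ico]
    omega
  by_contra hcon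
  push Not at hcon
  have h0 := hcon _ hb0
  have h1 := hcon _ hb1
  have e0 : (false, (0 : ℤ), (0 : ℤ)) ∈ γ := h0 (by simp [sq])
  have e1 : (false, (1 : ℤ), (0 : ℤ)) ∈ γ := h1 (by simp [sq])
  have e2 : (true, (1 : ℤ), (-1 : ℤ)) ∉ γ := by
    intro h
    have h2 := mem_E_true.1 ((mem_Om.1 hγ).1 h)
    omega
  have hv := (mem_Om.1 hγ).2 1 0
  have i0 : ind γ (false, (1 : ℤ) - 1, (0 : ℤ)) = 1 := by
    unfold ind
    rw [if_pos]
    simpa using e0
  have i1 : ind γ (false, (1 : ℤ), (0 : ℤ)) = 1 := by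
    unfold ind
    rw [if_pos e1]
  have i2 : ind γ (true, (1 : ℤ), (0 : ℤ) - 1) = 0 := by
    unfold ind
    rw [if_neg]
    simpa using e2
  have i3 : ind γ (true, (1 : ℤ), (0 : ℤ)) ≤ 1 := by
    unfold ind
    split_ifs <;> norm_num
  rw [i0, i1, i2] at hv
  omega

theorem TP_hold (n : ℕ) (hn : 2 ≤ n) (lam : ℝ) (h0 : 0 ≤ lam) (h1 : lam < 1) :
    ∃ Q : (Finset Edge → ℝ) →ₗ[ℝ] (Finset Edge → ℝ),
      TP lam n = ((1 - lam) / (n : ℝ) ^ 2) • LinearMap.id + (1 - (1 - lam) / (n : ℝ) ^ 2) • Q ∧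
      ∀ (g : Finset Edge → ℝ) (B : ℝ), (∀ γ ∈ Om n, |g γ| ≤ B) → ∀ γ ∈ Om n, |Q g γ| ≤ B := by
  have hn0 : (0 : ℝ) < (n : ℝ) ^ 2 := by
    have : (0 : ℝ) < n := by exact_mod_cast (by omega : 0 < n)
    positivity
  have hn4 : (4 : ℝ) ≤ (n : ℝ) ^ 2 := by
    have : (2 : ℝ) ≤ n := by exact_mod_cast hn
    nlinarith
  set a : ℝ := (1 - lam) / (n : ℝ) ^ 2 with ha
  have ha1 : a < 1 := by
    rw [ha, div_lt_one hn0]
    linarith
  have h1a : 0 < 1 - a := by linarith
  refine ⟨(1 / (1 - a)) • (TP lam n - a • LinearMap.id), ?_, ?_⟩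
  · rw [smul_smul, mul_one_div_cancel h1a.ne', one_smul]
    abel
  · intro g B hB γ hγ
    have hval : ((1 / (1 - a)) • (TP lam n - a • LinearMap.id) :
        (Finset Edge → ℝ) →ₗ[ℝ] (Finset Edge → ℝ)) g γ =
        (1 / (1 - a)) * (TP lam n g γ - a * g γ) := rfl
    rw [hval, abs_mul, abs_of_pos (by positivity), one_div, inv_mul_le_iff₀ h1a]
    obtain ⟨c0, hc0, hs0⟩ := chold_sq n hn hγ
    classical
    set r : ℤ × ℤ → ℝ := fun c => if flip c γ = γ then 0 else rate lam c γ with hr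
    have hr0 : ∀ c, 0 ≤ r c := by
      intro c
      simp only [hr]
      split_ifs
      · exact le_refl 0
      · exact csa_rate_nonneg lam h0 c γ
    have hr1 : ∀ c, r c ≤ 1 := by
      intro c
      simp only [hr]
      split_ifs
      · exact zero_le_one
      · exact csa_rate_le lam h1.le c γ
    have hrc0 : r c0 ≤ lam := by
      simp only [hr]
      split_ifs with h
      · exact h0
      · unfold rate
        rw [if_pos]
        by_contra hcon
        apply h
        unfold flip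
        rw [if_neg hcon, if_neg hs0]
    have hsum : ∑ c ∈ box n, r c ≤ (n : ℝ) ^ 2 - (1 - lam) := by
      rw [← Finset.add_sum_erase _ _ hc0]
      have h2 : ∑ c ∈ (box n).erase c0, r c ≤ ((box n).erase c0).card • (1 : ℝ) :=
        Finset.sum_le_card_nsmul _ _ _ fun c _ => hr1 c
      rw [nsmul_eq_mul, mul_one] at h2
      have h3 : (((box n).erase c0).card : ℝ) + 1 = (n : ℝ) ^ 2 := by
        rw [← csa_box_card, ← Finset.card_erase_add_one hc0]
        push_cast
        ring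
      linarith
    have hTP : TP lam n g γ - a * g γ =
        (1 - a - (1 / (n : ℝ) ^ 2) * ∑ c ∈ box n, r c) * g γ +
        (1 / (n : ℝ) ^ 2) * ∑ c ∈ box n, r c * g (flip c γ) := by
      rw [csa_apply]
      have h2 : ∀ c ∈ box n, rate lam c γ * (g (flip c γ) - g γ) =
          r c * g (flip c γ) - r c * g γ := by
        intro c _
        simp only [hr]
        split_ifs with h
        · rw [h]
          ring
        · ring
      rw [Finset.sum_congr rfl h2, Finset.sum_sub_distrib, ← Finset.sum_mul]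
      ring
    rw [hTP]
    have hcoef : 0 ≤ 1 - a - (1 / (n : ℝ) ^ 2) * ∑ c ∈ box n, r c := by
      have h2 : (1 / (n : ℝ) ^ 2) * ∑ c ∈ box n, r c ≤
          (1 / (n : ℝ) ^ 2) * ((n : ℝ) ^ 2 - (1 - lam)) :=
        mul_le_mul_of_nonneg_left hsum (by positivity)
      have h3 : (1 / (n : ℝ) ^ 2) * ((n : ℝ) ^ 2 - (1 - lam)) = 1 - a := by
        rw [ha]
        field_simp
      linarith
    have e1 : |(1 - a - (1 / (n : ℝ) ^ 2) * ∑ c ∈ box n, r c) * g γ| ≤
        (1 - a - (1 / (n : ℝ) ^ 2) * ∑ c ∈ box n, r c) * B := by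
      rw [abs_mul, abs_of_nonneg hcoef]
      exact mul_le_mul_of_nonneg_left (hB γ hγ) hcoef
    have e2 : |(1 / (n : ℝ) ^ 2) * ∑ c ∈ box n, r c * g (flip c γ)| ≤
        (1 / (n : ℝ) ^ 2) * ∑ c ∈ box n, r c * B := by
      rw [abs_mul, abs_of_nonneg (by positivity)]
      refine mul_le_mul_of_nonneg_left ?_ (by positivity)
      refine (Finset.abs_sum_le_sum_abs _ _).trans (Finset.sum_le_sum fun c hc => ?_)
      rw [abs_mul, abs_of_nonneg (hr0 c)]
      exact mul_le_mul_of_nonneg_left (hB _ (flip_mem hc hγ)) (hr0 c)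
    refine (abs_add_le _ _).trans ((add_le_add e1 e2).trans (le_of_eq ?_))
    rw [← Finset.sum_mul]
    ring

end

end Pool.Agent.H40.SQ
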