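import Mathlib
import Pool.Agent.H40.SQ.Defs
import Pool.Agent.H40.SQ.AsAvg
import Pool.Agent.H40.SQ.AShift
import Pool.Agent.H40.SQ.CHold

/-!
# AsP: average-case mixing of the chain itself

For each `γ`: `TP^t ψ γ - mean ψ = [TP^t ψ - TL^s TP^t ψ](γ) + [TL^s (TP^t ψ)(γ) - mean (TP^t ψ)]` (`mean` is invariant under `TP`).  The second bracket: `avg_L` for the family `TP^t (ψ γ)`, values in `[0,1]` (`TP_sup`).
First: `I - TL^s = ∑_{j<s} TL^j (I - TL)` and `I - TL = (1/2)(I - TP)`; `TL` is a sup-norm contraction on `Om n`, so the bracket is at most `s * (1/2) * sup |TP^t ψ - TP^(t+1) ψ| ≤ s / sqrt(2 a (t+1))`, `a = (1-lam)/n^2 ≤ 1/4` (`shift_bound` with `B = 1`, `TP_hold`).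
-/

set_option autoImplicit false

namespace Pool.Agent.H40.SQ

noncomputable section

private theorem asp_TP_mem (n : ℕ) (lam : ℝ) (h0 : 0 ≤ lam) (h1 : lam ≤ 1) (g : Finset Edge → ℝ)
    (a b : ℝ) (hg : ∀ γ ∈ Om n, a ≤ g γ ∧ g γ ≤ b) (t : ℕ) :
    ∀ γ ∈ Om n, a ≤ ((TP lam n) ^ t) g γ ∧ ((TP lam n) ^ t) g γ ≤ b := by
  induction t with
  | zero =>
    intro γ hγ
    rw [pow_zero, Module.End.one_apply]
    exact hg γ hγ
  | succ t ih =>
    intro γ hγ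
    rw [pow_succ', Module.End.mul_apply]
    exact TP_sup n lam h0 h1 _ a b ih γ hγ

private theorem asp_TL_apply (n : ℕ) (lam : ℝ) (g : Finset Edge → ℝ) (γ : Finset Edge) :
    TL lam n g γ = (1 / 2) * (g γ + TP lam n g γ) := by
  unfold TL
  rw [LinearMap.smul_apply, LinearMap.add_apply, LinearMap.id_apply, Pi.smul_apply, Pi.add_apply,
    smul_eq_mul]

private theorem asp_TL_abs (n : ℕ) (lam : ℝ) (h0 : 0 ≤ lam) (h1 : lam ≤ 1) (g : Finset Edge → ℝ)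
    (B : ℝ) (hg : ∀ γ ∈ Om n, |g γ| ≤ B) : ∀ γ ∈ Om n, |TL lam n g γ| ≤ B := by
  intro γ hγ
  have h2 := TP_sup n lam h0 h1 g (-B) B (fun γ hγ => abs_le.1 (hg γ hγ)) γ hγ
  have h3 := abs_le.1 (hg γ hγ)
  rw [asp_TL_apply, abs_le]
  constructor <;> linarith [h2.1, h2.2, h3.1, h3.2]

private theorem asp_tele (n : ℕ) (lam : ℝ) (h0 : 0 ≤ lam) (h1 : lam ≤ 1) (G : Finset Edge → ℝ)
    (δ : ℝ) (hδ : ∀ γ ∈ Om n, |G γ - TL lam n G γ| ≤ δ) (s : ℕ) :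
    ∀ γ ∈ Om n, |G γ - ((TL lam n) ^ s) G γ| ≤ s * δ := by
  induction s with
  | zero =>
    intro γ _
    rw [pow_zero, Module.End.one_apply]
    simp
  | succ s ih =>
    intro γ hγ
    have h2 := asp_TL_abs n lam h0 h1 (G - ((TL lam n) ^ s) G) (s * δ)
      (fun γ hγ => by rw [Pi.sub_apply]; exact ih γ hγ) γ hγ
    rw [map_sub, Pi.sub_apply] at h2
    have h3 := hδ γ hγ
    rw [pow_succ', Module.End.mul_apply]
    have h4 : G γ - TL lam n (((TL lam n) ^ s) G) γ =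
        (G γ - TL lam n G γ) + (TL lam n G γ - TL lam n (((TL lam n) ^ s) G) γ) := by ring
    rw [h4]
    refine (abs_add_le _ _).trans ?_
    push_cast
    linarith

private theorem asp_mean (n : ℕ) (q lam : ℝ) (hq : q ^ 4 = lam) (g : Finset Edge → ℝ) (t : ℕ) :
    mean q n (((TP lam n) ^ t) g) = mean q n g := by
  induction t with
  | zero => rw [pow_zero, Module.End.one_apply]
  | succ t ih =>
    rw [pow_succ', Module.End.mul_apply, ← ih]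
    unfold mean
    congr 1
    have h1 := TP_sa n q lam hq (((TP lam n) ^ t) g) (fun _ => 1)
    rw [TP_const] at h1
    simpa using h1

theorem avg_P (n ℓ : ℕ) (hn : 2 ≤ n) (q lam : ℝ) (hq : q ^ 4 = lam) (hq0 : 0 < q) (hq1 : q ≤ 1 / 1000) (t s m : ℕ)
    (ψ : Finset Edge → Finset Edge → ℝ) (hψ : ∀ γ ∈ Om n, ∀ η ∈ Om n, 0 ≤ ψ γ η ∧ ψ γ η ≤ 1) :
    ∑ γ ∈ Om n, q ^ γ.card * |((TP lam n) ^ t) (ψ γ) γ - mean q n (ψ γ)| ≤
      ((s : ℝ) / Real.sqrt (2 * ((1 - lam) / (n : ℝ) ^ 2) * ((t : ℝ) + 1)) + EL n ℓ q s m) * Zn q n := by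
  have hlam0 : 0 ≤ lam := by rw [← hq]; positivity
  have hlam1 : lam < 1 := by
    rw [← hq]
    exact pow_lt_one₀ hq0.le (by linarith) (by norm_num)
  have hn2 : (2 : ℝ) ≤ n := by exact_mod_cast hn
  have hnsq : (4 : ℝ) ≤ (n : ℝ) ^ 2 := by nlinarith
  obtain ⟨Q, hP, hQ⟩ := TP_hold n hn lam hlam0 hlam1
  obtain ⟨a, ha⟩ : ∃ a : ℝ, a = (1 - lam) / (n : ℝ) ^ 2 := ⟨_, rfl⟩
  rw [← ha] at hP ⊢
  have ha0 : 0 < a := by
    rw [ha]
    exact div_pos (by linarith) (by linarith)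
  have ha1 : a ≤ 1 / 2 := by
    rw [ha, div_le_div_iff₀ (by linarith) (by norm_num)]
    linarith
  obtain ⟨ρ, hρ⟩ : ∃ ρ : ℝ, ρ = Real.sqrt (2 * a * ((t : ℝ) + 1)) := ⟨_, rfl⟩
  have hsecond := avg_L n ℓ (by omega) q lam hq hq0 hq1 s m (fun γ => ((TP lam n) ^ t) (ψ γ))
    (fun γ hγ => asp_TP_mem n lam hlam0 hlam1.le (ψ γ) 0 1 (hψ γ hγ) t)
  have hfirst : ∀ γ ∈ Om n, |((TP lam n) ^ t) (ψ γ) γ -
      ((TL lam n) ^ s) (((TP lam n) ^ t) (ψ γ)) γ| ≤ s / ρ := by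
    intro γ hγ
    have hsh := shift_bound (Om n) (TP lam n) Q a ha0 ha1 hP hQ (ψ γ) 1
      (fun η hη => by
        have h1 := hψ γ hγ η hη
        rw [abs_of_nonneg h1.1]
        exact h1.2) t
    rw [← hρ] at hsh
    have hδ : ∀ η ∈ Om n, |((TP lam n) ^ t) (ψ γ) η -
        TL lam n (((TP lam n) ^ t) (ψ γ)) η| ≤ 1 / ρ := by
      intro η hη
      have h1 := hsh η hη
      rw [pow_succ', Module.End.mul_apply] at h1
      rw [asp_TL_apply]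
      have h2 : ((TP lam n) ^ t) (ψ γ) η - 1 / 2 * (((TP lam n) ^ t) (ψ γ) η +
          TP lam n (((TP lam n) ^ t) (ψ γ)) η) = (1 / 2) * (((TP lam n) ^ t) (ψ γ) η -
          TP lam n (((TP lam n) ^ t) (ψ γ)) η) := by ring
      rw [h2, abs_mul, abs_of_pos (by norm_num : (0 : ℝ) < 1 / 2)]
      have h3 : 1 / ρ = (1 / 2) * (2 * 1 / ρ) := by ring
      rw [h3]
      exact mul_le_mul_of_nonneg_left h1 (by norm_num)
    have h4 := asp_tele n lam hlam0 hlam1.le (((TP lam n) ^ t) (ψ γ)) (1 / ρ) hδ s γ hγ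
    refine h4.trans (le_of_eq ?_)
    ring
  have hW : ∀ γ : Finset Edge, 0 ≤ q ^ γ.card := fun γ => by positivity
  have hpt : ∀ γ ∈ Om n, q ^ γ.card * |((TP lam n) ^ t) (ψ γ) γ - mean q n (ψ γ)| ≤
      q ^ γ.card * (s / ρ) + q ^ γ.card * |((TL lam n) ^ s) (((TP lam n) ^ t) (ψ γ)) γ -
        mean q n (((TP lam n) ^ t) (ψ γ))| := by
    intro γ hγ
    rw [← mul_add]
    refine mul_le_mul_of_nonneg_left ?_ (hW γ)
    rw [asp_mean n q lam hq (ψ γ) t]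
    have h1 : ((TP lam n) ^ t) (ψ γ) γ - mean q n (ψ γ) =
        (((TP lam n) ^ t) (ψ γ) γ - ((TL lam n) ^ s) (((TP lam n) ^ t) (ψ γ)) γ) +
        (((TL lam n) ^ s) (((TP lam n) ^ t) (ψ γ)) γ - mean q n (ψ γ)) := by ring
    rw [h1]
    exact (abs_add_le _ _).trans (add_le_add (hfirst γ hγ) le_rfl)
  refine (Finset.sum_le_sum hpt).trans ?_
  rw [Finset.sum_add_distrib, ← Finset.sum_mul, ← hρ, add_mul]
  refine add_le_add ?_ hsecond
  rw [mul_comm]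
  exact le_rfl

end

end Pool.Agent.H40.SQ
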