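import Mathlib
import Pool.Agent.H40.SQ.Defs
import Pool.Agent.H40.SQ.AsAvg
import Pool.Agent.H40.SQ.LSum
import Pool.Agent.H40.SQ.HStep

/-!
# AsPar: choice of the parameters

Let `c = a + 15`, `b = 16 c = 16a + 240`, `e = (E n).card`, `1 ≤ e ≤ 3 n^2` (`E n` has `2n(n+1)` elements, `n ≥ 2`; `≤` suffices: `E n ⊆ {false}×Ico 0 n×Icc 0 n ∪ {true}×Icc 0 n×Ico 0 n` by `mem_E_false`, `mem_E_true`).  Let `ℓ` be minimal with `(26q)^(ℓ+1) ≤ n^(-b)` (exists as `26 q < 1`).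
(i) `(26q)^(ℓ+1) ≤ n^(-b)`; (ii) `n^(-b) ≤ (26q)^ℓ` (minimality, or `ℓ = 0`); (iii) `38^ℓ ≤ (1/(26q))^ℓ ≤ n^b` (`26/1000 ≤ 1/38`); (iv) `ℓ ≤ b n` (`38^ℓ ≤ n^b ≤ 2^(bn)`).
* `AA + 1 ≤ n^(54+8b)/q^10`: `Pol.card ≤ e 18^ℓ` (`pol_card`), `2^(32(ℓ+1)) 4^(ℓ+1) = 2^34 (2^34)^ℓ`, `18 * 2^34 ≤ 38^8`, so `AA ≤ 8*49*3*2^34 n^8 (38^ℓ)^8/q^10 ≤ 2^45 n^(8+8b)/q^10 ≤ n^(53+8b)/q^10`, and `1 ≤ n^(53+8b)/q^10`, `2 ≤ n`.
* `DD ≤ 12 n^(2-b) + 24 n^2 * 6n * (n + bn) n^(-b) ≤ 156 (1+b) n^(4-b)` (`5n+2 ≤ 6n`).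
* `s = ⌈(AA+1) b n⌉`: `(1 - 1/(AA+1))^s ≤ exp(-s/(AA+1)) ≤ exp(-bn) ≤ n^(-b)`.  `m = ⌈4 e b n⌉ ≤ 13 b n^3`: `(1 - 1/(4e))^m ≤ exp(-bn) ≤ n^(-b)`.
* second term of `EL`... `2 m sqrt((n^(-b) + DD) 4 n^6) ≤ 26 b n^3 sqrt(628 (1+b) n^(10-b)) ≤ 676 b (1+b) n^(8-b/2)`; `1 + 16c ≤ 2^(4+c)`, so `676 b(1+b) ≤ 2^(18+2c) ≤ 2^(4c) ≤ n^(b/4)`; the term is `≤ n^(8-b/4) = n^(8-4c) ≤ n^(-a-2) ≤ n^(-a)/4`.
* `2 (..)^m e ≤ 6 n^(2-b) ≤ n^(-a)/4`, `3 e (18q)^(ℓ+1) ≤ 9 n^2 n^(-b) ≤ n^(-a)/4`.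
* first term: `lam = q^4 ≤ 1/2`, so `2 (1-lam)/n^2 (t+1) ≥ t/n^2`; `s ≤ 2 b n^(55+8b)/q^10`; the term is `≤ 2 b n^(56+8b)/(q^10 sqrt t) ≤ n^(-a)/4` as soon as `t q^20 ≥ 64 b^2 n^(112+16b+2a)`, and `64 b^2 ≤ 2^6 (2^(4+c))^2 ≤ n^(14+2c)`: `k = 126 + 2c + 16b + 2a`.
(To avoid real exponents use integer powers: `b/2 = 8c`, `b/4 = 4c`.)
-/

set_option autoImplicit false

namespace Pool.Agent.H40.SQ

noncomputable section

private theorem e_bd (n : ℕ) (hn : 2 ≤ n) :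
    1 ≤ ((E n).card : ℝ) ∧ ((E n).card : ℝ) ≤ 3 * (n : ℝ) ^ 2 := by
  constructor
  · have h : (false, (0 : ℤ), (0 : ℤ)) ∈ E n := by
      rw [mem_E_false]; omega
    have : 0 < (E n).card := Finset.card_pos.mpr ⟨_, h⟩
    exact_mod_cast this
  · have hsub : E n ⊆ (({false} : Finset Bool) ×ˢ (Finset.Ico 0 (n : ℤ) ×ˢ Finset.Icc 0 (n : ℤ))) ∪
        (({true} : Finset Bool) ×ˢ (Finset.Icc 0 (n : ℤ) ×ˢ Finset.Ico 0 (n : ℤ))) := by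
      rintro ⟨b, i, j⟩ h
      cases b
      · rw [mem_E_false] at h
        simp only [Finset.mem_union, Finset.mem_product, Finset.mem_singleton, Finset.mem_Ico, Finset.mem_Icc]
        left; refine ⟨trivial, ⟨?_, ?_⟩, ?_, ?_⟩ <;> omega
      · rw [mem_E_true] at h
        simp only [Finset.mem_union, Finset.mem_product, Finset.mem_singleton, Finset.mem_Ico, Finset.mem_Icc]
        right; refine ⟨trivial, ⟨?_, ?_⟩, ?_, ?_⟩ <;> omega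
    have h1 := (Finset.card_le_card hsub).trans (Finset.card_union_le _ _)
    simp only [Finset.card_product, Finset.card_singleton, Int.card_Ico, Int.card_Icc] at h1
    have h2 : ((n : ℤ) - 0).toNat = n := by omega
    have h3 : ((n : ℤ) + 1 - 0).toNat = n + 1 := by omega
    rw [h2, h3] at h1
    have h4 : (E n).card ≤ 3 * n ^ 2 := by nlinarith
    exact_mod_cast h4

private theorem ell_ex (x : ℝ) (n b : ℕ) (hn : 2 ≤ n) (hx0 : 0 < x) (hx1 : 38 * x ≤ 1) :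
    ∃ ℓ : ℕ, x ^ (ℓ + 1) ≤ 1 / (n : ℝ) ^ b ∧ (38 : ℝ) ^ ℓ ≤ (n : ℝ) ^ b := by
  classical
  have hN : (2 : ℝ) ≤ n := by exact_mod_cast hn
  have hNb : (0 : ℝ) < (n : ℝ) ^ b := by positivity
  have hN1 : (1 : ℝ) ≤ (n : ℝ) ^ b := one_le_pow₀ (by linarith)
  have hex : ∃ ℓ : ℕ, x ^ (ℓ + 1) ≤ 1 / (n : ℝ) ^ b := by
    obtain ⟨m, hm⟩ := exists_pow_lt_of_lt_one (by positivity : (0 : ℝ) < 1 / (n : ℝ) ^ b) (by linarith : x < 1)
    refine ⟨m, le_trans ?_ hm.le⟩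
    exact pow_le_pow_of_le_one hx0.le (by linarith) (by omega)
  refine ⟨Nat.find hex, Nat.find_spec hex, ?_⟩
  rcases Nat.eq_zero_or_pos (Nat.find hex) with h0 | h0
  · rw [h0]; simpa using hN1
  · have h1 := Nat.find_min hex (m := Nat.find hex - 1) (by omega)
    rw [not_le] at h1
    have h2 : Nat.find hex - 1 + 1 = Nat.find hex := by omega
    rw [h2] at h1
    set L := Nat.find hex
    have h3 : (38 : ℝ) ^ L * x ^ L ≤ 1 := by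
      rw [← mul_pow]
      exact pow_le_one₀ (by positivity) hx1
    have h4 : (38 : ℝ) ^ L * (1 / (n : ℝ) ^ b) ≤ 1 := by
      refine le_trans ?_ h3
      exact mul_le_mul_of_nonneg_left h1.le (by positivity)
    rw [mul_one_div, div_le_one hNb] at h4
    exact h4

private theorem ell_le (n b ℓ : ℕ) (h : (38 : ℝ) ^ ℓ ≤ (n : ℝ) ^ b) : ℓ ≤ n * b := by
  have h1 : 38 ^ ℓ ≤ n ^ b := by exact_mod_cast h
  have h2 : n ^ b ≤ (2 ^ n) ^ b := Nat.pow_le_pow_left (Nat.lt_two_pow_self).le b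
  rw [← pow_mul] at h2
  have h3 : 2 ^ ℓ ≤ 38 ^ ℓ := Nat.pow_le_pow_left (by norm_num) ℓ
  have h4 : 2 ^ ℓ ≤ 2 ^ (n * b) := h3.trans (h1.trans h2)
  exact (Nat.pow_le_pow_iff_right (by norm_num)).mp h4

private theorem AA_nonneg (n ℓ : ℕ) (q : ℝ) (hq : 0 < q) : 0 ≤ AA n ℓ q := by
  unfold AA; positivity

private theorem DD_nonneg (n ℓ : ℕ) (q : ℝ) (hq : 0 < q) : 0 ≤ DD n ℓ q := by
  unfold DD; positivity

private theorem AA_bd (n ℓ b : ℕ) (hn : 2 ≤ n) (q : ℝ) (hq : 0 < q) (hq1 : q ≤ 1 / 1000)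
    (hl : (38 : ℝ) ^ ℓ ≤ (n : ℝ) ^ b) : AA n ℓ q + 1 ≤ (n : ℝ) ^ (54 + 8 * b) / q ^ 10 := by
  have hN : (2 : ℝ) ≤ n := by exact_mod_cast hn
  have hN0 : (0 : ℝ) < n := by linarith
  obtain ⟨he1, he2⟩ := e_bd n hn
  have hP : ((Pol n ℓ).card : ℝ) ≤ 3 * (n : ℝ) ^ 2 * 18 ^ ℓ := by
    refine (pol_card n ℓ).trans ?_
    exact mul_le_mul_of_nonneg_right he2 (by positivity)
  have h34 : (2 : ℝ) ^ (4 * (8 * (ℓ + 1))) * 4 ^ (ℓ + 1) = 2 ^ 34 * (2 ^ 34) ^ ℓ := by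
    have : (4 : ℝ) = 2 ^ 2 := by norm_num
    rw [this, ← pow_mul, ← pow_mul, ← pow_add, ← pow_add]
    congr 1; ring
  have h38 : (18 : ℝ) ^ ℓ * (2 ^ 34) ^ ℓ ≤ ((38 : ℝ) ^ ℓ) ^ 8 := by
    rw [← mul_pow, ← pow_mul, mul_comm ℓ 8, pow_mul]
    exact pow_le_pow_left₀ (by positivity) (by norm_num) ℓ
  have h38' : ((38 : ℝ) ^ ℓ) ^ 8 ≤ (n : ℝ) ^ (8 * b) := by
    rw [mul_comm 8 b, pow_mul]
    exact pow_le_pow_left₀ (by positivity) hl 8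
  have hq10 : (0 : ℝ) < q ^ 10 := by positivity
  have hAA : AA n ℓ q = (8 * 49 * (n : ℝ) ^ 6 * (2 ^ 34 * (2 ^ 34) ^ ℓ)) * (Pol n ℓ).card / q ^ 10 := by
    unfold AA
    rw [h34]
    field_simp
  have h1 : AA n ℓ q ≤ (n : ℝ) ^ (53 + 8 * b) / q ^ 10 := by
    rw [hAA]
    apply div_le_div_of_nonneg_right _ hq10.le
    calc (8 * 49 * (n : ℝ) ^ 6 * (2 ^ 34 * (2 ^ 34) ^ ℓ)) * (Pol n ℓ).card
        ≤ (8 * 49 * (n : ℝ) ^ 6 * (2 ^ 34 * (2 ^ 34) ^ ℓ)) * (3 * (n : ℝ) ^ 2 * 18 ^ ℓ) :=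
          mul_le_mul_of_nonneg_left hP (by positivity)
      _ = (8 * 49 * 3 * 2 ^ 34) * (n : ℝ) ^ 8 * (18 ^ ℓ * (2 ^ 34) ^ ℓ) := by ring
      _ ≤ (8 * 49 * 3 * 2 ^ 34) * (n : ℝ) ^ 8 * (n : ℝ) ^ (8 * b) :=
          mul_le_mul_of_nonneg_left (h38.trans h38') (by positivity)
      _ ≤ (n : ℝ) ^ 45 * (n : ℝ) ^ 8 * (n : ℝ) ^ (8 * b) := by
          apply mul_le_mul_of_nonneg_right _ (by positivity)
          apply mul_le_mul_of_nonneg_right _ (by positivity)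
          calc (8 * 49 * 3 * 2 ^ 34 : ℝ) ≤ 2 ^ 45 := by norm_num
            _ ≤ (n : ℝ) ^ 45 := pow_le_pow_left₀ (by norm_num) hN 45
      _ = (n : ℝ) ^ (53 + 8 * b) := by rw [← pow_add, ← pow_add]
  have h2 : (1 : ℝ) ≤ (n : ℝ) ^ (53 + 8 * b) / q ^ 10 := by
    rw [le_div_iff₀ hq10, one_mul]
    calc q ^ 10 ≤ 1 := pow_le_one₀ hq.le (by linarith)
      _ ≤ (n : ℝ) ^ (53 + 8 * b) := one_le_pow₀ (by linarith)
  have h3 : (n : ℝ) ^ (54 + 8 * b) / q ^ 10 = n * ((n : ℝ) ^ (53 + 8 * b) / q ^ 10) := by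
    rw [show 54 + 8 * b = (53 + 8 * b) + 1 by ring, pow_succ]; ring
  rw [h3]
  nlinarith

private theorem DD_bd (n ℓ b : ℕ) (hn : 2 ≤ n) (q : ℝ) (hq : 0 < q)
    (hx : (26 * q) ^ (ℓ + 1) ≤ 1 / (n : ℝ) ^ b) (hl : ℓ ≤ n * b) :
    DD n ℓ q ≤ 156 * (1 + b) * (n : ℝ) ^ 4 / (n : ℝ) ^ b := by
  have hN : (2 : ℝ) ≤ n := by exact_mod_cast hn
  have hN0 : (0 : ℝ) < n := by linarith
  obtain ⟨he1, he2⟩ := e_bd n hn
  have hx' : (18 * q) ^ (ℓ + 1) ≤ 1 / (n : ℝ) ^ b :=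
    (pow_le_pow_left₀ (by positivity) (by linarith) _).trans hx
  have hl' : (ℓ : ℝ) ≤ n * b := by exact_mod_cast hl
  set e := ((E n).card : ℝ)
  set Y := 1 / (n : ℝ) ^ b with hY
  have hY0 : 0 ≤ Y := by positivity
  have h1 : 4 * (e * (18 * q) ^ (ℓ + 1)) ≤ 12 * (n : ℝ) ^ 2 * Y := by
    have : e * (18 * q) ^ (ℓ + 1) ≤ 3 * (n : ℝ) ^ 2 * Y := mul_le_mul he2 hx' (by positivity) (by positivity)
    linarith
  have h2 : 8 * e * ((5 * n + 2) * (n + ℓ) * (26 * q) ^ (ℓ + 1)) ≤ 144 * (1 + b) * (n : ℝ) ^ 4 * Y := by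
    have ha : (5 * (n : ℝ) + 2) * (n + ℓ) ≤ 6 * n * (n + n * b) := by
      apply mul_le_mul _ _ (by positivity) (by positivity)
      · linarith
      · linarith
    have hb : (5 * (n : ℝ) + 2) * (n + ℓ) * (26 * q) ^ (ℓ + 1) ≤ 6 * n * (n + n * b) * Y :=
      mul_le_mul ha hx (by positivity) (by positivity)
    calc 8 * e * ((5 * n + 2) * (n + ℓ) * (26 * q) ^ (ℓ + 1))
        ≤ 8 * (3 * (n : ℝ) ^ 2) * (6 * n * (n + n * b) * Y) :=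
          mul_le_mul (by linarith) hb (by positivity) (by positivity)
      _ = 144 * (1 + b) * (n : ℝ) ^ 4 * Y := by ring
  have h3 : 12 * (n : ℝ) ^ 2 * Y ≤ 12 * (1 + b) * (n : ℝ) ^ 4 * Y := by
    apply mul_le_mul_of_nonneg_right _ hY0
    have h4 : (n : ℝ) ^ 2 ≤ (n : ℝ) ^ 4 := pow_le_pow_right₀ (by linarith) (by norm_num)
    have h5 : (0 : ℝ) ≤ (b : ℝ) * (n : ℝ) ^ 4 := by positivity
    nlinarith
  unfold DD
  have h6 : 156 * (1 + (b : ℝ)) * (n : ℝ) ^ 4 / (n : ℝ) ^ b =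
      12 * (1 + b) * (n : ℝ) ^ 4 * Y + 144 * (1 + b) * (n : ℝ) ^ 4 * Y := by
    rw [hY]; ring
  rw [h6]
  linarith

private theorem exp_bd (A : ℝ) (hA : 1 ≤ A) (n b s : ℕ) (hs : A * (b * n) ≤ s) (hn : 1 ≤ n) :
    (1 - 1 / A) ^ s ≤ 1 / (n : ℝ) ^ b := by
  have hA0 : 0 < A := by linarith
  have hn0 : (0 : ℝ) < n := by exact_mod_cast hn
  have h0 : 0 ≤ 1 - 1 / A := by
    rw [sub_nonneg, div_le_one hA0]; exact hA
  have h1 : 1 - 1 / A ≤ Real.exp (-(1 / A)) := by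
    have := Real.add_one_le_exp (-(1 / A)); linarith
  calc (1 - 1 / A) ^ s ≤ (Real.exp (-(1 / A))) ^ s := pow_le_pow_left₀ h0 h1 s
    _ = Real.exp (-(s / A)) := by rw [← Real.exp_nat_mul]; congr 1; ring
    _ ≤ Real.exp (-(b * n)) := by
        apply Real.exp_le_exp.mpr
        rw [neg_le_neg_iff, le_div_iff₀ hA0]; linarith
    _ = 1 / (Real.exp n) ^ b := by
        rw [← Real.exp_nat_mul, Real.exp_neg, one_div]
    _ ≤ 1 / (n : ℝ) ^ b := by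
        apply one_div_le_one_div_of_le (by positivity)
        apply pow_le_pow_left₀ hn0.le
        have := Real.add_one_le_exp (n : ℝ); linarith

theorem params (a : ℕ) : ∃ k : ℕ, ∀ n : ℕ, 2 ≤ n → ∀ q : ℝ, 0 < q → q ≤ 1 / 1000 → ∀ t : ℕ,
    (n : ℝ) ^ k ≤ q ^ 20 * t →
    ∃ ℓ s m : ℕ, (s : ℝ) / Real.sqrt (2 * ((1 - q ^ 4) / (n : ℝ) ^ 2) * ((t : ℝ) + 1)) + EL n ℓ q s m ≤
      1 / (n : ℝ) ^ a := by
  obtain ⟨c, hc⟩ : ∃ c, c = a + 15 := ⟨_, rfl⟩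
  obtain ⟨b, hb⟩ : ∃ b, b = 16 * c := ⟨_, rfl⟩
  refine ⟨2 * (63 + c + 8 * b + a), ?_⟩
  intro n hn q hq hq1 t ht
  have hN : (2 : ℝ) ≤ n := by exact_mod_cast hn
  have hN0 : (0 : ℝ) < n := by linarith
  have hN1 : (1 : ℝ) ≤ n := by linarith
  obtain ⟨he1, he2⟩ := e_bd n hn
  obtain ⟨ℓ, hl1, hl2⟩ := ell_ex (26 * q) n b hn (by positivity) (by linarith)
  have hl3 := ell_le n b ℓ hl2
  have hAA := AA_bd n ℓ b hn q hq hq1 hl2
  have hDD := DD_bd n ℓ b hn q hq hl1 hl3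
  have hAA0 := AA_nonneg n ℓ q hq
  have hDD0 := DD_nonneg n ℓ q hq
  have hc2 : c + 1 ≤ 2 ^ c := Nat.lt_two_pow_self
  have hpc : (2 : ℝ) ^ c ≤ (n : ℝ) ^ c := pow_le_pow_left₀ (by norm_num) hN c
  have hc2' : (c : ℝ) + 1 ≤ 2 ^ c := by exact_mod_cast hc2
  have hbR : (b : ℝ) = 16 * c := by rw [hb]; push_cast; ring
  have hc0 : (0 : ℝ) ≤ c := Nat.cast_nonneg c
  have hc15 : (15 : ℝ) ≤ c := by rw [hc]; push_cast; linarith [(Nat.cast_nonneg a : (0 : ℝ) ≤ a)]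
  have hb1 : (1 : ℝ) ≤ b := by rw [hbR]; linarith
  have hq10 : (0 : ℝ) < q ^ 10 := by positivity
  set e := ((E n).card : ℝ) with he
  set A := AA n ℓ q + 1 with hA
  have hA1 : 1 ≤ A := by rw [hA]; linarith
  obtain ⟨s, hs1, hs2⟩ : ∃ s : ℕ, A * (b * n) ≤ s ∧ (s : ℝ) ≤ A * (b * n) + 1 :=
    ⟨⌈A * (b * n)⌉₊, Nat.le_ceil _, (Nat.ceil_lt_add_one (by positivity)).le⟩
  obtain ⟨m, hm1, hm2⟩ : ∃ m : ℕ, (4 * e) * (b * n) ≤ m ∧ (m : ℝ) ≤ (4 * e) * (b * n) + 1 :=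
    ⟨⌈(4 * e) * (b * n)⌉₊, Nat.le_ceil _, (Nat.ceil_lt_add_one (by positivity)).le⟩
  refine ⟨ℓ, s, m, ?_⟩
  have hna : (0 : ℝ) < (n : ℝ) ^ a := by positivity
  -- bound of s
  have hs3 : (s : ℝ) ≤ 2 * b * (n : ℝ) ^ (55 + 8 * b) / q ^ 10 := by
    have h1 : A * (b * n) ≤ (n : ℝ) ^ (54 + 8 * b) / q ^ 10 * (b * n) :=
      mul_le_mul_of_nonneg_right hAA (by positivity)
    have h2 : (n : ℝ) ^ (54 + 8 * b) / q ^ 10 * (b * n) = b * (n : ℝ) ^ (55 + 8 * b) / q ^ 10 := by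
      rw [show 55 + 8 * b = (54 + 8 * b) + 1 by ring, pow_succ]; ring
    have h3 : (1 : ℝ) ≤ b * (n : ℝ) ^ (55 + 8 * b) / q ^ 10 := by
      rw [le_div_iff₀ hq10, one_mul]
      calc q ^ 10 ≤ 1 := pow_le_one₀ hq.le (by linarith)
        _ ≤ b * (n : ℝ) ^ (55 + 8 * b) := one_le_mul_of_one_le_of_one_le hb1 (one_le_pow₀ hN1)
    have h4 : 2 * b * (n : ℝ) ^ (55 + 8 * b) / q ^ 10 =
        b * (n : ℝ) ^ (55 + 8 * b) / q ^ 10 + b * (n : ℝ) ^ (55 + 8 * b) / q ^ 10 := by ring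
    rw [h4]; linarith
  -- first term
  have hT1 : (s : ℝ) / Real.sqrt (2 * ((1 - q ^ 4) / (n : ℝ) ^ 2) * ((t : ℝ) + 1)) ≤ 1 / (4 * (n : ℝ) ^ a) := by
    have hq4 : q ^ 4 ≤ 1 / 2 := by
      calc q ^ 4 ≤ (1 / 1000) ^ 4 := pow_le_pow_left₀ hq.le hq1 4
        _ ≤ 1 / 2 := by norm_num
    have ht0 : (0 : ℝ) ≤ t := Nat.cast_nonneg t
    have h1 : (t : ℝ) / (n : ℝ) ^ 2 ≤ 2 * ((1 - q ^ 4) / (n : ℝ) ^ 2) * ((t : ℝ) + 1) := by
      have : 2 * ((1 - q ^ 4) / (n : ℝ) ^ 2) * ((t : ℝ) + 1) = (2 * (1 - q ^ 4) * (t + 1)) / (n : ℝ) ^ 2 := by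
        ring
      rw [this]
      apply div_le_div_of_nonneg_right _ (by positivity)
      nlinarith
    have h2 : ((n : ℝ) ^ (62 + c + 8 * b + a) / q ^ 10) ^ 2 ≤ (t : ℝ) / (n : ℝ) ^ 2 := by
      rw [div_pow, ← pow_mul, ← pow_mul, le_div_iff₀ (by positivity), div_mul_eq_mul_div, ← pow_add,
        div_le_iff₀ (by positivity)]
      calc (n : ℝ) ^ ((62 + c + 8 * b + a) * 2 + 2) = (n : ℝ) ^ (2 * (63 + c + 8 * b + a)) := by
            congr 1; ring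
        _ ≤ q ^ 20 * t := ht
        _ = t * q ^ (10 * 2) := by ring
    have h3 : (n : ℝ) ^ (62 + c + 8 * b + a) / q ^ 10 ≤
        Real.sqrt (2 * ((1 - q ^ 4) / (n : ℝ) ^ 2) * ((t : ℝ) + 1)) :=
      Real.le_sqrt_of_sq_le (h2.trans h1)
    calc (s : ℝ) / Real.sqrt (2 * ((1 - q ^ 4) / (n : ℝ) ^ 2) * ((t : ℝ) + 1))
        ≤ (2 * b * (n : ℝ) ^ (55 + 8 * b) / q ^ 10) / ((n : ℝ) ^ (62 + c + 8 * b + a) / q ^ 10) :=
          div_le_div₀ (by positivity) hs3 (by positivity) h3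
      _ = 2 * b / (n : ℝ) ^ (7 + c + a) := by
          rw [show 62 + c + 8 * b + a = (55 + 8 * b) + (7 + c + a) by ring, pow_add (n : ℝ) (55 + 8 * b)]
          field_simp
      _ ≤ 1 / (4 * (n : ℝ) ^ a) := by
          rw [div_le_div_iff₀ (by positivity) (by positivity), pow_add]
          have h5 : 8 * (b : ℝ) ≤ (n : ℝ) ^ (7 + c) := by
            rw [pow_add]
            calc 8 * (b : ℝ) = 2 ^ 7 * c := by rw [hbR]; ring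
              _ ≤ 2 ^ 7 * 2 ^ c := by apply mul_le_mul_of_nonneg_left _ (by positivity); linarith
              _ ≤ (n : ℝ) ^ 7 * (n : ℝ) ^ c :=
                mul_le_mul (pow_le_pow_left₀ (by norm_num) hN 7) hpc (by positivity) (by positivity)
          nlinarith
  -- small powers
  have hpw : ∀ i : ℕ, i + a ≤ b → (2 : ℝ) ^ i / (n : ℝ) ^ b ≤ 1 / (n : ℝ) ^ a := by
    intro i hi
    rw [div_le_div_iff₀ (by positivity) (by positivity), one_mul]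
    calc (2 : ℝ) ^ i * (n : ℝ) ^ a ≤ (n : ℝ) ^ i * (n : ℝ) ^ a :=
          mul_le_mul_of_nonneg_right (pow_le_pow_left₀ (by norm_num) hN i) (by positivity)
      _ = (n : ℝ) ^ (i + a) := by rw [pow_add]
      _ ≤ (n : ℝ) ^ b := pow_le_pow_right₀ hN1 hi
  have hexp1 : (1 - 1 / A) ^ s ≤ 1 / (n : ℝ) ^ b := exp_bd A hA1 n b s hs1 (by omega)
  have hexp2 : (1 - 1 / (4 * e)) ^ m ≤ 1 / (n : ℝ) ^ b := exp_bd (4 * e) (by linarith) n b m hm1 (by omega)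
  -- third term
  have hT3 : 2 * (1 - 1 / (4 * e)) ^ m * e ≤ 1 / (4 * (n : ℝ) ^ a) := by
    calc 2 * (1 - 1 / (4 * e)) ^ m * e ≤ 2 * (1 / (n : ℝ) ^ b) * (3 * (n : ℝ) ^ 2) := by
          apply mul_le_mul _ he2 (by positivity) (by positivity)
          linarith
      _ ≤ 1 / (4 * (n : ℝ) ^ a) := by
          have : 2 * (1 / (n : ℝ) ^ b) * (3 * (n : ℝ) ^ 2) = 6 * (n : ℝ) ^ 2 / (n : ℝ) ^ b := by ring
          rw [this, div_le_div_iff₀ (by positivity) (by positivity), one_mul]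
          calc 6 * (n : ℝ) ^ 2 * (4 * (n : ℝ) ^ a) ≤ 2 ^ 5 * (n : ℝ) ^ (2 + a) := by
                rw [pow_add]; nlinarith [(by positivity : (0 : ℝ) < (n : ℝ) ^ 2 * (n : ℝ) ^ a)]
            _ ≤ (n : ℝ) ^ 5 * (n : ℝ) ^ (2 + a) :=
              mul_le_mul_of_nonneg_right (pow_le_pow_left₀ (by norm_num) hN 5) (by positivity)
            _ = (n : ℝ) ^ (7 + a) := by rw [← pow_add]; congr 1; ring
            _ ≤ (n : ℝ) ^ b := pow_le_pow_right₀ hN1 (by omega)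
  -- fourth term
  have hT4 : 3 * (e * (18 * q) ^ (ℓ + 1)) ≤ 1 / (4 * (n : ℝ) ^ a) := by
    have hx' : (18 * q) ^ (ℓ + 1) ≤ 1 / (n : ℝ) ^ b :=
      (pow_le_pow_left₀ (by positivity) (by linarith) _).trans hl1
    calc 3 * (e * (18 * q) ^ (ℓ + 1)) ≤ 3 * ((3 * (n : ℝ) ^ 2) * (1 / (n : ℝ) ^ b)) := by
          apply mul_le_mul_of_nonneg_left _ (by norm_num)
          exact mul_le_mul he2 hx' (by positivity) (by positivity)
      _ ≤ 1 / (4 * (n : ℝ) ^ a) := by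
          have : 3 * ((3 * (n : ℝ) ^ 2) * (1 / (n : ℝ) ^ b)) = 9 * (n : ℝ) ^ 2 / (n : ℝ) ^ b := by ring
          rw [this, div_le_div_iff₀ (by positivity) (by positivity), one_mul]
          calc 9 * (n : ℝ) ^ 2 * (4 * (n : ℝ) ^ a) ≤ 2 ^ 6 * (n : ℝ) ^ (2 + a) := by
                rw [pow_add]; nlinarith [(by positivity : (0 : ℝ) < (n : ℝ) ^ 2 * (n : ℝ) ^ a)]
            _ ≤ (n : ℝ) ^ 6 * (n : ℝ) ^ (2 + a) :=
              mul_le_mul_of_nonneg_right (pow_le_pow_left₀ (by norm_num) hN 6) (by positivity)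
            _ = (n : ℝ) ^ (8 + a) := by rw [← pow_add]; congr 1; ring
            _ ≤ (n : ℝ) ^ b := pow_le_pow_right₀ hN1 (by omega)
  -- second term
  have hT2 : 2 * (m : ℝ) * Real.sqrt (((1 - 1 / A) ^ s + DD n ℓ q) * (4 * (n : ℝ) ^ 6)) ≤
      1 / (4 * (n : ℝ) ^ a) := by
    have hm3 : (m : ℝ) ≤ 13 * b * (n : ℝ) ^ 3 := by
      have h1 : 4 * e * (b * n) ≤ 12 * b * (n : ℝ) ^ 3 := by
        calc 4 * e * (b * n) ≤ 4 * (3 * (n : ℝ) ^ 2) * (b * n) := by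
              apply mul_le_mul_of_nonneg_right _ (by positivity); linarith
          _ = 12 * b * (n : ℝ) ^ 3 := by ring
      have h2 : (1 : ℝ) ≤ b * (n : ℝ) ^ 3 := one_le_mul_of_one_le_of_one_le hb1 (one_le_pow₀ hN1)
      linarith
    have hb8 : (n : ℝ) ^ b = ((n : ℝ) ^ (8 * c)) ^ 2 := by
      rw [← pow_mul]; congr 1; omega
    have hin : ((1 - 1 / A) ^ s + DD n ℓ q) * (4 * (n : ℝ) ^ 6) ≤
        (26 * (1 + b) * (n : ℝ) ^ 5 / (n : ℝ) ^ (8 * c)) ^ 2 := by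
      have h1 : (1 - 1 / A) ^ s + DD n ℓ q ≤ 157 * (1 + b) * (n : ℝ) ^ 4 / (n : ℝ) ^ b := by
        have h2 : 1 / (n : ℝ) ^ b ≤ 1 * (1 + b) * (n : ℝ) ^ 4 / (n : ℝ) ^ b := by
          apply div_le_div_of_nonneg_right _ (by positivity)
          rw [one_mul]
          exact one_le_mul_of_one_le_of_one_le (by linarith) (one_le_pow₀ hN1)
        have h3 : 157 * (1 + (b : ℝ)) * (n : ℝ) ^ 4 / (n : ℝ) ^ b =
            1 * (1 + b) * (n : ℝ) ^ 4 / (n : ℝ) ^ b + 156 * (1 + b) * (n : ℝ) ^ 4 / (n : ℝ) ^ b := by ring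
        rw [h3]; linarith
      calc ((1 - 1 / A) ^ s + DD n ℓ q) * (4 * (n : ℝ) ^ 6)
          ≤ 157 * (1 + b) * (n : ℝ) ^ 4 / (n : ℝ) ^ b * (4 * (n : ℝ) ^ 6) :=
            mul_le_mul_of_nonneg_right h1 (by positivity)
        _ = 628 * (1 + b) * (n : ℝ) ^ 10 / (n : ℝ) ^ b := by ring
        _ ≤ 676 * (1 + b) ^ 2 * (n : ℝ) ^ 10 / (n : ℝ) ^ b := by
            apply div_le_div_of_nonneg_right _ (by positivity)
            apply mul_le_mul_of_nonneg_right _ (by positivity)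
            nlinarith
        _ = (26 * (1 + b) * (n : ℝ) ^ 5 / (n : ℝ) ^ (8 * c)) ^ 2 := by
            rw [hb8]; ring
    have hsq : Real.sqrt (((1 - 1 / A) ^ s + DD n ℓ q) * (4 * (n : ℝ) ^ 6)) ≤
        26 * (1 + b) * (n : ℝ) ^ 5 / (n : ℝ) ^ (8 * c) := by
      rw [Real.sqrt_le_left (by positivity)]
      exact hin
    have hbb : 676 * (b : ℝ) * (1 + b) ≤ (n : ℝ) ^ (4 * c) := by
      have h1 : 1 + (b : ℝ) ≤ 2 ^ (4 + c) := by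
        rw [pow_add, hbR]; linarith
      calc 676 * (b : ℝ) * (1 + b) ≤ 2 ^ 10 * 2 ^ (4 + c) * 2 ^ (4 + c) := by
            apply mul_le_mul _ h1 (by positivity) (by positivity)
            apply mul_le_mul (by norm_num) (by linarith) (by positivity) (by positivity)
        _ = 2 ^ (18 + 2 * c) := by rw [← pow_add, ← pow_add]; congr 1; ring
        _ ≤ 2 ^ (4 * c) := pow_le_pow_right₀ (by norm_num) (by omega)
        _ ≤ (n : ℝ) ^ (4 * c) := pow_le_pow_left₀ (by norm_num) hN _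
    calc 2 * (m : ℝ) * Real.sqrt (((1 - 1 / A) ^ s + DD n ℓ q) * (4 * (n : ℝ) ^ 6))
        ≤ 2 * (13 * b * (n : ℝ) ^ 3) * (26 * (1 + b) * (n : ℝ) ^ 5 / (n : ℝ) ^ (8 * c)) := by
          apply mul_le_mul _ hsq (Real.sqrt_nonneg _) (by positivity)
          linarith
      _ = (676 * b * (1 + b)) * (n : ℝ) ^ 8 / (n : ℝ) ^ (8 * c) := by ring
      _ ≤ (n : ℝ) ^ (4 * c) * (n : ℝ) ^ 8 / (n : ℝ) ^ (8 * c) := by
          apply div_le_div_of_nonneg_right _ (by positivity)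
          exact mul_le_mul_of_nonneg_right hbb (by positivity)
      _ ≤ 1 / (4 * (n : ℝ) ^ a) := by
          rw [div_le_div_iff₀ (by positivity) (by positivity), one_mul]
          calc (n : ℝ) ^ (4 * c) * (n : ℝ) ^ 8 * (4 * (n : ℝ) ^ a)
              ≤ (n : ℝ) ^ (4 * c) * (n : ℝ) ^ 8 * ((n : ℝ) ^ 2 * (n : ℝ) ^ a) := by
                apply mul_le_mul_of_nonneg_left _ (by positivity)
                apply mul_le_mul_of_nonneg_right _ (by positivity)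
                nlinarith
            _ = (n : ℝ) ^ (4 * c + 8 + 2 + a) := by rw [pow_add, pow_add, pow_add]; ring
            _ ≤ (n : ℝ) ^ (8 * c) := pow_le_pow_right₀ hN1 (by omega)
  have h4 : 1 / (n : ℝ) ^ a = 1 / (4 * (n : ℝ) ^ a) + (1 / (4 * (n : ℝ) ^ a) + 1 / (4 * (n : ℝ) ^ a) +
      1 / (4 * (n : ℝ) ^ a)) := by
    field_simp; norm_num
  rw [h4]
  unfold EL
  exact add_le_add hT1 (add_le_add (add_le_add hT2 hT3) hT4)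

end

end Pool.Agent.H40.SQ
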