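import Mathlib
import Pool.Agent.H40.SQ.Defs
import Pool.Agent.H40.SQ.HStep
import Pool.Agent.H40.SQ.HAdd
import Pool.Agent.H40.SQ.HCfg
import Pool.Agent.H40.SQ.HLat
import Pool.Agent.H40.SQ.HFlip

/-!
# HReach: the configurations reachable from the empty one are exactly `Om n`

`→`: `∅ ∈ Om n` and `flip_mem` (each move is a `flip`).
`←`: induction on `V γ = ∑_{(i,j)∈box n} |F γ i j|`.  If `V γ = 0` then `F γ = 0 = F ∅`, so `γ = ∅` (`F_inj`).  Otherwise define `h i j = 2 F γ i j + o i j`, `o i j = (i+j) % 2`;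
for adjacent faces `|h - h'| = 1` (check with `F_step`, `F_vstep`: if `(i,j)` is even the step of `F` to it is `0` or `1`, so the step of `h` is `-1` or `1`; odd: step `0` or `-1` of `F`, so `1` or `-1` of `h`).
If some `F γ i j ≥ 1` let `c` be a face of the box with maximal `h`; then `h c ≥ 2`, so `F γ c ≥ 1` (`F ≤ 0` would give `h ≤ 1`), and all four neighbours have `h = h c - 1` (outside the box `h ≤ 1 < h c`).
So the function `F γ - 1_c` is admissible (its `h` is lowered by 2 at `c`, all differences stay `±1`), `γ' = cfg n (F γ - 1_c)`, `flip c γ' = γ` (`flip_of_heights`), `γ' ∈ Om n`, `V γ' = V γ - 1`.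
If all `F γ ≤ 0` and some `F γ i j ≤ -1`: let `c` have minimal `h`, `h c ≤ -1`, all neighbours have `h = h c + 1`, and `F γ + 1_c` is admissible, `V` decreases by 1.
A move `flip c γ' = γ ≠ γ'` is a move of the relation in one of the two forms (definition of `flip`); reachability of `γ'` by induction.
-/

set_option autoImplicit false

namespace Pool.Agent.H40.SQ

noncomputable section

/-- One move of the chain. -/
def Move (n : ℕ) (γ γ' : Finset Edge) : Prop :=
  ∃ c ∈ box n, (sq c ∩ γ = ∅ ∧ γ' = γ ∪ sq c) ∨ (sq c ⊆ γ ∧ γ' = γ \ sq c)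

/-- total absolute height -/
def hreachV (n : ℕ) (γ : Finset Edge) : ℕ := ∑ x ∈ box n, (F γ x.1 x.2).natAbs

/-- the refined height -/
def hreachH (γ : Finset Edge) (i j : ℤ) : ℤ := 2 * F γ i j + (i + j) % 2

theorem hreach_d1 {n : ℕ} {γ : Finset Edge} (hγ : γ ∈ Om n) (i j : ℤ) :
    hreachH γ i j - hreachH γ (i - 1) j = 1 ∨ hreachH γ i j - hreachH γ (i - 1) j = -1 := by
  have h := ((val_F hγ).1 i j).1
  unfold hreachH
  unfold sgn at h
  split_ifs at h <;> omega

theorem hreach_d2 {n : ℕ} {γ : Finset Edge} (hγ : γ ∈ Om n) (i j : ℤ) :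
    hreachH γ i j - hreachH γ i (j - 1) = 1 ∨ hreachH γ i j - hreachH γ i (j - 1) = -1 := by
  have h := ((val_F hγ).1 i j).2
  unfold hreachH
  unfold sgn at h
  split_ifs at h <;> omega

theorem hreach_val {n : ℕ} {γ : Finset Edge} (hγ : γ ∈ Om n) {c : ℤ × ℤ} (hc : c ∈ box n)
    {σ : ℤ} (hσ : σ = 1 ∨ σ = -1)
    (n1 : hreachH γ (c.1 - 1) c.2 = hreachH γ c.1 c.2 - σ)
    (n2 : hreachH γ (c.1 + 1) c.2 = hreachH γ c.1 c.2 - σ)
    (n3 : hreachH γ c.1 (c.2 - 1) = hreachH γ c.1 c.2 - σ)
    (n4 : hreachH γ c.1 (c.2 + 1) = hreachH γ c.1 c.2 - σ) :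
    Val n (fun i j => F γ i j - if (i, j) = c then σ else 0) := by
  obtain ⟨a, b⟩ := c
  simp only at n1 n2 n3 n4
  unfold hreachH at n1 n2 n3 n4
  obtain ⟨hv, hout⟩ := val_F hγ
  refine ⟨?_, ?_⟩
  · intro i j
    simp only [Prod.mk.injEq]
    obtain ⟨h1, h2⟩ := hv i j
    unfold sgn at h1 h2 ⊢
    constructor
    · by_cases hj : j = b
      · subst hj
        by_cases hi : i = a
        · subst hi
          rw [if_pos ⟨rfl, rfl⟩, if_neg (by omega)]
          rcases hσ with hσ | hσ <;> subst hσ <;> split_ifs at h1 ⊢ <;> omega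
        · by_cases hi2 : i = a + 1
          · subst hi2
            rw [show a + 1 - 1 = a by ring] at h1 ⊢
            rw [if_neg (by omega), if_pos ⟨rfl, rfl⟩]
            rcases hσ with hσ | hσ <;> subst hσ <;> split_ifs at h1 ⊢ <;> omega
          · rw [if_neg (by omega), if_neg (by omega), sub_zero, sub_zero]
            exact h1
      · rw [if_neg (by omega), if_neg (by omega), sub_zero, sub_zero]
        exact h1
    · by_cases hi : i = a
      · subst hi
        by_cases hj : j = b
        · subst hj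
          rw [if_pos ⟨rfl, rfl⟩, if_neg (by omega)]
          rcases hσ with hσ | hσ <;> subst hσ <;> split_ifs at h2 ⊢ <;> omega
        · by_cases hj2 : j = b + 1
          · subst hj2
            rw [show b + 1 - 1 = b by ring] at h2 ⊢
            rw [if_neg (by omega), if_pos ⟨rfl, rfl⟩]
            rcases hσ with hσ | hσ <;> subst hσ <;> split_ifs at h2 ⊢ <;> omega
          · rw [if_neg (by omega), if_neg (by omega), sub_zero, sub_zero]
            exact h2
      · rw [if_neg (by omega), if_neg (by omega), sub_zero, sub_zero]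
        exact h2
  · intro i j hij
    simp only
    rw [hout i j hij, if_neg, sub_zero]
    intro h
    rw [h] at hij
    exact hij hc

theorem hreach_move {n : ℕ} {c : ℤ × ℤ} (hc : c ∈ box n) {γ γ' : Finset Edge}
    (h : flip c γ' = γ) (hne : γ ≠ γ') : Move n γ' γ := by
  refine ⟨c, hc, ?_⟩
  unfold flip at h
  split_ifs at h with h1 h2
  · exact Or.inl ⟨h1, h.symm⟩
  · exact Or.inr ⟨h2, h.symm⟩
  · exact absurd h.symm hne

theorem hreach_step {n : ℕ} {γ : Finset Edge} (hγ : γ ∈ Om n) {c : ℤ × ℤ} (hc : c ∈ box n)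
    {σ : ℤ} (hσ : σ = 1 ∨ σ = -1) (hF : 1 ≤ σ * F γ c.1 c.2)
    (hval : Val n (fun i j => F γ i j - if (i, j) = c then σ else 0)) :
    ∃ γ' ∈ Om n, hreachV n γ' < hreachV n γ ∧ Move n γ' γ := by
  set γ' : Finset Edge := cfg n (fun i j => F γ i j - if (i, j) = c then σ else 0) with hγ'
  have hmem : γ' ∈ Om n := cfg_mem hval
  have hFF : ∀ i j, F γ' i j = F γ i j - if (i, j) = c then σ else 0 := fun i j => F_cfg hval i j
  have hcc : F γ' c.1 c.2 = F γ c.1 c.2 - σ := by
    rw [hFF]
    simp
  have hoth : ∀ i j, (i, j) ≠ c → F γ' i j = F γ i j := by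
    intro i j h
    rw [hFF, if_neg h, sub_zero]
  have hne : γ ≠ γ' := by
    intro h
    rw [← h] at hcc
    rcases hσ with h | h <;> rw [h] at hcc <;> omega
  refine ⟨γ', hmem, ?_, ?_⟩
  · unfold hreachV
    refine Finset.sum_lt_sum ?_ ⟨c, hc, ?_⟩
    · intro x _
      by_cases hx : x = c
      · subst hx
        rw [hcc]
        rcases hσ with h | h <;> subst h <;> omega
      · rw [hoth x.1 x.2 hx]
    · rw [hcc]
      rcases hσ with h | h <;> subst h <;> omega
  · rcases hσ with h | h
    · refine hreach_move hc ?_ hne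
      refine flip_of_heights hc hmem hγ (fun i j hij => (hoth i j hij).symm) ?_
      rw [hcc, h]
      ring
    · refine hreach_move hc ?_ hne
      have h1 : flip c γ = γ' := by
        refine flip_of_heights hc hγ hmem hoth ?_
        rw [hcc, h]
        ring
      rw [← h1, flip_flip]

theorem hreach_exists {n : ℕ} {γ : Finset Edge} (hγ : γ ∈ Om n) (hne : γ ≠ ∅) :
    ∃ γ' ∈ Om n, hreachV n γ' < hreachV n γ ∧ Move n γ' γ := by
  have hemp : (∅ : Finset Edge) ∈ Om n := mem_Om.mpr ⟨Finset.empty_subset _, VC_empty⟩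
  have hF0 : ∀ i j, F (∅ : Finset Edge) i j = 0 := by
    intro i j
    unfold F
    refine Finset.sum_eq_zero fun k _ => ?_
    simp [ind]
  have hex : ∃ x ∈ box n, F γ x.1 x.2 ≠ 0 := by
    by_contra hcon
    push Not at hcon
    apply hne
    refine F_inj hγ hemp fun i j => ?_
    rw [hF0]
    by_cases h : (i, j) ∈ box n
    · exact hcon (i, j) h
    · exact F_supp hγ h
  have hout : ∀ i j, (i, j) ∉ box n → F γ i j = 0 := fun i j h => F_supp hγ h
  by_cases hpos : ∃ x ∈ box n, 1 ≤ F γ x.1 x.2
  · obtain ⟨x, hx, hx1⟩ := hpos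
    obtain ⟨c, hc, hmax⟩ := Finset.exists_max_image (box n) (fun x => hreachH γ x.1 x.2) ⟨x, hx⟩
    have h2 : 2 ≤ hreachH γ c.1 c.2 := by
      refine le_trans ?_ (hmax x hx)
      simp only [hreachH]
      omega
    have hle : ∀ i j, hreachH γ i j ≤ hreachH γ c.1 c.2 := by
      intro i j
      by_cases h : (i, j) ∈ box n
      · exact hmax (i, j) h
      · refine le_trans ?_ h2
        simp only [hreachH]
        rw [hout i j h]
        omega
    have hFc : 1 ≤ F γ c.1 c.2 := by
      simp only [hreachH] at h2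
      omega
    have n1 : hreachH γ (c.1 - 1) c.2 = hreachH γ c.1 c.2 - 1 := by
      have a1 := hreach_d1 hγ c.1 c.2
      have a2 := hle (c.1 - 1) c.2
      omega
    have n2 : hreachH γ (c.1 + 1) c.2 = hreachH γ c.1 c.2 - 1 := by
      have a1 := hreach_d1 hγ (c.1 + 1) c.2
      rw [show c.1 + 1 - 1 = c.1 by ring] at a1
      have a2 := hle (c.1 + 1) c.2
      omega
    have n3 : hreachH γ c.1 (c.2 - 1) = hreachH γ c.1 c.2 - 1 := by
      have a1 := hreach_d2 hγ c.1 c.2
      have a2 := hle c.1 (c.2 - 1)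
      omega
    have n4 : hreachH γ c.1 (c.2 + 1) = hreachH γ c.1 c.2 - 1 := by
      have a1 := hreach_d2 hγ c.1 (c.2 + 1)
      rw [show c.2 + 1 - 1 = c.2 by ring] at a1
      have a2 := hle c.1 (c.2 + 1)
      omega
    exact hreach_step hγ hc (Or.inl rfl) (by rw [one_mul]; exact hFc)
      (hreach_val hγ hc (Or.inl rfl) n1 n2 n3 n4)
  · push Not at hpos
    obtain ⟨x, hx, hx1⟩ := hex
    have hx2 : F γ x.1 x.2 ≤ -1 := by
      have := hpos x hx
      omega
    obtain ⟨c, hc, hmin⟩ := Finset.exists_min_image (box n) (fun x => hreachH γ x.1 x.2) ⟨x, hx⟩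
    have h2 : hreachH γ c.1 c.2 ≤ -1 := by
      refine le_trans (hmin x hx) ?_
      simp only [hreachH]
      omega
    have hle : ∀ i j, hreachH γ c.1 c.2 ≤ hreachH γ i j := by
      intro i j
      by_cases h : (i, j) ∈ box n
      · exact hmin (i, j) h
      · refine le_trans h2 ?_
        simp only [hreachH]
        rw [hout i j h]
        omega
    have hFc : F γ c.1 c.2 ≤ -1 := by
      simp only [hreachH] at h2
      omega
    have n1 : hreachH γ (c.1 - 1) c.2 = hreachH γ c.1 c.2 - (-1) := by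
      have a1 := hreach_d1 hγ c.1 c.2
      have a2 := hle (c.1 - 1) c.2
      omega
    have n2 : hreachH γ (c.1 + 1) c.2 = hreachH γ c.1 c.2 - (-1) := by
      have a1 := hreach_d1 hγ (c.1 + 1) c.2
      rw [show c.1 + 1 - 1 = c.1 by ring] at a1
      have a2 := hle (c.1 + 1) c.2
      omega
    have n3 : hreachH γ c.1 (c.2 - 1) = hreachH γ c.1 c.2 - (-1) := by
      have a1 := hreach_d2 hγ c.1 c.2
      have a2 := hle c.1 (c.2 - 1)
      omega
    have n4 : hreachH γ c.1 (c.2 + 1) = hreachH γ c.1 c.2 - (-1) := by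
      have a1 := hreach_d2 hγ c.1 (c.2 + 1)
      rw [show c.2 + 1 - 1 = c.2 by ring] at a1
      have a2 := hle c.1 (c.2 + 1)
      omega
    exact hreach_step hγ hc (Or.inr rfl) (by omega)
      (hreach_val hγ hc (Or.inr rfl) n1 n2 n3 n4)

theorem reach_iff {n : ℕ} {γ : Finset Edge} : Relation.ReflTransGen (Move n) ∅ γ ↔ γ ∈ Om n := by
  constructor
  · intro h
    induction h with
    | refl => exact mem_Om.mpr ⟨Finset.empty_subset _, VC_empty⟩
    | tail _ hm ih =>
      obtain ⟨c, hc, hm⟩ := hm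
      have h1 := flip_mem hc ih
      unfold flip at h1
      rcases hm with ⟨h2, h3⟩ | ⟨h2, h3⟩
      · rw [if_pos h2] at h1
        rw [h3]
        exact h1
      · rw [h3]
        rw [if_neg, if_pos h2] at h1
        · exact h1
        · rw [Finset.inter_eq_left.mpr h2]
          intro h4
          have := card_sq c
          rw [h4, Finset.card_empty] at this
          omega
  · have key : ∀ v : ℕ, ∀ γ : Finset Edge, hreachV n γ = v → γ ∈ Om n →
        Relation.ReflTransGen (Move n) ∅ γ := by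
      intro v
      induction v using Nat.strong_induction_on with
      | _ v ih =>
        intro γ hv hγ
        by_cases hne : γ = ∅
        · rw [hne]
        · obtain ⟨γ', h1, h2, h3⟩ := hreach_exists hγ hne
          exact (ih _ (hv ▸ h2) γ' rfl h1).tail h3
    intro hγ
    exact key _ γ rfl hγ

end

end Pool.Agent.H40.SQ
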