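import Mathlib
import Pool.Agent.H40.SQ.Defs
import Pool.Agent.H40.SQ.HFlip
import Pool.Agent.H40.SQ.CSa
import Pool.Agent.H40.SQ.HReach

/-!
# CKer: the law of the chain and the operator

* `PK_TP`: for `γ ∈ Om n` and every `g`: `∑_{γ'∈(E n).powerset} PK lam n γ γ' g γ' = TP lam n g γ`: for each square `c` the three cases of the definition give `rate (g(flip c γ) - g γ) + g γ` (`γ`, `flip c γ ∈ (E n).powerset`), and `∑_c 1/n^2 = 1` for `n ≥ 1`.
* `law_supp`: `law lam n γ₀ t γ = 0` for `γ ∉ Om n` if `γ₀ ∈ Om n`: induction; `PK γ γ' ≠ 0` with `γ ∈ Om n` implies `γ' = γ` or `γ' = flip c γ ∈ Om n`.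
* `law_TP`: `∑_{γ∈Om n} law lam n γ₀ t γ * g γ = (TP^t g) γ₀`: induction on `t` using `PK_TP` (`(TP^(t+1)) g = TP^t (TP g)`).
* `law_nonneg`, `law_sum`.
-/

set_option autoImplicit false

namespace Pool.Agent.H40.SQ

noncomputable section

/-- the transition at the square `c` -/
def ckerK (lam : ℝ) (c : ℤ × ℤ) (γ γ' : Finset Edge) : ℝ :=
  if sq c ∩ γ = ∅ then
        lam * (if γ' = γ ∪ sq c then (1 : ℝ) else 0) + (1 - lam) * (if γ' = γ then (1 : ℝ) else 0)
      else if sq c ⊆ γ then (if γ' = γ \ sq c then (1 : ℝ) else 0)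
      else (if γ' = γ then (1 : ℝ) else 0)

theorem cker_PK (lam : ℝ) (n : ℕ) (γ γ' : Finset Edge) :
    PK lam n γ γ' = ∑ c ∈ box n, (1 / (n : ℝ) ^ 2) * ckerK lam c γ γ' := rfl

theorem cker_sum (n : ℕ) (lam : ℝ) (g : Finset Edge → ℝ) {γ : Finset Edge} (hγ : γ ∈ Om n)
    {c : ℤ × ℤ} (hc : c ∈ box n) :
    ∑ γ' ∈ (E n).powerset, ckerK lam c γ γ' * g γ' =
      rate lam c γ * (g (flip c γ) - g γ) + g γ := by
  have hE : γ ∈ (E n).powerset := Finset.mem_powerset.2 (mem_Om.1 hγ).1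
  have hf : flip c γ ∈ (E n).powerset := Finset.mem_powerset.2 (mem_Om.1 (flip_mem hc hγ)).1
  unfold ckerK rate
  by_cases h1 : sq c ∩ γ = ∅
  · simp only [h1, if_true]
    have h2 : flip c γ = γ ∪ sq c := by
      unfold flip
      rw [if_pos h1]
    rw [h2] at hf ⊢
    have h3 : ∀ γ' ∈ (E n).powerset, (lam * (if γ' = γ ∪ sq c then (1 : ℝ) else 0) +
        (1 - lam) * (if γ' = γ then (1 : ℝ) else 0)) * g γ' =
        (if γ' = γ ∪ sq c then lam * g γ' else 0) +
        (if γ' = γ then (1 - lam) * g γ' else 0) := by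
      intro γ' _
      split_ifs <;> ring
    rw [Finset.sum_congr rfl h3, Finset.sum_add_distrib, Finset.sum_ite_eq', Finset.sum_ite_eq',
      if_pos hf, if_pos hE]
    ring
  · by_cases h2 : sq c ⊆ γ
    · simp only [h1, h2, if_true, if_false]
      have h3 : flip c γ = γ \ sq c := by
        unfold flip
        rw [if_neg h1, if_pos h2]
      rw [h3] at hf ⊢
      have h4 : ∀ γ' ∈ (E n).powerset, (if γ' = γ \ sq c then (1 : ℝ) else 0) * g γ' =
          (if γ' = γ \ sq c then g γ' else 0) := by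
        intro γ' _
        split_ifs <;> ring
      rw [Finset.sum_congr rfl h4, Finset.sum_ite_eq', if_pos hf]
      ring
    · simp only [h1, h2, if_false]
      have h3 : flip c γ = γ := by
        unfold flip
        rw [if_neg h1, if_neg h2]
      rw [h3]
      have h4 : ∀ γ' ∈ (E n).powerset, (if γ' = γ then (1 : ℝ) else 0) * g γ' =
          (if γ' = γ then g γ' else 0) := by
        intro γ' _
        split_ifs <;> ring
      rw [Finset.sum_congr rfl h4, Finset.sum_ite_eq', if_pos hE]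
      ring

theorem PK_zero (n : ℕ) (lam : ℝ) {γ γ' : Finset Edge} (hγ : γ ∈ Om n) (hγ' : γ' ∉ Om n) :
    PK lam n γ γ' = 0 := by
  rw [cker_PK]
  refine Finset.sum_eq_zero fun c hc => ?_
  have hf := flip_mem hc hγ
  have hne : γ' ≠ γ := fun h => hγ' (h ▸ hγ)
  have hne2 : γ' ≠ flip c γ := fun h => hγ' (h ▸ hf)
  have h0 : ckerK lam c γ γ' = 0 := by
    unfold ckerK
    by_cases h1 : sq c ∩ γ = ∅
    · have h2 : flip c γ = γ ∪ sq c := by
        unfold flip
        rw [if_pos h1]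
      rw [h2] at hne2
      rw [if_pos h1, if_neg hne2, if_neg hne]
      ring
    · by_cases h2 : sq c ⊆ γ
      · have h3 : flip c γ = γ \ sq c := by
          unfold flip
          rw [if_neg h1, if_pos h2]
        rw [h3] at hne2
        rw [if_neg h1, if_pos h2, if_neg hne2]
      · rw [if_neg h1, if_neg h2, if_neg hne]
  rw [h0, mul_zero]

theorem PK_nonneg (n : ℕ) (lam : ℝ) (h0 : 0 ≤ lam) (h1 : lam ≤ 1) (γ γ' : Finset Edge) :
    0 ≤ PK lam n γ γ' := by
  rw [cker_PK]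
  refine Finset.sum_nonneg fun c _ => mul_nonneg (by positivity) ?_
  unfold ckerK
  have h2 : 0 ≤ 1 - lam := by linarith
  split_ifs <;> simp <;> linarith

theorem PK_TP (n : ℕ) (hn : 1 ≤ n) (lam : ℝ) (g : Finset Edge → ℝ) {γ : Finset Edge} (hγ : γ ∈ Om n) :
    ∑ γ' ∈ (E n).powerset, PK lam n γ γ' * g γ' = TP lam n g γ := by
  have h1 : ∑ γ' ∈ (E n).powerset, PK lam n γ γ' * g γ' =
      ∑ c ∈ box n, (1 / (n : ℝ) ^ 2) * ∑ γ' ∈ (E n).powerset, ckerK lam c γ γ' * g γ' := by
    simp only [cker_PK, Finset.sum_mul, Finset.mul_sum]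
    rw [Finset.sum_comm]
    exact Finset.sum_congr rfl fun c _ => Finset.sum_congr rfl fun γ' _ => by ring
  rw [h1, csa_apply]
  have h2 : ∀ c ∈ box n, (1 / (n : ℝ) ^ 2) * ∑ γ' ∈ (E n).powerset, ckerK lam c γ γ' * g γ' =
      (1 / (n : ℝ) ^ 2) * (rate lam c γ * (g (flip c γ) - g γ)) + (1 / (n : ℝ) ^ 2) * g γ := by
    intro c hc
    rw [cker_sum n lam g hγ hc]
    ring
  rw [Finset.sum_congr rfl h2, Finset.sum_add_distrib, ← Finset.mul_sum, Finset.sum_const,
    nsmul_eq_mul, csa_box_card]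
  have hn0 : (n : ℝ) ≠ 0 := by
    have : (0 : ℝ) < n := by exact_mod_cast hn
    exact this.ne'
  field_simp
  ring

theorem law_supp (n : ℕ) (lam : ℝ) {γ₀ : Finset Edge} (h₀ : γ₀ ∈ Om n) (t : ℕ) {γ : Finset Edge}
    (hγ : γ ∉ Om n) : law lam n γ₀ t γ = 0 := by
  induction t generalizing γ with
  | zero =>
    simp only [law]
    rw [if_neg]
    exact fun h => hγ (h ▸ h₀)
  | succ t ih =>
    simp only [law]
    refine Finset.sum_eq_zero fun η _ => ?_
    by_cases h : η ∈ Om n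
    · rw [PK_zero n lam h hγ, mul_zero]
    · rw [ih h, zero_mul]

theorem law_TP (n : ℕ) (hn : 1 ≤ n) (lam : ℝ) {γ₀ : Finset Edge} (h₀ : γ₀ ∈ Om n) (t : ℕ)
    (g : Finset Edge → ℝ) : ∑ γ ∈ Om n, law lam n γ₀ t γ * g γ = ((TP lam n) ^ t) g γ₀ := by
  have hOE : Om n ⊆ (E n).powerset := fun η hη => Finset.mem_powerset.2 (mem_Om.1 hη).1
  induction t generalizing g with
  | zero =>
    simp only [law, pow_zero, Module.End.one_apply, ite_mul, one_mul, zero_mul]
    rw [Finset.sum_ite_eq', if_pos h₀]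
  | succ t ih =>
    rw [pow_succ, Module.End.mul_apply, ← ih]
    simp only [law, Finset.sum_mul]
    rw [Finset.sum_comm]
    rw [← Finset.sum_subset hOE]
    · refine Finset.sum_congr rfl fun η hη => ?_
      rw [← PK_TP n hn lam g hη, ← Finset.sum_subset hOE, Finset.mul_sum]
      · exact Finset.sum_congr rfl fun γ' _ => by ring
      · intro γ' _ h2
        rw [PK_zero n lam hη h2, zero_mul]
    · intro η _ h2
      refine Finset.sum_eq_zero fun γ' _ => ?_
      rw [law_supp n lam h₀ t h2]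
      ring

theorem law_nonneg (n : ℕ) (lam : ℝ) (h0 : 0 ≤ lam) (h1 : lam ≤ 1) (γ₀ : Finset Edge) (t : ℕ) (γ : Finset Edge) :
    0 ≤ law lam n γ₀ t γ := by
  induction t generalizing γ with
  | zero =>
    simp only [law]
    split_ifs <;> norm_num
  | succ t ih =>
    simp only [law]
    exact Finset.sum_nonneg fun η _ => mul_nonneg (ih η) (PK_nonneg n lam h0 h1 η γ)

end

end Pool.Agent.H40.SQ
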