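import Mathlib
import Pool.Agent.H40.SQ.Defs
import Pool.Agent.H40.SQ.HReach

/-!
# FDef: definitions of the final statements
-/

set_option autoImplicit false

namespace Pool.Agent.H40.SQ

noncomputable section

open Classical in
/-- The configurations reachable from the empty one. -/
def Reach (n : ℕ) : Finset (Finset Edge) := (E n).powerset.filter (fun γ => Relation.ReflTransGen (Move n) ∅ γ)

/-- The stationary distribution. -/
def piL (lam : ℝ) (n : ℕ) (γ : Finset Edge) : ℝ :=
  lam ^ ((γ.card : ℝ) / 4) / ∑ η ∈ Reach n, lam ^ ((η.card : ℝ) / 4)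

/-- Total variation distance on the reachable configurations. -/
def tv (n : ℕ) (μ ν : Finset Edge → ℝ) : ℝ := (1 / 2) * ∑ γ ∈ Reach n, |μ γ - ν γ|

/-- One step of the chain with parameter `lam`, acting on distributions. -/
def push (lam : ℝ) (n : ℕ) (μ : Finset Edge → ℝ) : Finset Edge → ℝ :=
  fun γ' => ∑ γ ∈ (E n).powerset, μ γ * PK lam n γ γ'

/-- The law at time `t` of the chain started from the empty configuration whose `i`-th step uses the parameter `Λ i`. -/
def lawS (Λ : ℕ → ℝ) (n : ℕ) : ℕ → Finset Edge → ℝ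
  | 0 => fun γ => if γ = ∅ then 1 else 0
  | t + 1 => push (Λ t) n (lawS Λ n t)

theorem Reach_eq (n : ℕ) : Reach n = Om n := by
  classical
  ext γ
  unfold Reach
  rw [Finset.mem_filter, Finset.mem_powerset, reach_iff]
  exact ⟨fun h => h.2, fun h => ⟨(mem_Om.1 h).1, h⟩⟩

theorem piL_eq (n : ℕ) (q lam : ℝ) (hq : q ^ 4 = lam) (hq0 : 0 < q) (γ : Finset Edge) :
    piL lam n γ = q ^ γ.card / Zn q n := by
  have h1 : ∀ c : ℕ, lam ^ ((c : ℝ) / 4) = q ^ c := by
    intro c
    rw [← hq, ← Real.rpow_natCast q 4, ← Real.rpow_mul hq0.le, ← Real.rpow_natCast q c]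
    congr 1
    push_cast
    ring
  unfold piL Zn
  rw [Reach_eq]
  simp only [h1]

end

end Pool.Agent.H40.SQ
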