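import Mathlib
import Pool.Agent.H40.SQ.Defs
import Pool.Agent.H40.SQ.FDef
import Pool.Agent.H40.SQ.AsP
import Pool.Agent.H40.SQ.AsPar
import Pool.Agent.H40.SQ.CKer

/-!
# FAvg: part (A)

Let `q = lam^(1/4)`, `q ≤ 1/1000` (`lam ≤ 10^(-12)`), `q^20 = lam^5`.  `Reach_eq`, `piL_eq`.  For `γ ∈ Om n` let `ψ γ η = 1` if `law lam n γ t η ≥ piL lam n η` (`η ∈ Om n`), else `0`.  Both `law lam n γ t` and `piL` have total mass 1 on `Om n` (`law_TP` with `g = 1`, `TP_const`), so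
`tv n (law ..) (piL ..) = ∑_{η∈Om n} ψ γ η (law η - piL η) = (TP^t)(ψ γ) γ - mean q n (ψ γ)` (`law_TP`).  Now `avg_P` with the parameters of `params a`, divided by `Zn q n`.
-/

set_option autoImplicit false

namespace Pool.Agent.H40.SQ

noncomputable section

private theorem fa_Zn_pos (n : ℕ) (q : ℝ) (hq0 : 0 < q) : 0 < Zn q n := by
  unfold Zn
  refine Finset.sum_pos (fun γ _ => pow_pos hq0 _) ⟨∅, ?_⟩
  rw [mem_Om]
  refine ⟨Finset.empty_subset _, ?_⟩
  intro i j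
  simp [ind]

private theorem fa_TP_one (n : ℕ) (lam : ℝ) (t : ℕ) :
    ((TP lam n) ^ t) (fun _ => (1 : ℝ)) = fun _ => 1 := by
  induction t with
  | zero => rfl
  | succ t ih => rw [pow_succ', Module.End.mul_apply, ih, TP_const]

/-- the total variation distance as a difference of expectations -/
private theorem fa_tv (n : ℕ) (μ ν : Finset Edge → ℝ) (h1 : ∑ η ∈ Om n, μ η = 1)
    (h2 : ∑ η ∈ Om n, ν η = 1) (ψ : Finset Edge → ℝ) (hψ : ∀ η, ψ η = if ν η ≤ μ η then 1 else 0) :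
    tv n μ ν = ∑ η ∈ Om n, μ η * ψ η - ∑ η ∈ Om n, ν η * ψ η := by
  unfold tv
  rw [Reach_eq]
  have h3 : ∑ η ∈ Om n, |μ η - ν η| = ∑ η ∈ Om n, (2 * (μ η * ψ η - ν η * ψ η) - (μ η - ν η)) := by
    refine Finset.sum_congr rfl fun η _ => ?_
    rw [hψ η]
    by_cases h : ν η ≤ μ η
    · rw [if_pos h, abs_of_nonneg (by linarith)]
      ring
    · rw [if_neg h, abs_of_neg (by linarith [not_le.1 h])]
      ring
  rw [h3, Finset.sum_sub_distrib, ← Finset.mul_sum, Finset.sum_sub_distrib, Finset.sum_sub_distrib,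
    h1, h2]
  ring

theorem average_mixing (a : ℕ) : ∃ k : ℕ, ∀ n : ℕ, 2 ≤ n → ∀ lam : ℝ, 0 < lam → lam ≤ 1 / 10 ^ 12 → ∀ t : ℕ,
    (n : ℝ) ^ k ≤ lam ^ 5 * t →
    ∑ γ ∈ Reach n, piL lam n γ * tv n (law lam n γ t) (piL lam n) ≤ 1 / (n : ℝ) ^ a := by
  obtain ⟨k, hk⟩ := params a
  refine ⟨k, fun n hn lam hlam0 hlam1 t ht => ?_⟩
  set q : ℝ := lam ^ ((1 : ℝ) / 4) with hqdef
  have hq0 : 0 < q := Real.rpow_pos_of_pos hlam0 _
  have hq : q ^ 4 = lam := by
    rw [hqdef, ← Real.rpow_natCast, ← Real.rpow_mul hlam0.le]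
    norm_num
  have hq1 : q ≤ 1 / 1000 := by
    by_contra hcon
    have h1 : (1 / 1000 : ℝ) < q := not_le.1 hcon
    have h2 : ((1 / 1000 : ℝ)) ^ 4 < q ^ 4 := pow_lt_pow_left₀ h1 (by norm_num) (by norm_num)
    rw [hq] at h2
    norm_num at h2 hlam1
    linarith
  have hq20 : q ^ 20 = lam ^ 5 := by
    rw [← hq, ← pow_mul]
  obtain ⟨ℓ, s, m, h⟩ := hk n hn q hq0 hq1 t (by rw [hq20]; exact ht)
  rw [hq] at h
  have hZ := fa_Zn_pos n q hq0
  have hn1 : 1 ≤ n := by omega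
  let ψ : Finset Edge → Finset Edge → ℝ := fun γ η =>
    if piL lam n η ≤ law lam n γ t η then 1 else 0
  have hpi : ∀ η, piL lam n η = q ^ η.card / Zn q n := fun η => piL_eq n q lam hq hq0 η
  have hpisum : ∑ η ∈ Om n, piL lam n η = 1 := by
    rw [Finset.sum_congr rfl fun η _ => hpi η, ← Finset.sum_div]
    exact div_self hZ.ne'
  have havg := avg_P n ℓ hn q lam hq hq0 hq1 t s m ψ (by
    intro γ _ η _
    show 0 ≤ (if piL lam n η ≤ law lam n γ t η then (1 : ℝ) else 0) ∧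
      (if piL lam n η ≤ law lam n γ t η then (1 : ℝ) else 0) ≤ 1
    split_ifs <;> norm_num)
  have htv : ∀ γ ∈ Om n, tv n (law lam n γ t) (piL lam n) =
      ((TP lam n) ^ t) (ψ γ) γ - mean q n (ψ γ) := by
    intro γ hγ
    have hlaw1 : ∑ η ∈ Om n, law lam n γ t η = 1 := by
      have h1 := law_TP n hn1 lam hγ t (fun _ => 1)
      rw [fa_TP_one] at h1
      simpa using h1
    rw [fa_tv n (law lam n γ t) (piL lam n) hlaw1 hpisum (ψ γ) (fun η => rfl),
      law_TP n hn1 lam hγ t (ψ γ)]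
    congr 1
    unfold mean
    rw [Finset.sum_div]
    refine Finset.sum_congr rfl fun η _ => ?_
    rw [hpi]
    ring
  rw [Reach_eq]
  calc ∑ γ ∈ Om n, piL lam n γ * tv n (law lam n γ t) (piL lam n)
      = (∑ γ ∈ Om n, q ^ γ.card * (((TP lam n) ^ t) (ψ γ) γ - mean q n (ψ γ))) / Zn q n := by
        rw [Finset.sum_div]
        refine Finset.sum_congr rfl fun γ hγ => ?_
        rw [htv γ hγ, hpi]
        ring
    _ ≤ (∑ γ ∈ Om n, q ^ γ.card * |((TP lam n) ^ t) (ψ γ) γ - mean q n (ψ γ)|) / Zn q n := by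
        refine div_le_div_of_nonneg_right ?_ hZ.le
        refine Finset.sum_le_sum fun γ _ => ?_
        exact mul_le_mul_of_nonneg_left (le_abs_self _) (pow_pos hq0 _).le
    _ ≤ 1 / (n : ℝ) ^ a := by
        rw [div_le_iff₀ hZ]
        exact havg.trans (mul_le_mul_of_nonneg_right h hZ.le)

end

end Pool.Agent.H40.SQ
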