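import Mathlib
import Pool.Agent.H40.SQ.Defs
import Pool.Agent.H40.SQ.FDef
import Pool.Agent.H40.SQ.CKer

/-!
# NPush: the chain acting on distributions

`μ`, `ν` vanish outside `Om n`.
* `push_supp`: `push lam n μ` vanishes outside `Om n` (as in `law_supp`: `PK lam n γ γ' = 0` for `γ ∈ Om n`, `γ' ∉ Om n`; apply `law_supp` at `t = 1` or argue directly).
* `push_tv`: `∑_{γ'} |∑_γ (μ γ - ν γ) PK γ γ'| ≤ ∑_γ |μ γ - ν γ| ∑_{γ'} PK γ γ' = ∑_γ |μ γ - ν γ|` (`PK ≥ 0` for `0 ≤ lam ≤ 1`, rows sum to 1 by `PK_TP` with `g = 1`).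
* `push_iter`: `(push lam n)^[t] μ γ' = ∑_{γ∈Om n} μ γ * law lam n γ t γ'`: induction on `t` (`law` is defined with the same recursion).
* `push_pi`: `push lam n (piL lam n) = piL lam n` on `Om n`, where `piL` is replaced by `0` outside `Om n` (function `piO`): by `PK_TP`, `TP_sa` with `h = ` indicator of `γ'`: `∑_γ π γ PK γ γ' = ∑_γ π γ TP(1_{γ'}) γ = ∑_γ π γ 1_{γ'}(γ)`.
-/

set_option autoImplicit false

namespace Pool.Agent.H40.SQ

noncomputable section

open Classical in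
/-- The stationary distribution extended by zero. -/
def piO (lam : ℝ) (n : ℕ) (γ : Finset Edge) : ℝ := if γ ∈ Om n then piL lam n γ else 0

theorem push_supp (n : ℕ) (lam : ℝ) (μ : Finset Edge → ℝ) (hμ : ∀ γ, γ ∉ Om n → μ γ = 0) :
    ∀ γ, γ ∉ Om n → push lam n μ γ = 0 := by
  intro γ' hγ'
  unfold push
  refine Finset.sum_eq_zero fun γ _ => ?_
  by_cases h : γ ∈ Om n
  · rw [PK_zero n lam h hγ', mul_zero]
  · rw [hμ γ h, zero_mul]

theorem push_tv (n : ℕ) (hn : 1 ≤ n) (lam : ℝ) (h0 : 0 ≤ lam) (h1 : lam ≤ 1) (μ ν : Finset Edge → ℝ)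
    (hμ : ∀ γ, γ ∉ Om n → μ γ = 0) (hν : ∀ γ, γ ∉ Om n → ν γ = 0) :
    tv n (push lam n μ) (push lam n ν) ≤ tv n μ ν := by
  have hOE : Om n ⊆ (E n).powerset := fun η hη => Finset.mem_powerset.2 (mem_Om.1 hη).1
  unfold tv
  rw [Reach_eq]
  refine mul_le_mul_of_nonneg_left ?_ (by norm_num)
  have hrow : ∀ γ ∈ Om n, ∑ γ' ∈ Om n, PK lam n γ γ' = 1 := by
    intro γ hγ
    have h2 := PK_TP n hn lam (fun _ => 1) hγ
    rw [TP_const] at h2
    simp only [mul_one] at h2
    rw [← h2]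
    exact Finset.sum_subset hOE fun γ' _ h3 => PK_zero n lam hγ h3
  have hdiff : ∀ γ', push lam n μ γ' - push lam n ν γ' =
      ∑ γ ∈ Om n, (μ γ - ν γ) * PK lam n γ γ' := by
    intro γ'
    unfold push
    rw [← Finset.sum_sub_distrib]
    symm
    have h3 : ∀ γ ∈ (E n).powerset, μ γ * PK lam n γ γ' - ν γ * PK lam n γ γ' =
        (μ γ - ν γ) * PK lam n γ γ' := fun γ _ => by ring
    rw [Finset.sum_congr rfl h3]
    refine Finset.sum_subset hOE fun γ _ h2 => ?_
    rw [hμ γ h2, hν γ h2]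
    ring
  calc ∑ γ' ∈ Om n, |push lam n μ γ' - push lam n ν γ'|
      ≤ ∑ γ' ∈ Om n, ∑ γ ∈ Om n, |μ γ - ν γ| * PK lam n γ γ' := by
        refine Finset.sum_le_sum fun γ' _ => ?_
        rw [hdiff]
        refine (Finset.abs_sum_le_sum_abs _ _).trans (Finset.sum_le_sum fun γ _ => ?_)
        rw [abs_mul, abs_of_nonneg (PK_nonneg n lam h0 h1 γ γ')]
    _ = ∑ γ ∈ Om n, |μ γ - ν γ| * ∑ γ' ∈ Om n, PK lam n γ γ' := by
        rw [Finset.sum_comm]
        exact Finset.sum_congr rfl fun γ _ => by rw [Finset.mul_sum]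
    _ = ∑ γ ∈ Om n, |μ γ - ν γ| := by
        refine Finset.sum_congr rfl fun γ hγ => ?_
        rw [hrow γ hγ, mul_one]

theorem push_iter (n : ℕ) (lam : ℝ) (μ : Finset Edge → ℝ) (hμ : ∀ γ, γ ∉ Om n → μ γ = 0) (t : ℕ)
    (γ' : Finset Edge) : ((push lam n)^[t]) μ γ' = ∑ γ ∈ Om n, μ γ * law lam n γ t γ' := by
  induction t generalizing γ' with
  | zero =>
    simp only [Function.iterate_zero, id_eq, law, mul_ite, mul_one, mul_zero]
    rw [Finset.sum_ite_eq]
    split_ifs with h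
    · rfl
    · exact hμ γ' h
  | succ t ih =>
    rw [Function.iterate_succ_apply']
    simp only [law]
    have h1 : push lam n ((push lam n)^[t] μ) γ' =
        ∑ η ∈ (E n).powerset, ((push lam n)^[t] μ) η * PK lam n η γ' := rfl
    rw [h1]
    simp only [ih, Finset.sum_mul, Finset.mul_sum]
    rw [Finset.sum_comm]
    exact Finset.sum_congr rfl fun γ _ => Finset.sum_congr rfl fun η _ => by ring

theorem push_pi (n : ℕ) (hn : 1 ≤ n) (lam : ℝ) (h0 : 0 < lam) (h1 : lam ≤ 1) :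
    push lam n (piO lam n) = piO lam n := by
  classical
  have hOE : Om n ⊆ (E n).powerset := fun η hη => Finset.mem_powerset.2 (mem_Om.1 hη).1
  have hsupp : ∀ γ, γ ∉ Om n → piO lam n γ = 0 := by
    intro γ hγ
    unfold piO
    rw [if_neg hγ]
  funext γ'
  by_cases hγ' : γ' ∈ Om n
  · obtain ⟨q, hq0, hq⟩ : ∃ q : ℝ, 0 < q ∧ q ^ 4 = lam := by
      refine ⟨lam ^ ((1 : ℝ) / 4), Real.rpow_pos_of_pos h0 _, ?_⟩
      rw [← Real.rpow_natCast, ← Real.rpow_mul h0.le]
      norm_num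
    have e1 : push lam n (piO lam n) γ' = ∑ γ ∈ Om n, piO lam n γ * PK lam n γ γ' := by
      unfold push
      symm
      refine Finset.sum_subset hOE fun γ _ h2 => ?_
      rw [hsupp γ h2, zero_mul]
    have e2 : ∀ γ ∈ Om n, piO lam n γ * PK lam n γ γ' =
        (1 / Zn q n) * (q ^ γ.card * TP lam n (fun η => if η = γ' then 1 else 0) γ *
          (fun _ => (1 : ℝ)) γ) := by
      intro γ hγ
      have h3 := PK_TP n hn lam (fun η => if η = γ' then 1 else 0) hγ
      simp only [mul_ite, mul_one, mul_zero] at h3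
      rw [Finset.sum_ite_eq', if_pos (hOE hγ')] at h3
      unfold piO
      rw [if_pos hγ, piL_eq n q lam hq hq0, h3]
      simp only
      ring
    have e3 := TP_sa n q lam hq (fun η => if η = γ' then 1 else 0) (fun _ => (1 : ℝ))
    rw [TP_const] at e3
    rw [e1, Finset.sum_congr rfl e2, ← Finset.mul_sum, e3]
    have e4 : ∑ γ ∈ Om n, q ^ γ.card * (fun η => if η = γ' then (1 : ℝ) else 0) γ *
        (fun _ => (1 : ℝ)) γ = q ^ γ'.card := by
      simp only [mul_ite, mul_one, mul_zero]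
      rw [Finset.sum_ite_eq', if_pos hγ']
    rw [e4]
    unfold piO
    rw [if_pos hγ', piL_eq n q lam hq hq0]
    ring
  · rw [hsupp γ' hγ']
    exact push_supp n lam _ hsupp γ' hγ'

end

end Pool.Agent.H40.SQ
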