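import Mathlib
import Pool.Agent.H40.SQ.Defs
import Pool.Agent.H40.SQ.NPush
import Pool.Agent.H40.SQ.FAvg
import Pool.Agent.H40.SQ.CBig

/-!
# NWarm: comparison of nearby parameters; the first parameter

* `pi_ratio`: `lam1 ≤ lam2 ≤ lam1 (1 + 1/n^2)`: `piL lam1 γ / piL lam2 γ = (lam1/lam2)^(card/4) Z(lam2)/Z(lam1) ≤ Z(lam2)/Z(lam1) ≤ (1+1/n^2)^(n^2) ≤ e ≤ 3`, since every `η ∈ Om n` has `η.card/4 ≤ (E n).card/4 ≤ 2n(n+1)/4 ≤ n^2` and `lam2^(card/4) ≤ lam1^(card/4) (1+1/n^2)^(card/4)`.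
* `first_step`: for `lam ≤ 1/(10^10 n^12)`: `q = lam^(1/4) ≤ 1/(316 n^3)`; `tv(δ_∅, piO) = 1 - piL ∅ = ∑_{γ≠∅} piL γ ≤ (E n).card * 18 q ≤ 3 n^2 * 18/(316 n^3) ≤ 1/(4n)` by `big_bound` with `ℓ = 0` (`Pol n 0 = ∅`, so the image of `U` on `St (Pol n 0) inc` is `{∅}`).
* `warm_step`: `tv(push^[t] (piO lam1), piO lam2) ≤ ∑_γ piO lam1 γ tv(law lam2 n γ t, piL lam2) ≤ 3 ∑_γ piL lam2 γ tv(...)` (`push_iter`, triangle inequality, `∑ piO lam1 = 1`).
-/

set_option autoImplicit false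

namespace Pool.Agent.H40.SQ

noncomputable section

theorem nwarm_empty_mem (n : ℕ) : (∅ : Finset Edge) ∈ Reach n := by
  rw [Reach_eq]
  exact mem_Om.mpr ⟨Finset.empty_subset _, VC_empty⟩

theorem nwarm_Z_pos (n : ℕ) {lam : ℝ} (h : 0 < lam) :
    0 < ∑ η ∈ Reach n, lam ^ ((η.card : ℝ) / 4) :=
  Finset.sum_pos (fun _ _ => Real.rpow_pos_of_pos h _) ⟨∅, nwarm_empty_mem n⟩

theorem nwarm_nonneg (n : ℕ) {lam : ℝ} (h : 0 < lam) (γ : Finset Edge) : 0 ≤ piL lam n γ := by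
  unfold piL
  exact div_nonneg (Real.rpow_nonneg h.le _) (nwarm_Z_pos n h).le

theorem nwarm_sum_one (n : ℕ) {lam : ℝ} (h : 0 < lam) : ∑ γ ∈ Reach n, piL lam n γ = 1 := by
  unfold piL
  rw [← Finset.sum_div]
  exact div_self (nwarm_Z_pos n h).ne'

theorem nwarm_card_E (n : ℕ) : (E n).card ≤ 4 * n ^ 2 := by
  unfold E
  refine Finset.card_biUnion_le.trans ?_
  have h1 : ∀ c ∈ box n, (sq c).card ≤ 4 := by
    intro c _
    unfold sq
    exact Finset.card_le_four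
  refine (Finset.sum_le_sum h1).trans ?_
  rw [Finset.sum_const, smul_eq_mul]
  unfold box
  rw [Finset.card_product, Int.card_Ico]
  simp only [sub_zero, Int.toNat_natCast]
  nlinarith

theorem pi_ratio (n : ℕ) (hn : 1 ≤ n) (lam1 lam2 : ℝ) (h0 : 0 < lam1) (h12 : lam1 ≤ lam2)
    (h21 : lam2 ≤ lam1 * (1 + 1 / (n : ℝ) ^ 2)) : ∀ γ ∈ Om n, piL lam1 n γ ≤ 3 * piL lam2 n γ := by
  intro γ _
  have h02 : 0 < lam2 := lt_of_lt_of_le h0 h12
  have hnpos : (0 : ℝ) < n := by exact_mod_cast hn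
  have hZ1 := nwarm_Z_pos n h0
  have hZ2 := nwarm_Z_pos n h02
  have hZ : ∑ η ∈ Reach n, lam2 ^ ((η.card : ℝ) / 4) ≤
      3 * ∑ η ∈ Reach n, lam1 ^ ((η.card : ℝ) / 4) := by
    rw [Finset.mul_sum]
    refine Finset.sum_le_sum fun η hη => ?_
    rw [Reach_eq] at hη
    have hd : (η.card : ℝ) / 4 ≤ (n : ℝ) ^ 2 := by
      have h1 : η.card ≤ 4 * n ^ 2 :=
        (Finset.card_le_card (mem_Om.mp hη).1).trans (nwarm_card_E n)
      have h2 : (η.card : ℝ) ≤ 4 * (n : ℝ) ^ 2 := by exact_mod_cast h1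
      linarith
    have hd0 : (0 : ℝ) ≤ (η.card : ℝ) / 4 := by positivity
    have hb : (1 + 1 / (n : ℝ) ^ 2) ^ ((η.card : ℝ) / 4) ≤ 3 := by
      have h1 : 1 + 1 / (n : ℝ) ^ 2 ≤ Real.exp (1 / (n : ℝ) ^ 2) := by
        have := Real.add_one_le_exp (1 / (n : ℝ) ^ 2)
        linarith
      calc (1 + 1 / (n : ℝ) ^ 2) ^ ((η.card : ℝ) / 4)
          ≤ (Real.exp (1 / (n : ℝ) ^ 2)) ^ ((η.card : ℝ) / 4) :=
            Real.rpow_le_rpow (by positivity) h1 hd0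
        _ = Real.exp (1 / (n : ℝ) ^ 2 * ((η.card : ℝ) / 4)) := by
            rw [← Real.exp_mul]
        _ ≤ Real.exp 1 := by
            apply Real.exp_le_exp.mpr
            rw [one_div, inv_mul_le_iff₀ (by positivity), mul_one]
            exact hd
        _ ≤ 3 := by
            have := Real.exp_one_lt_d9
            linarith
    calc lam2 ^ ((η.card : ℝ) / 4) ≤ (lam1 * (1 + 1 / (n : ℝ) ^ 2)) ^ ((η.card : ℝ) / 4) :=
          Real.rpow_le_rpow h02.le h21 hd0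
      _ = lam1 ^ ((η.card : ℝ) / 4) * (1 + 1 / (n : ℝ) ^ 2) ^ ((η.card : ℝ) / 4) :=
          Real.mul_rpow h0.le (by positivity)
      _ ≤ lam1 ^ ((η.card : ℝ) / 4) * 3 :=
          mul_le_mul_of_nonneg_left hb (Real.rpow_nonneg h0.le _)
      _ = 3 * lam1 ^ ((η.card : ℝ) / 4) := by ring
  unfold piL
  have h1 : lam1 ^ ((γ.card : ℝ) / 4) ≤ lam2 ^ ((γ.card : ℝ) / 4) :=
    Real.rpow_le_rpow h0.le h12 (by positivity)
  have h2 : 0 ≤ lam2 ^ ((γ.card : ℝ) / 4) := Real.rpow_nonneg h02.le _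
  rw [← mul_div_assoc, div_le_div_iff₀ hZ1 hZ2]
  calc lam1 ^ ((γ.card : ℝ) / 4) * ∑ η ∈ Reach n, lam2 ^ ((η.card : ℝ) / 4)
      ≤ lam2 ^ ((γ.card : ℝ) / 4) * ∑ η ∈ Reach n, lam2 ^ ((η.card : ℝ) / 4) :=
        mul_le_mul_of_nonneg_right h1 hZ2.le
    _ ≤ lam2 ^ ((γ.card : ℝ) / 4) * (3 * ∑ η ∈ Reach n, lam1 ^ ((η.card : ℝ) / 4)) :=
        mul_le_mul_of_nonneg_left hZ h2
    _ = 3 * lam2 ^ ((γ.card : ℝ) / 4) * ∑ η ∈ Reach n, lam1 ^ ((η.card : ℝ) / 4) := by ring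

open Classical in
theorem nwarm_image (n : ℕ) : (St (Pol n 0) inc).image U = {∅} := by
  have h1 : Pol n 0 = ∅ := by
    rw [Finset.eq_empty_iff_forall_notMem]
    intro κ hκ
    obtain ⟨_, h2, _, _, h3⟩ := mem_Pol.mp hκ
    have := Finset.card_pos.mpr h2
    omega
  have h2 : St (Pol n 0) inc = {∅} := by
    ext X
    rw [mem_St, h1, Finset.subset_empty, Finset.mem_singleton]
    constructor
    · exact fun h => h.1
    · intro h
      refine ⟨h, ?_⟩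
      rw [h]
      intro a ha
      exact absurd ha (Finset.notMem_empty a)
  rw [h2, Finset.image_singleton]
  rfl

open Classical in
theorem first_step (n : ℕ) (hn : 2 ≤ n) (lam : ℝ) (h0 : 0 < lam) (h1 : lam ≤ 1 / (10 ^ 10 * (n : ℝ) ^ 12)) :
    tv n (fun γ => if γ = ∅ then 1 else 0) (piO lam n) ≤ 1 / (4 * (n : ℝ)) := by
  have hnpos : (0 : ℝ) < n := by
    have : 0 < n := by omega
    exact_mod_cast this
  set q : ℝ := lam ^ ((1 : ℝ) / 4) with hq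
  have hq0 : 0 < q := Real.rpow_pos_of_pos h0 _
  have hq4 : q ^ 4 = lam := by
    rw [hq, ← Real.rpow_natCast, ← Real.rpow_mul h0.le]
    norm_num
  have hqle : q ≤ 1 / (316 * (n : ℝ) ^ 3) := by
    have h2 : q ^ 4 ≤ (1 / (316 * (n : ℝ) ^ 3)) ^ 4 := by
      rw [hq4]
      refine h1.trans ?_
      rw [div_pow, one_pow, mul_pow, ← pow_mul]
      apply one_div_le_one_div_of_le (by positivity)
      have : (0 : ℝ) ≤ (n : ℝ) ^ (3 * 4) := by positivity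
      have e : (n : ℝ) ^ (3 * 4) = (n : ℝ) ^ 12 := by norm_num
      rw [e] at this ⊢
      refine mul_le_mul_of_nonneg_right ?_ this
      norm_num
    exact (pow_le_pow_iff_left₀ hq0.le (by positivity) (by norm_num)).mp h2
  have hn2 : (2 : ℝ) ≤ n := by exact_mod_cast hn
  have hq18 : 18 * q ≤ 1 := by
    have h2 : 1 / (316 * (n : ℝ) ^ 3) ≤ 1 / 18 := by
      apply one_div_le_one_div_of_le (by norm_num)
      have : (8 : ℝ) ≤ (n : ℝ) ^ 3 := by
        calc (8 : ℝ) = 2 ^ 3 := by norm_num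
          _ ≤ (n : ℝ) ^ 3 := pow_le_pow_left₀ (by norm_num) hn2 3
      linarith
    linarith
  have hZ : Zn q n = ∑ γ ∈ Om n, q ^ γ.card := rfl
  have hZpos : 0 < Zn q n := by
    rw [hZ]
    refine Finset.sum_pos (fun η _ => by positivity) ⟨∅, ?_⟩
    rw [← Reach_eq]
    exact nwarm_empty_mem n
  have hbig := big_bound n 0 q hq0 hq18
  rw [nwarm_image] at hbig
  have hrest : ∑ γ ∈ (Om n).filter (fun γ => γ ≠ ∅), piL lam n γ ≤ 1 / (4 * (n : ℝ)) := by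
    have e1 : ∑ γ ∈ (Om n).filter (fun γ => γ ≠ ∅), piL lam n γ =
        (∑ γ ∈ (Om n).filter (fun γ => γ ∉ ({∅} : Finset (Finset Edge))), q ^ γ.card) / Zn q n := by
      rw [Finset.sum_div]
      refine Finset.sum_congr ?_ fun γ _ => piL_eq n q lam hq4 hq0 γ
      ext γ
      simp
    rw [e1, div_le_iff₀ hZpos]
    refine hbig.trans ?_
    rw [← hZ]
    have hE : ((E n).card : ℝ) ≤ 4 * (n : ℝ) ^ 2 := by exact_mod_cast nwarm_card_E n
    have h3 : ((E n).card : ℝ) * (18 * q) ^ (0 + 1) ≤ 1 / (4 * (n : ℝ)) := by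
      rw [zero_add, pow_one]
      calc ((E n).card : ℝ) * (18 * q) ≤ (4 * (n : ℝ) ^ 2) * (18 * (1 / (316 * (n : ℝ) ^ 3))) :=
            mul_le_mul hE (by linarith) (by positivity) (by positivity)
        _ = (72 / 316) * (1 / n) := by field_simp; norm_num
        _ ≤ (1 / 4) * (1 / n) := mul_le_mul_of_nonneg_right (by norm_num) (by positivity)
        _ = 1 / (4 * (n : ℝ)) := by field_simp
    exact mul_le_mul_of_nonneg_right h3 hZpos.le
  have hsum := nwarm_sum_one n h0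
  rw [Reach_eq] at hsum
  have hempty : (∅ : Finset Edge) ∈ Om n := by
    rw [← Reach_eq]
    exact nwarm_empty_mem n
  have hsplit : ∀ f : Finset Edge → ℝ, ∑ γ ∈ Om n, f γ =
      f ∅ + ∑ γ ∈ (Om n).filter (fun γ => γ ≠ ∅), f γ := by
    intro f
    rw [← Finset.sum_filter_add_sum_filter_not (Om n) (fun γ => γ = ∅) f]
    congr 1
    rw [Finset.sum_filter, Finset.sum_ite_eq' (Om n) ∅ f, if_pos hempty]
  rw [hsplit] at hsum
  unfold tv
  rw [Reach_eq, hsplit]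
  have e2 : ∀ γ ∈ (Om n).filter (fun γ => γ ≠ ∅),
      |(if γ = ∅ then (1 : ℝ) else 0) - piO lam n γ| = piL lam n γ := by
    intro γ hγ
    rw [Finset.mem_filter] at hγ
    unfold piO
    rw [if_neg hγ.2, if_pos hγ.1, zero_sub, abs_neg, abs_of_nonneg (nwarm_nonneg n h0 γ)]
  rw [Finset.sum_congr rfl e2]
  have e3 : |(if (∅ : Finset Edge) = ∅ then (1 : ℝ) else 0) - piO lam n ∅| =
      ∑ γ ∈ (Om n).filter (fun γ => γ ≠ ∅), piL lam n γ := by
    unfold piO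
    rw [if_pos rfl, if_pos hempty]
    have h5 : 1 - piL lam n ∅ = ∑ γ ∈ (Om n).filter (fun γ => γ ≠ ∅), piL lam n γ := by
      linarith
    rw [h5, abs_of_nonneg (Finset.sum_nonneg fun γ _ => nwarm_nonneg n h0 γ)]
  rw [e3]
  linarith

theorem warm_step (n : ℕ) (hn : 2 ≤ n) (lam1 lam2 : ℝ) (h0 : 0 < lam1) (h12 : lam1 ≤ lam2) (h2 : lam2 ≤ 1)
    (h21 : lam2 ≤ lam1 * (1 + 1 / (n : ℝ) ^ 2)) (t : ℕ) :
    tv n (((push lam2 n)^[t]) (piO lam1 n)) (piO lam2 n) ≤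
      3 * ∑ γ ∈ Reach n, piL lam2 n γ * tv n (law lam2 n γ t) (piL lam2 n) := by
  have h02 : 0 < lam2 := lt_of_lt_of_le h0 h12
  have hpi : ∀ γ, γ ∉ Om n → piO lam1 n γ = 0 := by
    intro γ hγ
    unfold piO
    rw [if_neg hγ]
  have hin : ∀ lam : ℝ, ∀ γ ∈ Om n, piO lam n γ = piL lam n γ := by
    intro lam γ hγ
    unfold piO
    rw [if_pos hγ]
  have hsum := nwarm_sum_one n h0
  rw [Reach_eq] at hsum
  have hpoint : ∀ γ' ∈ Om n, |((push lam2 n)^[t]) (piO lam1 n) γ' - piO lam2 n γ'| ≤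
      ∑ γ ∈ Om n, piL lam1 n γ * |law lam2 n γ t γ' - piL lam2 n γ'| := by
    intro γ' hγ'
    rw [push_iter n lam2 (piO lam1 n) hpi t γ', hin lam2 γ' hγ']
    have e1 : ∑ γ ∈ Om n, piO lam1 n γ * law lam2 n γ t γ' - piL lam2 n γ' =
        ∑ γ ∈ Om n, piL lam1 n γ * (law lam2 n γ t γ' - piL lam2 n γ') := by
      have e2 : ∑ γ ∈ Om n, piL lam1 n γ * (law lam2 n γ t γ' - piL lam2 n γ') =
          ∑ γ ∈ Om n, piL lam1 n γ * law lam2 n γ t γ' -
            (∑ γ ∈ Om n, piL lam1 n γ) * piL lam2 n γ' := by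
        rw [Finset.sum_mul, ← Finset.sum_sub_distrib]
        exact Finset.sum_congr rfl fun γ _ => by ring
      rw [e2, hsum, one_mul]
      congr 1
      exact Finset.sum_congr rfl fun γ hγ => by rw [hin lam1 γ hγ]
    rw [e1]
    refine (Finset.abs_sum_le_sum_abs _ _).trans (le_of_eq ?_)
    exact Finset.sum_congr rfl fun γ _ => by
      rw [abs_mul, abs_of_nonneg (nwarm_nonneg n h0 γ)]
  unfold tv
  rw [Reach_eq]
  calc 1 / 2 * ∑ γ' ∈ Om n, |((push lam2 n)^[t]) (piO lam1 n) γ' - piO lam2 n γ'|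
      ≤ 1 / 2 * ∑ γ' ∈ Om n, ∑ γ ∈ Om n, piL lam1 n γ * |law lam2 n γ t γ' - piL lam2 n γ'| :=
        mul_le_mul_of_nonneg_left (Finset.sum_le_sum hpoint) (by norm_num)
    _ = ∑ γ ∈ Om n, piL lam1 n γ * (1 / 2 * ∑ γ' ∈ Om n, |law lam2 n γ t γ' - piL lam2 n γ'|) := by
        rw [Finset.sum_comm, Finset.mul_sum]
        refine Finset.sum_congr rfl fun γ _ => ?_
        rw [← Finset.mul_sum]
        ring
    _ ≤ ∑ γ ∈ Om n, 3 * piL lam2 n γ *
          (1 / 2 * ∑ γ' ∈ Om n, |law lam2 n γ t γ' - piL lam2 n γ'|) := by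
        refine Finset.sum_le_sum fun γ hγ => ?_
        refine mul_le_mul_of_nonneg_right
          (pi_ratio n (by omega) lam1 lam2 h0 h12 h21 γ hγ) ?_
        have : 0 ≤ ∑ γ' ∈ Om n, |law lam2 n γ t γ' - piL lam2 n γ'| :=
          Finset.sum_nonneg fun _ _ => abs_nonneg _
        linarith
    _ = _ := by
        rw [Finset.mul_sum]
        refine Finset.sum_congr rfl fun γ _ => ?_
        ring

end

end Pool.Agent.H40.SQ
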