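import Mathlib
import Pool.Agent.H40.SQ.Defs
import Pool.Agent.H40.SQ.NWarm

/-!
# NAnn: part (B), the annealed chain

Let `k0` be the exponent of `average_mixing 12`.  `ls = 1/(10^10 n^12)`, `lam_j = min lam (ls (1+1/n^2)^j)`, `J = n^2 (34 + 12 n)`; `(1+1/n^2)^(n^2) ≥ 2` (Bernoulli), so `(1+1/n^2)^J ≥ 2^(34+12n) ≥ 10^10 n^12` and `lam_J = lam`.  `T0 = ⌈n^k0 / (min lam ls)^5⌉ ≥ 1`, `T = (J+1) T0`, `Λ i = lam_{i / T0}`
(natural division; for `i ≥ T` it equals `lam`).  `Λ` is monotone, `0 < Λ ≤ lam`, `Λ (T-1) = lam_J = lam`.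
Let `ν_j = lawS Λ n ((j+1) T0)`, the law after stage `j`; `ν_{-1} = δ_∅`.  `lawS Λ n ((j+1)T0) = (push lam_j n)^[T0] (lawS Λ n (j T0))`.
* Stage 0: `tv(ν_0, piO lam_0) ≤ tv(δ_∅, piO lam_0) ≤ 1/(4n)` (`push_tv`, `push_pi`, `first_step`).
* Stage `j+1`: `tv(ν_{j+1}, piO lam_{j+1}) ≤ tv(ν_j, piO lam_j) + tv(push^[T0] (piO lam_j), piO lam_{j+1}) ≤ tv(ν_j, piO lam_j) + 3 n^(-12)` (`warm_step`, `average_mixing 12`: `n^k0 ≤ lam_{j+1}^5 T0`).
So the final distance is `≤ 1/(4n) + 3 J n^(-12) ≤ 1/n` (`J ≤ 29 n^3`).  `T ≤ 30 n^3 * 2 n^k0 / (min lam ls)^5 ≤ 60 n^(3+k0) 10^50 n^60 / lam^5` (`min lam ls ≥ lam ls`, as both are `≤ 1`), and `60 * 10^50 ≤ 2^173 ≤ n^173`: `k = k0 + 236` works (`lam^k ≤ lam^5`).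
-/

set_option autoImplicit false

namespace Pool.Agent.H40.SQ

noncomputable section

/-- the parameters of the stages -/
private def nnL (lam : ℝ) (n : ℕ) (j : ℕ) : ℝ :=
  min lam (1 / (10 ^ 10 * (n : ℝ) ^ 12) * (1 + 1 / (n : ℝ) ^ 2) ^ j)

private theorem nnL_r (n : ℕ) : (1 : ℝ) ≤ 1 + 1 / (n : ℝ) ^ 2 := by
  have : (0 : ℝ) ≤ 1 / (n : ℝ) ^ 2 := by positivity
  linarith

private theorem nnL_pos {n : ℕ} (hn : 2 ≤ n) {lam : ℝ} (h0 : 0 < lam) (j : ℕ) :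
    0 < nnL lam n j := by
  have hN : (0 : ℝ) < n := by
    have : 0 < n := by omega
    exact_mod_cast this
  exact lt_min h0 (by positivity)

private theorem nnL_le (n : ℕ) (lam : ℝ) (j : ℕ) : nnL lam n j ≤ lam := min_le_left _ _

private theorem nnL_mono (n : ℕ) (lam : ℝ) : Monotone (nnL lam n) := by
  intro i j hij
  unfold nnL
  refine min_le_min le_rfl (mul_le_mul_of_nonneg_left ?_ (by positivity))
  exact pow_le_pow_right₀ (nnL_r n) hij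

private theorem nnL_step (n : ℕ) {lam : ℝ} (h0 : 0 < lam) (j : ℕ) :
    nnL lam n (j + 1) ≤ nnL lam n j * (1 + 1 / (n : ℝ) ^ 2) := by
  unfold nnL
  have hr := nnL_r n
  rw [min_mul_of_nonneg _ _ (by linarith)]
  refine min_le_min ?_ ?_
  · exact le_mul_of_one_le_right h0.le hr
  · rw [pow_succ (1 + 1 / (n : ℝ) ^ 2) j, mul_assoc]

private theorem nnL_ge (n : ℕ) (lam : ℝ) (j : ℕ) :
    min lam (1 / (10 ^ 10 * (n : ℝ) ^ 12)) ≤ nnL lam n j := by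
  unfold nnL
  refine min_le_min le_rfl ?_
  exact le_mul_of_one_le_right (by positivity) (one_le_pow₀ (nnL_r n))

private theorem nnL_last {n : ℕ} (hn : 2 ≤ n) {lam : ℝ} (h1 : lam ≤ 1) :
    nnL lam n (n ^ 2 * (34 + 12 * n)) = lam := by
  have hN : (0 : ℝ) < n := by
    have : 0 < n := by omega
    exact_mod_cast this
  unfold nnL
  apply min_eq_left
  have e1 : (2 : ℝ) ≤ (1 + 1 / (n : ℝ) ^ 2) ^ (n ^ 2) := by
    have h2 := one_add_mul_le_pow (a := 1 / (n : ℝ) ^ 2)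
      (by have : (0 : ℝ) ≤ 1 / (n : ℝ) ^ 2 := by positivity
          linarith) (n ^ 2)
    have h3 : ((n ^ 2 : ℕ) : ℝ) * (1 / (n : ℝ) ^ 2) = 1 := by
      push_cast
      field_simp
    linarith
  have e2 : (10 : ℝ) ^ 10 * (n : ℝ) ^ 12 ≤ (1 + 1 / (n : ℝ) ^ 2) ^ (n ^ 2 * (34 + 12 * n)) := by
    rw [pow_mul]
    have e3 : (2 : ℝ) ^ (34 + 12 * n) ≤ ((1 + 1 / (n : ℝ) ^ 2) ^ (n ^ 2)) ^ (34 + 12 * n) :=
      pow_le_pow_left₀ (by norm_num) e1 _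
    refine le_trans ?_ e3
    rw [pow_add, mul_comm 12 n, pow_mul]
    have e4 : (n : ℝ) ≤ 2 ^ n := by
      have := (Nat.lt_two_pow_self (n := n)).le
      exact_mod_cast this
    exact mul_le_mul (by norm_num) (pow_le_pow_left₀ hN.le e4 12) (by positivity) (by positivity)
  rw [div_mul_eq_mul_div, one_mul, le_div_iff₀ (by positivity)]
  have e5 : lam * (10 ^ 10 * (n : ℝ) ^ 12) ≤ 1 * (10 ^ 10 * (n : ℝ) ^ 12) :=
    mul_le_mul_of_nonneg_right h1 (by positivity)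
  linarith

private theorem nn_tri (n : ℕ) (μ ν ρ : Finset Edge → ℝ) : tv n μ ρ ≤ tv n μ ν + tv n ν ρ := by
  unfold tv
  rw [← mul_add, ← Finset.sum_add_distrib]
  refine mul_le_mul_of_nonneg_left (Finset.sum_le_sum fun γ _ => ?_) (by norm_num)
  exact abs_sub_le _ _ _

private theorem nn_supp_iter (n : ℕ) (lam : ℝ) (μ : Finset Edge → ℝ)
    (hμ : ∀ γ, γ ∉ Om n → μ γ = 0) (t : ℕ) : ∀ γ, γ ∉ Om n → ((push lam n)^[t]) μ γ = 0 := by
  induction t with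
  | zero => exact hμ
  | succ t ih =>
    rw [Function.iterate_succ_apply']
    exact push_supp n lam _ ih

private theorem nn_tv_iter (n : ℕ) (hn : 1 ≤ n) (lam : ℝ) (h0 : 0 ≤ lam) (h1 : lam ≤ 1)
    (μ ν : Finset Edge → ℝ) (hμ : ∀ γ, γ ∉ Om n → μ γ = 0) (hν : ∀ γ, γ ∉ Om n → ν γ = 0)
    (t : ℕ) : tv n (((push lam n)^[t]) μ) (((push lam n)^[t]) ν) ≤ tv n μ ν := by
  induction t with
  | zero => exact le_rfl
  | succ t ih =>
    rw [Function.iterate_succ_apply', Function.iterate_succ_apply']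
    exact (push_tv n hn lam h0 h1 _ _ (nn_supp_iter n lam μ hμ t)
      (nn_supp_iter n lam ν hν t)).trans ih

private theorem nn_piO_supp (n : ℕ) (lam : ℝ) : ∀ γ, γ ∉ Om n → piO lam n γ = 0 := by
  intro γ hγ
  unfold piO
  rw [if_neg hγ]

private theorem nn_pi_iter (n : ℕ) (hn : 1 ≤ n) (lam : ℝ) (h0 : 0 < lam) (h1 : lam ≤ 1) (t : ℕ) :
    ((push lam n)^[t]) (piO lam n) = piO lam n := by
  induction t with
  | zero => rfl
  | succ t ih =>
    rw [Function.iterate_succ_apply', ih]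
    exact push_pi n hn lam h0 h1

private theorem nn_empty (n : ℕ) : (∅ : Finset Edge) ∈ Om n :=
  mem_Om.mpr ⟨Finset.empty_subset _, VC_empty⟩

private theorem nn_law0 (Λ : ℕ → ℝ) (n : ℕ) : ∀ γ, γ ∉ Om n → lawS Λ n 0 γ = 0 := by
  intro γ hγ
  unfold lawS
  rw [if_neg]
  rintro rfl
  exact hγ (nn_empty n)

private theorem nn_law_supp (Λ : ℕ → ℝ) (n : ℕ) (t : ℕ) :
    ∀ γ, γ ∉ Om n → lawS Λ n t γ = 0 := by
  induction t with
  | zero => exact nn_law0 Λ n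
  | succ t ih => exact push_supp n (Λ t) _ ih

private theorem nn_stage (Λ : ℕ → ℝ) (n T0 j : ℕ) (l : ℝ)
    (h : ∀ i, i < T0 → Λ (j * T0 + i) = l) (i : ℕ) (hi : i ≤ T0) :
    lawS Λ n (j * T0 + i) = ((push l n)^[i]) (lawS Λ n (j * T0)) := by
  induction i with
  | zero => rfl
  | succ i ih =>
    rw [Function.iterate_succ_apply', ← ih (by omega), ← h i (by omega)]
    rfl

private theorem nn_main {n : ℕ} (hn : 2 ≤ n) {lam : ℝ} (h0 : 0 < lam) (h1 : lam ≤ 1 / 10 ^ 12)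
    {k0 : ℕ} (havg : ∀ lam : ℝ, 0 < lam → lam ≤ 1 / 10 ^ 12 → ∀ t : ℕ,
      (n : ℝ) ^ k0 ≤ lam ^ 5 * t →
      ∑ γ ∈ Reach n, piL lam n γ * tv n (law lam n γ t) (piL lam n) ≤ 1 / (n : ℝ) ^ 12)
    {T0 : ℕ} (hT0 : 1 ≤ T0)
    (hT : (n : ℝ) ^ k0 ≤ (min lam (1 / (10 ^ 10 * (n : ℝ) ^ 12))) ^ 5 * T0) (j : ℕ) :
    tv n (lawS (fun i => nnL lam n (i / T0)) n ((j + 1) * T0)) (piO (nnL lam n j) n) ≤
      1 / (4 * (n : ℝ)) + 3 * j * (1 / (n : ℝ) ^ 12) := by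
  have hN : (0 : ℝ) < n := by
    have : 0 < n := by omega
    exact_mod_cast this
  have hm0 : 0 < min lam (1 / (10 ^ 10 * (n : ℝ) ^ 12)) := lt_min h0 (by positivity)
  have hl1 : ∀ j, nnL lam n j ≤ 1 := fun j =>
    (nnL_le n lam j).trans (h1.trans (by norm_num))
  have hst : ∀ j, lawS (fun i => nnL lam n (i / T0)) n ((j + 1) * T0) =
      ((push (nnL lam n j) n)^[T0]) (lawS (fun i => nnL lam n (i / T0)) n (j * T0)) := by
    intro j
    rw [← nn_stage (fun i => nnL lam n (i / T0)) n T0 j (nnL lam n j) ?_ T0 le_rfl]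
    · congr 1
      ring
    · intro i hi
      congr 1
      rw [Nat.mul_comm, Nat.mul_add_div (by omega), Nat.div_eq_of_lt hi, Nat.add_zero]
  induction j with
  | zero =>
    rw [hst 0, zero_mul, ← nn_pi_iter n (by omega) (nnL lam n 0) (nnL_pos hn h0 0) (hl1 0) T0]
    refine (nn_tv_iter n (by omega) _ (nnL_pos hn h0 0).le (hl1 0) _ _ (nn_law0 _ n)
      (nn_piO_supp n _) T0).trans ?_
    have h2 := first_step n hn (nnL lam n 0) (nnL_pos hn h0 0)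
      ((min_le_right _ _).trans (le_of_eq (by rw [pow_zero, mul_one])))
    have h3 : lawS (fun i => nnL lam n (i / T0)) n 0 = fun γ => if γ = ∅ then 1 else 0 := rfl
    rw [h3, Nat.cast_zero, mul_zero, zero_mul, add_zero]
    convert h2
  | succ j ih =>
    rw [hst (j + 1)]
    refine (nn_tri n _ (((push (nnL lam n (j + 1)) n)^[T0]) (piO (nnL lam n j) n)) _).trans ?_
    have h2 := nn_tv_iter n (by omega) (nnL lam n (j + 1)) (nnL_pos hn h0 _).le (hl1 _)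
      (lawS (fun i => nnL lam n (i / T0)) n ((j + 1) * T0)) (piO (nnL lam n j) n)
      (nn_law_supp _ n _) (nn_piO_supp n _) T0
    have h3 := warm_step n hn (nnL lam n j) (nnL lam n (j + 1)) (nnL_pos hn h0 j)
      (nnL_mono n lam (Nat.le_succ j)) (hl1 _) (nnL_step n h0 j) T0
    have h4 := havg (nnL lam n (j + 1)) (nnL_pos hn h0 _) ((nnL_le n lam _).trans h1) T0
      (hT.trans (mul_le_mul_of_nonneg_right
        (pow_le_pow_left₀ hm0.le (nnL_ge n lam (j + 1)) 5) (Nat.cast_nonneg T0)))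
    push_cast
    linarith

theorem annealed : ∃ k : ℕ, ∀ n : ℕ, 2 ≤ n → ∀ lam : ℝ, 0 < lam → lam ≤ 1 / 10 ^ 12 →
    ∃ (Λ : ℕ → ℝ) (T : ℕ), Monotone Λ ∧ (∀ i, 0 < Λ i ∧ Λ i ≤ lam) ∧ 1 ≤ T ∧ Λ (T - 1) = lam ∧
      lam ^ k * (T : ℝ) ≤ (n : ℝ) ^ k ∧ tv n (lawS Λ n T) (piL lam n) ≤ 1 / (n : ℝ) := by
  obtain ⟨k0, havg⟩ := average_mixing 12
  refine ⟨k0 + 236, fun n hn lam h0 h1 => ?_⟩
  have hN : (0 : ℝ) < n := by
    have : 0 < n := by omega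
    exact_mod_cast this
  have hN2 : (2 : ℝ) ≤ n := by exact_mod_cast hn
  have hlam1 : lam ≤ 1 := h1.trans (by norm_num)
  obtain ⟨ls, hls⟩ : ∃ ls : ℝ, ls = 1 / (10 ^ 10 * (n : ℝ) ^ 12) := ⟨_, rfl⟩
  have hls0 : 0 < ls := by rw [hls]; positivity
  have hls1 : ls ≤ 1 := by
    rw [hls, div_le_one (by positivity)]
    have : (1 : ℝ) ≤ (n : ℝ) ^ 12 := one_le_pow₀ (by linarith)
    nlinarith
  obtain ⟨m, hm⟩ : ∃ m : ℝ, m = min lam ls := ⟨_, rfl⟩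
  have hm0 : 0 < m := by rw [hm]; exact lt_min h0 hls0
  have hm1 : m ≤ 1 := by rw [hm]; exact (min_le_left _ _).trans hlam1
  have hmg : lam * ls ≤ m := by
    rw [hm]
    refine le_min ?_ ?_
    · exact mul_le_of_le_one_right h0.le hls1
    · exact mul_le_of_le_one_left hls0.le hlam1
  obtain ⟨T0, hT0⟩ : ∃ T0 : ℕ, T0 = ⌈(n : ℝ) ^ k0 / m ^ 5⌉₊ := ⟨_, rfl⟩
  have hq1 : (1 : ℝ) ≤ (n : ℝ) ^ k0 / m ^ 5 := by
    rw [le_div_iff₀ (by positivity), one_mul]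
    exact (pow_le_one₀ hm0.le hm1).trans (one_le_pow₀ (by linarith))
  have hT1 : 1 ≤ T0 := by
    rw [hT0]
    exact Nat.one_le_ceil_iff.2 (by linarith)
  have hT2 : (n : ℝ) ^ k0 / m ^ 5 ≤ T0 := by
    rw [hT0]
    exact Nat.le_ceil _
  have hT3 : (T0 : ℝ) ≤ 2 * ((n : ℝ) ^ k0 / m ^ 5) := by
    have := Nat.ceil_lt_add_one (by linarith : (0 : ℝ) ≤ (n : ℝ) ^ k0 / m ^ 5)
    rw [← hT0] at this
    linarith
  obtain ⟨J, hJ⟩ : ∃ J : ℕ, J = n ^ 2 * (34 + 12 * n) := ⟨_, rfl⟩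
  have hJr : (J : ℝ) = (n : ℝ) ^ 2 * (34 + 12 * n) := by
    rw [hJ]
    push_cast
    ring
  have hJ1 : (J : ℝ) ≤ 29 * (n : ℝ) ^ 3 := by
    rw [hJr]
    have : (n : ℝ) ^ 2 * (34 + 12 * n) ≤ (n : ℝ) ^ 2 * (29 * n) :=
      mul_le_mul_of_nonneg_left (by linarith) (by positivity)
    nlinarith
  refine ⟨fun i => nnL lam n (i / T0), (J + 1) * T0, ?_, ?_, ?_, ?_, ?_, ?_⟩
  · intro i j hij
    exact nnL_mono n lam (Nat.div_le_div_right hij)
  · intro i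
    exact ⟨nnL_pos hn h0 _, nnL_le n lam _⟩
  · exact Nat.one_le_iff_ne_zero.2 (Nat.mul_ne_zero (by omega) (by omega))
  · have e1 : ((J + 1) * T0 - 1) / T0 = J := by
      have e2 : (J + 1) * T0 - 1 = T0 * J + (T0 - 1) := by
        have : (J + 1) * T0 = T0 * J + T0 := by ring
        omega
      rw [e2, Nat.mul_add_div (by omega), Nat.div_eq_of_lt (by omega), Nat.add_zero]
    simp only
    rw [e1, hJ]
    exact nnL_last hn hlam1
  · have e1 : ((J : ℝ) + 1) ≤ 30 * (n : ℝ) ^ 3 := by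
      have : (1 : ℝ) ≤ (n : ℝ) ^ 3 := one_le_pow₀ (by linarith)
      linarith
    have e2 : (n : ℝ) ^ k0 / m ^ 5 ≤ (n : ℝ) ^ k0 * (10 ^ 50 * (n : ℝ) ^ 60) / lam ^ 5 := by
      rw [div_le_div_iff₀ (by positivity) (by positivity)]
      have e3 : lam ^ 5 ≤ 10 ^ 50 * (n : ℝ) ^ 60 * m ^ 5 := by
        have e4 : (lam * ls) ^ 5 ≤ m ^ 5 := pow_le_pow_left₀ (by positivity) hmg 5
        have e5 : 10 ^ 50 * (n : ℝ) ^ 60 * (lam * ls) ^ 5 = lam ^ 5 := by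
          rw [hls]
          field_simp
        calc lam ^ 5 = 10 ^ 50 * (n : ℝ) ^ 60 * (lam * ls) ^ 5 := e5.symm
          _ ≤ _ := mul_le_mul_of_nonneg_left e4 (by positivity)
      calc (n : ℝ) ^ k0 * lam ^ 5 ≤ (n : ℝ) ^ k0 * (10 ^ 50 * (n : ℝ) ^ 60 * m ^ 5) :=
            mul_le_mul_of_nonneg_left e3 (by positivity)
        _ = _ := by ring
    have e3 : (((J + 1) * T0 : ℕ) : ℝ) ≤
        30 * (n : ℝ) ^ 3 * (2 * ((n : ℝ) ^ k0 * (10 ^ 50 * (n : ℝ) ^ 60) / lam ^ 5)) := by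
      push_cast
      exact mul_le_mul e1 (hT3.trans (by linarith)) (Nat.cast_nonneg _) (by positivity)
    have e4 : lam ^ (k0 + 236) ≤ lam ^ 5 := pow_le_pow_of_le_one h0.le hlam1 (by omega)
    calc lam ^ (k0 + 236) * (((J + 1) * T0 : ℕ) : ℝ)
        ≤ lam ^ 5 * (30 * (n : ℝ) ^ 3 *
          (2 * ((n : ℝ) ^ k0 * (10 ^ 50 * (n : ℝ) ^ 60) / lam ^ 5))) :=
          mul_le_mul e4 e3 (Nat.cast_nonneg _) (by positivity)
      _ = 60 * 10 ^ 50 * (n : ℝ) ^ (k0 + 63) := by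
          field_simp
          ring
      _ ≤ (n : ℝ) ^ 173 * (n : ℝ) ^ (k0 + 63) := by
          refine mul_le_mul_of_nonneg_right ?_ (by positivity)
          calc (60 : ℝ) * 10 ^ 50 ≤ 2 ^ 173 := by norm_num
            _ ≤ (n : ℝ) ^ 173 := pow_le_pow_left₀ (by norm_num) hN2 173
      _ = (n : ℝ) ^ (k0 + 236) := by
          rw [← pow_add]
          congr 1
          omega
  · have e1 := nn_main hn h0 h1 (havg n hn) hT1 (by
      rw [← hls, ← hm]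
      rw [div_le_iff₀ (by positivity)] at hT2
      linarith) J
    have e2 : nnL lam n J = lam := by
      rw [hJ]
      exact nnL_last hn hlam1
    rw [e2] at e1
    have e3 : tv n (lawS (fun i => nnL lam n (i / T0)) n ((J + 1) * T0)) (piL lam n) =
        tv n (lawS (fun i => nnL lam n (i / T0)) n ((J + 1) * T0)) (piO lam n) := by
      unfold tv
      congr 1
      refine Finset.sum_congr rfl fun γ hγ => ?_
      rw [Reach_eq] at hγ
      unfold piO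
      rw [if_pos hγ]
    rw [e3]
    refine e1.trans ?_
    have e4 : 3 * (J : ℝ) * (1 / (n : ℝ) ^ 12) ≤ 3 / (4 * (n : ℝ)) := by
      have e5 : (116 : ℝ) ≤ (n : ℝ) ^ 8 :=
        (by norm_num : (116 : ℝ) ≤ 2 ^ 8).trans (pow_le_pow_left₀ (by norm_num) hN2 8)
      rw [mul_one_div, div_le_div_iff₀ (by positivity) (by positivity)]
      calc 3 * (J : ℝ) * (4 * n) ≤ 3 * (29 * (n : ℝ) ^ 3) * (4 * n) := by gcongr
        _ = 3 * ((n : ℝ) ^ 4 * 116) := by ring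
        _ ≤ 3 * ((n : ℝ) ^ 4 * (n : ℝ) ^ 8) := by gcongr
        _ = 3 * (n : ℝ) ^ 12 := by ring
    have e5 : 1 / (4 * (n : ℝ)) + 3 / (4 * (n : ℝ)) = 1 / n := by
      field_simp
      norm_num
    linarith

end

end Pool.Agent.H40.SQ
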